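import Mathlib
import Pool.Agent.Lib.MP_d9bc60_nt.Average

/-!
Definitions for the sharp threshold theorem for almost all `f = x² + b x + c`.
No `sorry` in this file.
-/

set_option autoImplicit false

namespace Pool.Agent.Lib.MP_d9bc60_nt.TH

open Finset

/-- `log n` for `n` prime, `0` otherwise -/
noncomputable def lam (n : ℕ) : ℝ := if n.Prime then Real.log n else 0

/-- `∑ lam n` over `u < n ≤ v`, `n = α` in `ZMod q` -/
noncomputable def tz (q u v : ℕ) (α : ZMod q) : ℝ :=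
  ∑ n ∈ (Finset.Ioc u v).filter (fun n : ℕ => (n : ZMod q) = α), lam n

/-- the range of the pairs `(B, X)` -/
def Rng (K : ℝ) (B X : ℕ) : Prop :=
  K * B * Real.log B * Real.log (Real.log B) ≤ X ∧ (X : ℝ) ≤ 4 * (B : ℝ) ^ 2

/-- the primes `p₁` are taken in `(P, 2P]`, `P = PX δ' B X` -/
noncomputable def PX (δ' : ℝ) (B X : ℕ) : ℕ := ⌊δ' * X / B⌋₊

/-- the length of the cells `(kH, (k+1)H]`, `H = HX ρ X` -/
noncomputable def HX (ρ : ℝ) (X : ℕ) : ℕ := ⌊ρ * X⌋₊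

/-- weighted number of representations of `m` as `p(p+b) + p'`, `P < p ≤ 2P` -/
noncomputable def RR (P b m : ℕ) : ℝ :=
  ∑ p ∈ Finset.Ioc P (2 * P), lam p * lam (m - p * (p + b))

/-- the `b ≤ B` in the class `β` modulo `W` -/
def bS (W β B : ℕ) : Finset ℕ := (Finset.Icc 1 B).filter (fun b => b ≡ β [MOD W])

/-- the `m ∈ (δX, X]` in the class `μ` modulo `W` -/
noncomputable def mS (W μ : ℕ) (δ : ℝ) (X : ℕ) : Finset ℕ :=
  (Finset.Ioc ⌊δ * X⌋₊ X).filter (fun m => m ≡ μ [MOD W])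

/-- pair correlation of `p` and `q` -/
noncomputable def PC (W β μ : ℕ) (δ : ℝ) (B X p q : ℕ) : ℝ :=
  ∑ b ∈ bS W β B, ∑ m ∈ mS W μ δ X, lam (m - p * (p + b)) * lam (m - q * (q + b))

/-- `∑_{ζ primitive q-th root of unity} |∑_{u < n ≤ v} lam n ζ^n|²` -/
noncomputable def TQ (u v q : ℕ) : ℝ :=
  ∑ ζ ∈ primitiveRoots q ℂ, ‖∑ n ∈ Finset.Ioc u v, (lam n : ℂ) * ζ ^ n‖ ^ 2

/-- variance of the primes of `(u, v]` in the classes modulo `D`, relative to the classes modulo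
`D₀` (for `D₀ ∣ D`) -/
noncomputable def VV (u v D D₀ : ℕ) : ℝ :=
  ∑ α ∈ Finset.range D, (tz D u v (α : ZMod D)) ^ 2
    - (D₀ : ℝ) / D * ∑ α ∈ Finset.range D₀, (tz D₀ u v (α : ZMod D₀)) ^ 2

/-- the admissible classes of `p₁` modulo `W` -/
def TS (W β μ : ℕ) : Finset ℕ :=
  (Finset.range W).filter
    (fun t => t.Coprime W ∧ Int.gcd ((μ : ℤ) - (t : ℤ) * ((t : ℤ) + β)) (W : ℤ) = 1)

/-- `∏_{ℓ ∣ d, ℓ > w} ℓ/(ℓ-1)` -/
noncomputable def hw (w d : ℕ) : ℝ :=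
  ∏ l ∈ d.primeFactors.filter (fun l => w < l), ((l : ℝ) / ((l : ℝ) - 1))

/-- number of representations with `p₁ ∈ (P, 2P]` -/
def reps (P b m : ℕ) : ℕ :=
  ((Finset.Ioc P (2 * P)).filter (fun p => p.Prime ∧ (m - p * (p + b)).Prime)).card

end Pool.Agent.Lib.MP_d9bc60_nt.TH
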