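import Mathlib

/-! Row W1 (about 130 lines): the Fejér kernel. -/

set_option autoImplicit false

namespace Pool.Agent.Lib.MP_d9bc60_nt.TH

open MeasureTheory Filter Topology Set

/-- Fejér kernel `2(1 - cos w)/w² = (sin (w/2)/(w/2))²`. -/
noncomputable def fk (w : ℝ) : ℝ := (Real.sinc (w / 2)) ^ 2

theorem fk_nonneg (w : ℝ) : 0 ≤ fk w := sq_nonneg _

/-- `Real.abs_sinc_le_one`. -/
theorem fk_le_one (w : ℝ) : fk w ≤ 1 := by
  unfold fk
  rw [← sq_abs]
  have h := Real.abs_sinc_le_one (w / 2)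
  have h0 := abs_nonneg (Real.sinc (w / 2))
  nlinarith

/-- `Real.sinc_of_ne_zero`, `cos w = 1 - 2 sin²(w/2)`. -/
theorem fk_eq {w : ℝ} (hw : w ≠ 0) : fk w = 2 * (1 - Real.cos w) / w ^ 2 := by
  unfold fk
  rw [Real.sinc_of_ne_zero (by positivity)]
  have h : Real.cos w = 1 - 2 * Real.sin (w / 2) ^ 2 := by
    have h1 := Real.cos_sq_add_sin_sq (w / 2)
    have h2 : Real.cos w = 2 * Real.cos (w / 2) ^ 2 - 1 := by
      rw [← Real.cos_two_mul]; ring_nf
    rw [h2]; linarith
  rw [h]
  field_simp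
  ring

theorem fk_mul_sq_le (w : ℝ) : fk w * w ^ 2 ≤ 4 := by
  rcases eq_or_ne w 0 with rfl | hw
  · norm_num
  · rw [fk_eq hw, div_mul_cancel₀ _ (by positivity)]
    have := Real.neg_one_le_cos w
    linarith

theorem continuous_fk : Continuous fk := by
  unfold fk
  exact (Real.continuous_sinc.comp (continuous_id.div_const 2)).pow 2

/-- `fk w ≤ 5/(1 + w²)` (`integrable_inv_one_add_sq`). -/
theorem integrable_fk : Integrable fk := by
  refine Integrable.mono' (integrable_inv_one_add_sq.const_mul 5)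
    continuous_fk.aestronglyMeasurable (Eventually.of_forall fun w => ?_)
  rw [Real.norm_of_nonneg (fk_nonneg w)]
  have h1 := fk_le_one w
  have h2 := fk_mul_sq_le w
  have h3 : 0 < 1 + w ^ 2 := by positivity
  rw [← div_eq_mul_inv, le_div_iff₀ h3]
  nlinarith

/-- `fk` is continuous, nonnegative and `fk 0 = 1` (`Continuous.integral_pos_of_hasCompactSupport_nonneg_nonzero`
does not apply; use `integral_pos_iff_support_of_nonneg` or `setIntegral` over a small interval). -/
theorem integral_fk_pos : 0 < ∫ w, fk w := by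
  rw [integral_pos_iff_support_of_nonneg (fun w => fk_nonneg w) integrable_fk]
  refine IsOpen.measure_pos _ (continuous_fk.isOpen_support) ⟨0, ?_⟩
  rw [Function.mem_support]
  unfold fk
  simp [Real.sinc_zero]

/-- Scaling (`Measure.integral_comp_mul_left`, `integral_sub_left_eq_self`). -/
theorem integral_fk_scale {l : ℝ} (hl : 0 < l) (u : ℝ) :
    ∫ v, l * fk (l * (u - v)) = ∫ w, fk w := by
  rw [integral_sub_left_eq_self (fun x => l * fk (l * x)) volume u, integral_const_mul,
    Measure.integral_comp_mul_left fk l, abs_of_pos (inv_pos.mpr hl), smul_eq_mul, ← mul_assoc,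
    mul_inv_cancel₀ hl.ne', one_mul]

theorem integrable_fk_scale {l : ℝ} (hl : 0 < l) (u : ℝ) :
    Integrable fun v => l * fk (l * (u - v)) := by
  exact ((integrable_fk.comp_mul_left' hl.ne').comp_sub_left u).const_mul l

theorem w1_half {l δ : ℝ} (hl : 0 < l) (hδ : 0 < δ) :
    ∫ w in Ioi δ, l * fk (l * w) ≤ 4 / (l * δ) := by
  have hint : IntegrableOn (fun w : ℝ => 4 / l * w ^ (-2 : ℝ)) (Ioi δ) :=
    (integrableOn_Ioi_rpow_of_lt (by norm_num) hδ).const_mul _
  have hfk : IntegrableOn (fun w : ℝ => l * fk (l * w)) (Ioi δ) :=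
    ((integrable_fk.comp_mul_left' hl.ne').const_mul l).integrableOn
  calc ∫ w in Ioi δ, l * fk (l * w) ≤ ∫ w in Ioi δ, 4 / l * w ^ (-2 : ℝ) := by
        refine setIntegral_mono_on hfk hint measurableSet_Ioi fun w hw => ?_
        have hw0 : 0 < w := lt_trans hδ hw
        have h := fk_mul_sq_le (l * w)
        rw [Real.rpow_neg hw0.le, show (2 : ℝ) = ((2 : ℕ) : ℝ) by norm_num, Real.rpow_natCast,
          ← div_eq_mul_inv, le_div_iff₀ (by positivity), le_div_iff₀ hl]
        calc l * fk (l * w) * w ^ 2 * l = fk (l * w) * (l * w) ^ 2 := by ring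
          _ ≤ 4 := h
    _ = 4 / (l * δ) := by
        rw [integral_const_mul, integral_Ioi_rpow_of_lt (by norm_num) hδ]
        rw [show (-2 : ℝ) + 1 = -1 by norm_num, Real.rpow_neg_one]
        field_simp

theorem w1_even (w : ℝ) : fk (-w) = fk w := by
  unfold fk
  rw [neg_div, Real.sinc_neg]

/-- Tail bound: for `|v - u| > δ` one has `l fk (l (u-v)) ≤ 4/(l (u-v)²)`, and
`∫_{|v-u|>δ} 4/(l (u-v)²) dv = 8/(l δ)`. -/
theorem integral_fk_tail_le {l δ : ℝ} (hl : 0 < l) (hδ : 0 < δ) (u : ℝ) :
    ∫ v in {v : ℝ | δ < |u - v|}, l * fk (l * (u - v)) ≤ 8 / (l * δ) := by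
  have hmeas : MeasurableSet {w : ℝ | δ < |w|} :=
    measurableSet_lt measurable_const measurable_id.abs
  have hmeas' : MeasurableSet {v : ℝ | δ < |u - v|} :=
    measurableSet_lt measurable_const (measurable_const.sub measurable_id).abs
  have h1 : ∫ v in {v : ℝ | δ < |u - v|}, l * fk (l * (u - v)) =
      ∫ w in {w : ℝ | δ < |w|}, l * fk (l * w) := by
    rw [← integral_indicator hmeas', ← integral_indicator hmeas,
      ← integral_sub_left_eq_self (fun w => indicator {w : ℝ | δ < |w|}
        (fun w => l * fk (l * w)) w) volume u]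
    rfl
  have hsplit : {w : ℝ | δ < |w|} = Ioi δ ∪ Iio (-δ) := by
    ext w
    simp only [mem_ofPred_eq, mem_union, mem_Ioi, mem_Iio, lt_abs]
    constructor
    · rintro (h | h)
      · exact Or.inl h
      · exact Or.inr (by linarith)
    · rintro (h | h)
      · exact Or.inl h
      · exact Or.inr (by linarith)
  have hI : Integrable (fun w : ℝ => l * fk (l * w)) :=
    (integrable_fk.comp_mul_left' hl.ne').const_mul l
  have hdisj : Disjoint (Ioi δ) (Iio (-δ)) := by
    rw [Set.disjoint_left]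
    intro x hx hx'
    simp only [mem_Ioi, mem_Iio] at hx hx'
    linarith
  rw [h1, hsplit, setIntegral_union hdisj measurableSet_Iio hI.integrableOn hI.integrableOn]
  have h2 : ∫ w in Iio (-δ), l * fk (l * w) = ∫ w in Ioi δ, l * fk (l * w) := by
    have h3 := integral_comp_neg_Ioi (-(-δ)) (fun w => l * fk (l * w))
    rw [neg_neg] at h3
    rw [← integral_Iic_eq_integral_Iio, ← h3]
    refine setIntegral_congr_fun measurableSet_Ioi fun w _ => ?_
    show l * fk (l * -w) = l * fk (l * w)
    rw [mul_neg, w1_even]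
  rw [h2]
  have h4 := w1_half hl hδ
  calc _ ≤ 4 / (l * δ) + 4 / (l * δ) := add_le_add h4 h4
    _ = 8 / (l * δ) := by ring

end Pool.Agent.Lib.MP_d9bc60_nt.TH
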