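import Mathlib
import Pool.Agent.Lib.MP_d9bc60_nt.TH.W1Kernel

/-! Row W2 (about 100 lines): the Fourier transform of the triangle function. -/

set_option autoImplicit false

namespace Pool.Agent.Lib.MP_d9bc60_nt.TH

open MeasureTheory Filter Topology Set

lemma w2_hasDeriv_exp (x τ : ℝ) :
    HasDerivAt (fun τ : ℝ => Complex.exp (Complex.I * τ * x))
      (Complex.exp (Complex.I * τ * x) * (Complex.I * x)) τ := by
  have h1 : HasDerivAt (fun τ : ℝ => Complex.I * (τ : ℂ) * (x : ℂ)) (Complex.I * x) τ := by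
    have h0 : HasDerivAt (fun τ : ℝ => (τ : ℂ)) 1 τ := (hasDerivAt_id τ).ofReal_comp
    have := (h0.const_mul Complex.I).mul_const (x : ℂ)
    simpa using this
  exact h1.cexp

lemma w2_continuous {l : ℝ} (x : ℝ) :
    Continuous fun τ : ℝ => ((1 - |τ| / l : ℝ) : ℂ) * Complex.exp (Complex.I * τ * x) := by
  have h1 : Continuous fun τ : ℝ => 1 - |τ| / l := by fun_prop
  have h2 : Continuous fun τ : ℝ => Complex.exp (Complex.I * τ * x) := by fun_prop
  exact (Complex.continuous_ofReal.comp h1).mul h2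

/-- `∫_{-l}^{l} (1 - |τ|/l) e^{iτx} dτ = l · fk (l x)`.  The imaginary part vanishes (odd function), the real part is
`2 ∫_0^l (1 - τ/l) cos (τ x) dτ`, for `x ≠ 0` the function `(1 - τ/l) sin(τx)/x - cos(τx)/(l x²)` is an antiderivative, so
the value is `2 (1 - cos (l x))/(l x²)` (`fk_eq`); for `x = 0` the value is `l`. -/
theorem integral_triangle {l : ℝ} (hl : 0 < l) (x : ℝ) :
    ∫ τ in (-l)..l, ((1 - |τ| / l : ℝ) : ℂ) * Complex.exp (Complex.I * τ * x) =
      ((l * fk (l * x) : ℝ) : ℂ) := by
  have hcont := w2_continuous (l := l) x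
  have hint : ∀ a b : ℝ, IntervalIntegrable
      (fun τ : ℝ => ((1 - |τ| / l : ℝ) : ℂ) * Complex.exp (Complex.I * τ * x)) volume a b :=
    fun a b => hcont.intervalIntegrable a b
  have hlC : (l : ℂ) ≠ 0 := by exact_mod_cast hl.ne'
  rw [← intervalIntegral.integral_add_adjacent_intervals (hint (-l) 0) (hint 0 l)]
  by_cases hx : x = 0
  · subst hx
    have hA : ∫ τ in (-l)..0, ((1 - |τ| / l : ℝ) : ℂ) * Complex.exp (Complex.I * τ * (0 : ℝ)) = (l : ℂ) / 2 := by
      rw [intervalIntegral.integral_eq_sub_of_hasDerivAt (f := fun τ : ℝ => ((τ + τ ^ 2 / (2 * l) : ℝ) : ℂ)) _ (hint (-l) 0)]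
      · push_cast; field_simp; ring
      · intro τ hτ
        rw [uIcc_of_le (by linarith)] at hτ
        have h1 : HasDerivAt (fun τ : ℝ => τ + τ ^ 2 / (2 * l)) (1 + (2 * τ) / (2 * l)) τ := by
          have h := (hasDerivAt_id τ).add (((hasDerivAt_pow 2 τ)).div_const (2 * l))
          refine HasDerivAt.congr_deriv (f := fun τ : ℝ => τ + τ ^ 2 / (2 * l)) h ?_
          norm_num
        refine HasDerivAt.congr_deriv h1.ofReal_comp ?_
        rw [abs_of_nonpos hτ.2]
        push_cast
        rw [mul_zero, Complex.exp_zero, mul_one]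
        field_simp
        try ring
    have hB : ∫ τ in (0:ℝ)..l, ((1 - |τ| / l : ℝ) : ℂ) * Complex.exp (Complex.I * τ * (0 : ℝ)) = (l : ℂ) / 2 := by
      rw [intervalIntegral.integral_eq_sub_of_hasDerivAt (f := fun τ : ℝ => ((τ - τ ^ 2 / (2 * l) : ℝ) : ℂ)) _ (hint 0 l)]
      · push_cast; field_simp; ring
      · intro τ hτ
        rw [uIcc_of_le (by linarith)] at hτ
        have h1 : HasDerivAt (fun τ : ℝ => τ - τ ^ 2 / (2 * l)) (1 - (2 * τ) / (2 * l)) τ := by
          have h := (hasDerivAt_id τ).sub (((hasDerivAt_pow 2 τ)).div_const (2 * l))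
          refine HasDerivAt.congr_deriv (f := fun τ : ℝ => τ - τ ^ 2 / (2 * l)) h ?_
          norm_num
        refine HasDerivAt.congr_deriv h1.ofReal_comp ?_
        rw [abs_of_nonneg hτ.1]
        push_cast
        rw [mul_zero, Complex.exp_zero, mul_one]
        field_simp
        try ring
    rw [hA, hB]
    simp [fk]
  · have hxC : (x : ℂ) ≠ 0 := by exact_mod_cast hx
    have hIx : Complex.I * (x : ℂ) ≠ 0 := mul_ne_zero Complex.I_ne_zero hxC
    have hA : ∫ τ in (-l)..0, ((1 - |τ| / l : ℝ) : ℂ) * Complex.exp (Complex.I * τ * x)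
        = 1 / (Complex.I * x) - 1 / (l * (Complex.I * x) ^ 2)
          + Complex.exp (Complex.I * (-l : ℝ) * x) / (l * (Complex.I * x) ^ 2) := by
      rw [intervalIntegral.integral_eq_sub_of_hasDerivAt
        (f := fun τ : ℝ => (1 + (τ : ℂ) / l) * Complex.exp (Complex.I * τ * x) / (Complex.I * x)
          - Complex.exp (Complex.I * τ * x) / (l * (Complex.I * x) ^ 2)) _ (hint (-l) 0)]
      · push_cast
        have : (1 + -(l : ℂ) / l) = 0 := by field_simp; ring
        rw [this]
        simp
      · intro τ hτ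
        rw [uIcc_of_le (by linarith)] at hτ
        have h0 : HasDerivAt (fun τ : ℝ => (τ : ℂ)) 1 τ := (hasDerivAt_id τ).ofReal_comp
        have h1 := ((((h0.div_const (l : ℂ)).const_add 1).mul (w2_hasDeriv_exp x τ)).div_const (Complex.I * x)).sub
          ((w2_hasDeriv_exp x τ).div_const (l * (Complex.I * x) ^ 2))
        refine HasDerivAt.congr_deriv h1 ?_
        rw [abs_of_nonpos hτ.2]
        push_cast
        field_simp
        try ring
    have hB : ∫ τ in (0:ℝ)..l, ((1 - |τ| / l : ℝ) : ℂ) * Complex.exp (Complex.I * τ * x)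
        = Complex.exp (Complex.I * l * x) / (l * (Complex.I * x) ^ 2)
          - 1 / (Complex.I * x) - 1 / (l * (Complex.I * x) ^ 2) := by
      rw [intervalIntegral.integral_eq_sub_of_hasDerivAt
        (f := fun τ : ℝ => (1 - (τ : ℂ) / l) * Complex.exp (Complex.I * τ * x) / (Complex.I * x)
          + Complex.exp (Complex.I * τ * x) / (l * (Complex.I * x) ^ 2)) _ (hint 0 l)]
      · push_cast
        have : (1 - (l : ℂ) / l) = 0 := by field_simp; ring
        rw [this]
        simp
        ring
      · intro τ hτ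
        rw [uIcc_of_le (by linarith)] at hτ
        have h0 : HasDerivAt (fun τ : ℝ => (τ : ℂ)) 1 τ := (hasDerivAt_id τ).ofReal_comp
        have h1 := ((((h0.div_const (l : ℂ)).const_sub 1).mul (w2_hasDeriv_exp x τ)).div_const (Complex.I * x)).add
          ((w2_hasDeriv_exp x τ).div_const (l * (Complex.I * x) ^ 2))
        refine HasDerivAt.congr_deriv h1 ?_
        rw [abs_of_nonneg hτ.1]
        push_cast
        field_simp
        try ring
    rw [hA, hB]
    have hlx : l * x ≠ 0 := mul_ne_zero hl.ne' hx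
    rw [fk_eq hlx]
    have hsum : Complex.exp (Complex.I * l * x) + Complex.exp (Complex.I * (-l : ℝ) * x)
        = 2 * (Real.cos (l * x) : ℝ) := by
      rw [Complex.ofReal_cos, Complex.two_cos]
      push_cast
      congr 1 <;> congr 1 <;> ring
    have hI2 : (Complex.I * (x : ℂ)) ^ 2 = - (x : ℂ) ^ 2 := by
      rw [mul_pow, Complex.I_sq]; ring
    have e : 1 / (Complex.I * x) - 1 / (l * (Complex.I * x) ^ 2)
          + Complex.exp (Complex.I * (-l : ℝ) * x) / (l * (Complex.I * x) ^ 2)
        + (Complex.exp (Complex.I * l * x) / (l * (Complex.I * x) ^ 2)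
          - 1 / (Complex.I * x) - 1 / (l * (Complex.I * x) ^ 2))
        = ((Complex.exp (Complex.I * l * x) + Complex.exp (Complex.I * (-l : ℝ) * x)) - 2)
            / (l * (Complex.I * x) ^ 2) := by
      field_simp
      ring
    rw [e, hsum, hI2]
    push_cast
    field_simp
    ring

end Pool.Agent.Lib.MP_d9bc60_nt.TH
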