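import Mathlib
import Pool.Agent.Lib.MP_d9bc60_nt.TH.W2Fourier

/-! Row W3 (about 150 lines): Fubini. -/

set_option autoImplicit false

namespace Pool.Agent.Lib.MP_d9bc60_nt.TH

open MeasureTheory Filter Topology Set

/-- Fubini for the integrable function
`(τ, v) ↦ (1-|τ|/l) e^{iτu} g(v) e^{-(η+iτ)v}` on `[-l,l] × (0,∞)` (bounded by `C e^{-ηv}`), then `integral_triangle` with `x = u - v`. -/
theorem fejer_fubini {g : ℝ → ℝ} {C : ℝ} (hg : Measurable g) (hC : ∀ v, |g v| ≤ C) {l η : ℝ}
    (hl : 0 < l) (hη : 0 < η) (u : ℝ) :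
    ∫ τ in (-l)..l, ((1 - |τ| / l : ℝ) : ℂ) * Complex.exp (Complex.I * τ * u) *
        (∫ v in Ioi (0 : ℝ), (g v : ℂ) * Complex.exp (-(((η : ℂ) + Complex.I * τ) * v))) =
      ((∫ v in Ioi (0 : ℝ), g v * Real.exp (-(η * v)) * (l * fk (l * (u - v))) : ℝ) : ℂ) := by
  have hC0 : 0 ≤ C := le_trans (abs_nonneg _) (hC 0)
  have hle : -l ≤ l := by linarith
  -- the integrand as a function on the product
  set F : ℝ → ℝ → ℂ := fun τ v => ((1 - |τ| / l : ℝ) : ℂ) * Complex.exp (Complex.I * τ * u) *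
        ((g v : ℂ) * Complex.exp (-(((η : ℂ) + Complex.I * τ) * v))) with hF
  have hmeas : Measurable (Function.uncurry F) := by
    have h1 : Measurable (fun p : ℝ × ℝ => ((1 - |p.1| / l : ℝ) : ℂ)) := by
      apply Complex.measurable_ofReal.comp
      fun_prop
    have h2 : Measurable (fun p : ℝ × ℝ => Complex.exp (Complex.I * (p.1 : ℂ) * u)) := by
      apply Continuous.measurable
      fun_prop
    have h3 : Measurable (fun p : ℝ × ℝ => (g p.2 : ℂ)) :=
      Complex.measurable_ofReal.comp (hg.comp measurable_snd)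
    have h4 : Measurable (fun p : ℝ × ℝ =>
        Complex.exp (-(((η : ℂ) + Complex.I * (p.1 : ℂ)) * (p.2 : ℂ)))) := by
      apply Continuous.measurable
      fun_prop
    exact (h1.mul h2).mul (h3.mul h4)
  have hexp : IntegrableOn (fun v : ℝ => C * Real.exp (-(η * v))) (Ioi 0) volume := by
    have := (exp_neg_integrableOn_Ioi 0 hη).const_mul C
    refine this.congr ?_
    exact Filter.Eventually.of_forall (fun v => by simp [neg_mul])
  have hvol : volume (Ioc (-l) l) ≠ ⊤ := by simp
  have hone : ‖(1 : ℝ)‖ₑ ≠ ⊤ := by simp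
  have hconst : IntegrableOn (fun _ : ℝ => (1 : ℝ)) (Ioc (-l) l) volume :=
    integrableOn_const hvol hone
  have hint : Integrable (Function.uncurry F)
      ((volume.restrict (Ioc (-l) l)).prod (volume.restrict (Ioi (0 : ℝ)))) := by
    have hprod := Integrable.mul_prod hconst hexp
    refine Integrable.mono' hprod hmeas.aestronglyMeasurable ?_
    rw [Measure.prod_restrict]
    refine (ae_restrict_iff' (measurableSet_Ioc.prod measurableSet_Ioi)).2 ?_
    refine Filter.Eventually.of_forall ?_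
    rintro ⟨τ, v⟩ ⟨hτ, hv⟩
    simp only [mem_Ioc, mem_Ioi] at hτ hv
    simp only [Function.uncurry, hF, one_mul]
    rw [norm_mul, norm_mul, norm_mul, Complex.norm_exp, Complex.norm_exp, Complex.norm_real,
      Complex.norm_real, Real.norm_eq_abs, Real.norm_eq_abs]
    have e1 : (Complex.I * (τ : ℂ) * (u : ℂ)).re = 0 := by simp
    have e2 : (-(((η : ℂ) + Complex.I * (τ : ℂ)) * (v : ℂ))).re = -(η * v) := by simp
    rw [e1, e2, Real.exp_zero, mul_one]
    have habs : |τ| ≤ l := abs_le.2 ⟨hτ.1.le, hτ.2⟩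
    have h1 : |1 - |τ| / l| ≤ 1 := by
      rw [abs_le]
      have h2 : |τ| / l ≤ 1 := (div_le_one hl).2 habs
      have h3 : 0 ≤ |τ| / l := by positivity
      constructor <;> linarith
    have h4 : |g v| * Real.exp (-(η * v)) ≤ C * Real.exp (-(η * v)) :=
      mul_le_mul_of_nonneg_right (hC v) (Real.exp_pos _).le
    calc |1 - |τ| / l| * (|g v| * Real.exp (-(η * v)))
        ≤ 1 * (|g v| * Real.exp (-(η * v))) :=
          mul_le_mul_of_nonneg_right h1 (by positivity)
      _ ≤ C * Real.exp (-(η * v)) := by rw [one_mul]; exact h4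
  have hL : ∫ τ in (-l)..l, ((1 - |τ| / l : ℝ) : ℂ) * Complex.exp (Complex.I * τ * u) *
        (∫ v in Ioi (0 : ℝ), (g v : ℂ) * Complex.exp (-(((η : ℂ) + Complex.I * τ) * v))) =
      ∫ τ in Ioc (-l) l, ∫ v in Ioi (0 : ℝ), F τ v := by
    rw [intervalIntegral.integral_of_le hle]
    refine integral_congr_ae (Filter.Eventually.of_forall fun τ => ?_)
    simp only [hF]
    rw [integral_const_mul]
  rw [hL, integral_integral_swap hint, ← integral_complex_ofReal]
  refine integral_congr_ae (Filter.Eventually.of_forall fun v => ?_)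
  have key := integral_triangle hl (u - v)
  rw [intervalIntegral.integral_of_le hle] at key
  have e : ∀ τ : ℝ, F τ v = ((g v * Real.exp (-(η * v)) : ℝ) : ℂ) *
      (((1 - |τ| / l : ℝ) : ℂ) * Complex.exp (Complex.I * τ * ((u - v : ℝ) : ℂ))) := by
    intro τ
    simp only [hF]
    have h5 : Complex.exp (Complex.I * τ * u) * Complex.exp (-(((η : ℂ) + Complex.I * τ) * v)) =
        Complex.exp (-(η * v)) * Complex.exp (Complex.I * τ * ((u - v : ℝ) : ℂ)) := by
      rw [← Complex.exp_add, ← Complex.exp_add]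
      congr 1
      push_cast
      ring
    have h6 : ((g v * Real.exp (-(η * v)) : ℝ) : ℂ) = (g v : ℂ) * Complex.exp (-(η * v)) := by
      push_cast
      ring
    rw [h6]
    linear_combination ((1 - |τ| / l : ℝ) : ℂ) * (g v : ℂ) * h5
  have e' : (∫ τ in Ioc (-l) l, F τ v) = ∫ τ in Ioc (-l) l,
      ((g v * Real.exp (-(η * v)) : ℝ) : ℂ) *
      (((1 - |τ| / l : ℝ) : ℂ) * Complex.exp (Complex.I * τ * ((u - v : ℝ) : ℂ))) :=
    integral_congr_ae (Filter.Eventually.of_forall fun τ => e τ)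
  simp only
  rw [e', integral_const_mul, key]
  push_cast
  ring

end Pool.Agent.Lib.MP_d9bc60_nt.TH
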