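import Mathlib
import Pool.Agent.Lib.MP_d9bc60_nt.TH.W3Fubini

/-! Row W4a (about 120 lines) -/

set_option autoImplicit false

namespace Pool.Agent.Lib.MP_d9bc60_nt.TH

open MeasureTheory Filter Topology Set

theorem w4a_rhs {g : ℝ → ℝ} {C : ℝ} (hg : Measurable g) (hC : ∀ v, |g v| ≤ C) {l : ℝ}
    (hl : 0 < l) (u : ℝ) :
    Tendsto (fun η : ℝ => ∫ v in Ioi (0 : ℝ), g v * Real.exp (-(η * v)) * (l * fk (l * (u - v))))
      (𝓝[>] 0) (𝓝 (∫ v in Ioi (0 : ℝ), g v * (l * fk (l * (u - v))))) := by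
  have hC0 : 0 ≤ C := (abs_nonneg _).trans (hC 0)
  have hfm : Measurable fun v : ℝ => l * fk (l * (u - v)) :=
    (continuous_const.mul (continuous_fk.comp (continuous_const.mul
      (continuous_const.sub continuous_id)))).measurable
  refine tendsto_integral_filter_of_dominated_convergence (fun v => C * (l * fk (l * (u - v))))
    ?_ ?_ ?_ ?_
  · refine Eventually.of_forall fun η => Measurable.aestronglyMeasurable ?_
    exact (hg.mul (by fun_prop)).mul hfm
  · filter_upwards [self_mem_nhdsWithin] with η hη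
    rw [ae_restrict_iff' measurableSet_Ioi]
    refine Eventually.of_forall fun v hv => ?_
    have hη' : 0 < η := hη
    have hv' : 0 < v := hv
    have h1 : Real.exp (-(η * v)) ≤ 1 := by
      rw [Real.exp_le_one_iff]
      have : 0 < η * v := mul_pos hη' hv'
      linarith
    have h2 : 0 ≤ l * fk (l * (u - v)) := mul_nonneg hl.le (fk_nonneg _)
    rw [Real.norm_eq_abs, abs_mul, abs_mul, abs_of_nonneg h2, abs_of_pos (Real.exp_pos _)]
    apply mul_le_mul_of_nonneg_right _ h2
    calc |g v| * Real.exp (-(η * v)) ≤ C * 1 :=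
          mul_le_mul (hC v) h1 (Real.exp_pos _).le hC0
      _ = C := mul_one C
  · exact ((integrable_fk_scale hl u).const_mul C).integrableOn
  · refine Eventually.of_forall fun v => ?_
    have h1 : Tendsto (fun η : ℝ => Real.exp (-(η * v))) (𝓝[>] 0) (𝓝 (Real.exp (-(0 * v)))) := by
      apply Tendsto.mono_left _ nhdsWithin_le_nhds
      exact Continuous.tendsto (by fun_prop) 0
    rw [zero_mul, neg_zero, Real.exp_zero] at h1
    have h2 := (h1.const_mul (g v)).mul_const (l * fk (l * (u - v)))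
    rw [mul_one] at h2
    exact h2

theorem w4a_lhs {H : ℂ → ℂ} (hH : ContinuousOn H {z | 0 ≤ z.re}) (K : ℝ → ℂ) (hK : Continuous K)
    {l : ℝ} (hl : 0 < l) :
    Tendsto (fun η : ℝ => ∫ τ in (-l)..l, K τ * H ((η : ℂ) + Complex.I * τ))
      (𝓝[>] 0) (𝓝 (∫ τ in (-l)..l, K τ * H (Complex.I * τ))) := by
  -- bounds
  obtain ⟨M, hM⟩ := (isCompact_Icc (a := (0 : ℝ)) (b := 1)).reProdIm
    (isCompact_Icc (a := -l) (b := l)) |>.exists_bound_of_continuousOn (f := H)
    (hH.mono (fun z hz => (Complex.mem_reProdIm.1 hz).1.1))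
  obtain ⟨N, hN⟩ := (isCompact_Icc (a := -l) (b := l)).exists_bound_of_continuousOn
    (f := K) hK.continuousOn
  have hre : ∀ η τ : ℝ, ((η : ℂ) + Complex.I * τ).re = η := fun η τ => by simp
  have him : ∀ η τ : ℝ, ((η : ℂ) + Complex.I * τ).im = τ := fun η τ => by simp
  have hcont : ∀ η : ℝ, 0 ≤ η → Continuous fun τ : ℝ => H ((η : ℂ) + Complex.I * τ) := by
    intro η hη
    refine hH.comp_continuous (by fun_prop) fun τ => ?_
    show 0 ≤ ((η : ℂ) + Complex.I * τ).re
    rw [hre]
    exact hη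
  refine intervalIntegral.tendsto_integral_filter_of_dominated_convergence (fun _ => N * M)
    ?_ ?_ ?_ ?_
  · filter_upwards [self_mem_nhdsWithin] with η hη
    exact (hK.mul (hcont η (le_of_lt hη))).aestronglyMeasurable
  · have h1 : ∀ᶠ η : ℝ in 𝓝[>] 0, η < 1 :=
      (eventually_lt_nhds (by norm_num : (0 : ℝ) < 1)).filter_mono nhdsWithin_le_nhds
    filter_upwards [self_mem_nhdsWithin, h1] with η hη hη1
    refine Eventually.of_forall fun τ hτ => ?_
    rw [uIoc_of_le (by linarith)] at hτ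
    have hτ' : τ ∈ Icc (-l) l := ⟨hτ.1.le, hτ.2⟩
    rw [norm_mul]
    have h2 := hN τ hτ'
    have h3 := hM ((η : ℂ) + Complex.I * τ) (Complex.mem_reProdIm.2
      ⟨by rw [hre]; exact ⟨le_of_lt hη, hη1.le⟩, by rw [him]; exact hτ'⟩)
    exact mul_le_mul h2 h3 (norm_nonneg _) ((norm_nonneg _).trans h2)
  · exact intervalIntegrable_const
  · refine Eventually.of_forall fun τ _ => ?_
    apply Tendsto.const_mul
    have h1 : ContinuousWithinAt H {z | 0 ≤ z.re} (Complex.I * τ) := hH _ (by simp)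
    have h2 : Tendsto (fun η : ℝ => (η : ℂ) + Complex.I * τ) (𝓝[>] 0)
        (𝓝[{z | 0 ≤ z.re}] (Complex.I * τ)) := by
      apply tendsto_nhdsWithin_of_tendsto_nhds_of_eventually_within
      · have h3 : Tendsto (fun η : ℝ => (η : ℂ) + Complex.I * τ) (𝓝 0)
            (𝓝 (((0 : ℝ) : ℂ) + Complex.I * τ)) := Continuous.tendsto (by fun_prop) 0
        rw [Complex.ofReal_zero, zero_add] at h3
        exact h3.mono_left nhdsWithin_le_nhds
      · filter_upwards [self_mem_nhdsWithin] with η hη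
        show 0 ≤ ((η : ℂ) + Complex.I * τ).re
        rw [hre]
        exact le_of_lt hη
    exact h1.tendsto.comp h2

/-- Let `η → 0+` in `fejer_fubini`. Left side: the function `z ↦ H z` is continuous on the compact set
`[0,1] × [-l,l]`, hence bounded there, and `H (η + iτ) → H (iτ)` for every `τ`: dominated convergence. Right side: dominated convergence with
the majorant `C l fk(l(u-v))` (`integrable_fk_scale`). -/
theorem fejer_limit_eta {g : ℝ → ℝ} {C : ℝ} (hg : Measurable g) (hC : ∀ v, |g v| ≤ C) {H : ℂ → ℂ}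
    (hH : ContinuousOn H {z | 0 ≤ z.re})
    (hL : ∀ z : ℂ, 0 < z.re → H z = ∫ v in Ioi (0 : ℝ), (g v : ℂ) * Complex.exp (-(z * v))) {l : ℝ}
    (hl : 0 < l) (u : ℝ) :
    ∫ τ in (-l)..l, ((1 - |τ| / l : ℝ) : ℂ) * Complex.exp (Complex.I * τ * u) * H (Complex.I * τ) =
      ((∫ v in Ioi (0 : ℝ), g v * (l * fk (l * (u - v))) : ℝ) : ℂ) := by
  have h1 := w4a_lhs hH (fun τ : ℝ => ((1 - |τ| / l : ℝ) : ℂ) * Complex.exp (Complex.I * τ * u))
    (by fun_prop) hl
  have h2 := (Complex.continuous_ofReal.tendsto _).comp (w4a_rhs hg hC hl u)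
  refine tendsto_nhds_unique h1 (h2.congr' ?_)
  filter_upwards [self_mem_nhdsWithin] with η hη
  rw [Function.comp_apply, ← fejer_fubini hg hC hl hη u]
  refine intervalIntegral.integral_congr fun τ _ => ?_
  have h3 : 0 < ((η : ℂ) + Complex.I * τ).re := by simpa using hη
  rw [hL _ h3]

end Pool.Agent.Lib.MP_d9bc60_nt.TH
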