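import Mathlib
import Pool.Agent.Lib.MP_d9bc60_nt.TH.W3Fubini
import Pool.Agent.Lib.MP_d9bc60_nt.TH.W4aEta

/-! Row W4b (about 100 lines) -/

set_option autoImplicit false

namespace Pool.Agent.Lib.MP_d9bc60_nt.TH

open MeasureTheory Filter Topology Set
/-- Riemann–Lebesgue lemma (`Real.tendsto_integral_exp_smul_cocompact` or `tendsto_integral_exp_smul_cocompact` applied to the
indicator of `[-l,l]` times `(1-|τ|/l) H(iτ)`, with `u = -2π w`). -/
theorem riemann_lebesgue_triangle {H : ℂ → ℂ} (hH : ContinuousOn H {z | 0 ≤ z.re}) {l : ℝ}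
    (hl : 0 < l) :
    Tendsto (fun u : ℝ => ∫ τ in (-l)..l, ((1 - |τ| / l : ℝ) : ℂ) *
      Complex.exp (Complex.I * τ * u) * H (Complex.I * τ)) atTop (𝓝 0) := by
  let f : ℝ → ℂ := (Ioc (-l) l).indicator fun τ => ((1 - |τ| / l : ℝ) : ℂ) * H (Complex.I * τ)
  have h1 := Real.tendsto_integral_exp_smul_cocompact f
  have hpi : (0:ℝ) < 2 * Real.pi := by positivity
  have h2 : Tendsto (fun u : ℝ => -u / (2 * Real.pi)) atTop (cocompact ℝ) := by
    refine Tendsto.mono_right ?_ atBot_le_cocompact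
    exact (tendsto_neg_atTop_atBot).atBot_div_const hpi
  have h3 := h1.comp h2
  refine h3.congr fun u => ?_
  show ∫ v, (Real.fourierChar (-(v * (-u / (2 * Real.pi))))) • f v = _
  rw [intervalIntegral.integral_of_le (by linarith), ← integral_indicator measurableSet_Ioc]
  refine integral_congr_ae (Filter.Eventually.of_forall fun τ => ?_)
  show (Real.fourierChar (-(τ * (-u / (2 * Real.pi))))) • f τ = _
  by_cases hτ : τ ∈ Ioc (-l) l
  · simp only [f]
    rw [Set.indicator_of_mem hτ, Set.indicator_of_mem hτ, Circle.smul_def, Real.fourierChar_apply]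
    have e : (2 * Real.pi * (-(τ * (-u / (2 * Real.pi)))) : ℝ) = τ * u := by
      field_simp
    have e2 : ((2 * Real.pi * (-(τ * (-u / (2 * Real.pi)))) : ℝ) : ℂ) * Complex.I = Complex.I * τ * u := by
      rw [e]
      push_cast
      ring
    rw [smul_eq_mul]
    rw [show (((2 * Real.pi * (-(τ * (-u / (2 * Real.pi)))) : ℝ) : ℂ) * Complex.I) = Complex.I * τ * u from e2]
    ring
  · simp only [f]
    rw [Set.indicator_of_notMem hτ, Set.indicator_of_notMem hτ, smul_zero]

theorem fejer_limit {g : ℝ → ℝ} {C : ℝ} (hg : Measurable g) (hC : ∀ v, |g v| ≤ C) {H : ℂ → ℂ}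
    (hH : ContinuousOn H {z | 0 ≤ z.re})
    (hL : ∀ z : ℂ, 0 < z.re → H z = ∫ v in Ioi (0 : ℝ), (g v : ℂ) * Complex.exp (-(z * v))) {l : ℝ}
    (hl : 0 < l) :
    Tendsto (fun u : ℝ => ∫ v in Ioi (0 : ℝ), g v * (l * fk (l * (u - v)))) atTop (𝓝 0) := by
  have h1 := riemann_lebesgue_triangle hH hl
  have h2 : Tendsto (fun u : ℝ => ((∫ v in Ioi (0 : ℝ), g v * (l * fk (l * (u - v))) : ℝ) : ℂ)) atTop (𝓝 0) := by
    refine h1.congr fun u => ?_
    exact fejer_limit_eta hg hC hH hL hl u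
  have h3 := (Complex.continuous_re.tendsto 0).comp h2
  simpa [Function.comp_def] using h3

end Pool.Agent.Lib.MP_d9bc60_nt.TH
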