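import Mathlib
import Pool.Agent.Lib.MP_d9bc60_nt.TH.W1Kernel

/-! Row W5 (about 200 lines): the Tauberian argument. -/

set_option autoImplicit false

namespace Pool.Agent.Lib.MP_d9bc60_nt.TH

open MeasureTheory Filter Topology Set

section w5

variable {φ : ℝ → ℝ} {A C : ℝ}

theorem w5_int_phi (hm : Measurable φ) (h0 : ∀ v, 0 ≤ φ v) (hC : ∀ v, φ v ≤ C) {l : ℝ}
    (hl : 0 < l) (u : ℝ) : Integrable fun v => φ v * (l * fk (l * (u - v))) := by
  have hK := integrable_fk_scale hl u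
  refine (hK.const_mul C).mono' ((hm.aestronglyMeasurable).mul hK.aestronglyMeasurable)
    (Eventually.of_forall fun v => ?_)
  have hk : 0 ≤ l * fk (l * (u - v)) := mul_nonneg hl.le (fk_nonneg _)
  rw [Real.norm_of_nonneg (mul_nonneg (h0 v) hk)]
  exact mul_le_mul_of_nonneg_right (hC v) hk

theorem w5_split (hm : Measurable φ) (h0 : ∀ v, 0 ≤ φ v) (hC : ∀ v, φ v ≤ C) {l : ℝ}
    (hl : 0 < l) (u : ℝ) :
    ∫ v in Ioi (0 : ℝ), (φ v - A) * (l * fk (l * (u - v))) =
      (∫ v in Ioi (0 : ℝ), φ v * (l * fk (l * (u - v)))) -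
        A * ∫ v in Ioi (0 : ℝ), l * fk (l * (u - v)) := by
  rw [← integral_const_mul, ← integral_sub (w5_int_phi hm h0 hC hl u).integrableOn
    ((integrable_fk_scale hl u).const_mul A).integrableOn]
  refine integral_congr_ae (Eventually.of_forall fun v => ?_)
  simp only
  ring

theorem w5_near {l δ : ℝ} (hl : 0 < l) (hδ : 0 < δ) (u : ℝ) :
    (∫ w, fk w) - 8 / (l * δ) ≤ ∫ v in {v : ℝ | δ < |u - v|}ᶜ, l * fk (l * (u - v)) := by
  have hmeas : MeasurableSet {v : ℝ | δ < |u - v|} :=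
    measurableSet_lt measurable_const (measurable_const.sub measurable_id).abs
  have h1 := integral_add_compl hmeas (integrable_fk_scale hl u)
  rw [integral_fk_scale hl u] at h1
  have h2 := integral_fk_tail_le hl hδ u
  linarith

theorem w5_Ioi_le {l : ℝ} (hl : 0 < l) (u : ℝ) :
    ∫ v in Ioi (0 : ℝ), l * fk (l * (u - v)) ≤ ∫ w, fk w := by
  rw [← integral_fk_scale hl u]
  exact setIntegral_le_integral (integrable_fk_scale hl u)
    (Eventually.of_forall fun v => mul_nonneg hl.le (fk_nonneg _))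

theorem w5_Ioi_ge {l δ : ℝ} (hl : 0 < l) (hδ : 0 < δ) {u : ℝ} (hu : δ < u) :
    (∫ w, fk w) - 8 / (l * δ) ≤ ∫ v in Ioi (0 : ℝ), l * fk (l * (u - v)) := by
  refine (w5_near hl hδ u).trans ?_
  refine setIntegral_mono_set (integrable_fk_scale hl u).integrableOn
    (Eventually.of_forall fun v => mul_nonneg hl.le (fk_nonneg _)) (Eventually.of_forall ?_)
  intro v hv
  have hv' : ¬ δ < |u - v| := hv
  have h3 : u - v ≤ δ := (le_abs_self _).trans (not_lt.1 hv')
  have h4 : (0 : ℝ) < v := by linarith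
  exact h4

theorem w5_upper (hm : Measurable φ) (h0 : ∀ v, 0 ≤ φ v) (hC : ∀ v, φ v ≤ C)
    (hmono : ∀ u v, 0 ≤ u → u ≤ v → φ u * Real.exp (-(v - u)) ≤ φ v) {l δ : ℝ} (hl : 0 < l)
    (hδ : 0 < δ) {u : ℝ} (hu : 0 < u) :
    φ u * Real.exp (-(2 * δ)) * ((∫ w, fk w) - 8 / (l * δ)) ≤
      ∫ v in Ioi (0 : ℝ), φ v * (l * fk (l * ((u + δ) - v))) := by
  set S : Set ℝ := {v : ℝ | δ < |(u + δ) - v|}ᶜ with hS
  have hmeas : MeasurableSet S :=
    (measurableSet_lt measurable_const (measurable_const.sub measurable_id).abs).compl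
  have hsub : S ⊆ Ioi (0 : ℝ) := by
    intro v hv
    have hv' : ¬ δ < |(u + δ) - v| := hv
    have h3 : (u + δ) - v ≤ δ := (le_abs_self _).trans (not_lt.1 hv')
    exact Set.mem_Ioi.2 (by linarith)
  have hE : 0 ≤ φ u * Real.exp (-(2 * δ)) := mul_nonneg (h0 u) (Real.exp_pos _).le
  calc φ u * Real.exp (-(2 * δ)) * ((∫ w, fk w) - 8 / (l * δ))
      ≤ φ u * Real.exp (-(2 * δ)) * ∫ v in S, l * fk (l * ((u + δ) - v)) :=
        mul_le_mul_of_nonneg_left (w5_near hl hδ (u + δ)) hE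
    _ = ∫ v in S, φ u * Real.exp (-(2 * δ)) * (l * fk (l * ((u + δ) - v))) :=
        (integral_const_mul _ _).symm
    _ ≤ ∫ v in S, φ v * (l * fk (l * ((u + δ) - v))) := by
        refine setIntegral_mono_on ((integrable_fk_scale hl (u + δ)).const_mul _).integrableOn
          (w5_int_phi hm h0 hC hl (u + δ)).integrableOn hmeas fun v hv => ?_
        have hv' : ¬ δ < |(u + δ) - v| := hv
        have h3 := abs_le.1 (not_lt.1 hv')
        refine mul_le_mul_of_nonneg_right ?_ (mul_nonneg hl.le (fk_nonneg _))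
        refine le_trans ?_ (hmono u v hu.le (by linarith [h3.2]))
        refine mul_le_mul_of_nonneg_left ?_ (h0 u)
        apply Real.exp_le_exp.2
        linarith [h3.1]
    _ ≤ ∫ v in Ioi (0 : ℝ), φ v * (l * fk (l * ((u + δ) - v))) := by
        refine setIntegral_mono_set (w5_int_phi hm h0 hC hl (u + δ)).integrableOn
          (Eventually.of_forall fun v => mul_nonneg (h0 v) (mul_nonneg hl.le (fk_nonneg _)))
          (Eventually.of_forall fun v hv => hsub hv)

theorem w5_lower (hm : Measurable φ) (h0 : ∀ v, 0 ≤ φ v) (hC : ∀ v, φ v ≤ C)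
    (hmono : ∀ u v, 0 ≤ u → u ≤ v → φ u * Real.exp (-(v - u)) ≤ φ v) {l δ : ℝ} (hl : 0 < l)
    (hδ : 0 < δ) {u : ℝ} (hu : 2 * δ < u) :
    ∫ v in Ioi (0 : ℝ), φ v * (l * fk (l * ((u - δ) - v))) ≤
      φ u * Real.exp (2 * δ) * (∫ w, fk w) + C * (8 / (l * δ)) := by
  have hC0 : 0 ≤ C := (h0 0).trans (hC 0)
  set T : Set ℝ := {v : ℝ | δ < |(u - δ) - v|} with hT
  have hmeas : MeasurableSet T :=
    measurableSet_lt measurable_const (measurable_const.sub measurable_id).abs
  have hK0 : ∀ v, 0 ≤ l * fk (l * ((u - δ) - v)) := fun v => mul_nonneg hl.le (fk_nonneg _)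
  have hφi := w5_int_phi hm h0 hC hl (u - δ)
  have hE : 0 ≤ φ u * Real.exp (2 * δ) := mul_nonneg (h0 u) (Real.exp_pos _).le
  have h1 : ∫ v in Ioi (0 : ℝ), φ v * (l * fk (l * ((u - δ) - v))) ≤
      ∫ v, φ v * (l * fk (l * ((u - δ) - v))) :=
    setIntegral_le_integral hφi (Eventually.of_forall fun v => mul_nonneg (h0 v) (hK0 v))
  have h2 := integral_add_compl hmeas hφi
  have h3 : ∫ v in T, φ v * (l * fk (l * ((u - δ) - v))) ≤ C * (8 / (l * δ)) := by
    calc ∫ v in T, φ v * (l * fk (l * ((u - δ) - v)))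
        ≤ ∫ v in T, C * (l * fk (l * ((u - δ) - v))) := by
          refine setIntegral_mono_on hφi.integrableOn
            ((integrable_fk_scale hl (u - δ)).const_mul _).integrableOn hmeas fun v _ => ?_
          exact mul_le_mul_of_nonneg_right (hC v) (hK0 v)
      _ = C * ∫ v in T, l * fk (l * ((u - δ) - v)) := integral_const_mul _ _
      _ ≤ C * (8 / (l * δ)) :=
          mul_le_mul_of_nonneg_left (integral_fk_tail_le hl hδ (u - δ)) hC0
  have h4 : ∫ v in Tᶜ, φ v * (l * fk (l * ((u - δ) - v))) ≤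
      φ u * Real.exp (2 * δ) * (∫ w, fk w) := by
    calc ∫ v in Tᶜ, φ v * (l * fk (l * ((u - δ) - v)))
        ≤ ∫ v in Tᶜ, φ u * Real.exp (2 * δ) * (l * fk (l * ((u - δ) - v))) := by
          refine setIntegral_mono_on hφi.integrableOn
            ((integrable_fk_scale hl (u - δ)).const_mul _).integrableOn hmeas.compl fun v hv => ?_
          have hv' : ¬ δ < |(u - δ) - v| := hv
          have h3 := abs_le.1 (not_lt.1 hv')
          refine mul_le_mul_of_nonneg_right ?_ (hK0 v)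
          have h5 := hmono v u (by linarith [h3.1, h3.2]) (by linarith [h3.1])
          have h6 : φ v ≤ φ u * Real.exp (u - v) := by
            have h7 := mul_le_mul_of_nonneg_right h5 (Real.exp_pos (u - v)).le
            rw [mul_assoc, ← Real.exp_add] at h7
            simpa using h7
          refine h6.trans (mul_le_mul_of_nonneg_left ?_ (h0 u))
          apply Real.exp_le_exp.2
          linarith [h3.2]
      _ = φ u * Real.exp (2 * δ) * ∫ v in Tᶜ, l * fk (l * ((u - δ) - v)) :=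
          integral_const_mul _ _
      _ ≤ φ u * Real.exp (2 * δ) * (∫ w, fk w) := by
          refine mul_le_mul_of_nonneg_left ?_ hE
          rw [← integral_fk_scale hl (u - δ)]
          exact setIntegral_le_integral (integrable_fk_scale hl (u - δ))
            (Eventually.of_forall hK0)
  linarith

end w5

/-- Write `c = ∫ fk > 0`, `k_l(v) = l fk(l(u-v)) ≥ 0`. Since `∫_{v>0} k_l = c - ∫_{v ≤ 0} k_l` and for `u > 0` the last integral is `≤ 8/(l u)`
(it is part of the tail `|u - v| ≥ u`, use `integral_fk_tail_le` with `δ = u/2`), `hlim` gives `∫_{v>0} φ(v) k_l dv → A c` as `u → ∞`, for every `l > 0`.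
Let `0 < δ`.
Upper bound: for `u > 2δ` and `|v - u| ≤ δ`, `φ v ≥ φ (u-δ) e^{-2δ}` (`hmono`), so `∫_{v>0} φ k_l ≥ φ(u-δ) e^{-2δ} (c - 8/(lδ))`. Hence
`limsup φ ≤ A c e^{2δ}/(c - 8/(lδ))`; choose `l` large after `δ`, and `δ` small.
Lower bound: for `|v-u| ≤ δ`, `φ v ≤ φ (u+δ) e^{2δ}`, so `∫_{v>0} φ k_l ≤ φ(u+δ) e^{2δ} c + C · 8/(lδ)`, hence
`liminf φ ≥ e^{-2δ} (A - 8C/(lδc))`.
(Give the argument with `ε`'s: for every `ε > 0` eventually `|φ u - A| ≤ ε`.) -/
theorem tauber {φ : ℝ → ℝ} {A C : ℝ} (hm : Measurable φ) (h0 : ∀ v, 0 ≤ φ v)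
    (hC : ∀ v, φ v ≤ C) (hA : 0 ≤ A)
    (hmono : ∀ u v, 0 ≤ u → u ≤ v → φ u * Real.exp (-(v - u)) ≤ φ v)
    (hlim : ∀ l : ℝ, 0 < l → Tendsto
      (fun u : ℝ => ∫ v in Ioi (0 : ℝ), (φ v - A) * (l * fk (l * (u - v)))) atTop (𝓝 0)) :
    Tendsto φ atTop (𝓝 A) := by
  set c : ℝ := ∫ w, fk w with hc
  have hc0 : 0 < c := integral_fk_pos
  have key : ∀ δ : ℝ, 0 < δ → ∀ ζ : ℝ, 0 < ζ → ∀ᶠ u in atTop,
      |∫ v in Ioi (0 : ℝ), (φ v - A) * ((1 / δ ^ 2) * fk ((1 / δ ^ 2) * (u - v)))| < ζ := by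
    intro δ hδ ζ hζ
    have := (hlim (1 / δ ^ 2) (by positivity)).eventually (Metric.ball_mem_nhds 0 hζ)
    filter_upwards [this] with u hu
    simpa [Real.dist_eq] using hu
  have hl8 : ∀ δ : ℝ, 0 < δ → 8 / (1 / δ ^ 2 * δ) = 8 * δ := by
    intro δ hδ
    field_simp
  rw [tendsto_order]
  constructor
  · -- lower
    intro a ha
    have hcont : ContinuousAt (fun δ : ℝ => Real.exp (-(2 * δ)) *
        ((A * (c - 8 * δ) - δ) - C * (8 * δ)) / c) 0 := by
      fun_prop
    have hval : Real.exp (-(2 * (0:ℝ))) * ((A * (c - 8 * 0) - 0) - C * (8 * 0)) / c = A := by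
      simp
      field_simp
    have hev : ∀ᶠ δ in 𝓝 (0:ℝ), a < Real.exp (-(2 * δ)) *
        ((A * (c - 8 * δ) - δ) - C * (8 * δ)) / c := by
      have := hcont.tendsto
      rw [hval] at this
      exact this.eventually (lt_mem_nhds ha)
    obtain ⟨δ, hδ0, hδ⟩ : ∃ δ : ℝ, 0 < δ ∧ a < Real.exp (-(2 * δ)) *
        ((A * (c - 8 * δ) - δ) - C * (8 * δ)) / c := by
      obtain ⟨r, hr, hr'⟩ := Metric.eventually_nhds_iff.1 hev
      refine ⟨r / 2, by positivity, hr' ?_⟩
      rw [Real.dist_eq, sub_zero, abs_of_pos (by positivity)]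
      linarith
    have hl : (0 : ℝ) < 1 / δ ^ 2 := by positivity
    have hshift : Tendsto (fun u : ℝ => u - δ) atTop atTop := tendsto_atTop_add_const_right _ _ tendsto_id
    filter_upwards [hshift.eventually (key δ hδ0 δ hδ0), eventually_gt_atTop (2 * δ)] with u h1 h2
    have h3 := w5_lower hm h0 hC hmono hl hδ0 h2
    have h4 := w5_Ioi_ge hl hδ0 (u := u - δ) (by linarith)
    rw [w5_split hm h0 hC hl] at h1
    rw [hl8 δ hδ0] at h3 h4
    rw [← hc] at h3 h4
    have h5 := (abs_lt.1 h1).1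
    have h6 := mul_le_mul_of_nonneg_left h4 hA
    have h7 : A * (c - 8 * δ) - δ - C * (8 * δ) ≤ φ u * Real.exp (2 * δ) * c := by linarith
    refine hδ.trans_le ?_
    rw [div_le_iff₀ hc0]
    have h8 := mul_le_mul_of_nonneg_left h7 (Real.exp_pos (-(2 * δ))).le
    have h9 : Real.exp (-(2 * δ)) * (φ u * Real.exp (2 * δ) * c) = φ u * c := by
      have : Real.exp (-(2 * δ)) * Real.exp (2 * δ) = 1 := by
        rw [← Real.exp_add]
        simp
      calc Real.exp (-(2 * δ)) * (φ u * Real.exp (2 * δ) * c)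
          = (Real.exp (-(2 * δ)) * Real.exp (2 * δ)) * (φ u * c) := by ring
        _ = φ u * c := by rw [this, one_mul]
    linarith
  · -- upper
    intro a ha
    have hcont : ContinuousAt (fun δ : ℝ => Real.exp (2 * δ) * (A * c + δ) - a * (c - 8 * δ)) 0 := by
      fun_prop
    have hval : Real.exp (2 * (0:ℝ)) * (A * c + 0) - a * (c - 8 * 0) < 0 := by
      simp
      nlinarith
    have hev : ∀ᶠ δ in 𝓝 (0:ℝ),
        Real.exp (2 * δ) * (A * c + δ) - a * (c - 8 * δ) < 0 :=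
      hcont.tendsto.eventually (gt_mem_nhds hval)
    have hev2 : ∀ᶠ δ in 𝓝 (0:ℝ), 8 * δ < c := by
      have : ContinuousAt (fun δ : ℝ => 8 * δ) 0 := by fun_prop
      exact this.tendsto.eventually (gt_mem_nhds (by simpa using hc0))
    obtain ⟨δ, hδ0, hδ, hδc⟩ : ∃ δ : ℝ, 0 < δ ∧
        Real.exp (2 * δ) * (A * c + δ) - a * (c - 8 * δ) < 0 ∧ 8 * δ < c := by
      obtain ⟨r, hr, hr'⟩ := Metric.eventually_nhds_iff.1 (hev.and hev2)
      have := hr' (y := r / 2) (by
        rw [Real.dist_eq, sub_zero, abs_of_pos (by positivity)]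
        linarith)
      exact ⟨r / 2, by positivity, this.1, this.2⟩
    have hl : (0 : ℝ) < 1 / δ ^ 2 := by positivity
    have hshift : Tendsto (fun u : ℝ => u + δ) atTop atTop := tendsto_atTop_add_const_right _ _ tendsto_id
    filter_upwards [hshift.eventually (key δ hδ0 δ hδ0), eventually_gt_atTop 0] with u h1 h2
    have h3 := w5_upper hm h0 hC hmono hl hδ0 h2
    have h4 := w5_Ioi_le hl (u + δ)
    rw [w5_split hm h0 hC hl] at h1
    rw [hl8 δ hδ0] at h3
    rw [← hc] at h3 h4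
    have h5 := (abs_lt.1 h1).2
    have h6 := mul_le_mul_of_nonneg_left h4 hA
    have h7 : φ u * Real.exp (-(2 * δ)) * (c - 8 * δ) ≤ A * c + δ := by linarith
    have h8 := mul_le_mul_of_nonneg_left h7 (Real.exp_pos (2 * δ)).le
    have h9 : Real.exp (2 * δ) * (φ u * Real.exp (-(2 * δ)) * (c - 8 * δ)) = φ u * (c - 8 * δ) := by
      have : Real.exp (2 * δ) * Real.exp (-(2 * δ)) = 1 := by
        rw [← Real.exp_add]
        simp
      calc Real.exp (2 * δ) * (φ u * Real.exp (-(2 * δ)) * (c - 8 * δ))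
          = (Real.exp (2 * δ) * Real.exp (-(2 * δ))) * (φ u * (c - 8 * δ)) := by ring
        _ = φ u * (c - 8 * δ) := by rw [this, one_mul]
    rw [h9] at h8
    have h10 : φ u * (c - 8 * δ) < a * (c - 8 * δ) := by linarith
    exact lt_of_mul_lt_mul_right h10 (by linarith)

end Pool.Agent.Lib.MP_d9bc60_nt.TH
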