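import Mathlib

/-! Row W6 (about 150 lines): from Dirichlet series to Laplace transforms. -/

set_option autoImplicit false

namespace Pool.Agent.Lib.MP_d9bc60_nt.TH

open MeasureTheory Filter Topology Set

/-- `φ(v) = e^{-v} ∑_{k ≤ e^v} f k` -/
noncomputable def phiS (f : ℕ → ℝ) (v : ℝ) : ℝ :=
  (∑ k ∈ Finset.Icc 1 ⌊Real.exp v⌋₊, f k) * Real.exp (-v)

theorem measurable_phiS (f : ℕ → ℝ) : Measurable (phiS f) := by
  have h1 : Measurable fun v : ℝ => ⌊Real.exp v⌋₊ := Nat.measurable_floor.comp Real.measurable_exp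
  have h2 : Measurable fun n : ℕ => ∑ k ∈ Finset.Icc 1 n, f k := measurable_from_nat
  exact (h2.comp h1).mul (Real.measurable_exp.comp measurable_neg)

theorem phiS_nonneg {f : ℕ → ℝ} (hf : ∀ n, 0 ≤ f n) (v : ℝ) : 0 ≤ phiS f v :=
  mul_nonneg (Finset.sum_nonneg fun k _ => hf k) (Real.exp_pos _).le

theorem phiS_le {f : ℕ → ℝ} {C : ℝ} (hC0 : 0 ≤ C) (hC : ∀ n : ℕ, ∑ k ∈ Finset.Icc 1 n, f k ≤ C * n)
    (v : ℝ) : phiS f v ≤ C := by
  have h1 : ∑ k ∈ Finset.Icc 1 ⌊Real.exp v⌋₊, f k ≤ C * Real.exp v :=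
    (hC _).trans (mul_le_mul_of_nonneg_left (Nat.floor_le (Real.exp_pos v).le) hC0)
  calc phiS f v ≤ C * Real.exp v * Real.exp (-v) :=
        mul_le_mul_of_nonneg_right h1 (Real.exp_pos _).le
    _ = C := by rw [mul_assoc, ← Real.exp_add, add_neg_cancel, Real.exp_zero, mul_one]

theorem phiS_mono {f : ℕ → ℝ} (hf : ∀ n, 0 ≤ f n) {u v : ℝ} (h : u ≤ v) :
    phiS f u * Real.exp (-(v - u)) ≤ phiS f v := by
  unfold phiS
  rw [mul_assoc, ← Real.exp_add, show -u + -(v - u) = -v by ring]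
  refine mul_le_mul_of_nonneg_right ?_ (Real.exp_pos _).le
  refine Finset.sum_le_sum_of_subset_of_nonneg ?_ fun k _ _ => hf k
  exact Finset.Icc_subset_Icc_right (Nat.floor_le_floor (Real.exp_le_exp.2 h))

/-- `LSeries f s = s ∫_{t>1} S(t) t^{-(s+1)} dt` (`LSeries_eq_mul_integral_of_nonneg`, `r = 1`), substitute `t = e^v`
(`integral_comp_exp_Ioi`), so `LSeries f (1+z)/(1+z) = ∫_{v>0} φ(v) e^{-zv} dv`; and `∫_{v>0} A e^{-zv} dv = A/z`
(`integral_exp_mul_complex_Ioi`). Finally `(G + A/z)/(1+z) - A/z = (G - A)/(1+z)`. -/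
theorem laplace_phiS {f : ℕ → ℝ} {A C : ℝ} (hf : ∀ n, 0 ≤ f n) (hC0 : 0 ≤ C)
    (hC : ∀ n : ℕ, ∑ k ∈ Finset.Icc 1 n, f k ≤ C * n) {G : ℂ → ℂ}
    (hL : ∀ s : ℂ, 1 < s.re → LSeries (fun n => (f n : ℂ)) s = G s + A / (s - 1)) (z : ℂ)
    (hz : 0 < z.re) :
    (G (1 + z) - A) / (1 + z) =
      ∫ v in Ioi (0 : ℝ), ((phiS f v - A : ℝ) : ℂ) * Complex.exp (-(z * v)) := by
  have hs : 1 < (1 + z).re := by simpa using hz
  have hz0 : z ≠ 0 := by
    rintro rfl
    simp at hz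
  have hs0 : 1 + z ≠ 0 := by
    intro h
    rw [h] at hs
    simp at hs
    linarith
  have hO : (fun n : ℕ => ∑ k ∈ Finset.Icc 1 n, f k) =O[atTop] fun n : ℕ => (n : ℝ) ^ (1 : ℝ) := by
    refine Asymptotics.IsBigO.of_bound C (Eventually.of_forall fun n => ?_)
    rw [Real.rpow_one, Real.norm_of_nonneg (Finset.sum_nonneg fun k _ => hf k),
      Real.norm_of_nonneg (Nat.cast_nonneg n)]
    exact hC n
  have h1 := LSeries_eq_mul_integral_of_nonneg f zero_le_one hs hO hf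
  rw [hL _ hs, ← Real.exp_zero, ← integral_comp_exp_Ioi] at h1
  have h2 : ∀ x ∈ Ioi (0 : ℝ), Real.exp x • ((∑ k ∈ Finset.Icc 1 ⌊Real.exp x⌋₊, (f k : ℂ)) *
      ((Real.exp x : ℝ) : ℂ) ^ (-(1 + z + 1))) = (phiS f x : ℂ) * Complex.exp (-(z * x)) := by
    intro x _
    have h3 : ((Real.exp x : ℝ) : ℂ) ^ (-(1 + z + 1)) = Complex.exp (x * (-(1 + z + 1))) := by
      rw [Complex.cpow_def_of_ne_zero (by exact_mod_cast (Real.exp_pos x).ne'),
        ← Complex.ofReal_log (Real.exp_pos x).le, Real.log_exp]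
    rw [h3, Complex.real_smul, phiS]
    push_cast
    have h4 : Complex.exp x * Complex.exp (x * (-(1 + z + 1))) =
        Complex.exp (-x) * Complex.exp (-(z * x)) := by
      rw [← Complex.exp_add, ← Complex.exp_add]
      congr 1
      ring
    calc Complex.exp x * ((∑ k ∈ Finset.Icc 1 ⌊Real.exp x⌋₊, (f k : ℂ)) *
          Complex.exp (x * (-(1 + z + 1))))
        = (∑ k ∈ Finset.Icc 1 ⌊Real.exp x⌋₊, (f k : ℂ)) *
          (Complex.exp x * Complex.exp (x * (-(1 + z + 1)))) := by ring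
      _ = _ := by rw [h4]; ring
  rw [setIntegral_congr_fun measurableSet_Ioi h2] at h1
  have hexp : IntegrableOn (fun v : ℝ => Complex.exp (-(z * v))) (Ioi 0) := by
    have := integrableOn_exp_mul_complex_Ioi (a := -z) (by simpa using hz) 0
    refine this.congr_fun (fun v _ => ?_) measurableSet_Ioi
    simp only [neg_mul]
  have hint : IntegrableOn (fun v : ℝ => (phiS f v : ℂ) * Complex.exp (-(z * v))) (Ioi 0) := by
    refine Integrable.bdd_mul (c := C) hexp ?_ ?_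
    · exact (Complex.measurable_ofReal.comp (measurable_phiS f)).aestronglyMeasurable
    · refine Eventually.of_forall fun v => ?_
      rw [Complex.norm_real, Real.norm_of_nonneg (phiS_nonneg hf v)]
      exact phiS_le hC0 hC v
  have hval : ∫ v in Ioi (0 : ℝ), Complex.exp (-(z * v)) = 1 / z := by
    have := integral_exp_mul_complex_Ioi (a := -z) (by simpa using hz) 0
    simp only [neg_mul] at this
    rw [this]
    simp
  have hsplit : ∫ v in Ioi (0 : ℝ), ((phiS f v - A : ℝ) : ℂ) * Complex.exp (-(z * v)) =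
      (∫ v in Ioi (0 : ℝ), (phiS f v : ℂ) * Complex.exp (-(z * v))) - A * (1 / z) := by
    rw [← hval, ← integral_const_mul, ← integral_sub hint (hexp.const_mul _)]
    refine setIntegral_congr_fun measurableSet_Ioi fun v _ => ?_
    push_cast
    ring
  rw [hsplit]
  have h5 : ∫ v in Ioi (0 : ℝ), (phiS f v : ℂ) * Complex.exp (-(z * v)) =
      (G (1 + z) + A / z) / (1 + z) := by
    rw [eq_div_iff hs0, mul_comm, ← h1, add_sub_cancel_left]
  rw [h5]
  field_simp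
  ring

end Pool.Agent.Lib.MP_d9bc60_nt.TH
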