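import Mathlib
import Pool.Agent.Lib.MP_d9bc60_nt.TH.W4bRL
import Pool.Agent.Lib.MP_d9bc60_nt.TH.W5Tauber
import Pool.Agent.Lib.MP_d9bc60_nt.TH.W6Laplace

/-! Row W7 (about 80 lines): the Wiener–Ikehara theorem. -/

set_option autoImplicit false

namespace Pool.Agent.Lib.MP_d9bc60_nt.TH

open MeasureTheory Filter Topology Set

/-- `g = phiS f - A` is measurable and bounded, `H z = (G (1+z) - A)/(1+z)` is continuous on `0 ≤ re z`; `fejer_limit`, `laplace_phiS`, `tauber`
give `phiS f v → A`; put `v = log n`. -/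
theorem wiener_ikehara {f : ℕ → ℝ} {A C : ℝ} (hf : ∀ n, 0 ≤ f n) (hC0 : 0 ≤ C)
    (hC : ∀ n : ℕ, ∑ k ∈ Finset.Icc 1 n, f k ≤ C * n) (hA : 0 ≤ A) {G : ℂ → ℂ}
    (hG : ContinuousOn G {s | 1 ≤ s.re})
    (hL : ∀ s : ℂ, 1 < s.re → LSeries (fun n => (f n : ℂ)) s = G s + A / (s - 1)) :
    Tendsto (fun n : ℕ => (∑ k ∈ Finset.Icc 1 n, f k) / (n : ℝ)) atTop (𝓝 A) := by
  have hg : Measurable fun v => phiS f v - A := (measurable_phiS f).sub_const A
  have hgb : ∀ v, |phiS f v - A| ≤ C + A := by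
    intro v
    have h1 := phiS_nonneg hf v
    have h2 := phiS_le hC0 hC v
    rw [abs_le]
    constructor <;> linarith
  have hne : ∀ z : ℂ, 0 ≤ z.re → 1 + z ≠ 0 := by
    intro z hz h
    have := congrArg Complex.re h
    simp at this
    linarith
  have hH : ContinuousOn (fun z : ℂ => (G (1 + z) - A) / (1 + z)) {z | 0 ≤ z.re} := by
    refine ContinuousOn.div ?_ (by fun_prop) fun z hz => hne z hz
    refine ContinuousOn.sub ?_ continuousOn_const
    refine hG.comp (by fun_prop) ?_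
    intro z hz
    have hz' : 0 ≤ z.re := hz
    show 1 ≤ (1 + z).re
    simpa using hz'
  have hlap : ∀ z : ℂ, 0 < z.re → (fun z : ℂ => (G (1 + z) - A) / (1 + z)) z =
      ∫ v in Ioi (0 : ℝ), ((phiS f v - A : ℝ) : ℂ) * Complex.exp (-(z * v)) := fun z hz =>
    laplace_phiS hf hC0 hC hL z hz
  have hphi : Tendsto (phiS f) atTop (𝓝 A) := by
    refine tauber (measurable_phiS f) (phiS_nonneg hf) (phiS_le hC0 hC) hA
      (fun u v _ huv => phiS_mono hf huv) fun l hl => ?_
    exact fejer_limit hg hgb hH hlap hl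
  have hlog : Tendsto (fun n : ℕ => Real.log n) atTop atTop :=
    Real.tendsto_log_atTop.comp tendsto_natCast_atTop_atTop
  refine (hphi.comp hlog).congr' ?_
  filter_upwards [eventually_gt_atTop 0] with n hn
  have hn' : (0 : ℝ) < n := by exact_mod_cast hn
  show phiS f (Real.log n) = _
  unfold phiS
  rw [Real.exp_neg, Real.exp_log hn', Nat.floor_natCast, div_eq_mul_inv]

end Pool.Agent.Lib.MP_d9bc60_nt.TH
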