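import Mathlib
import Pool.Agent.Lib.MP_d9bc60_nt.TH.W7WI
import Pool.Agent.Lib.MP_d9bc60_nt.TH.Defs

/-! Row W8a (about 80 lines): prime number theorem in arithmetic progressions, `ψ` form -/

set_option autoImplicit false

namespace Pool.Agent.Lib.MP_d9bc60_nt.TH

open MeasureTheory Filter Topology Set
/-- `wiener_ikehara` with `f = ArithmeticFunction.vonMangoldt.residueClass a`,
`G = ArithmeticFunction.vonMangoldt.LFunctionResidueClassAux a` (`continuousOn_LFunctionResidueClassAux`,
`eqOn_LFunctionResidueClassAux`), `A = 1/φ(q)`, and the Chebyshev bound `Chebyshev.psi_le_const_mul_self`. -/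
theorem psi_residueClass {q : ℕ} [NeZero q] {a : ZMod q} (ha : IsUnit a) :
    Tendsto (fun n : ℕ => (∑ k ∈ Finset.Icc 1 n,
      ArithmeticFunction.vonMangoldt.residueClass a k) / (n : ℝ)) atTop
      (𝓝 ((q.totient : ℝ)⁻¹)) := by
  have hC0 : (0 : ℝ) ≤ Real.log 4 + 4 := by
    have := Real.log_nonneg (show (1 : ℝ) ≤ 4 by norm_num)
    linarith
  refine wiener_ikehara (C := Real.log 4 + 4)
    (G := ArithmeticFunction.vonMangoldt.LFunctionResidueClassAux a)
    (fun n => ArithmeticFunction.vonMangoldt.residueClass_nonneg a n) hC0 ?_ (by positivity)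
    (ArithmeticFunction.vonMangoldt.continuousOn_LFunctionResidueClassAux a) ?_
  · intro n
    refine le_trans ?_ (Chebyshev.psi_le_const_mul_self (Nat.cast_nonneg n))
    rw [Chebyshev.psi_eq_sum_Icc, Nat.floor_natCast]
    refine le_trans (Finset.sum_le_sum fun k _ =>
      ArithmeticFunction.vonMangoldt.residueClass_le a k) ?_
    exact Finset.sum_le_sum_of_subset_of_nonneg
      (Finset.Icc_subset_Icc_left (Nat.zero_le 1))
      (fun k _ _ => ArithmeticFunction.vonMangoldt_nonneg)
  · intro s hs
    have h := ArithmeticFunction.vonMangoldt.eqOn_LFunctionResidueClassAux ha hs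
    simp only at h
    rw [h]
    push_cast
    ring

end Pool.Agent.Lib.MP_d9bc60_nt.TH
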