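import Mathlib
import Pool.Agent.Lib.MP_d9bc60_nt.TH.W8aPsi
import Pool.Agent.Lib.MP_d9bc60_nt.TH.Defs

/-! Row W8b (about 150 lines): prime number theorem in arithmetic progressions, `θ` form -/

set_option autoImplicit false

namespace Pool.Agent.Lib.MP_d9bc60_nt.TH

open MeasureTheory Filter Topology Set

lemma w8b_lam_nonneg (n : ℕ) : 0 ≤ lam n := by
  unfold lam
  split_ifs with h
  · exact Real.log_nonneg (by exact_mod_cast h.one_lt.le)
  · exact le_rfl

lemma w8b_lam_le (n : ℕ) : lam n ≤ ArithmeticFunction.vonMangoldt n := by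
  unfold lam
  split_ifs with h
  · rw [ArithmeticFunction.vonMangoldt_apply_prime h]
  · exact ArithmeticFunction.vonMangoldt_nonneg

lemma w8b_tz_eq {q : ℕ} (a : ZMod q) (n : ℕ) :
    tz q 0 n a = ∑ k ∈ Finset.Icc 1 n, (if (k : ZMod q) = a then lam k else 0) := by
  rw [tz, Finset.sum_filter]
  rfl

lemma w8b_res_eq {q : ℕ} (a : ZMod q) (k : ℕ) :
    ArithmeticFunction.vonMangoldt.residueClass a k =
      if (k : ZMod q) = a then ArithmeticFunction.vonMangoldt k else 0 := by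
  rw [ArithmeticFunction.vonMangoldt.residueClass, Set.indicator_apply]
  rfl

lemma w8b_diff_nonneg {q : ℕ} (a : ZMod q) (n : ℕ) :
    tz q 0 n a ≤ ∑ k ∈ Finset.Icc 1 n, ArithmeticFunction.vonMangoldt.residueClass a k := by
  rw [w8b_tz_eq]
  refine Finset.sum_le_sum fun k _ => ?_
  rw [w8b_res_eq]
  split_ifs
  · exact w8b_lam_le k
  · exact le_rfl

lemma w8b_psi_sub_theta (n : ℕ) :
    Chebyshev.psi n - Chebyshev.theta n =
      ∑ k ∈ Finset.Icc 1 n, (ArithmeticFunction.vonMangoldt k - lam k) := by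
  rw [Chebyshev.psi, Chebyshev.theta, Finset.sum_sub_distrib, Nat.floor_natCast,
    Finset.sum_filter]
  rfl

lemma w8b_diff_le {q : ℕ} (a : ZMod q) (n : ℕ) :
    (∑ k ∈ Finset.Icc 1 n, ArithmeticFunction.vonMangoldt.residueClass a k) - tz q 0 n a ≤
      Chebyshev.psi n - Chebyshev.theta n := by
  rw [w8b_tz_eq, w8b_psi_sub_theta, ← Finset.sum_sub_distrib]
  refine Finset.sum_le_sum fun k _ => ?_
  rw [w8b_res_eq]
  split_ifs
  · exact le_rfl
  · rw [sub_zero]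
    exact sub_nonneg.mpr (w8b_lam_le k)

theorem tz_tendsto {q : ℕ} [NeZero q] {a : ZMod q} (ha : IsUnit a) :
    Tendsto (fun n : ℕ => tz q 0 n a / (n : ℝ)) atTop (𝓝 ((q.totient : ℝ)⁻¹)) := by
  obtain ⟨C, hC⟩ := Chebyshev.psi_sub_theta_le_mul_sqrt
  have h1 := psi_residueClass ha
  have h2 : Tendsto (fun n : ℕ => ((∑ k ∈ Finset.Icc 1 n,
      ArithmeticFunction.vonMangoldt.residueClass a k) - tz q 0 n a) / (n : ℝ)) atTop (𝓝 0) := by
    have h3 : Tendsto (fun n : ℕ => C / √(n : ℝ)) atTop (𝓝 0) := by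
      apply Tendsto.div_atTop tendsto_const_nhds
      exact Real.tendsto_sqrt_atTop.comp tendsto_natCast_atTop_atTop
    refine squeeze_zero (fun n => ?_) (fun n => ?_) h3
    · exact div_nonneg (sub_nonneg.mpr (w8b_diff_nonneg a n)) (Nat.cast_nonneg n)
    · rcases Nat.eq_zero_or_pos n with rfl | hn
      · simp
      · have hn' : (0 : ℝ) < n := by exact_mod_cast hn
        have h4 := (w8b_diff_le a n).trans (hC n)
        rw [div_le_div_iff₀ hn' (Real.sqrt_pos.mpr hn')]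
        calc _ ≤ C * √(n : ℝ) * √(n : ℝ) := by gcongr
          _ = C * n := by rw [mul_assoc, Real.mul_self_sqrt hn'.le]
  have h5 := h1.sub h2
  rw [sub_zero] at h5
  refine h5.congr fun n => ?_
  rw [← sub_div, sub_sub_cancel]

theorem pnt_uniform {q : ℕ} [NeZero q] {a : ZMod q} (ha : IsUnit a) {ε : ℝ} (hε : 0 < ε) :
    ∃ Y₀ : ℕ, ∀ Y : ℕ, Y₀ ≤ Y → ∀ n : ℕ, n ≤ Y →
      |tz q 0 n a - (n : ℝ) / q.totient| ≤ ε * Y := by
  have h1 := Metric.tendsto_atTop.mp (tz_tendsto ha) ε hε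
  obtain ⟨N, hN⟩ := h1
  obtain ⟨Y₀, hY₀⟩ := exists_nat_ge
    ((∑ n ∈ Finset.range N, |tz q 0 n a - (n : ℝ) / q.totient|) / ε)
  refine ⟨Y₀, fun Y hY n hn => ?_⟩
  by_cases hnN : N ≤ n
  · rcases Nat.eq_zero_or_pos n with rfl | hn0
    · simp [tz]
      positivity
    · have h2 := hN n hnN
      have hn' : (0 : ℝ) < n := by exact_mod_cast hn0
      rw [Real.dist_eq] at h2
      have h3 : tz q 0 n a - (n : ℝ) / q.totient =
          (tz q 0 n a / n - (q.totient : ℝ)⁻¹) * n := by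
        field_simp
      rw [h3, abs_mul, abs_of_pos hn']
      have h4 : (n : ℝ) ≤ Y := by exact_mod_cast hn
      calc _ ≤ ε * n := by gcongr
        _ ≤ ε * Y := by gcongr
  · have h2 : |tz q 0 n a - (n : ℝ) / q.totient| ≤
        ∑ n ∈ Finset.range N, |tz q 0 n a - (n : ℝ) / q.totient| :=
      Finset.single_le_sum (f := fun n => |tz q 0 n a - (n : ℝ) / q.totient|)
        (fun i _ => abs_nonneg _) (Finset.mem_range.mpr (by omega))
    rw [div_le_iff₀ hε] at hY₀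
    have h3 : (Y₀ : ℝ) ≤ Y := by exact_mod_cast hY
    calc _ ≤ _ := h2
      _ ≤ Y₀ * ε := hY₀
      _ ≤ ε * Y := by rw [mul_comm]; gcongr

theorem pnt_interval {q : ℕ} [NeZero q] {a : ZMod q} (ha : IsUnit a) {ε : ℝ} (hε : 0 < ε) :
    ∃ Y₀ : ℕ, ∀ Y : ℕ, Y₀ ≤ Y → ∀ u v : ℕ, u ≤ v → v ≤ Y →
      |tz q u v a - ((v : ℝ) - u) / q.totient| ≤ ε * Y := by
  obtain ⟨Y₀, h⟩ := pnt_uniform ha (half_pos hε)
  refine ⟨Y₀, fun Y hY u v huv hvY => ?_⟩
  have h1 := h Y hY u (huv.trans hvY)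
  have h2 := h Y hY v hvY
  have h3 : tz q 0 u a + tz q u v a = tz q 0 v a := by
    simp only [tz, Finset.sum_filter]
    exact Finset.sum_Ioc_consecutive _ (Nat.zero_le u) huv
  have h4 : tz q u v a - ((v : ℝ) - u) / q.totient =
      (tz q 0 v a - (v : ℝ) / q.totient) - (tz q 0 u a - (u : ℝ) / q.totient) := by
    rw [← h3]; ring
  rw [h4]
  calc _ ≤ |tz q 0 v a - (v : ℝ) / q.totient| + |tz q 0 u a - (u : ℝ) / q.totient| :=
        abs_sub _ _
    _ ≤ ε / 2 * Y + ε / 2 * Y := add_le_add h2 h1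
    _ = ε * Y := by ring

end Pool.Agent.Lib.MP_d9bc60_nt.TH
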