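import Mathlib

/-! Row L3 (about 180 lines): the dual large sieve inequality. -/

set_option autoImplicit false

namespace Pool.Agent.Lib.MP_d9bc60_nt.TH

open Finset

/-- the kernel -/
private noncomputable def l3K (M : ℕ) (r s : ℂ) : ℝ :=
  ‖∑ i ∈ range (2 * M), (r * (starRingEnd ℂ) s) ^ i‖ ^ 2

private lemma l3K_nonneg (M : ℕ) (r s : ℂ) : 0 ≤ l3K M r s := by
  unfold l3K; positivity

private lemma l3_mul_conj {r : ℂ} (hr : ‖r‖ = 1) : r * (starRingEnd ℂ) r = 1 := by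
  rw [Complex.mul_conj, Complex.normSq_eq_norm_sq, hr]; simp

private lemma l3K_self (M : ℕ) {r : ℂ} (hr : ‖r‖ = 1) : l3K M r r = 4 * (M : ℝ) ^ 2 := by
  unfold l3K
  rw [l3_mul_conj hr]
  simp only [one_pow, sum_const, card_range, nsmul_eq_mul, mul_one]
  rw [Complex.norm_natCast]
  push_cast
  ring

private lemma l3K_symm (M : ℕ) (r s : ℂ) : l3K M r s = l3K M s r := by
  unfold l3K
  have : (starRingEnd ℂ) (∑ i ∈ range (2 * M), (r * (starRingEnd ℂ) s) ^ i) =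
      ∑ i ∈ range (2 * M), (s * (starRingEnd ℂ) r) ^ i := by
    rw [map_sum]
    refine Finset.sum_congr rfl fun i _ => ?_
    rw [map_pow, map_mul, Complex.conj_conj, mul_comm]
  rw [← this, Complex.norm_conj]

private lemma l3K_le (M : ℕ) {r s : ℂ} (hr : ‖r‖ = 1) (hs : ‖s‖ = 1) (hrs : s ≠ r) :
    l3K M r s ≤ 4 * (1 / ‖s - r‖ ^ 2) := by
  unfold l3K
  set z := r * (starRingEnd ℂ) s with hz
  have hz1 : ‖z‖ = 1 := by rw [hz, norm_mul, Complex.norm_conj, hr, hs, one_mul]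
  have hnorm : ‖z - 1‖ = ‖s - r‖ := by
    have h1 : (z - 1) * s = r - s := by
      rw [hz, sub_mul, one_mul, mul_assoc, mul_comm ((starRingEnd ℂ) s) s, l3_mul_conj hs, mul_one]
    have h2 : ‖z - 1‖ * ‖s‖ = ‖r - s‖ := by rw [← norm_mul, h1]
    rw [hs, mul_one] at h2
    rw [h2, norm_sub_rev]
  have hpos : 0 < ‖s - r‖ := norm_pos_iff.2 (sub_ne_zero.2 hrs)
  have hz0 : z ≠ 1 := by
    intro h
    rw [h, sub_self, norm_zero] at hnorm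
    linarith
  rw [geom_sum_eq hz0, norm_div, hnorm]
  have h3 : ‖z ^ (2 * M) - 1‖ ≤ 2 := by
    calc ‖z ^ (2 * M) - 1‖ ≤ ‖z ^ (2 * M)‖ + ‖(1 : ℂ)‖ := norm_sub_le _ _
      _ = 2 := by rw [norm_pow, hz1, one_pow, norm_one]; norm_num
  rw [div_pow]
  have h4 : ‖z ^ (2 * M) - 1‖ ^ 2 ≤ 4 := by
    have := norm_nonneg (z ^ (2 * M) - 1)
    nlinarith
  calc ‖z ^ (2 * M) - 1‖ ^ 2 / ‖s - r‖ ^ 2 ≤ 4 / ‖s - r‖ ^ 2 := by gcongr
    _ = 4 * (1 / ‖s - r‖ ^ 2) := by ring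

/-- the double sum, expanded -/
private lemma l3_expand (R : Finset ℂ) (hR : ∀ r ∈ R, ‖r‖ = 1) (c : ℂ → ℂ) (u M : ℕ) :
    ∑ i ∈ range (2 * M), ∑ j ∈ range (2 * M),
      ‖∑ r ∈ R, c r * r ^ (u + i) * ((starRingEnd ℂ) r) ^ j‖ ^ 2 ≤
      ∑ r ∈ R, ∑ s ∈ R, ‖c r‖ * ‖c s‖ * l3K M r s := by
  set L : ℝ := ∑ i ∈ range (2 * M), ∑ j ∈ range (2 * M),
      ‖∑ r ∈ R, c r * r ^ (u + i) * ((starRingEnd ℂ) r) ^ j‖ ^ 2 with hL
  have hL0 : 0 ≤ L := Finset.sum_nonneg fun i _ => Finset.sum_nonneg fun j _ => by positivity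
  have hLc : (L : ℂ) = ∑ r ∈ R, ∑ s ∈ R, (c r * (starRingEnd ℂ) (c s) *
      (r * (starRingEnd ℂ) s) ^ u) * ((∑ i ∈ range (2 * M), (r * (starRingEnd ℂ) s) ^ i) *
      (∑ j ∈ range (2 * M), (s * (starRingEnd ℂ) r) ^ j)) := by
    rw [hL]
    push_cast
    have h1 : ∀ i j : ℕ, ((‖∑ r ∈ R, c r * r ^ (u + i) * ((starRingEnd ℂ) r) ^ j‖ : ℂ)) ^ 2 =
        ∑ r ∈ R, ∑ s ∈ R, (c r * (starRingEnd ℂ) (c s) * (r * (starRingEnd ℂ) s) ^ u) *
          ((r * (starRingEnd ℂ) s) ^ i * (s * (starRingEnd ℂ) r) ^ j) := by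
      intro i j
      rw [← Complex.mul_conj', map_sum, Finset.sum_mul_sum]
      refine Finset.sum_congr rfl fun r _ => Finset.sum_congr rfl fun s _ => ?_
      simp only [map_mul, map_pow, Complex.conj_conj, pow_add, mul_pow]
      ring
    simp only [h1]
    have h2 : ∀ i ∈ range (2 * M), ∑ j ∈ range (2 * M), ∑ r ∈ R, ∑ s ∈ R,
        (c r * (starRingEnd ℂ) (c s) * (r * (starRingEnd ℂ) s) ^ u) *
          ((r * (starRingEnd ℂ) s) ^ i * (s * (starRingEnd ℂ) r) ^ j) =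
        ∑ r ∈ R, ∑ s ∈ R, ∑ j ∈ range (2 * M),
        (c r * (starRingEnd ℂ) (c s) * (r * (starRingEnd ℂ) s) ^ u) *
          ((r * (starRingEnd ℂ) s) ^ i * (s * (starRingEnd ℂ) r) ^ j) := by
      intro i _
      rw [Finset.sum_comm]
      refine Finset.sum_congr rfl fun r _ => ?_
      rw [Finset.sum_comm]
    rw [Finset.sum_congr rfl h2, Finset.sum_comm]
    refine Finset.sum_congr rfl fun r _ => ?_
    rw [Finset.sum_comm]
    refine Finset.sum_congr rfl fun s _ => ?_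
    rw [Finset.sum_mul_sum, Finset.mul_sum]
    refine Finset.sum_congr rfl fun i _ => ?_
    rw [Finset.mul_sum]
  have hn : L = ‖(L : ℂ)‖ := by rw [Complex.norm_real, Real.norm_of_nonneg hL0]
  rw [hn, hLc]
  refine (norm_sum_le _ _).trans (Finset.sum_le_sum fun r hr => ?_)
  refine (norm_sum_le _ _).trans (Finset.sum_le_sum fun s hs => ?_)
  have h3 : ‖∑ j ∈ range (2 * M), (s * (starRingEnd ℂ) r) ^ j‖ =
      ‖∑ i ∈ range (2 * M), (r * (starRingEnd ℂ) s) ^ i‖ := by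
    have h := l3K_symm M s r
    unfold l3K at h
    exact (sq_eq_sq₀ (norm_nonneg _) (norm_nonneg _)).1 h
  rw [norm_mul, norm_mul, norm_mul, norm_mul, norm_pow, norm_mul, Complex.norm_conj,
    Complex.norm_conj, hR r hr, hR s hs, h3]
  unfold l3K
  apply le_of_eq
  ring

/-- Let `G(i,j) = ∑_r c r · r^(u+i) · (conj r)^j` for `i, j < 2M`. For `i ≥ j`, `G(i,j) = g(u+i-j)` with `g(k) = ∑_r c r · r^k` because `r · conj r = 1`.
For `1 ≤ k ≤ M` there are `≥ M` pairs `(i,j)` with `i - j = k`, so `M ∑_{k=1}^M ‖g(u+k)‖² ≤ ∑_{i,j<2M} ‖G(i,j)‖²`.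
Expanding, the right side is `∑_{r,s} c r · conj (c s) · r^u · conj(s)^u · F(r conj s)`, `F(z) = (∑_{i<2M} z^i)(∑_{j<2M} conj(z)^j) = |∑_{i<2M} z^i|²`,
`F(1) = 4M²` and `F(z) ≤ 4/|z-1|²` for `z ≠ 1` (geometric sum), `|r conj s - 1| = |r - s|`.
With `|c r||c s| ≤ (|c r|² + |c s|²)/2` the right side is `≤ ∑_r |c r|² (4M² + ∑_{s≠r} 4/|s-r|²) ≤ (4M² + 4D) ∑ |c r|²`. -/
theorem dual_sieve (R : Finset ℂ) (hR : ∀ r ∈ R, ‖r‖ = 1) (D : ℝ)
    (hD : ∀ r ∈ R, ∑ s ∈ R.erase r, 1 / ‖s - r‖ ^ 2 ≤ D) (c : ℂ → ℂ) (u M : ℕ) (hM : 0 < M) :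
    ∑ k ∈ Finset.Ioc u (u + M), ‖∑ r ∈ R, c r * r ^ k‖ ^ 2 ≤
      (4 * M + 4 * D / M) * ∑ r ∈ R, ‖c r‖ ^ 2 := by
  classical
  have hMr : (0 : ℝ) < M := by exact_mod_cast hM
  -- the double sum is at least `M` times the left side
  have h1 : (M : ℝ) * ∑ k ∈ Finset.Ioc u (u + M), ‖∑ r ∈ R, c r * r ^ k‖ ^ 2 ≤
      ∑ i ∈ range (2 * M), ∑ j ∈ range (2 * M),
      ‖∑ r ∈ R, c r * r ^ (u + i) * ((starRingEnd ℂ) r) ^ j‖ ^ 2 := by
    set F : ℕ × ℕ → ℝ := fun p =>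
      ‖∑ r ∈ R, c r * r ^ (u + p.1) * ((starRingEnd ℂ) r) ^ p.2‖ ^ 2 with hF
    have hG : ∀ k ∈ Finset.Ioc u (u + M), ∀ j : ℕ,
        F (k - u + j, j) = ‖∑ r ∈ R, c r * r ^ k‖ ^ 2 := by
      intro k hk j
      rw [Finset.mem_Ioc] at hk
      simp only [hF]
      congr 2
      refine Finset.sum_congr rfl fun r hr => ?_
      have e : u + (k - u + j) = k + j := by omega
      rw [e, pow_add, mul_assoc, mul_assoc, ← mul_pow, l3_mul_conj (hR r hr), one_pow, mul_one]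
    have h2 : (M : ℝ) * ∑ k ∈ Finset.Ioc u (u + M), ‖∑ r ∈ R, c r * r ^ k‖ ^ 2 =
        ∑ p ∈ Finset.Ioc u (u + M) ×ˢ range M, F (p.1 - u + p.2, p.2) := by
      rw [Finset.sum_product, Finset.mul_sum]
      refine Finset.sum_congr rfl fun k hk => ?_
      rw [Finset.sum_congr rfl fun j _ => hG k hk j, Finset.sum_const, card_range, nsmul_eq_mul]
    rw [h2, ← Finset.sum_product' (f := fun i j =>
      ‖∑ r ∈ R, c r * r ^ (u + i) * ((starRingEnd ℂ) r) ^ j‖ ^ 2)]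
    have hinj : Set.InjOn (fun p : ℕ × ℕ => (p.1 - u + p.2, p.2))
        (Finset.Ioc u (u + M) ×ˢ range M : Finset (ℕ × ℕ)) := by
      rintro ⟨k, j⟩ hp ⟨k', j'⟩ hq h
      rw [Finset.mem_coe, Finset.mem_product, Finset.mem_Ioc] at hp hq
      simp only [Prod.mk.injEq] at h ⊢
      simp only at hp hq
      omega
    rw [← Finset.sum_image (f := F) (s := Finset.Ioc u (u + M) ×ˢ range M)
      (g := fun p : ℕ × ℕ => (p.1 - u + p.2, p.2)) hinj]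
    refine Finset.sum_le_sum_of_subset_of_nonneg ?_ fun p _ _ => by positivity
    intro p hp
    obtain ⟨⟨k, j⟩, hkj, rfl⟩ := Finset.mem_image.1 hp
    rw [Finset.mem_product, Finset.mem_Ioc, Finset.mem_range] at hkj
    rw [Finset.mem_product, Finset.mem_range, Finset.mem_range]
    simp only at hkj ⊢
    omega
  have h2 := l3_expand R hR c u M
  have h3 : ∑ r ∈ R, ∑ s ∈ R, ‖c r‖ * ‖c s‖ * l3K M r s ≤
      ∑ r ∈ R, ∑ s ∈ R, ‖c r‖ ^ 2 * l3K M r s := by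
    have h4 : ∑ r ∈ R, ∑ s ∈ R, ‖c s‖ ^ 2 * l3K M r s =
        ∑ r ∈ R, ∑ s ∈ R, ‖c r‖ ^ 2 * l3K M r s := by
      rw [Finset.sum_comm]
      refine Finset.sum_congr rfl fun r _ => Finset.sum_congr rfl fun s _ => ?_
      rw [l3K_symm]
    have h5 : ∑ r ∈ R, ∑ s ∈ R, ‖c r‖ * ‖c s‖ * l3K M r s ≤
        ∑ r ∈ R, ∑ s ∈ R, ((1 / 2) * (‖c r‖ ^ 2 * l3K M r s) +
          (1 / 2) * (‖c s‖ ^ 2 * l3K M r s)) := by
      refine Finset.sum_le_sum fun r _ => Finset.sum_le_sum fun s _ => ?_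
      have := l3K_nonneg M r s
      nlinarith [mul_nonneg (sq_nonneg (‖c r‖ - ‖c s‖)) this]
    have h6 : ∑ r ∈ R, ∑ s ∈ R, ((1 / 2) * (‖c r‖ ^ 2 * l3K M r s) +
          (1 / 2) * (‖c s‖ ^ 2 * l3K M r s)) =
        (1 / 2) * ∑ r ∈ R, ∑ s ∈ R, ‖c r‖ ^ 2 * l3K M r s +
        (1 / 2) * ∑ r ∈ R, ∑ s ∈ R, ‖c s‖ ^ 2 * l3K M r s := by
      simp only [Finset.mul_sum, Finset.sum_add_distrib]
    rw [h6, h4] at h5
    linarith
  have h6 : ∑ r ∈ R, ∑ s ∈ R, ‖c r‖ ^ 2 * l3K M r s ≤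
      (4 * (M : ℝ) ^ 2 + 4 * D) * ∑ r ∈ R, ‖c r‖ ^ 2 := by
    rw [Finset.mul_sum]
    refine Finset.sum_le_sum fun r hr => ?_
    rw [← Finset.mul_sum, mul_comm]
    refine mul_le_mul_of_nonneg_right ?_ (by positivity)
    rw [← Finset.add_sum_erase _ _ hr, l3K_self M (hR r hr)]
    have h7 : ∑ s ∈ R.erase r, l3K M r s ≤ ∑ s ∈ R.erase r, 4 * (1 / ‖s - r‖ ^ 2) := by
      refine Finset.sum_le_sum fun s hs => ?_
      exact l3K_le M (hR r hr) (hR s (Finset.mem_of_mem_erase hs)) (Finset.ne_of_mem_erase hs)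
    rw [← Finset.mul_sum] at h7
    linarith [hD r hr]
  have h8 : (M : ℝ) * ∑ k ∈ Finset.Ioc u (u + M), ‖∑ r ∈ R, c r * r ^ k‖ ^ 2 ≤
      (M : ℝ) * ((4 * M + 4 * D / M) * ∑ r ∈ R, ‖c r‖ ^ 2) := by
    have e : (M : ℝ) * ((4 * M + 4 * D / M) * ∑ r ∈ R, ‖c r‖ ^ 2) =
        (4 * (M : ℝ) ^ 2 + 4 * D) * ∑ r ∈ R, ‖c r‖ ^ 2 := by
      field_simp
    rw [e]
    linarith
  exact le_of_mul_le_mul_left h8 hMr

end Pool.Agent.Lib.MP_d9bc60_nt.TH
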