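import Mathlib

/-! Row L1 (about 100 lines): well separated points. -/

set_option autoImplicit false

namespace Pool.Agent.Lib.MP_d9bc60_nt.TH

open Finset

theorem l1_sum_sq (K : Finset ℕ) (hK : ∀ k ∈ K, 1 ≤ k) : ∑ k ∈ K, 1 / (k : ℝ) ^ 2 ≤ 2 := by
  obtain ⟨N, hN⟩ : ∃ N : ℕ, ∀ k ∈ K, k ≤ N := ⟨K.sup id, fun k hk => Finset.le_sup (f := id) hk⟩
  have hsub : K ⊆ insert 1 (Finset.Ioc 1 (max 1 N)) := by
    intro k hk
    rw [Finset.mem_insert, Finset.mem_Ioc]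
    have h1 := hK k hk
    have h2 := hN k hk
    have h3 : N ≤ max 1 N := le_max_right _ _
    omega
  calc ∑ k ∈ K, 1 / (k : ℝ) ^ 2 ≤ ∑ k ∈ insert 1 (Finset.Ioc 1 (max 1 N)), 1 / (k : ℝ) ^ 2 :=
        Finset.sum_le_sum_of_subset_of_nonneg hsub fun k _ _ => by positivity
    _ = 1 + ∑ k ∈ Finset.Ioc 1 (max 1 N), ((k : ℝ) ^ 2)⁻¹ := by
        rw [Finset.sum_insert (by simp)]
        simp
    _ ≤ 1 + (((1 : ℕ) : ℝ)⁻¹ - ((max 1 N : ℕ) : ℝ)⁻¹) := by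
        have := sum_Ioc_inv_sq_le_sub (α := ℝ) (k := 1) (n := max 1 N) one_ne_zero (le_max_left _ _)
        linarith
    _ ≤ 2 := by
        have : (0 : ℝ) ≤ ((max 1 N : ℕ) : ℝ)⁻¹ := by positivity
        rw [Nat.cast_one, inv_one]
        linarith

theorem l1_side (Y : Finset ℝ) (z : ℝ → ℝ) (δ : ℝ) (hδ : 0 < δ)
    (hsep : ∀ y ∈ Y, ∀ y' ∈ Y, y ≠ y' → δ ≤ |z y - z y'|) (hz : ∀ y ∈ Y, δ ≤ z y) :
    ∑ y ∈ Y, 1 / (z y) ^ 2 ≤ 2 / δ ^ 2 := by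
  set k : ℝ → ℕ := fun y => ⌊z y / δ⌋₊ with hk
  have hk1 : ∀ y ∈ Y, 1 ≤ k y := by
    intro y hy
    rw [hk]
    apply Nat.le_floor
    rw [Nat.cast_one, le_div_iff₀ hδ, one_mul]
    exact hz y hy
  have hinj : Set.InjOn k Y := by
    intro y hy y' hy' h
    by_contra hne
    have h1 := hsep y hy y' hy' hne
    have hzy : 0 ≤ z y / δ := div_nonneg (hδ.le.trans (hz y hy)) hδ.le
    have hzy' : 0 ≤ z y' / δ := div_nonneg (hδ.le.trans (hz y' hy')) hδ.le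
    have a1 := Nat.floor_le hzy
    have a2 := Nat.lt_floor_add_one (z y / δ)
    have b1 := Nat.floor_le hzy'
    have b2 := Nat.lt_floor_add_one (z y' / δ)
    have h' : ((⌊z y / δ⌋₊ : ℕ) : ℝ) = ((⌊z y' / δ⌋₊ : ℕ) : ℝ) := by exact_mod_cast h
    have h2 : |z y / δ - z y' / δ| < 1 := by
      rw [abs_lt]
      constructor <;> linarith
    have h3 : |z y / δ - z y' / δ| = |z y - z y'| / δ := by
      rw [← sub_div, abs_div, abs_of_pos hδ]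
    rw [h3, div_lt_one hδ] at h2
    linarith
  have h1 : ∀ y ∈ Y, 1 / (z y) ^ 2 ≤ (1 / δ ^ 2) * (1 / ((k y : ℕ) : ℝ) ^ 2) := by
    intro y hy
    have hkpos : (0 : ℝ) < (k y : ℝ) := by exact_mod_cast hk1 y hy
    have hzy : 0 ≤ z y / δ := div_nonneg (hδ.le.trans (hz y hy)) hδ.le
    have a1 : (k y : ℝ) ≤ z y / δ := Nat.floor_le hzy
    rw [le_div_iff₀ hδ] at a1
    have a2 : (δ * (k y : ℝ)) ^ 2 ≤ (z y) ^ 2 :=
      pow_le_pow_left₀ (by positivity) (by linarith) 2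
    rw [div_mul_div_comm, one_mul, ← mul_pow]
    exact one_div_le_one_div_of_le (by positivity) a2
  calc ∑ y ∈ Y, 1 / (z y) ^ 2 ≤ ∑ y ∈ Y, (1 / δ ^ 2) * (1 / ((k y : ℕ) : ℝ) ^ 2) :=
        Finset.sum_le_sum h1
    _ = (1 / δ ^ 2) * ∑ n ∈ Y.image k, 1 / (n : ℝ) ^ 2 := by
        rw [← Finset.mul_sum, Finset.sum_image hinj]
    _ ≤ (1 / δ ^ 2) * 2 := by
        refine mul_le_mul_of_nonneg_left (l1_sum_sq _ ?_) (by positivity)
        intro n hn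
        obtain ⟨y, hy, rfl⟩ := Finset.mem_image.1 hn
        exact hk1 y hy
    _ = 2 / δ ^ 2 := by ring

/-- Points to the right of `x`: the map `y ↦ k = ⌊(y-x)/δ⌋₊ ≥ 1` is injective on them (two points in `[x+kδ, x+(k+1)δ)` have distance
`< δ`) and `(y-x)² ≥ k²δ²`; `∑_{k≥1} 1/k² ≤ 2` (`1/k² ≤ 2/k - 2/(k+1)`; or `1 + ∑_{k≥2} (1/(k-1) - 1/k)`). The same on the left. -/
theorem sum_inv_sq_sep (Y : Finset ℝ) (x δ : ℝ) (hδ : 0 < δ)
    (hsep : ∀ y ∈ Y, ∀ y' ∈ Y, y ≠ y' → δ ≤ |y - y'|) (hx : ∀ y ∈ Y, δ ≤ |y - x|) :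
    ∑ y ∈ Y, 1 / (y - x) ^ 2 ≤ 4 / δ ^ 2 := by
  rw [← Finset.sum_filter_add_sum_filter_not Y (fun y => x < y)]
  have h1 : ∑ y ∈ Y.filter (fun y => x < y), 1 / (y - x) ^ 2 ≤ 2 / δ ^ 2 := by
    refine l1_side _ (fun y => y - x) δ hδ ?_ ?_
    · intro y hy y' hy' hne
      have := hsep y (Finset.mem_filter.1 hy).1 y' (Finset.mem_filter.1 hy').1 hne
      simpa using this
    · intro y hy
      have h2 := hx y (Finset.mem_filter.1 hy).1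
      rwa [abs_of_pos (sub_pos.2 (Finset.mem_filter.1 hy).2)] at h2
  have h2 : ∑ y ∈ Y.filter (fun y => ¬ x < y), 1 / (y - x) ^ 2 ≤ 2 / δ ^ 2 := by
    have h3 : ∀ y ∈ Y.filter (fun y => ¬ x < y), 1 / (y - x) ^ 2 = 1 / (x - y) ^ 2 := by
      intro y _
      rw [← neg_sub x y, neg_sq]
    rw [Finset.sum_congr rfl h3]
    refine l1_side _ (fun y => x - y) δ hδ ?_ ?_
    · intro y hy y' hy' hne
      have := hsep y (Finset.mem_filter.1 hy).1 y' (Finset.mem_filter.1 hy').1 hne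
      rw [abs_sub_comm] at this
      simpa using this
    · intro y hy
      have h2 := hx y (Finset.mem_filter.1 hy).1
      rw [abs_sub_comm, abs_of_nonneg (sub_nonneg.2 (not_lt.1 (Finset.mem_filter.1 hy).2))] at h2
      exact h2
  calc _ ≤ 2 / δ ^ 2 + 2 / δ ^ 2 := add_le_add h1 h2
    _ = 4 / δ ^ 2 := by ring

end Pool.Agent.Lib.MP_d9bc60_nt.TH
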