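import Mathlib
import Pool.Agent.Lib.MP_d9bc60_nt.TH.L1Sep

/-! Row L2 (about 180 lines): separation of the roots of unity of order at most `Q`. -/

set_option autoImplicit false

namespace Pool.Agent.Lib.MP_d9bc60_nt.TH

open Finset

/-- the roots of unity of exact order `q ≤ Q` -/
noncomputable def rootsUpTo (Q : ℕ) : Finset ℂ :=
  (Finset.Icc 1 Q).biUnion fun q => primitiveRoots q ℂ

theorem sum_rootsUpTo (Q : ℕ) (g : ℂ → ℝ) :
    ∑ ζ ∈ rootsUpTo Q, g ζ = ∑ q ∈ Finset.Icc 1 Q, ∑ ζ ∈ primitiveRoots q ℂ, g ζ := by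
  unfold rootsUpTo
  refine Finset.sum_biUnion ?_
  intro q _ q' _ hne
  exact IsPrimitiveRoot.disjoint hne

theorem l2_mem {Q : ℕ} {ζ : ℂ} (h : ζ ∈ rootsUpTo Q) :
    ∃ q, 1 ≤ q ∧ q ≤ Q ∧ IsPrimitiveRoot ζ q := by
  unfold rootsUpTo at h
  rw [Finset.mem_biUnion] at h
  obtain ⟨q, hq, hζ⟩ := h
  rw [Finset.mem_Icc] at hq
  exact ⟨q, hq.1, hq.2, isPrimitiveRoot_of_mem_primitiveRoots hζ⟩

theorem norm_rootsUpTo {Q : ℕ} {ζ : ℂ} (h : ζ ∈ rootsUpTo Q) : ‖ζ‖ = 1 := by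
  obtain ⟨q, hq, -, hζ⟩ := l2_mem h
  exact hζ.norm'_eq_one (by omega)

theorem l2_sin {u : ℝ} (h0 : 0 ≤ u) (h1 : u < 1) : 2 * min u (1 - u) ≤ Real.sin (Real.pi * u) := by
  have hpi := Real.pi_pos
  have key : ∀ v : ℝ, 0 ≤ v → v ≤ 1 / 2 → 2 * v ≤ Real.sin (Real.pi * v) := by
    intro v hv hv2
    have := Real.mul_le_sin (x := Real.pi * v) (by positivity) (by nlinarith)
    have h3 : 2 / Real.pi * (Real.pi * v) = 2 * v := by
      field_simp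
    rwa [h3] at this
  rcases le_or_gt u (1 / 2) with h2 | h2
  · exact (mul_le_mul_of_nonneg_left (min_le_left _ _) (by norm_num)).trans (key u h0 h2)
  · have h3 := key (1 - u) (by linarith) (by linarith)
    have h4 : Real.sin (Real.pi * (1 - u)) = Real.sin (Real.pi * u) := by
      rw [mul_sub, mul_one, Real.sin_pi_sub]
    rw [h4] at h3
    exact (mul_le_mul_of_nonneg_left (min_le_right _ _) (by norm_num)).trans h3

/-- `|e^{2πix} - e^{2πiy}| ≥ 4 min(|t|, 1-|t|)`, `t = x - y`, because `|e^{2πit} - 1| = 2 |sin πt|` and `sin(πt) ≥ 2t` on `[0,1/2]`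
(`Real.mul_le_sin`). -/
theorem norm_exp_sub_ge {x y : ℝ} (h : |x - y| < 1) :
    4 * min |x - y| (1 - |x - y|) ≤
      ‖Complex.exp (2 * Real.pi * Complex.I * x) - Complex.exp (2 * Real.pi * Complex.I * y)‖ := by
  have h1 : Complex.exp (2 * Real.pi * Complex.I * x) - Complex.exp (2 * Real.pi * Complex.I * y) =
      Complex.exp (2 * Real.pi * Complex.I * y) *
        (Complex.exp (Complex.I * ((2 * Real.pi * (x - y) : ℝ) : ℂ)) - 1) := by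
    rw [mul_sub, mul_one, ← Complex.exp_add]
    congr 2
    push_cast
    ring
  have h2 : ‖Complex.exp (2 * Real.pi * Complex.I * y)‖ = 1 := by
    have : (2 * Real.pi * Complex.I * y : ℂ) = ((2 * Real.pi * y : ℝ) : ℂ) * Complex.I := by
      push_cast
      ring
    rw [this, Complex.norm_exp_ofReal_mul_I]
  have h3 : ‖Complex.exp (Complex.I * ((2 * Real.pi * (x - y) : ℝ) : ℂ)) - 1‖ =
      2 * Real.sin (Real.pi * |x - y|) := by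
    rw [Complex.norm_exp_I_mul_ofReal_sub_one]
    have h4 : 2 * Real.pi * (x - y) / 2 = Real.pi * (x - y) := by ring
    rw [h4, norm_mul, Real.norm_ofNat, Real.norm_eq_abs]
    have h5 : |Real.sin (Real.pi * (x - y))| = |Real.sin (Real.pi * |x - y|)| := by
      rcases abs_cases (x - y) with ⟨h6, -⟩ | ⟨h6, -⟩
      · rw [h6]
      · rw [h6, mul_neg, Real.sin_neg, abs_neg]
    rw [h5, abs_of_nonneg]
    apply Real.sin_nonneg_of_nonneg_of_le_pi (by positivity)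
    have := Real.pi_pos
    nlinarith [abs_nonneg (x - y)]
  rw [h1, norm_mul, h2, one_mul, h3]
  have := l2_sin (abs_nonneg (x - y)) h
  linarith

/-- the angle -/
theorem l2_angle {Q : ℕ} {ζ : ℂ} (h : ζ ∈ rootsUpTo Q) :
    ∃ a q : ℕ, 1 ≤ q ∧ q ≤ Q ∧ a < q ∧
      Complex.exp (2 * Real.pi * Complex.I * (((a : ℝ) / (q : ℝ) : ℝ) : ℂ)) = ζ := by
  obtain ⟨q, hq, hqQ, hζ⟩ := l2_mem h
  rw [Complex.isPrimitiveRoot_iff ζ q (by omega)] at hζ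
  obtain ⟨a, ha, -, hexp⟩ := hζ
  refine ⟨a, q, hq, hqQ, ha, ?_⟩
  rw [← hexp]
  push_cast
  rfl

/-- a nonzero integer divided by `q q'` -/
theorem l2_rat {Q q q' : ℕ} (hq : 1 ≤ q) (hq' : 1 ≤ q') (hQ : q ≤ Q) (hQ' : q' ≤ Q) (a a' s : ℤ)
    (hne : (a : ℝ) / q - (a' : ℝ) / q' + s ≠ 0) :
    1 / (Q : ℝ) ^ 2 ≤ |(a : ℝ) / q - (a' : ℝ) / q' + s| := by
  have hq0 : (0 : ℝ) < q := by exact_mod_cast hq
  have hq0' : (0 : ℝ) < q' := by exact_mod_cast hq'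
  have h1 : (a : ℝ) / q - (a' : ℝ) / q' + s = ((a * q' - a' * q + s * (q * q') : ℤ) : ℝ) / (q * q') := by
    push_cast
    field_simp
  have h2 : (a * q' - a' * q + s * (q * q') : ℤ) ≠ 0 := by
    intro h3
    rw [h1, h3] at hne
    simp at hne
  rw [h1, abs_div, abs_of_pos (by positivity : (0 : ℝ) < q * q')]
  have h3 : (1 : ℝ) ≤ |((a * q' - a' * q + s * (q * q') : ℤ) : ℝ)| := by
    rw [← Int.cast_abs]
    exact_mod_cast Int.one_le_abs h2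
  have h4 : (q : ℝ) * q' ≤ (Q : ℝ) ^ 2 := by
    rw [sq]
    exact mul_le_mul (by exact_mod_cast hQ) (by exact_mod_cast hQ') hq0'.le (by positivity)
  exact div_le_div₀ (abs_nonneg _) h3 (by positivity) h4

theorem l2_term {t : ℝ} (h0 : t ≠ 0) (h : |t| < 1) {m : ℝ} (hm : 4 * min |t| (1 - |t|) ≤ m) :
    1 / m ^ 2 ≤ (1 / 16) * (1 / t ^ 2 + 1 / (t - 1) ^ 2 + 1 / (t + 1) ^ 2) := by
  have hpos : 0 < |t| := abs_pos.2 h0
  have e0 : 0 ≤ 1 / t ^ 2 := by positivity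
  have e1 : 0 ≤ 1 / (t - 1) ^ 2 := by positivity
  have e2 : 0 ≤ 1 / (t + 1) ^ 2 := by positivity
  have hcase : min |t| (1 - |t|) = |t| ∨ min |t| (1 - |t|) = 1 - |t| := min_choice _ _
  have hgen : ∀ r : ℝ, 0 < r → 4 * r ≤ m → 1 / m ^ 2 ≤ (1 / 16) * (1 / r ^ 2) := by
    intro r hr hrm
    have h1 : (4 * r) ^ 2 ≤ m ^ 2 := pow_le_pow_left₀ (by positivity) hrm 2
    calc 1 / m ^ 2 ≤ 1 / (4 * r) ^ 2 := one_div_le_one_div_of_le (by positivity) h1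
      _ = (1 / 16) * (1 / r ^ 2) := by
        field_simp
        norm_num
  rcases hcase with hc | hc
  · rw [hc] at hm
    have h1 := hgen |t| hpos hm
    rw [sq_abs] at h1
    linarith
  · rw [hc] at hm
    have h1 := hgen (1 - |t|) (by linarith) hm
    rcases abs_cases t with ⟨h2, -⟩ | ⟨h2, -⟩
    · rw [h2] at h1
      have h3 : (1 - t) ^ 2 = (t - 1) ^ 2 := by ring
      rw [h3] at h1
      linarith
    · rw [h2] at h1
      have h3 : (1 - -t) ^ 2 = (t + 1) ^ 2 := by ring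
      rw [h3] at h1
      linarith

/-- Every `ξ ∈ rootsUpTo Q` is `e^{2πi x}` with `x = a/q ∈ [0,1)`, `q ≤ Q` (`Complex.mem_rootsOfUnity` / `Complex.isPrimitiveRoot_iff`).
For different `ξ, ζ` the numbers `x, y` satisfy `|x - y| ≥ 1/Q²`, `|x - y ± 1| ≥ 1/Q²` (nonzero rational numbers with denominator `qq'`), so
`1/‖ξ-ζ‖² ≤ (1/16)(1/(x-y)² + 1/(x-y-1)² + 1/(x-y+1)²)` by `norm_exp_sub_ge`, and `sum_inv_sq_sep` (with `δ = 1/Q²`,
centre `y`, `y+1`, `y-1`) gives `≤ (12/16) Q⁴`. -/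
theorem sum_roots_sep (Q : ℕ) {ζ : ℂ} (hζ : ζ ∈ rootsUpTo Q) :
    ∑ ξ ∈ (rootsUpTo Q).erase ζ, 1 / ‖ξ - ζ‖ ^ 2 ≤ (Q : ℝ) ^ 4 := by
  have hex : ∀ ξ : ℂ, ∃ x : ℝ, ξ ∈ rootsUpTo Q → ∃ a q : ℕ, 1 ≤ q ∧ q ≤ Q ∧ a < q ∧
      x = (a : ℝ) / (q : ℝ) ∧ Complex.exp (2 * Real.pi * Complex.I * (x : ℂ)) = ξ := by
    intro ξ
    by_cases h : ξ ∈ rootsUpTo Q
    · obtain ⟨a, q, h1, h2, h3, h4⟩ := l2_angle h
      exact ⟨(a : ℝ) / q, fun _ => ⟨a, q, h1, h2, h3, rfl, h4⟩⟩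
    · exact ⟨0, fun h' => absurd h' h⟩
  choose f hf using hex
  have hQ : 1 ≤ Q := by
    obtain ⟨q, h1, h2, -⟩ := l2_mem hζ
    omega
  have hQpos : (0 : ℝ) < Q := by exact_mod_cast hQ
  have hexp : ∀ ξ ∈ rootsUpTo Q, Complex.exp (2 * Real.pi * Complex.I * (f ξ : ℂ)) = ξ := by
    intro ξ hξ
    obtain ⟨a, q, -, -, -, -, h⟩ := hf ξ hξ
    exact h
  have hrange : ∀ ξ ∈ rootsUpTo Q, 0 ≤ f ξ ∧ f ξ < 1 := by
    intro ξ hξ
    obtain ⟨a, q, h1, -, h3, h4, -⟩ := hf ξ hξ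
    have hq0 : (0 : ℝ) < q := by exact_mod_cast h1
    rw [h4]
    exact ⟨by positivity, by rw [div_lt_one hq0]; exact_mod_cast h3⟩
  have hlt : ∀ ξ ∈ rootsUpTo Q, ∀ η ∈ rootsUpTo Q, |f ξ - f η| < 1 := by
    intro ξ hξ η hη
    have h1 := hrange ξ hξ
    have h2 := hrange η hη
    rw [abs_lt]
    constructor <;> linarith
  have hinj : ∀ ξ ∈ rootsUpTo Q, ∀ η ∈ rootsUpTo Q, f ξ = f η → ξ = η := by
    intro ξ hξ η hη h
    rw [← hexp ξ hξ, ← hexp η hη, h]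
  have hsep : ∀ ξ ∈ rootsUpTo Q, ∀ η ∈ rootsUpTo Q, ∀ s : ℤ, f ξ - f η + s ≠ 0 →
      1 / (Q : ℝ) ^ 2 ≤ |f ξ - f η + s| := by
    intro ξ hξ η hη s hs
    obtain ⟨a, q, h1, h2, -, h4, -⟩ := hf ξ hξ
    obtain ⟨a', q', h1', h2', -, h4', -⟩ := hf η hη
    rw [h4, h4'] at hs ⊢
    have := l2_rat h1 h1' h2 h2' (a : ℤ) (a' : ℤ) s (by push_cast; exact hs)
    push_cast at this
    exact this
  set δ : ℝ := 1 / (Q : ℝ) ^ 2 with hδ
  have hδpos : 0 < δ := by positivity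
  set y : ℝ := f ζ with hy
  set E := (rootsUpTo Q).erase ζ with hE
  have hEmem : ∀ ξ ∈ E, ξ ∈ rootsUpTo Q ∧ ξ ≠ ζ := by
    intro ξ hξ
    rw [hE, Finset.mem_erase] at hξ
    exact ⟨hξ.2, hξ.1⟩
  have hinjE : Set.InjOn f E := fun ξ hξ η hη h => hinj ξ (hEmem ξ hξ).1 η (hEmem η hη).1 h
  -- the sums with centre c
  have hsum : ∀ s : ℤ, |s| ≤ 1 → ∑ ξ ∈ E, 1 / (f ξ - (y + s)) ^ 2 ≤ 4 / δ ^ 2 := by
    intro s hs
    have h1 : ∑ ξ ∈ E, 1 / (f ξ - (y + s)) ^ 2 = ∑ x ∈ E.image f, 1 / (x - (y + s)) ^ 2 := by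
      rw [Finset.sum_image hinjE]
    rw [h1]
    refine sum_inv_sq_sep _ _ δ hδpos ?_ ?_
    · intro x hx x' hx' hne
      obtain ⟨ξ, hξ, rfl⟩ := Finset.mem_image.1 hx
      obtain ⟨η, hη, rfl⟩ := Finset.mem_image.1 hx'
      have := hsep ξ (hEmem ξ hξ).1 η (hEmem η hη).1 0 (by simpa using sub_ne_zero.2 hne)
      simpa using this
    · intro x hx
      obtain ⟨ξ, hξ, rfl⟩ := Finset.mem_image.1 hx
      have hne : f ξ - y + ((-s : ℤ) : ℝ) ≠ 0 := by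
        intro h0
        have h2 : f ξ - y = s := by
          push_cast at h0
          linarith
        have h3 := hlt ξ (hEmem ξ hξ).1 ζ hζ
        rw [← hy, h2] at h3
        have h4 : |s| < 1 := by exact_mod_cast h3
        have h5 : s = 0 := by
          rw [abs_lt] at h4
          omega
        rw [h5] at h2
        push_cast at h2
        exact (hEmem ξ hξ).2 (hinj ξ (hEmem ξ hξ).1 ζ hζ (by linarith))
      have := hsep ξ (hEmem ξ hξ).1 ζ hζ (-s) hne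
      have h6 : f ξ - f ζ + ((-s : ℤ) : ℝ) = f ξ - (y + s) := by
        push_cast
        ring
      rw [h6] at this
      exact this
  have hterm : ∀ ξ ∈ E, 1 / ‖ξ - ζ‖ ^ 2 ≤ (1 / 16) * (1 / (f ξ - (y + (0 : ℤ))) ^ 2 +
      1 / (f ξ - (y + (1 : ℤ))) ^ 2 + 1 / (f ξ - (y + (-1 : ℤ))) ^ 2) := by
    intro ξ hξ
    have hm := hEmem ξ hξ
    have hl := hlt ξ hm.1 ζ hζ
    have h1 := norm_exp_sub_ge hl
    rw [hexp ξ hm.1, hexp ζ hζ] at h1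
    have h2 := l2_term (t := f ξ - f ζ) (sub_ne_zero.2 fun h => hm.2 (hinj ξ hm.1 ζ hζ h)) hl h1
    have e0 : f ξ - (y + ((0 : ℤ) : ℝ)) = f ξ - f ζ := by push_cast; ring
    have e1 : f ξ - (y + ((1 : ℤ) : ℝ)) = f ξ - f ζ - 1 := by push_cast; ring
    have e2 : f ξ - (y + ((-1 : ℤ) : ℝ)) = f ξ - f ζ + 1 := by push_cast; ring
    rw [e0, e1, e2]
    exact h2
  calc ∑ ξ ∈ E, 1 / ‖ξ - ζ‖ ^ 2 ≤ ∑ ξ ∈ E, (1 / 16) * (1 / (f ξ - (y + (0 : ℤ))) ^ 2 +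
      1 / (f ξ - (y + (1 : ℤ))) ^ 2 + 1 / (f ξ - (y + (-1 : ℤ))) ^ 2) := Finset.sum_le_sum hterm
    _ = (1 / 16) * (∑ ξ ∈ E, 1 / (f ξ - (y + (0 : ℤ))) ^ 2 + ∑ ξ ∈ E, 1 / (f ξ - (y + (1 : ℤ))) ^ 2 +
        ∑ ξ ∈ E, 1 / (f ξ - (y + (-1 : ℤ))) ^ 2) := by
      rw [← Finset.mul_sum, Finset.sum_add_distrib, Finset.sum_add_distrib]
    _ ≤ (1 / 16) * (4 / δ ^ 2 + 4 / δ ^ 2 + 4 / δ ^ 2) := by
      have a0 := hsum 0 (by norm_num)
      have a1 := hsum 1 (by norm_num)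
      have a2 := hsum (-1) (by norm_num)
      linarith
    _ ≤ (Q : ℝ) ^ 4 := by
      have h1 : 4 / δ ^ 2 = 4 * (Q : ℝ) ^ 4 := by
        rw [hδ]
        field_simp
      rw [h1]
      have : (0 : ℝ) ≤ (Q : ℝ) ^ 4 := by positivity
      linarith

end Pool.Agent.Lib.MP_d9bc60_nt.TH
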