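import Mathlib
import Pool.Agent.Lib.MP_d9bc60_nt.TH.L2Roots
import Pool.Agent.Lib.MP_d9bc60_nt.TH.L3Dual

/-! Row L4 (about 130 lines): the large sieve inequality. -/

set_option autoImplicit false

namespace Pool.Agent.Lib.MP_d9bc60_nt.TH

open Finset

/-- Duality: `S(r) = ∑_n a n r^n`, `∑_r ‖S(r)‖² = ∑_n a n ∑_r conj(S(r)) r^n ≤ (∑ ‖a n‖²)^{1/2} (Δ ∑_r ‖S(r)‖²)^{1/2}` by Cauchy–Schwarz and
`dual_sieve` with `c r = conj (S r)`, `Δ = 4M + 4D/M`. -/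
theorem primal_sieve (R : Finset ℂ) (hR : ∀ r ∈ R, ‖r‖ = 1) (D : ℝ) (hD0 : 0 ≤ D)
    (hD : ∀ r ∈ R, ∑ s ∈ R.erase r, 1 / ‖s - r‖ ^ 2 ≤ D) (a : ℕ → ℂ) (u M : ℕ) (hM : 0 < M) :
    ∑ r ∈ R, ‖∑ n ∈ Finset.Ioc u (u + M), a n * r ^ n‖ ^ 2 ≤
      (4 * M + 4 * D / M) * ∑ n ∈ Finset.Ioc u (u + M), ‖a n‖ ^ 2 := by
  classical
  set S : ℂ → ℂ := fun r => ∑ n ∈ Finset.Ioc u (u + M), a n * r ^ n with hS
  set T : ℝ := ∑ r ∈ R, ‖S r‖ ^ 2 with hT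
  set A : ℝ := ∑ n ∈ Finset.Ioc u (u + M), ‖a n‖ ^ 2 with hA
  set Δ : ℝ := 4 * M + 4 * D / M with hΔ
  have hT0 : 0 ≤ T := Finset.sum_nonneg fun r _ => by positivity
  have hA0 : 0 ≤ A := Finset.sum_nonneg fun r _ => by positivity
  have hΔ0 : 0 ≤ Δ := by positivity
  have hdual := dual_sieve R hR D hD (fun r => (starRingEnd ℂ) (S r)) u M hM
  have hdual' : ∑ k ∈ Finset.Ioc u (u + M), ‖∑ r ∈ R, (starRingEnd ℂ) (S r) * r ^ k‖ ^ 2 ≤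
      Δ * T := by
    refine hdual.trans (le_of_eq ?_)
    rw [hT]
    congr 1
    refine Finset.sum_congr rfl fun r _ => ?_
    simp
  have hTc : (T : ℂ) = ∑ n ∈ Finset.Ioc u (u + M), a n *
      ∑ r ∈ R, (starRingEnd ℂ) (S r) * r ^ n := by
    have h1 : (T : ℂ) = ∑ r ∈ R, (starRingEnd ℂ) (S r) * S r := by
      rw [hT]
      push_cast
      refine Finset.sum_congr rfl fun r _ => ?_
      rw [Complex.conj_mul']
    rw [h1]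
    simp only [hS, Finset.mul_sum]
    rw [Finset.sum_comm]
    refine Finset.sum_congr rfl fun n _ => Finset.sum_congr rfl fun r _ => ?_
    ring
  have hTle : T ≤ ∑ n ∈ Finset.Ioc u (u + M), ‖a n‖ *
      ‖∑ r ∈ R, (starRingEnd ℂ) (S r) * r ^ n‖ := by
    calc T = ‖(T : ℂ)‖ := by rw [Complex.norm_of_nonneg hT0]
      _ ≤ _ := by
        rw [hTc]
        refine (norm_sum_le _ _).trans (le_of_eq ?_)
        refine Finset.sum_congr rfl fun n _ => ?_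
        rw [norm_mul]
  have hcs := Finset.sum_mul_sq_le_sq_mul_sq (Finset.Ioc u (u + M)) (fun n => ‖a n‖)
    (fun n => ‖∑ r ∈ R, (starRingEnd ℂ) (S r) * r ^ n‖)
  have hsq : T ^ 2 ≤ A * (Δ * T) := by
    calc T ^ 2 ≤ (∑ n ∈ Finset.Ioc u (u + M), ‖a n‖ *
          ‖∑ r ∈ R, (starRingEnd ℂ) (S r) * r ^ n‖) ^ 2 := pow_le_pow_left₀ hT0 hTle 2
      _ ≤ A * ∑ n ∈ Finset.Ioc u (u + M), ‖∑ r ∈ R, (starRingEnd ℂ) (S r) * r ^ n‖ ^ 2 := hcs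
      _ ≤ A * (Δ * T) := mul_le_mul_of_nonneg_left hdual' hA0
  rcases hT0.eq_or_lt with h0 | hpos
  · show T ≤ Δ * A
    rw [← h0]; positivity
  · show T ≤ Δ * A
    have h2 : T * T ≤ (Δ * A) * T := by nlinarith
    exact le_of_mul_le_mul_right h2 hpos

/-- `M = (v - u) + Q²`, `D = Q⁴`, `a` extended by `0`: `4M + 4Q⁴/M ≤ 8M`. -/
theorem large_sieve (a : ℕ → ℂ) (u v Q : ℕ) (huv : u ≤ v) (hQ : 0 < Q) :
    ∑ q ∈ Finset.Icc 1 Q, ∑ ζ ∈ primitiveRoots q ℂ, ‖∑ n ∈ Finset.Ioc u v, a n * ζ ^ n‖ ^ 2 ≤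
      8 * (((v : ℝ) - u) + (Q : ℝ) ^ 2) * ∑ n ∈ Finset.Ioc u v, ‖a n‖ ^ 2 := by
  classical
  set M : ℕ := (v - u) + Q ^ 2 with hMdef
  have hM : 0 < M := by positivity
  have hMr : (M : ℝ) = ((v : ℝ) - u) + (Q : ℝ) ^ 2 := by
    rw [hMdef]; push_cast [Nat.cast_sub huv]; ring
  have hsub : Finset.Ioc u v ⊆ Finset.Ioc u (u + M) :=
    Finset.Ioc_subset_Ioc_right (by omega)
  have hmem : ∀ n ∈ Finset.Ioc u (u + M), n ∉ Finset.Ioc u v → ¬ n ≤ v := by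
    intro n hn hn' h
    rw [Finset.mem_Ioc] at hn hn'
    exact hn' ⟨hn.1, h⟩
  have key := primal_sieve (rootsUpTo Q) (fun r hr => norm_rootsUpTo hr) ((Q : ℝ) ^ 4)
    (by positivity) (fun r hr => sum_roots_sep Q hr) (fun n => if n ≤ v then a n else 0) u M hM
  have e1 : ∀ ζ : ℂ, ∑ n ∈ Finset.Ioc u (u + M), (if n ≤ v then a n else 0) * ζ ^ n =
      ∑ n ∈ Finset.Ioc u v, a n * ζ ^ n := by
    intro ζ
    rw [← Finset.sum_subset hsub]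
    · refine Finset.sum_congr rfl fun n hn => ?_
      rw [if_pos (Finset.mem_Ioc.mp hn).2]
    · intro n hn hn'
      rw [if_neg (hmem n hn hn'), zero_mul]
  have e2 : ∑ n ∈ Finset.Ioc u (u + M), ‖(if n ≤ v then a n else 0 : ℂ)‖ ^ 2 =
      ∑ n ∈ Finset.Ioc u v, ‖a n‖ ^ 2 := by
    rw [← Finset.sum_subset hsub]
    · refine Finset.sum_congr rfl fun n hn => ?_
      rw [if_pos (Finset.mem_Ioc.mp hn).2]
    · intro n hn hn'
      rw [if_neg (hmem n hn hn'), norm_zero]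
      norm_num
  simp only [e1, e2] at key
  rw [sum_rootsUpTo Q (fun ζ => ‖∑ n ∈ Finset.Ioc u v, a n * ζ ^ n‖ ^ 2)] at key
  refine key.trans ?_
  have hA0 : 0 ≤ ∑ n ∈ Finset.Ioc u v, ‖a n‖ ^ 2 := Finset.sum_nonneg fun r _ => by positivity
  refine mul_le_mul_of_nonneg_right ?_ hA0
  rw [← hMr]
  have hMpos : (0 : ℝ) < M := by exact_mod_cast hM
  have hQM : (Q : ℝ) ^ 2 ≤ M := by
    rw [hMr]
    have : (u : ℝ) ≤ v := by exact_mod_cast huv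
    linarith
  have hQ4 : (Q : ℝ) ^ 4 ≤ M * M := by
    calc (Q : ℝ) ^ 4 = (Q : ℝ) ^ 2 * (Q : ℝ) ^ 2 := by ring
      _ ≤ (M : ℝ) * M := mul_le_mul hQM hQM (by positivity) hMpos.le
  have h5 : 4 * (Q : ℝ) ^ 4 / M ≤ 4 * M := by
    rw [div_le_iff₀ hMpos]; nlinarith
  linarith

end Pool.Agent.Lib.MP_d9bc60_nt.TH
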