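import Mathlib
import Pool.Agent.Lib.MP_d9bc60_nt.TH.Defs
import Pool.Agent.Lib.MP_d9bc60_nt.SecondMoment

/-! Row A1 (about 180 lines): averages of `d/φ(d)`. -/

set_option autoImplicit false

namespace Pool.Agent.Lib.MP_d9bc60_nt.TH

open Finset Sieve

/-- number of multiples of `e` up to `Y` -/
lemma a1avg_card (Y e : ℕ) :
    (((Finset.Icc 1 Y).filter (fun d => e ∣ d)).card : ℝ) ≤ (Y : ℝ) / e := by
  have h1 : (Finset.Icc 1 Y).filter (fun d => e ∣ d) = (Finset.Ioc 0 Y).filter (fun d => e ∣ d) := rfl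
  rw [h1, Nat.Ioc_filter_dvd_card_eq_div]
  exact Nat.cast_div_le

/-- `rphi d ^ 4 = ∑_{e ∈ divisors (rk 1 d)} psi e` (`Sieve.rphi_pow`), the `e` are squarefree divisors of `d`, so the sum is
`≤ ∑_{e ≤ Y squarefree} psi e · Y/e ≤ Y ∑ psi e · iphi e ≤ KK Y` (`Sieve.sum_psi_iphi`, `1/e ≤ 1/φ(e)`, `Sieve.psi_nonneg_of_sq`). -/
theorem sum_rphi_four (Y : ℕ) : ∑ d ∈ Finset.Icc 1 Y, rphi d ^ 4 ≤ KK * Y := by
  classical
  set E := (Finset.Icc 1 Y).filter Squarefree with hE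
  have h1 : ∀ d ∈ Finset.Icc 1 Y, rphi d ^ 4 ≤ ∑ e ∈ E, if e ∣ d then psi e else 0 := by
    intro d hd
    rw [Finset.mem_Icc] at hd
    rw [rphi_pow d hd.1, ← Finset.sum_filter]
    have hr := rk_props 1 d one_ne_zero
    apply Finset.sum_le_sum_of_subset_of_nonneg
    · intro e he
      have hed := Nat.dvd_of_mem_divisors he
      rw [Finset.mem_filter, hE, Finset.mem_filter, Finset.mem_Icc]
      have hev : e ∣ d := hed.trans hr.1
      exact ⟨⟨⟨Nat.pos_of_mem_divisors he, (Nat.le_of_dvd hd.1 hev).trans hd.2⟩,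
        Squarefree.squarefree_of_dvd hed hr.2.1⟩, hev⟩
    · intro e he _
      rw [Finset.mem_filter, hE, Finset.mem_filter] at he
      exact psi_nonneg_of_sq e he.1.2
  refine (Finset.sum_le_sum h1).trans ?_
  rw [Finset.sum_comm]
  have h2 : ∀ e ∈ E, (∑ d ∈ Finset.Icc 1 Y, if e ∣ d then psi e else 0) ≤
      (Y : ℝ) * (psi e * iphi e) := by
    intro e he
    rw [hE, Finset.mem_filter, Finset.mem_Icc] at he
    have hpsi := psi_nonneg_of_sq e he.2
    have he0 : 0 < e := he.1.1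
    have heR : (0 : ℝ) < e := by exact_mod_cast he0
    rw [← Finset.sum_filter, Finset.sum_const, nsmul_eq_mul]
    have h3 := a1avg_card Y e
    have h4 : (Y : ℝ) / e ≤ Y * iphi e := by
      rw [iphi_apply, div_eq_mul_inv]
      have h5 : (0 : ℝ) < e.totient := by exact_mod_cast Nat.totient_pos.2 he0
      have h6 : (e.totient : ℝ) ≤ e := by exact_mod_cast Nat.totient_le e
      gcongr
    calc (((Finset.Icc 1 Y).filter (fun d => e ∣ d)).card : ℝ) * psi e ≤ (Y * iphi e) * psi e := by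
          apply mul_le_mul_of_nonneg_right (h3.trans h4) hpsi
      _ = _ := by ring
  refine (Finset.sum_le_sum h2).trans ?_
  rw [← Finset.mul_sum, mul_comm]
  have h3 := sum_psi_iphi Y
  exact mul_le_mul_of_nonneg_right h3 (by positivity)

theorem one_le_rphi {d : ℕ} (hd : 0 < d) : 1 ≤ rphi d := by
  rw [rphi_apply, ← div_eq_mul_inv, one_le_div (by exact_mod_cast Nat.totient_pos.2 hd)]
  exact_mod_cast Nat.totient_le d

theorem one_le_KK : 1 ≤ KK := by
  unfold KK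
  apply Real.one_le_exp
  have : 0 ≤ ∑' n : ℕ, (n : ℝ) ^ (-(3 / 2) : ℝ) := tsum_nonneg (fun n => by positivity)
  linarith

/-- `d = r e`, `rphi (r e) ≤ rphi r · rphi e` (`Sieve.rphi_mul_le`), `rphi e ^ 2 ≤ rphi e ^ 4`, and `rphi r ^ 2 ≤ C √r`
(`n/φ(n) = ∏_{p ∣ n} p/(p-1)` and `p/(p-1) ≤ p^{1/4}` for `p ≥ 5`; so `rphi n ≤ 3 n^{1/4}`. Or `rphi r ^ 4 ≤ ∑_{e ∣ rk 1 r} psi e ≤ ...`). -/
theorem sum_rphi_dvd : ∃ C : ℝ, 0 < C ∧ ∀ Y r : ℕ, 0 < r →
    ∑ d ∈ (Finset.Icc 1 Y).filter (fun d => r ∣ d), rphi d ^ 2 ≤ C * Y / √r := by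
  have hK := KK_pos
  refine ⟨√KK * KK, by positivity, ?_⟩
  intro Y r hr
  have hrR : (0 : ℝ) < r := by exact_mod_cast hr
  have hr1 : rphi r ^ 2 ≤ √KK * √r := by
    have h1 : rphi r ^ 4 ≤ KK * r := by
      refine le_trans ?_ (sum_rphi_four r)
      exact Finset.single_le_sum (f := fun d => rphi d ^ 4) (fun d _ => by positivity)
        (Finset.mem_Icc.2 ⟨hr, le_rfl⟩)
    rw [← Real.sqrt_mul hK.le]
    apply Real.le_sqrt_of_sq_le
    calc (rphi r ^ 2) ^ 2 = rphi r ^ 4 := by ring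
      _ ≤ _ := h1
  -- substitution
  have h2 : (Finset.Icc 1 Y).filter (fun d => r ∣ d) = (Finset.Icc 1 (Y / r)).image (fun e => r * e) := by
    ext d
    rw [Finset.mem_filter, Finset.mem_Icc, Finset.mem_image]
    constructor
    · rintro ⟨⟨h3, h4⟩, ⟨e, rfl⟩⟩
      refine ⟨e, Finset.mem_Icc.2 ⟨?_, ?_⟩, rfl⟩
      · exact Nat.pos_of_mul_pos_left h3
      · rw [Nat.le_div_iff_mul_le hr, mul_comm]
        exact h4
    · rintro ⟨e, he, rfl⟩
      rw [Finset.mem_Icc, Nat.le_div_iff_mul_le hr] at he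
      refine ⟨⟨Nat.mul_pos hr he.1, ?_⟩, dvd_mul_right _ _⟩
      rw [mul_comm]
      exact he.2
  rw [h2, Finset.sum_image (by
    intro a _ b _ hab
    exact Nat.eq_of_mul_eq_mul_left hr hab)]
  have h3 : ∀ e ∈ Finset.Icc 1 (Y / r), rphi (r * e) ^ 2 ≤ rphi r ^ 2 * rphi e ^ 4 := by
    intro e he
    rw [Finset.mem_Icc] at he
    have h4 := rphi_mul_le r e hr he.1
    have h5 : 0 ≤ rphi (r * e) := rphi_nonneg _
    have h6 := one_le_rphi he.1
    calc rphi (r * e) ^ 2 ≤ (rphi r * rphi e) ^ 2 := by gcongr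
      _ = rphi r ^ 2 * rphi e ^ 2 := by ring
      _ ≤ rphi r ^ 2 * rphi e ^ 4 := by
        have : rphi e ^ 2 ≤ rphi e ^ 4 := pow_le_pow_right₀ h6 (by norm_num)
        gcongr
  refine (Finset.sum_le_sum h3).trans ?_
  rw [← Finset.mul_sum]
  have h4 := sum_rphi_four (Y / r)
  have h5 : ((Y / r : ℕ) : ℝ) ≤ (Y : ℝ) / r := Nat.cast_div_le
  calc rphi r ^ 2 * ∑ e ∈ Finset.Icc 1 (Y / r), rphi e ^ 4
      ≤ (√KK * √r) * (KK * ((Y : ℝ) / r)) := by
        apply mul_le_mul hr1 (h4.trans (by gcongr))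
        · exact Finset.sum_nonneg (fun d _ => by positivity)
        · positivity
    _ = √KK * KK * Y / √r := by
        have hs : (r : ℝ) = √r * √r := (Real.mul_self_sqrt hrR.le).symm
        have hs0 : 0 < √(r : ℝ) := Real.sqrt_pos.2 hrR
        rw [show (Y : ℝ) / r = (Y : ℝ) / (√r * √r) by rw [← hs]]
        field_simp

end Pool.Agent.Lib.MP_d9bc60_nt.TH
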