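import Mathlib
import Pool.Agent.Lib.MP_d9bc60_nt.TH.A1Avg

/-! Row A2 (about 170 lines): the average of `hw w d - 1`. -/

set_option autoImplicit false

namespace Pool.Agent.Lib.MP_d9bc60_nt.TH

open Finset Sieve

theorem one_le_hw (w d : ℕ) : 1 ≤ hw w d := by
  unfold hw
  refine Finset.prod_induction _ (fun x : ℝ => 1 ≤ x) (fun a b ha hb => ?_) le_rfl ?_
  · nlinarith
  · intro l hl
    have hlp := Nat.prime_of_mem_primeFactors (Finset.mem_filter.1 hl).1
    have h2 : (2 : ℝ) ≤ l := by exact_mod_cast hlp.two_le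
    rw [le_div_iff₀ (by linarith)]
    linarith

theorem a2_rk_primeFactors (w d : ℕ) :
    (rk (w.factorial) d).primeFactors = d.primeFactors.filter (fun l => w < l) := by
  rcases Nat.eq_zero_or_pos d with h0 | hd
  · subst h0
    simp [rk]
  have hr := rk_props (w.factorial) d (Nat.factorial_ne_zero w)
  rw [hr.2.2.2]
  ext l
  rw [Finset.mem_sdiff, Finset.mem_filter]
  constructor
  · rintro ⟨h1, h2⟩
    refine ⟨h1, ?_⟩
    by_contra h3
    have hlp := Nat.prime_of_mem_primeFactors h1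
    exact h2 (Nat.mem_primeFactors.2 ⟨hlp, (hlp.dvd_factorial).2 (by omega),
      Nat.factorial_ne_zero w⟩)
  · rintro ⟨h1, h2⟩
    refine ⟨h1, ?_⟩
    intro h3
    have hlp := Nat.prime_of_mem_primeFactors h1
    have := (hlp.dvd_factorial).1 (Nat.dvd_of_mem_primeFactors h3)
    omega

theorem a2_hw_pow (w d : ℕ) :
    hw w d ^ 4 = ∑ e ∈ (rk (w.factorial) d).divisors, psi e := by
  have hr := rk_props (w.factorial) d (Nat.factorial_ne_zero w)
  rw [← psi_mult.prodPrimeFactors_one_add_of_squarefree hr.2.1, a2_rk_primeFactors]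
  unfold hw
  rw [← Finset.prod_pow]
  refine Finset.prod_congr rfl fun l hl => ?_
  have hlp := Nat.prime_of_mem_primeFactors (Finset.mem_filter.1 hl).1
  rw [psi_prime l hlp, div_eq_mul_inv]
  ring

theorem a2_hw_le (w Y d : ℕ) (hd : 0 < d) (hdY : d ≤ Y) :
    hw w d ^ 4 - 1 ≤ ∑ e ∈ (Finset.Icc 1 Y).filter (fun e => Squarefree e ∧ w < e),
      if e ∣ d then psi e else 0 := by
  classical
  have hr := rk_props (w.factorial) d (Nat.factorial_ne_zero w)
  have hm0 : rk (w.factorial) d ≠ 0 := hr.2.1.ne_zero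
  have h1 : (1 : ℕ) ∈ (rk (w.factorial) d).divisors := Nat.one_mem_divisors.2 hm0
  rw [a2_hw_pow, ← Finset.add_sum_erase _ _ h1, psi_mult.map_one, add_sub_cancel_left,
    ← Finset.sum_filter]
  refine Finset.sum_le_sum_of_subset_of_nonneg ?_ ?_
  · intro e he
    rw [Finset.mem_erase] at he
    obtain ⟨he1, he2⟩ := he
    have hed := Nat.dvd_of_mem_divisors he2
    have hev : e ∣ d := hed.trans hr.1
    have he0 : 0 < e := Nat.pos_of_mem_divisors he2
    rw [Finset.mem_filter, Finset.mem_filter, Finset.mem_Icc]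
    refine ⟨⟨⟨he0, (Nat.le_of_dvd hd hev).trans hdY⟩,
      Squarefree.squarefree_of_dvd hed hr.2.1, ?_⟩, hev⟩
    have h2 := Nat.minFac_prime he1
    have h3 : e.minFac ∈ (rk (w.factorial) d).primeFactors :=
      Nat.mem_primeFactors.2 ⟨h2, (Nat.minFac_dvd e).trans hed, hm0⟩
    rw [a2_rk_primeFactors, Finset.mem_filter] at h3
    exact lt_of_lt_of_le h3.2 (Nat.minFac_le he0)
  · intro e he _
    rw [Finset.mem_filter, Finset.mem_filter] at he
    exact psi_nonneg_of_sq e he.1.2.1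

/-- With `psi` as in `Sieve.psi`: `hw w d ^ 4 = ∏_{ℓ ∣ d, ℓ > w} (1 + psi ℓ) = ∑_e psi e` over the squarefree `e ∣ d` all of whose prime factors are `> w`.
The term `e = 1` is `1`, all other `e` are `> w`. Hence `∑_{d≤Y} (hw^4 - 1) ≤ ∑_{w < e ≤ Y squarefree} psi e · Y/e ≤ (Y/√w) ∑ psi e/√e ≤ KK Y/√w`
(`Sieve.sum_psi_sinv`; for `e > w`, `1/e ≤ 1/(√w √e)`). -/
theorem sum_hw_four (w Y : ℕ) (hw0 : 0 < w) :
    ∑ d ∈ Finset.Icc 1 Y, (hw w d ^ 4 - 1) ≤ KK * Y / √w := by
  classical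
  have hwR : (0 : ℝ) < w := by exact_mod_cast hw0
  calc ∑ d ∈ Finset.Icc 1 Y, (hw w d ^ 4 - 1)
      ≤ ∑ d ∈ Finset.Icc 1 Y, ∑ e ∈ (Finset.Icc 1 Y).filter (fun e => Squarefree e ∧ w < e),
          (if e ∣ d then psi e else 0) := by
        refine Finset.sum_le_sum fun d hd => ?_
        rw [Finset.mem_Icc] at hd
        exact a2_hw_le w Y d hd.1 hd.2
    _ = ∑ e ∈ (Finset.Icc 1 Y).filter (fun e => Squarefree e ∧ w < e),
          ∑ d ∈ Finset.Icc 1 Y, (if e ∣ d then psi e else 0) := Finset.sum_comm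
    _ ≤ ∑ e ∈ (Finset.Icc 1 Y).filter (fun e => Squarefree e ∧ w < e),
          (Y / √w) * (psi e * sinv e) := by
        refine Finset.sum_le_sum fun e he => ?_
        rw [Finset.mem_filter, Finset.mem_Icc] at he
        have hpsi := psi_nonneg_of_sq e he.2.1
        rw [← Finset.sum_filter, Finset.sum_const, nsmul_eq_mul]
        have hI : Finset.Icc 1 Y = Finset.Ioc 0 Y := by
          ext x
          simp only [Finset.mem_Icc, Finset.mem_Ioc]
          omega
        rw [hI, Nat.Ioc_filter_dvd_card_eq_div]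
        have heR : (0 : ℝ) < e := by exact_mod_cast he.1.1
        have hwe : (w : ℝ) ≤ e := by exact_mod_cast he.2.2.le
        have e1 : ((Y / e : ℕ) : ℝ) ≤ (Y : ℝ) / e := Nat.cast_div_le
        have e2 : (Y : ℝ) / e ≤ (Y / √w) * (√e)⁻¹ := by
          rw [← div_eq_mul_inv, div_div]
          refine div_le_div_of_nonneg_left (by positivity) (by positivity) ?_
          calc √(w : ℝ) * √(e : ℝ) ≤ √(e : ℝ) * √(e : ℝ) :=
                mul_le_mul_of_nonneg_right (Real.sqrt_le_sqrt hwe) (Real.sqrt_nonneg _)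
            _ = e := Real.mul_self_sqrt heR.le
        rw [sinv_apply]
        calc ((Y / e : ℕ) : ℝ) * psi e ≤ ((Y / √w) * (√e)⁻¹) * psi e :=
              mul_le_mul_of_nonneg_right (e1.trans e2) hpsi
          _ = _ := by ring
    _ = (Y / √w) * ∑ e ∈ (Finset.Icc 1 Y).filter (fun e => Squarefree e ∧ w < e),
          (psi e * sinv e) := by rw [Finset.mul_sum]
    _ ≤ (Y / √w) * ∑ e ∈ (Finset.Icc 1 Y).filter Squarefree, (psi e * sinv e) := by
        refine mul_le_mul_of_nonneg_left ?_ (by positivity)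
        refine Finset.sum_le_sum_of_subset_of_nonneg ?_ ?_
        · intro e he
          rw [Finset.mem_filter] at he ⊢
          exact ⟨he.1, he.2.1⟩
        · intro e he _
          rw [Finset.mem_filter] at he
          refine mul_nonneg (psi_nonneg_of_sq e he.2) ?_
          rw [sinv_apply]
          positivity
    _ ≤ (Y / √w) * KK := mul_le_mul_of_nonneg_left (sum_psi_sinv Y) (by positivity)
    _ = _ := by ring

/-- `(h-1)² ≤ h⁴ - 1` for `h ≥ 1`, and Cauchy–Schwarz with `sum_rphi_four`: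
`∑ rphi² (h-1) ≤ (KK Y)^{1/2} (KK Y/√w)^{1/2}`. -/
theorem sum_rphi_hw (w Y : ℕ) (hw0 : 0 < w) :
    ∑ d ∈ Finset.Icc 1 Y, rphi d ^ 2 * (hw w d - 1) ≤ KK * Y / (w : ℝ) ^ (1 / 4 : ℝ) := by
  have hwR : (0 : ℝ) < w := by exact_mod_cast hw0
  have hKK := KK_pos
  have h1 := Finset.sum_mul_sq_le_sq_mul_sq (Finset.Icc 1 Y) (fun d => rphi d ^ 2)
    (fun d => hw w d - 1)
  have h2 : ∑ d ∈ Finset.Icc 1 Y, (rphi d ^ 2) ^ 2 ≤ KK * Y := by
    refine le_trans (le_of_eq ?_) (sum_rphi_four Y)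
    exact Finset.sum_congr rfl fun d _ => by ring
  have h3 : ∑ d ∈ Finset.Icc 1 Y, (hw w d - 1) ^ 2 ≤ KK * Y / √w := by
    refine le_trans (Finset.sum_le_sum fun d _ => ?_) (sum_hw_four w Y hw0)
    have h4 := one_le_hw w d
    have h5 : 1 ≤ hw w d ^ 2 := one_le_pow₀ h4
    nlinarith
  have h4 : (∑ d ∈ Finset.Icc 1 Y, rphi d ^ 2 * (hw w d - 1)) ^ 2 ≤
      (KK * Y / (w : ℝ) ^ (1 / 4 : ℝ)) ^ 2 := by
    refine h1.trans ?_
    have h5 : ((w : ℝ) ^ (1 / 4 : ℝ)) ^ 2 = √w := by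
      rw [← Real.rpow_natCast, ← Real.rpow_mul hwR.le, Real.sqrt_eq_rpow]
      norm_num
    calc _ ≤ (KK * Y) * (KK * Y / √w) :=
          mul_le_mul h2 h3 (Finset.sum_nonneg fun d _ => sq_nonneg _) (by positivity)
      _ = _ := by
          rw [div_pow, h5]
          ring
  exact le_of_sq_le_sq h4 (by positivity)

end Pool.Agent.Lib.MP_d9bc60_nt.TH
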