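import Mathlib
import Pool.Agent.Lib.MP_d9bc60_nt.TH.A2Hw

/-! Row A3 (about 180 lines): sums over pairs of primes of `(P, 2P]`. -/

set_option autoImplicit false

namespace Pool.Agent.Lib.MP_d9bc60_nt.TH

open Finset Sieve

theorem lam_nonneg (n : ℕ) : 0 ≤ lam n := by
  unfold lam
  split_ifs
  · exact Real.log_natCast_nonneg n
  · exact le_rfl

theorem lam_le_log {n N : ℕ} (h : n ≤ N) (hN : 1 ≤ N) : lam n ≤ Real.log N := by
  unfold lam
  split_ifs with hp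
  · exact Real.log_le_log (by exact_mod_cast hp.pos) (by exact_mod_cast h)
  · exact Real.log_natCast_nonneg N

/-- `Chebyshev.theta_le_log4_mul_x` (`log 4 < 3/2`); `∑_{n ≤ N} lam n = θ(N)`. -/
theorem sum_lam_le (N : ℕ) : ∑ n ∈ Finset.Icc 1 N, lam n ≤ (3 / 2) * N := by
  have h1 : ∑ n ∈ Finset.Icc 1 N, lam n = Chebyshev.theta N := by
    rw [Chebyshev.theta, Nat.floor_natCast, Finset.sum_filter]
    rfl
  rw [h1]
  refine (Chebyshev.theta_le_log4_mul_x (Nat.cast_nonneg N)).trans ?_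
  refine mul_le_mul_of_nonneg_right ?_ (Nat.cast_nonneg N)
  have h2 : Real.log 4 = 2 * Real.log 2 := by
    rw [show (4 : ℝ) = 2 ^ 2 by norm_num, Real.log_pow]
    norm_num
  rw [h2]
  have := Real.log_two_lt_d9
  linarith

/-- the number of pairs with a given difference -/
theorem a3_card_le (P d : ℕ) :
    (((((Finset.Ioc P (2 * P)) ×ˢ (Finset.Ioc P (2 * P))).filter
      (fun x : ℕ × ℕ => x.1 < x.2)).filter (fun x => x.2 - x.1 = d)).filter
        (fun x => x.1.Prime ∧ x.2.Prime)).card ≤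
    ((Finset.Icc 1 (2 * P)).filter (fun p => p.Prime ∧ (p + d).Prime)).card := by
  refine Finset.card_le_card_of_injOn (fun x => x.1) ?_ ?_
  · intro x hx
    simp only [Finset.coe_filter, Finset.mem_filter, Finset.mem_product, Finset.mem_Ioc,
      Set.mem_ofPred_eq] at hx
    simp only [Finset.coe_filter, Finset.mem_Icc, Set.mem_ofPred_eq]
    obtain ⟨⟨⟨⟨h1, h2⟩, h3⟩, h4⟩, h5, h6⟩ := hx
    refine ⟨⟨h5.pos, h1.2⟩, h5, ?_⟩
    have h7 : x.1 + d = x.2 := by omega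
    rw [h7]
    exact h6
  · intro x hx y hy hxy
    simp only [Finset.coe_filter, Finset.mem_filter, Finset.mem_product, Finset.mem_Ioc,
      Set.mem_ofPred_eq] at hx hy
    obtain ⟨⟨⟨⟨h1, h2⟩, h3⟩, h4⟩, h5, h6⟩ := hx
    obtain ⟨⟨⟨⟨k1, k2⟩, k3⟩, k4⟩, k5, k6⟩ := hy
    have hxy' : x.1 = y.1 := hxy
    refine Prod.ext hxy' ?_
    omega

/-- Group the pairs by `d = q - p ∈ [1, P]`: for each `d` the number of `p` is `≤ #{p ≤ 2P : p, p+d prime} ≤ 1026 · 2P/(log 2P)² · rphi(d)²` (`Sieve.pp`)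
and `lam p · lam q ≤ (log 2P)²`. -/
theorem sum_pairs_le : ∃ P₀ : ℕ, ∀ P : ℕ, P₀ ≤ P → ∀ F : ℕ → ℝ, (∀ d, 0 ≤ F d) →
    ∑ p ∈ Finset.Ioc P (2 * P), ∑ q ∈ (Finset.Ioc P (2 * P)).filter (fun q => p < q),
        lam p * lam q * F (q - p) ≤
      2052 * P * ∑ d ∈ Finset.Icc 1 P, rphi d ^ 2 * F d := by
  obtain ⟨N₀, hN₀, hpp⟩ := Sieve.pp
  refine ⟨N₀, fun P hP F hF => ?_⟩
  have hP2 : 2 ≤ P := hN₀.trans hP
  have hlog : 0 < Real.log ((2 * P : ℕ) : ℝ) := by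
    apply Real.log_pos
    have : (2 : ℝ) ≤ P := by exact_mod_cast hP2
    push_cast
    linarith
  have h1 : ∑ p ∈ Finset.Ioc P (2 * P), ∑ q ∈ (Finset.Ioc P (2 * P)).filter (fun q => p < q),
        lam p * lam q * F (q - p) =
      ∑ x ∈ ((Finset.Ioc P (2 * P)) ×ˢ (Finset.Ioc P (2 * P))).filter
        (fun x : ℕ × ℕ => x.1 < x.2), lam x.1 * lam x.2 * F (x.2 - x.1) := by
    rw [Finset.sum_filter, Finset.sum_product]
    refine Finset.sum_congr rfl fun p _ => ?_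
    rw [Finset.sum_filter]
  rw [h1, ← Finset.sum_fiberwise_of_maps_to (t := Finset.Icc 1 P) (g := fun x : ℕ × ℕ => x.2 - x.1)
    (by
      intro x hx
      simp only [Finset.mem_filter, Finset.mem_product, Finset.mem_Ioc] at hx
      simp only [Finset.mem_Icc]
      omega), Finset.mul_sum]
  refine Finset.sum_le_sum fun d hd => ?_
  rw [Finset.mem_Icc] at hd
  set S := (((Finset.Ioc P (2 * P)) ×ˢ (Finset.Ioc P (2 * P))).filter
      (fun x : ℕ × ℕ => x.1 < x.2)).filter (fun x => x.2 - x.1 = d) with hS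
  have h2 : ∀ x ∈ S, lam x.1 * lam x.2 * F (x.2 - x.1) ≤
      if x.1.Prime ∧ x.2.Prime then Real.log ((2 * P : ℕ) : ℝ) ^ 2 * F d else 0 := by
    intro x hx
    rw [hS] at hx
    simp only [Finset.mem_filter, Finset.mem_product, Finset.mem_Ioc] at hx
    obtain ⟨⟨⟨h3, h4⟩, h5⟩, h6⟩ := hx
    rw [h6]
    split_ifs with hp
    · refine mul_le_mul_of_nonneg_right ?_ (hF d)
      rw [pow_two]
      exact mul_le_mul (lam_le_log h3.2 (by omega)) (lam_le_log h4.2 (by omega)) (lam_nonneg _)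
        hlog.le
    · rcases not_and_or.1 hp with h | h
      · have : lam x.1 = 0 := by unfold lam; rw [if_neg h]
        rw [this, zero_mul, zero_mul]
      · have : lam x.2 = 0 := by unfold lam; rw [if_neg h]
        rw [this, mul_zero, zero_mul]
  have h3 := Finset.sum_le_sum h2
  refine h3.trans ?_
  rw [← Finset.sum_filter, Finset.sum_const, nsmul_eq_mul]
  have h4 := a3_card_le P d
  rw [← hS] at h4
  have h5 := hpp (2 * P) (by omega) d (by omega)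
  have h6 : ((S.filter (fun x => x.1.Prime ∧ x.2.Prime)).card : ℝ) ≤
      1026 * ((2 * P : ℕ) : ℝ) / (Real.log ((2 * P : ℕ) : ℝ)) ^ 2 * (rphi d) ^ 2 :=
    le_trans (by exact_mod_cast h4) h5
  calc ((S.filter (fun x => x.1.Prime ∧ x.2.Prime)).card : ℝ) *
        (Real.log ((2 * P : ℕ) : ℝ) ^ 2 * F d)
      ≤ (1026 * ((2 * P : ℕ) : ℝ) / (Real.log ((2 * P : ℕ) : ℝ)) ^ 2 * (rphi d) ^ 2) *
        (Real.log ((2 * P : ℕ) : ℝ) ^ 2 * F d) :=
        mul_le_mul_of_nonneg_right h6 (mul_nonneg (sq_nonneg _) (hF d))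
    _ = 2052 * P * (rphi d ^ 2 * F d) := by
        have hne : Real.log ((2 * P : ℕ) : ℝ) ≠ 0 := hlog.ne'
        push_cast at hne ⊢
        field_simp
        ring

/-- From `sum_pairs_le` and `sum_rphi_hw`. -/
theorem sum_pairs_hw : ∃ P₀ : ℕ, ∀ P : ℕ, P₀ ≤ P → ∀ w : ℕ, 0 < w →
    ∑ p ∈ Finset.Ioc P (2 * P), ∑ q ∈ (Finset.Ioc P (2 * P)).filter (fun q => p < q),
        lam p * lam q * (hw w (q - p) - 1) ≤
      2052 * KK * (P : ℝ) ^ 2 / (w : ℝ) ^ (1 / 4 : ℝ) := by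
  obtain ⟨P₀, h⟩ := sum_pairs_le
  refine ⟨P₀, fun P hP w hw0 => ?_⟩
  refine (h P hP (fun d => hw w d - 1) (fun d => by have := one_le_hw w d; linarith)).trans ?_
  calc 2052 * (P : ℝ) * ∑ d ∈ Finset.Icc 1 P, rphi d ^ 2 * (hw w d - 1)
      ≤ 2052 * (P : ℝ) * (KK * P / (w : ℝ) ^ (1 / 4 : ℝ)) :=
        mul_le_mul_of_nonneg_left (sum_rphi_hw w P hw0) (by positivity)
    _ = 2052 * KK * (P : ℝ) ^ 2 / (w : ℝ) ^ (1 / 4 : ℝ) := by ring

end Pool.Agent.Lib.MP_d9bc60_nt.TH
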