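import Mathlib
import Pool.Agent.Lib.MP_d9bc60_nt.TH.Defs

/-! Row P1 (about 170 lines): elementary facts on the range of the parameters. -/

set_option autoImplicit false

namespace Pool.Agent.Lib.MP_d9bc60_nt.TH

open Finset Filter

private lemma p1_large {K : ℝ} (hK : 0 < K) (M : ℝ) :
    ∀ᶠ B : ℕ in atTop, M ≤ K * (Real.log B * Real.log (Real.log B)) := by
  have h1 : Tendsto (fun B : ℕ => Real.log (B : ℝ)) atTop atTop :=
    Real.tendsto_log_atTop.comp tendsto_natCast_atTop_atTop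
  have h2 : Tendsto (fun B : ℕ => Real.log (Real.log (B : ℝ))) atTop atTop :=
    Real.tendsto_log_atTop.comp h1
  exact ((h1.atTop_mul_atTop₀ h2).const_mul_atTop hK).eventually_ge_atTop M

private lemma p1_X {K : ℝ} (hK : 0 < K) (M : ℝ) :
    ∀ᶠ B : ℕ in atTop, ∀ X : ℕ, Rng K B X → M * B ≤ (X : ℝ) := by
  filter_upwards [p1_large hK M] with B hB X hX
  have h := mul_le_mul_of_nonneg_right hB (Nat.cast_nonneg B (α := ℝ))
  calc M * B ≤ K * (Real.log B * Real.log (Real.log B)) * B := h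
    _ = K * B * Real.log B * Real.log (Real.log B) := by ring
    _ ≤ X := hX.1

/-- `X ≥ K B log B log log B ≥ M` for `B` large. -/
theorem rng_X_large {K : ℝ} (hK : 0 < K) (M : ℝ) :
    ∀ᶠ B : ℕ in atTop, ∀ X : ℕ, Rng K B X → M ≤ (X : ℝ) := by
  filter_upwards [p1_X hK |M|, eventually_ge_atTop 1] with B hB hB1 X hX
  have h := hB X hX
  have h1 : (1 : ℝ) ≤ B := by exact_mod_cast hB1
  have h2 : |M| * 1 ≤ |M| * B := mul_le_mul_of_nonneg_left h1 (abs_nonneg M)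
  linarith [le_abs_self M]

/-- `δ' X/B ≥ δ' K log B log log B → ∞`. -/
theorem rng_P_large {K δ' : ℝ} (hK : 0 < K) (hδ' : 0 < δ') (M : ℕ) :
    ∀ᶠ B : ℕ in atTop, ∀ X : ℕ, Rng K B X → M ≤ PX δ' B X := by
  filter_upwards [p1_X hK (M / δ'), eventually_ge_atTop 1] with B hB hB1 X hX
  have h := hB X hX
  have h1 : (1 : ℝ) ≤ B := by exact_mod_cast hB1
  unfold PX
  refine Nat.le_floor ?_
  rw [le_div_iff₀ (by linarith)]
  have h2 : δ' * ((M : ℝ) / δ' * B) ≤ δ' * X := mul_le_mul_of_nonneg_left h hδ'.le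
  have h3 : δ' * ((M : ℝ) / δ' * B) = M * B := by field_simp
  linarith

/-- `P B ≤ δ' X`. -/
theorem PX_mul_le {δ' : ℝ} (hδ' : 0 < δ') (B X : ℕ) : (PX δ' B X : ℝ) * B ≤ δ' * X := by
  rcases Nat.eq_zero_or_pos B with h | h
  · subst h
    simp only [Nat.cast_zero, mul_zero]
    positivity
  · have h1 : (0 : ℝ) < B := by exact_mod_cast h
    unfold PX
    have h2 : ((⌊δ' * X / B⌋₊ : ℕ) : ℝ) ≤ δ' * X / B := Nat.floor_le (by positivity)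
    rwa [le_div_iff₀ h1] at h2

/-- `δ' X - B ≤ P B` and `B ≤ δ' X/2`. -/
theorem rng_P_lower {K δ' : ℝ} (hK : 0 < K) (hδ' : 0 < δ') :
    ∀ᶠ B : ℕ in atTop, ∀ X : ℕ, Rng K B X → δ' * X / 2 ≤ (PX δ' B X : ℝ) * B := by
  filter_upwards [p1_X hK (2 / δ'), eventually_ge_atTop 1] with B hB hB1 X hX
  have h := hB X hX
  have h1 : (0 : ℝ) < B := by exact_mod_cast hB1
  have h2 : δ' * (2 / δ' * B) ≤ δ' * X := mul_le_mul_of_nonneg_left h hδ'.le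
  have h3 : δ' * (2 / δ' * B) = 2 * B := by field_simp
  unfold PX
  have h4 : δ' * X / B < ((⌊δ' * X / B⌋₊ : ℕ) : ℝ) + 1 := Nat.lt_floor_add_one _
  rw [div_lt_iff₀ h1] at h4
  nlinarith

/-- `P ≤ δ' X/B ≤ 4 δ' B ≤ B/4`. -/
theorem rng_P_le_B {K δ' : ℝ} (hK : 0 < K) (hδ' : 0 < δ') (h16 : 16 * δ' ≤ 1) :
    ∀ᶠ B : ℕ in atTop, ∀ X : ℕ, Rng K B X → 4 * PX δ' B X ≤ B := by
  filter_upwards [eventually_ge_atTop 1] with B hB1 X hX
  have h1 : (0 : ℝ) < B := by exact_mod_cast hB1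
  have h2 := PX_mul_le hδ' B X
  have h3 := hX.2
  have h4 : ((4 * PX δ' B X : ℕ) : ℝ) ≤ (B : ℝ) := by
    push_cast
    have h5 : (4 * (PX δ' B X : ℝ)) * B ≤ B * B := by
      have h6 : δ' * X ≤ δ' * (4 * (B : ℝ) ^ 2) := mul_le_mul_of_nonneg_left h3 hδ'.le
      have h7 : (16 * δ') * (B : ℝ) ^ 2 ≤ 1 * (B : ℝ) ^ 2 :=
        mul_le_mul_of_nonneg_right h16 (by positivity)
      nlinarith
    exact le_of_mul_le_mul_right h5 h1
  exact_mod_cast h4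

/-- `P² ≤ 4 δ'² X ≤ X` (as `P ≤ δ' X/B` and `X ≤ 4B²`). -/
theorem rng_P_sq {K δ' : ℝ} (hK : 0 < K) (hδ' : 0 < δ') (h16 : 16 * δ' ≤ 1) :
    ∀ᶠ B : ℕ in atTop, ∀ X : ℕ, Rng K B X → (PX δ' B X) ^ 2 ≤ X := by
  filter_upwards [rng_P_le_B hK hδ' h16] with B hB X hX
  have h1 := hB X hX
  have h2 := PX_mul_le hδ' B X
  have h3 : (4 * (PX δ' B X : ℝ)) ≤ B := by exact_mod_cast h1
  have h4 : ((PX δ' B X ^ 2 : ℕ) : ℝ) ≤ (X : ℝ) := by
    push_cast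
    have hP : (0 : ℝ) ≤ PX δ' B X := Nat.cast_nonneg _
    have hX0 : (0 : ℝ) ≤ X := Nat.cast_nonneg _
    have h5 : (PX δ' B X : ℝ) * (4 * (PX δ' B X : ℝ)) ≤ (PX δ' B X : ℝ) * B :=
      mul_le_mul_of_nonneg_left h3 hP
    have h6 : (16 * δ') * X ≤ 1 * X := mul_le_mul_of_nonneg_right h16 hX0
    nlinarith
  exact_mod_cast h4

/-- `ρX/2 ≤ HX ρ X ≤ ρX` and `M ≤ HX ρ X` for `B` large. -/
theorem rng_H {K ρ : ℝ} (hK : 0 < K) (hρ : 0 < ρ) (M : ℕ) :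
    ∀ᶠ B : ℕ in atTop, ∀ X : ℕ, Rng K B X →
      ρ * X / 2 ≤ (HX ρ X : ℝ) ∧ (HX ρ X : ℝ) ≤ ρ * X ∧ M ≤ HX ρ X := by
  filter_upwards [rng_X_large hK ((M + 2) / ρ)] with B hB X hX
  have h := hB X hX
  rw [div_le_iff₀ hρ] at h
  have hM : (0 : ℝ) ≤ M := Nat.cast_nonneg _
  unfold HX
  have h1 : ρ * X < ((⌊ρ * X⌋₊ : ℕ) : ℝ) + 1 := Nat.lt_floor_add_one _
  refine ⟨?_, Nat.floor_le (by positivity), Nat.le_floor ?_⟩
  · nlinarith
  · nlinarith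

/-- For `p ≤ 2P`, `b ≤ B`: `p (p+b) ≤ 2P · (2P + B) ≤ 2P · 2B = 4PB ≤ 4 δ' X` (`rng_P_le_B`). -/
theorem rng_shift {K δ' : ℝ} (hK : 0 < K) (hδ' : 0 < δ') (h16 : 16 * δ' ≤ 1) :
    ∀ᶠ B : ℕ in atTop, ∀ X : ℕ, Rng K B X → ∀ p b : ℕ, p ≤ 2 * PX δ' B X → b ≤ B →
      ((p * (p + b) : ℕ) : ℝ) ≤ 4 * δ' * X := by
  filter_upwards [rng_P_le_B hK hδ' h16] with B hB X hX p b hp hb
  have h1 := hB X hX
  have h2 := PX_mul_le hδ' B X
  have h3 : p * (p + b) ≤ (2 * PX δ' B X) * (2 * B) := Nat.mul_le_mul hp (by omega)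
  have h4 : ((p * (p + b) : ℕ) : ℝ) ≤ (((2 * PX δ' B X) * (2 * B) : ℕ) : ℝ) := by
    exact_mod_cast h3
  push_cast at h4 ⊢
  nlinarith

private lemma p1_count (W : ℕ) (hW : 0 < W) (v B : ℕ) :
    (B : ℝ) / W - 1 ≤ (((Finset.Ioc 0 B).filter (fun b => b ≡ v [MOD W])).card : ℝ) ∧
      (((Finset.Ioc 0 B).filter (fun b => b ≡ v [MOD W])).card : ℝ) ≤ (B : ℝ) / W + 1 := by
  have h := Nat.Ioc_filter_modEq_card 0 B hW v
  have hWq : (0 : ℚ) < W := by exact_mod_cast hW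
  set c := ((Finset.Ioc 0 B).filter (fun b => b ≡ v [MOD W])).card with hc
  have h1 : ((c : ℤ) : ℚ) =
      ((max (⌊((B : ℚ) - v) / W⌋ - ⌊(((0 : ℕ) : ℚ) - v) / W⌋) 0 : ℤ) : ℚ) := by
    exact_mod_cast congrArg (fun z : ℤ => (z : ℚ)) h
  push_cast at h1
  have f1 := Int.floor_le (((B : ℚ) - v) / W)
  have f2 := Int.lt_floor_add_one (((B : ℚ) - v) / W)
  have f3 := Int.floor_le ((0 - (v : ℚ)) / W)
  have f4 := Int.lt_floor_add_one ((0 - (v : ℚ)) / W)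
  have e : ((B : ℚ) - v) / W = B / W + (0 - (v : ℚ)) / W := by ring
  have hB : (0 : ℚ) ≤ (B : ℚ) / W := by positivity
  have h2 : (B : ℚ) / W - 1 ≤ (c : ℚ) := by
    rw [h1]
    refine le_trans ?_ (le_max_left _ _)
    linarith
  have h3 : (c : ℚ) ≤ (B : ℚ) / W + 1 := by
    rw [h1]
    refine max_le ?_ (by linarith)
    linarith
  constructor
  · have := (Rat.cast_le (K := ℝ)).2 h2
    push_cast at this
    exact this
  · have := (Rat.cast_le (K := ℝ)).2 h3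
    push_cast at this
    exact this

/-- `(1-η) B/W ≤ |bS W β B| ≤ (1+η) B/W`. -/
theorem card_bS (W : ℕ) (hW : 0 < W) {η : ℝ} (hη : 0 < η) :
    ∀ᶠ B : ℕ in atTop, ∀ β : ℕ, (1 - η) * B / W ≤ ((bS W β B).card : ℝ) ∧
      ((bS W β B).card : ℝ) ≤ (1 + η) * B / W := by
  have hWr : (0 : ℝ) < W := by exact_mod_cast hW
  have h1 : ∀ᶠ B : ℕ in atTop, (W : ℝ) / η ≤ (B : ℝ) :=
    tendsto_natCast_atTop_atTop.eventually_ge_atTop _
  filter_upwards [h1] with B hB β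
  have hB' : 1 ≤ η * B / W := by
    rw [le_div_iff₀ hWr, one_mul]
    rwa [div_le_iff₀ hη, mul_comm] at hB
  have hbs : bS W β B = (Finset.Ioc 0 B).filter (fun b => b ≡ β [MOD W]) := by
    unfold bS
    congr 1
  obtain ⟨c1, c2⟩ := p1_count W hW β B
  rw [hbs]
  constructor
  · have e : (1 - η) * B / W = (B : ℝ) / W - η * B / W := by ring
    rw [e]; linarith
  · have e : (1 + η) * B / W = (B : ℝ) / W + η * B / W := by ring
    rw [e]; linarith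

/-- `|mS W μ δ X| ≤ X/W + 1 ≤ (1+η) X/W`. -/
theorem card_mS (W : ℕ) (hW : 0 < W) {η : ℝ} (hη : 0 < η) :
    ∀ᶠ X : ℕ in atTop, ∀ μ : ℕ, ∀ δ : ℝ, 0 ≤ δ → ((mS W μ δ X).card : ℝ) ≤ (1 + η) * X / W := by
  filter_upwards [card_bS W hW hη] with X hX μ δ _
  refine le_trans ?_ (hX μ).2
  have hsub : mS W μ δ X ⊆ bS W μ X := by
    intro m hm
    unfold mS at hm
    unfold bS
    rw [Finset.mem_filter, Finset.mem_Ioc] at hm
    rw [Finset.mem_filter, Finset.mem_Icc]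
    exact ⟨⟨by omega, hm.1.2⟩, hm.2⟩
  exact_mod_cast Finset.card_le_card hsub

end Pool.Agent.Lib.MP_d9bc60_nt.TH
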