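import Mathlib
import Pool.Agent.Lib.MP_d9bc60_nt.TH.P1Range
import Pool.Agent.Lib.MP_d9bc60_nt.TH.A3Pairs

/-! Row D1 (about 200 lines): the diagonal terms. -/

set_option autoImplicit false

namespace Pool.Agent.Lib.MP_d9bc60_nt.TH

open Finset Filter

/-- `log(2P) log X ≤ c P` for `K` large: `log X ≤ 3 log B` (`X ≤ 4B²`, `B ≥ 4`), and with `P₁ = δ' K log B log log B/2 ≤ P` one has
`log(2P)/P ≤ log(2P₁)/P₁` (`x ↦ log x/x` decreasing for `x ≥ e`), `log(2P₁) ≤ 2 log log B` for `B` large (depending on `K`), so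
`log(2P) log X/P ≤ 3 log B · 2 log log B · 2/(δ' K log B log log B) = 12/(δ' K)`. -/
theorem log_mul_log_le {δ' c : ℝ} (hδ' : 0 < δ') (hc : 0 < c) : ∃ K₀ : ℝ, 0 < K₀ ∧ ∀ K : ℝ,
    K₀ ≤ K → ∀ᶠ B : ℕ in atTop, ∀ X : ℕ, Rng K B X →
      Real.log (2 * PX δ' B X) * Real.log X ≤ c * PX δ' B X := by
  refine ⟨12 / (δ' * c), by positivity, ?_⟩
  intro K hK
  have hK0 : 0 < K := lt_of_lt_of_le (by positivity) hK
  have hdK : 0 < δ' * K := by positivity
  have tL : Tendsto (fun B : ℕ => Real.log (B : ℝ)) atTop atTop :=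
    Real.tendsto_log_atTop.comp tendsto_natCast_atTop_atTop
  have tLL : Tendsto (fun B : ℕ => Real.log (Real.log (B : ℝ))) atTop atTop :=
    Real.tendsto_log_atTop.comp tL
  filter_upwards [tL.eventually_ge_atTop 1, tLL.eventually_ge_atTop 1,
    tLL.eventually_ge_atTop (2 * Real.log (δ' * K)),
    tL.eventually_ge_atTop (max 3 (3 / (δ' * K))), eventually_ge_atTop 4] with
    B h1 h2 h3 h4 h5 X hX
  obtain ⟨hX1, hX2⟩ := hX
  obtain ⟨L, hL⟩ : ∃ L : ℝ, L = Real.log (B : ℝ) := ⟨_, rfl⟩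
  rw [← hL] at h1 h2 h3 h4 hX1
  obtain ⟨LL, hLL⟩ : ∃ LL : ℝ, LL = Real.log L := ⟨_, rfl⟩
  rw [← hLL] at h2 h3 hX1
  have hB4 : (4 : ℝ) ≤ B := by exact_mod_cast h5
  have hB0 : (0 : ℝ) < B := by linarith
  obtain ⟨y, hy⟩ : ∃ y : ℝ, y = δ' * X / B := ⟨_, rfl⟩
  obtain ⟨y0, hy0⟩ : ∃ y0 : ℝ, y0 = δ' * K * L * LL := ⟨_, rfl⟩
  have hyy : y0 ≤ y := by
    rw [hy, hy0, le_div_iff₀ hB0]
    calc δ' * K * L * LL * B = δ' * (K * B * L * LL) := by ring
      _ ≤ δ' * X := mul_le_mul_of_nonneg_left hX1 hδ'.le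
  have h4a : 3 ≤ δ' * K * L := by
    have h6 : 3 / (δ' * K) ≤ L := (le_max_right _ _).trans h4
    rw [div_le_iff₀ hdK] at h6
    linarith
  have hy03 : 3 ≤ y0 := by
    rw [hy0]
    nlinarith
  have hP1 : y - 1 < (PX δ' B X : ℝ) := by
    have := Nat.sub_one_lt_floor (δ' * X / B)
    rw [← hy] at this
    unfold PX
    rw [← hy]
    exact this
  obtain ⟨P, hP⟩ : ∃ P : ℝ, P = (PX δ' B X : ℝ) := ⟨_, rfl⟩
  rw [← hP] at hP1 ⊢
  have h2P : y0 ≤ 2 * P := by linarith
  have he : Real.exp 1 ≤ y0 := by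
    have := Real.exp_one_lt_d9
    linarith
  have hanti := Real.log_div_self_antitoneOn (a := y0) (b := 2 * P) he (he.trans h2P) h2P
  simp only at hanti
  have hP0 : 0 < 2 * P := by linarith
  have hy0p : 0 < y0 := by linarith
  have hLp : 0 < L := by linarith
  have hLLp : 0 < LL := by linarith
  have hlogLL : Real.log LL ≤ LL / 2 := by
    have e1 := Real.log_le_sub_one_of_pos (show (0 : ℝ) < LL / 2 by linarith)
    have e2 : Real.log (LL / 2) = Real.log LL - Real.log 2 :=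
      Real.log_div hLLp.ne' (by norm_num)
    have e3 := Real.log_two_lt_d9
    linarith
  have hlogy : Real.log y0 ≤ 2 * LL := by
    rw [hy0, Real.log_mul (by positivity) hLLp.ne', Real.log_mul (by positivity) hLp.ne', ← hLL]
    linarith
  have hlP : Real.log (2 * P) ≤ 4 * P / (δ' * K * L) := by
    rw [div_le_iff₀ hP0] at hanti
    refine hanti.trans ?_
    have e1 : Real.log y0 / y0 ≤ 2 * LL / y0 := div_le_div_of_nonneg_right hlogy hy0p.le
    calc Real.log y0 / y0 * (2 * P) ≤ 2 * LL / y0 * (2 * P) :=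
          mul_le_mul_of_nonneg_right e1 hP0.le
      _ = 4 * P / (δ' * K * L) := by
          rw [hy0]
          field_simp
          ring
  have hX0 : (0 : ℝ) < X := lt_of_lt_of_le (by positivity) hX1
  have hlX : Real.log X ≤ 3 * L := by
    have e1 : Real.log X ≤ Real.log (4 * (B : ℝ) ^ 2) := Real.log_le_log hX0 hX2
    rw [Real.log_mul (by norm_num) (by positivity), Real.log_pow, ← hL] at e1
    have e2 : Real.log 4 ≤ L := by
      rw [hL]
      exact Real.log_le_log (by norm_num) hB4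
    push_cast at e1
    linarith
  have hlX0 : 0 ≤ Real.log (X : ℝ) := Real.log_natCast_nonneg X
  have hq : 0 ≤ 4 * P / (δ' * K * L) := by
    have : 0 < P := by linarith
    positivity
  calc Real.log (2 * P) * Real.log X ≤ 4 * P / (δ' * K * L) * (3 * L) :=
        mul_le_mul hlP hlX hlX0 hq
    _ = 12 / (δ' * K) * P := by
        field_simp
        ring
    _ ≤ c * P := by
        refine mul_le_mul_of_nonneg_right ?_ (by linarith)
        rw [div_le_iff₀ hdK]
        rw [div_le_iff₀ (by positivity)] at hK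
        linarith

theorem d1_shift (X s : ℕ) : ∑ m ∈ Finset.Icc 1 X, lam (m - s) ≤ ∑ n ∈ Finset.Icc 1 X, lam n := by
  classical
  have h1 : ∑ m ∈ (Finset.Icc 1 X).filter (fun m => s < m), lam (m - s) =
      ∑ m ∈ Finset.Icc 1 X, lam (m - s) := by
    refine Finset.sum_subset (Finset.filter_subset _ _) ?_
    intro m hm hm'
    have : m ≤ s := by
      by_contra hlt
      exact hm' (Finset.mem_filter.2 ⟨hm, by omega⟩)
    rw [Nat.sub_eq_zero_of_le this]
    simp [lam, Nat.not_prime_zero]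
  rw [← h1]
  have hinj : Set.InjOn (fun m : ℕ => m - s)
      (((Finset.Icc 1 X).filter (fun m => s < m) : Finset ℕ) : Set ℕ) := by
    intro a ha b hb hab
    simp only [Finset.coe_filter, Set.mem_ofPred_eq] at ha hb
    simp only at hab
    omega
  rw [← Finset.sum_image (f := lam) hinj]
  refine Finset.sum_le_sum_of_subset_of_nonneg ?_ (fun _ _ _ => lam_nonneg _)
  intro n hn
  obtain ⟨m, hm, rfl⟩ := Finset.mem_image.1 hn
  rw [Finset.mem_filter, Finset.mem_Icc] at hm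
  rw [Finset.mem_Icc]
  omega

/-- `lam p ² ≤ log(2P) lam p`, `lam u ² ≤ log X lam u`, `∑_m lam (m - p(p+b)) ≤ ∑_{n ≤ X} lam n ≤ (3/2) X`, `∑_{p ≤ 2P} lam p ≤ 3P` (`sum_lam_le`): the sum is
`≤ 3P · B · (3/2) X · log(2P) log X`. -/
theorem diag {δ' c : ℝ} (hδ' : 0 < δ') (hc : 0 < c) : ∃ K₀ : ℝ, 0 < K₀ ∧ ∀ K : ℝ,
    K₀ ≤ K → ∀ᶠ B : ℕ in atTop, ∀ X : ℕ, Rng K B X →
      ∑ p ∈ Finset.Ioc (PX δ' B X) (2 * PX δ' B X), lam p ^ 2 *
        ∑ b ∈ Finset.Icc 1 B, ∑ m ∈ Finset.Icc 1 X, lam (m - p * (p + b)) ^ 2 ≤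
      c * ((PX δ' B X : ℝ) ^ 2 * B * X) := by
  obtain ⟨K₀, hK₀, h⟩ := log_mul_log_le hδ' (show 0 < c * (2 / 9) by positivity)
  refine ⟨K₀, hK₀, ?_⟩
  intro K hK
  filter_upwards [h K hK] with B hB X hX
  have h1 := hB X hX
  obtain ⟨P, hP⟩ : ∃ P : ℕ, P = PX δ' B X := ⟨_, rfl⟩
  rw [← hP] at h1 ⊢
  have hlX0 : 0 ≤ Real.log (X : ℝ) := Real.log_natCast_nonneg X
  have hin : ∀ p b : ℕ, ∑ m ∈ Finset.Icc 1 X, lam (m - p * (p + b)) ^ 2 ≤
      Real.log X * ((3 / 2) * X) := by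
    intro p b
    calc ∑ m ∈ Finset.Icc 1 X, lam (m - p * (p + b)) ^ 2
        ≤ ∑ m ∈ Finset.Icc 1 X, Real.log X * lam (m - p * (p + b)) := by
          refine Finset.sum_le_sum fun m hm => ?_
          rw [Finset.mem_Icc] at hm
          rw [pow_two]
          exact mul_le_mul_of_nonneg_right
            (lam_le_log ((Nat.sub_le _ _).trans hm.2) (hm.1.trans hm.2)) (lam_nonneg _)
      _ = Real.log X * ∑ m ∈ Finset.Icc 1 X, lam (m - p * (p + b)) := by
          rw [Finset.mul_sum]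
      _ ≤ Real.log X * ((3 / 2) * X) :=
          mul_le_mul_of_nonneg_left ((d1_shift X _).trans (sum_lam_le X)) hlX0
  rcases Nat.eq_zero_or_pos P with h0 | hPpos
  · subst h0
    simp
  have hl2P : 0 ≤ Real.log (2 * (P : ℝ)) := by
    have := Real.log_natCast_nonneg (2 * P)
    push_cast at this
    exact this
  calc ∑ p ∈ Finset.Ioc P (2 * P), lam p ^ 2 *
        ∑ b ∈ Finset.Icc 1 B, ∑ m ∈ Finset.Icc 1 X, lam (m - p * (p + b)) ^ 2
      ≤ ∑ p ∈ Finset.Ioc P (2 * P), (Real.log (2 * (P : ℝ)) * lam p) *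
          (B * (Real.log X * ((3 / 2) * X))) := by
        refine Finset.sum_le_sum fun p hp => ?_
        rw [Finset.mem_Ioc] at hp
        have e1 : lam p ^ 2 ≤ Real.log (2 * (P : ℝ)) * lam p := by
          rw [pow_two]
          refine mul_le_mul_of_nonneg_right ?_ (lam_nonneg _)
          have := lam_le_log hp.2 (by omega : 1 ≤ 2 * P)
          push_cast at this
          exact this
        have e2 : ∑ b ∈ Finset.Icc 1 B, ∑ m ∈ Finset.Icc 1 X, lam (m - p * (p + b)) ^ 2 ≤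
            B * (Real.log X * ((3 / 2) * X)) := by
          calc _ ≤ ∑ _b ∈ Finset.Icc 1 B, (Real.log X * ((3 / 2) * X)) :=
                Finset.sum_le_sum fun b _ => hin p b
            _ = _ := by
                rw [Finset.sum_const, Nat.card_Icc, nsmul_eq_mul]
                simp
        refine mul_le_mul e1 e2 ?_ (mul_nonneg hl2P (lam_nonneg _))
        exact Finset.sum_nonneg fun b _ => Finset.sum_nonneg fun m _ => sq_nonneg _
    _ = Real.log (2 * (P : ℝ)) * (B * (Real.log X * ((3 / 2) * X))) *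
          ∑ p ∈ Finset.Ioc P (2 * P), lam p := by
        rw [Finset.mul_sum]
        exact Finset.sum_congr rfl fun p _ => by ring
    _ ≤ Real.log (2 * (P : ℝ)) * (B * (Real.log X * ((3 / 2) * X))) * (3 * P) := by
        refine mul_le_mul_of_nonneg_left ?_ (by positivity)
        calc ∑ p ∈ Finset.Ioc P (2 * P), lam p ≤ ∑ p ∈ Finset.Icc 1 (2 * P), lam p := by
              refine Finset.sum_le_sum_of_subset_of_nonneg ?_ (fun _ _ _ => lam_nonneg _)
              intro p hp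
              rw [Finset.mem_Ioc] at hp
              rw [Finset.mem_Icc]
              omega
          _ ≤ (3 / 2) * ((2 * P : ℕ) : ℝ) := sum_lam_le _
          _ = 3 * P := by push_cast; ring
    _ = (9 / 2) * (P * B * X) * (Real.log (2 * (P : ℝ)) * Real.log X) := by ring
    _ ≤ (9 / 2) * (P * B * X) * (c * (2 / 9) * P) :=
        mul_le_mul_of_nonneg_left h1 (by positivity)
    _ = _ := by ring

end Pool.Agent.Lib.MP_d9bc60_nt.TH
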