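import Mathlib
import Pool.Agent.Lib.MP_d9bc60_nt.TH.Defs

/-! Row F1 (about 170 lines): Parseval and the variance `VV`. -/

set_option autoImplicit false

namespace Pool.Agent.Lib.MP_d9bc60_nt.TH

open Finset

/-- the roots of unity as powers -/
private lemma f1_sum_roots (D : ℕ) (hD : 0 < D) {ω : ℂ} (hω : IsPrimitiveRoot ω D) (g : ℂ → ℝ) :
    ∑ q ∈ D.divisors, ∑ ζ ∈ primitiveRoots q ℂ, g ζ = ∑ k ∈ range D, g (ω ^ k) := by
  classical
  rw [← Finset.sum_biUnion, ← IsPrimitiveRoot.nthRoots_one_eq_biUnion_primitiveRoots]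
  · have him : Polynomial.nthRootsFinset D (1 : ℂ) = (range D).image (fun k => ω ^ k) := by
      ext ζ
      rw [Polynomial.mem_nthRootsFinset hD, Finset.mem_image]
      constructor
      · intro h
        have : NeZero D := ⟨hD.ne'⟩
        obtain ⟨i, hi, hi'⟩ := hω.eq_pow_of_pow_eq_one h
        exact ⟨i, Finset.mem_range.2 hi, hi'⟩
      · rintro ⟨k, _, rfl⟩
        rw [← pow_mul, mul_comm, pow_mul, hω.pow_eq_one, one_pow]
    rw [him, Finset.sum_image]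
    intro i hi j hj h
    exact hω.pow_inj (Finset.mem_range.1 hi) (Finset.mem_range.1 hj) h
  · intro i _ j _ hij
    exact IsPrimitiveRoot.disjoint hij

/-- orthogonality -/
private lemma f1_orth (D : ℕ) (hD : 0 < D) {ω : ℂ} (hω : IsPrimitiveRoot ω D) (hn : ‖ω‖ = 1)
    {α β : ℕ} (hα : α < D) (hβ : β < D) :
    ∑ k ∈ range D, (ω ^ α * ((starRingEnd ℂ) ω) ^ β) ^ k = if α = β then (D : ℂ) else 0 := by
  have hmul : ω * (starRingEnd ℂ) ω = 1 := by
    rw [Complex.mul_conj, Complex.normSq_eq_norm_sq, hn]; simp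
  by_cases h : α = β
  · subst h
    rw [if_pos rfl, ← mul_pow, hmul]
    simp
  · rw [if_neg h]
    set x := ω ^ α * ((starRingEnd ℂ) ω) ^ β with hx
    have hx1 : x ≠ 1 := by
      intro h1
      apply h
      refine hω.pow_inj hα hβ ?_
      have h2 : x * ω ^ β = ω ^ β := by rw [h1, one_mul]
      rw [hx, mul_assoc, ← mul_pow, mul_comm ((starRingEnd ℂ) ω), hmul, one_pow, mul_one] at h2
      exact h2
    have hxD : x ^ D = 1 := by
      rw [hx, mul_pow, ← pow_mul, ← pow_mul, mul_comm α, mul_comm β, pow_mul, pow_mul, ← map_pow,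
        hω.pow_eq_one, map_one, one_pow, one_pow, one_mul]
    rw [geom_sum_eq hx1, hxD, sub_self, zero_div]

/-- `∑_{ζ^D=1} |S(ζ)|² = ∑_{m,n} a m a n ∑_{ζ^D = 1} ζ^m ζ^{-n} = D ∑_{m ≡ n} a m a n`; the set `{ζ^D = 1}` is the disjoint union of the `primitiveRoots q`,
`q ∣ D` (`IsPrimitiveRoot.nthRoots_one_eq_biUnion_primitiveRoots`). -/
theorem parseval (a : ℕ → ℝ) (S : Finset ℕ) (D : ℕ) (hD : 0 < D) :
    (D : ℝ) * ∑ α ∈ Finset.range D,
        (∑ n ∈ S.filter (fun n : ℕ => (n : ZMod D) = (α : ZMod D)), a n) ^ 2 =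
      ∑ q ∈ D.divisors, ∑ ζ ∈ primitiveRoots q ℂ, ‖∑ n ∈ S, (a n : ℂ) * ζ ^ n‖ ^ 2 := by
  classical
  set ω : ℂ := Complex.exp (2 * Real.pi * Complex.I / D) with hωdef
  have hω : IsPrimitiveRoot ω D := Complex.isPrimitiveRoot_exp D hD.ne'
  have hn : ‖ω‖ = 1 := hω.norm'_eq_one hD.ne'
  rw [f1_sum_roots D hD hω]
  set T : ℕ → ℝ := fun α => ∑ n ∈ S.filter (fun n : ℕ => (n : ZMod D) = (α : ZMod D)), a n with hT
  have hS : ∀ k : ℕ, ∑ n ∈ S, (a n : ℂ) * (ω ^ k) ^ n = ∑ α ∈ range D, (T α : ℂ) * (ω ^ k) ^ α := by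
    intro k
    have hmaps : ∀ n ∈ S, n % D ∈ range D := fun n _ => Finset.mem_range.2 (Nat.mod_lt _ hD)
    rw [← Finset.sum_fiberwise_of_maps_to hmaps]
    refine Finset.sum_congr rfl fun α hα => ?_
    rw [Finset.mem_range] at hα
    have hf : S.filter (fun n => n % D = α) =
        S.filter (fun n : ℕ => (n : ZMod D) = (α : ZMod D)) := by
      refine Finset.filter_congr fun n _ => ?_
      rw [ZMod.natCast_eq_natCast_iff', Nat.mod_eq_of_lt hα]
    rw [hf, hT]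
    simp only
    push_cast
    rw [Finset.sum_mul]
    refine Finset.sum_congr rfl fun n hn' => ?_
    rw [← hf, Finset.mem_filter] at hn'
    congr 1
    have h1 : (ω ^ k) ^ D = 1 := by rw [← pow_mul, mul_comm, pow_mul, hω.pow_eq_one, one_pow]
    conv_lhs => rw [← Nat.div_add_mod n D]
    rw [pow_add, pow_mul, h1, one_pow, one_mul, hn'.2]
  have hk : ∀ k ∈ range D, (((‖∑ n ∈ S, (a n : ℂ) * (ω ^ k) ^ n‖ ^ 2 : ℝ)) : ℂ) =
      ∑ α ∈ range D, ∑ β ∈ range D, ((T α : ℂ) * T β) *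
        (ω ^ α * ((starRingEnd ℂ) ω) ^ β) ^ k := by
    intro k _
    rw [hS k]
    push_cast
    rw [← Complex.mul_conj', map_sum, Finset.sum_mul_sum]
    refine Finset.sum_congr rfl fun α _ => Finset.sum_congr rfl fun β _ => ?_
    rw [map_mul, Complex.conj_ofReal, map_pow, map_pow, mul_pow, ← pow_mul, ← pow_mul, ← pow_mul,
      ← pow_mul, mul_comm α k, mul_comm β k]
    ring
  have hfin : (((D : ℝ) * ∑ α ∈ Finset.range D, (T α) ^ 2 : ℝ) : ℂ) =
      ((∑ k ∈ range D, ‖∑ n ∈ S, (a n : ℂ) * (ω ^ k) ^ n‖ ^ 2 : ℝ) : ℂ) := by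
    rw [Complex.ofReal_sum, Finset.sum_congr rfl hk, Finset.sum_comm]
    push_cast
    rw [Finset.mul_sum]
    refine Finset.sum_congr rfl fun α hα => ?_
    rw [Finset.sum_comm]
    have h2 : ∀ β ∈ range D, ∑ k ∈ range D, ((T α : ℂ) * T β) *
        (ω ^ α * ((starRingEnd ℂ) ω) ^ β) ^ k =
        if α = β then (T α : ℂ) * T β * D else 0 := by
      intro β hβ
      rw [← Finset.mul_sum, f1_orth D hD hω hn (Finset.mem_range.1 hα) (Finset.mem_range.1 hβ)]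
      split_ifs <;> simp
    rw [Finset.sum_congr rfl h2, Finset.sum_ite_eq, if_pos hα]
    ring
  exact_mod_cast hfin

private lemma f1_TQ_nonneg (u v q : ℕ) : 0 ≤ TQ u v q := by
  unfold TQ
  exact Finset.sum_nonneg fun _ _ => by positivity

private lemma f1_tz (u v D : ℕ) (hD : 0 < D) :
    ∑ α ∈ Finset.range D, (tz D u v (α : ZMod D)) ^ 2 =
      (1 / (D : ℝ)) * ∑ q ∈ D.divisors, TQ u v q := by
  have h := parseval lam (Finset.Ioc u v) D hD
  have hD' : (D : ℝ) ≠ 0 := by exact_mod_cast hD.ne'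
  unfold TQ tz
  rw [← h]
  field_simp

/-- From `parseval` for `D` and for `D₀`. -/
theorem VV_eq (u v D D₀ : ℕ) (hD : 0 < D) (h : D₀ ∣ D) :
    VV u v D D₀ = (1 / (D : ℝ)) * ∑ q ∈ D.divisors \ D₀.divisors, TQ u v q := by
  have hD₀ : 0 < D₀ := Nat.pos_of_dvd_of_pos h hD
  have hD' : (D : ℝ) ≠ 0 := by exact_mod_cast hD.ne'
  have hD₀' : (D₀ : ℝ) ≠ 0 := by exact_mod_cast hD₀.ne'
  unfold VV
  rw [f1_tz u v D hD, f1_tz u v D₀ hD₀]
  have hsub : D₀.divisors ⊆ D.divisors := Nat.divisors_subset_of_dvd hD.ne' h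
  have h1 := Finset.sum_sdiff (f := fun q => TQ u v q) hsub
  rw [← h1]
  field_simp
  ring

theorem VV_nonneg (u v D D₀ : ℕ) (hD : 0 < D) (h : D₀ ∣ D) : 0 ≤ VV u v D D₀ := by
  rw [VV_eq u v D D₀ hD h]
  exact mul_nonneg (by positivity) (Finset.sum_nonneg fun q _ => f1_TQ_nonneg u v q)

/-- For `D₀ = gcd (D, W R!)`, a divisor `q` of `D` with `q ≤ R` divides `R!`, hence `D₀`. -/
theorem VV_le (u v D W R : ℕ) (hD : 0 < D) (hW : 0 < W) :
    VV u v D (Nat.gcd D (W * R.factorial)) ≤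
      (1 / (D : ℝ)) * ∑ q ∈ D.divisors.filter (fun q => R < q), TQ u v q := by
  rw [VV_eq u v D _ hD (Nat.gcd_dvd_left _ _)]
  refine mul_le_mul_of_nonneg_left ?_ (by positivity)
  refine Finset.sum_le_sum_of_subset_of_nonneg ?_ fun q _ _ => f1_TQ_nonneg u v q
  intro q hq
  rw [Finset.mem_sdiff] at hq
  rw [Finset.mem_filter]
  refine ⟨hq.1, ?_⟩
  by_contra hR
  apply hq.2
  rw [Nat.mem_divisors]
  have hq0 : q ∣ D := Nat.dvd_of_mem_divisors hq.1
  have hqpos : 0 < q := Nat.pos_of_dvd_of_pos hq0 hD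
  refine ⟨Nat.dvd_gcd hq0 ?_, ?_⟩
  · exact Dvd.dvd.mul_left (Nat.dvd_factorial hqpos (not_lt.1 hR)) _
  · exact Nat.gcd_ne_zero_left hD.ne'

end Pool.Agent.Lib.MP_d9bc60_nt.TH
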