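import Mathlib
import Pool.Agent.Lib.MP_d9bc60_nt.TH.Defs

/-! Row F2a (about 130 lines): abstract correlation inequality -/

set_option autoImplicit false

namespace Pool.Agent.Lib.MP_d9bc60_nt.TH

open Finset

theorem f2a_fiber {G G₀ : Type*} [AddCommGroup G] [AddCommGroup G₀] [Fintype G] [Fintype G₀]
    [DecidableEq G] [DecidableEq G₀] (π : G →+ G₀) (hπ : Function.Surjective π) (a : G₀) :
    ((Fintype.card G₀ : ℝ) / Fintype.card G) *
      ((Finset.univ.filter (fun α => π α = a)).card : ℝ) = 1 := by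
  have h1 : ∀ b : G₀, (Finset.univ.filter (fun α => π α = b)).card =
      (Finset.univ.filter (fun α => π α = a)).card := by
    intro b
    obtain ⟨α, hα⟩ := hπ a
    obtain ⟨β, hβ⟩ := hπ b
    refine Finset.card_bij (fun γ _ => γ - β + α) ?_ ?_ ?_
    · intro γ hγ
      simp only [Finset.mem_filter, Finset.mem_univ, true_and] at hγ ⊢
      rw [map_add, map_sub, hγ, hβ, hα]
      abel
    · intro γ _ γ' _ h
      simpa using h
    · intro γ hγ
      simp only [Finset.mem_filter, Finset.mem_univ, true_and] at hγ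
      refine ⟨γ - α + β, ?_, ?_⟩
      · simp only [Finset.mem_filter, Finset.mem_univ, true_and]
        rw [map_add, map_sub, hγ, hβ, hα]
        abel
      · abel
  have h2 : Fintype.card G =
      Fintype.card G₀ * (Finset.univ.filter (fun α => π α = a)).card := by
    have h3 := Finset.card_eq_sum_card_fiberwise (f := π) (s := (Finset.univ : Finset G))
      (t := (Finset.univ : Finset G₀)) (fun x _ => by simp)
    rw [Finset.card_univ] at h3
    rw [h3, Finset.sum_congr rfl (fun b _ => h1 b), Finset.sum_const, Finset.card_univ,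
      smul_eq_mul]
  have hG : (0 : ℝ) < Fintype.card G := by
    have : 0 < Fintype.card G := Fintype.card_pos
    exact_mod_cast this
  rw [div_mul_eq_mul_div, div_eq_one_iff_eq hG.ne', h2]
  push_cast
  ring

theorem f2a_fiberwise {G G₀ : Type*} [AddCommGroup G] [AddCommGroup G₀] [Fintype G] [Fintype G₀]
    [DecidableEq G] [DecidableEq G₀] (π : G →+ G₀) (S : Finset G₀) (F : G → ℝ) :
    ∑ α ∈ Finset.univ.filter (fun α => π α ∈ S), F α =
      ∑ a ∈ S, ∑ α ∈ Finset.univ.filter (fun α => π α = a), F α := by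
  rw [← Finset.sum_fiberwise_of_maps_to (g := π) (t := S)
    (fun x hx => (Finset.mem_filter.1 hx).2)]
  refine Finset.sum_congr rfl fun a ha => ?_
  refine Finset.sum_congr ?_ fun _ _ => rfl
  ext α
  simp only [Finset.mem_filter, Finset.mem_univ, true_and]
  constructor
  · rintro ⟨_, h⟩; exact h
  · rintro h; exact ⟨h ▸ ha, h⟩

theorem f2a_shift {G G₀ : Type*} [AddCommGroup G] [AddCommGroup G₀] [Fintype G] [Fintype G₀]
    [DecidableEq G] [DecidableEq G₀] (π : G →+ G₀) (s : G) (a : G₀) (F : G → ℝ) :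
    ∑ α ∈ Finset.univ.filter (fun α => π α = a), F (α + s) =
      ∑ α ∈ Finset.univ.filter (fun α => π α = a + π s), F α := by
  refine Finset.sum_bij (fun α _ => α + s) ?_ ?_ ?_ ?_
  · intro α hα
    simp only [Finset.mem_filter, Finset.mem_univ, true_and] at hα ⊢
    rw [map_add, hα]
  · intro α _ β _ h
    simpa using h
  · intro α hα
    simp only [Finset.mem_filter, Finset.mem_univ, true_and] at hα
    refine ⟨α - s, ?_, by abel⟩
    simp only [Finset.mem_filter, Finset.mem_univ, true_and]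
    rw [map_sub, hα]
    abel
  · intro α _
    rfl

/-- the deviation has mean zero on the fibres -/
theorem f2a_zero {G G₀ : Type*} [AddCommGroup G] [AddCommGroup G₀] [Fintype G] [Fintype G₀]
    [DecidableEq G] [DecidableEq G₀] (π : G →+ G₀) (hπ : Function.Surjective π) (x : G → ℝ)
    (a : G₀) :
    ∑ α ∈ Finset.univ.filter (fun α => π α = a),
      (x α - ((Fintype.card G₀ : ℝ) / Fintype.card G) *
        ∑ β ∈ Finset.univ.filter (fun β => π β = π α), x β) = 0 := by
  rw [Finset.sum_sub_distrib]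
  have h1 : ∑ α ∈ Finset.univ.filter (fun α => π α = a),
      ((Fintype.card G₀ : ℝ) / Fintype.card G) *
        ∑ β ∈ Finset.univ.filter (fun β => π β = π α), x β =
      ∑ α ∈ Finset.univ.filter (fun α => π α = a),
      ((Fintype.card G₀ : ℝ) / Fintype.card G) *
        ∑ β ∈ Finset.univ.filter (fun β => π β = a), x β := by
    refine Finset.sum_congr rfl fun α hα => ?_
    rw [(Finset.mem_filter.1 hα).2]
  rw [h1, Finset.sum_const, nsmul_eq_mul]
  have h2 := f2a_fiber π hπ a
  set c := ((Fintype.card G₀ : ℝ) / Fintype.card G)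
  set N := ((Finset.univ.filter (fun α => π α = a)).card : ℝ)
  set Z := ∑ β ∈ Finset.univ.filter (fun β => π β = a), x β
  have : N * (c * Z) = (c * N) * Z := by ring
  rw [this, h2]
  ring

theorem f2a_sq {G G₀ : Type*} [AddCommGroup G] [AddCommGroup G₀] [Fintype G] [Fintype G₀]
    [DecidableEq G] [DecidableEq G₀] (π : G →+ G₀) (hπ : Function.Surjective π) (x : G → ℝ) :
    ∑ α, (x α - ((Fintype.card G₀ : ℝ) / Fintype.card G) *
        ∑ β ∈ Finset.univ.filter (fun β => π β = π α), x β) ^ 2 =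
      ∑ α, x α ^ 2 - ((Fintype.card G₀ : ℝ) / Fintype.card G) *
            ∑ a, (∑ α ∈ Finset.univ.filter (fun α => π α = a), x α) ^ 2 := by
  set c := ((Fintype.card G₀ : ℝ) / Fintype.card G) with hc
  have h0 : ∀ F : G → ℝ, ∑ α, F α = ∑ a : G₀, ∑ α ∈ Finset.univ.filter (fun α => π α = a), F α := by
    intro F
    have := f2a_fiberwise π Finset.univ F
    simpa using this
  rw [h0, h0 (fun α => x α ^ 2), Finset.mul_sum, ← Finset.sum_sub_distrib]
  refine Finset.sum_congr rfl fun a _ => ?_
  have h1 : ∑ α ∈ Finset.univ.filter (fun α => π α = a), (x α - c *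
        ∑ β ∈ Finset.univ.filter (fun β => π β = π α), x β) ^ 2 =
      ∑ α ∈ Finset.univ.filter (fun α => π α = a), (x α ^ 2
        - (2 * c * ∑ β ∈ Finset.univ.filter (fun β => π β = a), x β) * x α +
        (c * ∑ β ∈ Finset.univ.filter (fun β => π β = a), x β) ^ 2) := by
    refine Finset.sum_congr rfl fun α hα => ?_
    rw [(Finset.mem_filter.1 hα).2]
    ring
  rw [h1, Finset.sum_add_distrib, Finset.sum_sub_distrib, Finset.sum_const, nsmul_eq_mul,
    ← Finset.mul_sum]
  have h2 := f2a_fiber π hπ a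
  rw [← hc] at h2
  set N := ((Finset.univ.filter (fun α => π α = a)).card : ℝ)
  set Z := ∑ β ∈ Finset.univ.filter (fun β => π β = a), x β
  have : N * (c * Z) ^ 2 = (c * N) * (c * Z ^ 2) := by ring
  rw [this, h2]
  ring

/-- Abstract form: `π : G → G₀` surjective with fibres of size `n` (`n · card G₀ = card G`), `X a = ∑_{π α = a} x α`, `Y` similarly. Put `x' α = x α - X(π α)/n`, then
`∑_{π α = a} x' α = 0` for all `a`, `∑_α x'² = ∑_α x² - (1/n) ∑_a X²`, similarly for `y'`. Expand
`x α y(α+s) = x' y' + x' Y/n + X y'/n + XY/n²`; summed over `π α ∈ S` the two middle terms vanish, the last one gives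
`(1/n) ∑_{a ∈ S} X a Y (a + π s)`, and the first is at most `(∑ x'²)^{1/2} (∑ y'²)^{1/2}` (Cauchy–Schwarz). -/
theorem corr_abstract {G G₀ : Type*} [AddCommGroup G] [AddCommGroup G₀] [Fintype G] [Fintype G₀]
    [DecidableEq G] [DecidableEq G₀] (π : G →+ G₀) (hπ : Function.Surjective π) (x y : G → ℝ) (s : G)
    (S : Finset G₀) :
    ∑ α ∈ Finset.univ.filter (fun α => π α ∈ S), x α * y (α + s) ≤
      ((Fintype.card G₀ : ℝ) / Fintype.card G) * ∑ a ∈ S,
        (∑ α ∈ Finset.univ.filter (fun α => π α = a), x α) *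
          (∑ α ∈ Finset.univ.filter (fun α => π α = a + π s), y α)
      + √((∑ α, x α ^ 2 - ((Fintype.card G₀ : ℝ) / Fintype.card G) *
            ∑ a, (∑ α ∈ Finset.univ.filter (fun α => π α = a), x α) ^ 2) *
          (∑ α, y α ^ 2 - ((Fintype.card G₀ : ℝ) / Fintype.card G) *
            ∑ a, (∑ α ∈ Finset.univ.filter (fun α => π α = a), y α) ^ 2)) := by
  rw [← f2a_sq π hπ x, ← f2a_sq π hπ y]
  have hfib := f2a_fiber π hπ
  have hx0 := f2a_zero π hπ x
  have hy0 := f2a_zero π hπ y
  set c := ((Fintype.card G₀ : ℝ) / Fintype.card G) with hc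
  set X : G₀ → ℝ := fun a => ∑ α ∈ Finset.univ.filter (fun α => π α = a), x α with hX
  set Y : G₀ → ℝ := fun a => ∑ α ∈ Finset.univ.filter (fun α => π α = a), y α with hY
  set x' : G → ℝ := fun α => x α - c * X (π α) with hx'
  set y' : G → ℝ := fun α => y α - c * Y (π α) with hy'
  have hx0' : ∀ a, ∑ α ∈ Finset.univ.filter (fun α => π α = a), x' α = 0 := hx0
  have hy0' : ∀ a, ∑ α ∈ Finset.univ.filter (fun α => π α = a), y' α = 0 := hy0
  have hexp : ∀ α, x α * y (α + s) = x' α * y' (α + s) + x' α * (c * Y (π α + π s)) +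
      (c * X (π α)) * y' (α + s) + (c * X (π α)) * (c * Y (π α + π s)) := by
    intro α
    simp only [hx', hy', map_add]
    ring
  rw [Finset.sum_congr rfl (fun α _ => hexp α), Finset.sum_add_distrib, Finset.sum_add_distrib,
    Finset.sum_add_distrib]
  have h2 : ∑ α ∈ Finset.univ.filter (fun α => π α ∈ S), x' α * (c * Y (π α + π s)) = 0 := by
    rw [f2a_fiberwise]
    refine Finset.sum_eq_zero fun a _ => ?_
    have : ∑ α ∈ Finset.univ.filter (fun α => π α = a), x' α * (c * Y (π α + π s)) =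
        ∑ α ∈ Finset.univ.filter (fun α => π α = a), x' α * (c * Y (a + π s)) :=
      Finset.sum_congr rfl fun α hα => by rw [(Finset.mem_filter.1 hα).2]
    rw [this, ← Finset.sum_mul, hx0' a, zero_mul]
  have h3 : ∑ α ∈ Finset.univ.filter (fun α => π α ∈ S), (c * X (π α)) * y' (α + s) = 0 := by
    rw [f2a_fiberwise]
    refine Finset.sum_eq_zero fun a _ => ?_
    have : ∑ α ∈ Finset.univ.filter (fun α => π α = a), (c * X (π α)) * y' (α + s) =
        ∑ α ∈ Finset.univ.filter (fun α => π α = a), (c * X a) * y' (α + s) :=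
      Finset.sum_congr rfl fun α hα => by rw [(Finset.mem_filter.1 hα).2]
    rw [this, ← Finset.mul_sum, f2a_shift π s a y', hy0', mul_zero]
  have h4 : ∑ α ∈ Finset.univ.filter (fun α => π α ∈ S),
      (c * X (π α)) * (c * Y (π α + π s)) = c * ∑ a ∈ S, X a * Y (a + π s) := by
    rw [f2a_fiberwise, Finset.mul_sum]
    refine Finset.sum_congr rfl fun a _ => ?_
    have : ∑ α ∈ Finset.univ.filter (fun α => π α = a), (c * X (π α)) * (c * Y (π α + π s)) =
        ∑ α ∈ Finset.univ.filter (fun α => π α = a), (c * X a) * (c * Y (a + π s)) :=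
      Finset.sum_congr rfl fun α hα => by rw [(Finset.mem_filter.1 hα).2]
    rw [this, Finset.sum_const, nsmul_eq_mul]
    have h5 := hfib a
    set N := ((Finset.univ.filter (fun α => π α = a)).card : ℝ)
    have : N * (c * X a * (c * Y (a + π s))) = (c * N) * (c * (X a * Y (a + π s))) := by ring
    rw [this, h5, one_mul]
  have h1 : ∑ α ∈ Finset.univ.filter (fun α => π α ∈ S), x' α * y' (α + s) ≤
      √((∑ α, x' α ^ 2) * ∑ α, y' α ^ 2) := by
    apply Real.le_sqrt_of_sq_le
    refine (Finset.sum_mul_sq_le_sq_mul_sq _ _ _).trans ?_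
    apply mul_le_mul
    · exact Finset.sum_le_univ_sum_of_nonneg fun α => sq_nonneg _
    · calc ∑ α ∈ Finset.univ.filter (fun α => π α ∈ S), y' (α + s) ^ 2
          ≤ ∑ α, y' (α + s) ^ 2 := Finset.sum_le_univ_sum_of_nonneg fun α => sq_nonneg _
        _ = ∑ α, y' α ^ 2 := Equiv.sum_comp (Equiv.addRight s) (fun α => y' α ^ 2)
    · exact Finset.sum_nonneg fun _ _ => sq_nonneg _
    · exact Finset.sum_nonneg fun _ _ => sq_nonneg _
  rw [h2, h3, h4]
  linarith [h1]

end Pool.Agent.Lib.MP_d9bc60_nt.TH
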