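import Mathlib
import Pool.Agent.Lib.MP_d9bc60_nt.TH.Defs
import Pool.Agent.Lib.MP_d9bc60_nt.TH.F2aAbs

/-! Row F2b (about 120 lines): correlation inequality for primes in cells -/

set_option autoImplicit false

namespace Pool.Agent.Lib.MP_d9bc60_nt.TH

open Finset

theorem f2b_sum_range (D : ℕ) (hD : 0 < D) (f : ZMod D → ℝ) (p : ℕ → Prop) [DecidablePred p]
    (q : ZMod D → Prop) [DecidablePred q] (hpq : ∀ n, n < D → (p n ↔ q (n : ZMod D))) :
    haveI : NeZero D := ⟨hD.ne'⟩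
    ∑ α ∈ (Finset.range D).filter p, f (α : ZMod D) = ∑ α ∈ Finset.univ.filter q, f α := by
  haveI : NeZero D := ⟨hD.ne'⟩
  refine Finset.sum_nbij' (fun n => (n : ZMod D)) (fun a => a.val) ?_ ?_ ?_ ?_ ?_
  · intro n hn
    rw [Finset.mem_filter, Finset.mem_range] at hn
    rw [Finset.mem_filter]
    exact ⟨Finset.mem_univ _, (hpq n hn.1).mp hn.2⟩
  · intro a ha
    rw [Finset.mem_filter] at ha
    rw [Finset.mem_filter, Finset.mem_range]
    refine ⟨ZMod.val_lt a, (hpq _ (ZMod.val_lt a)).mpr ?_⟩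
    rw [ZMod.natCast_zmod_val]
    exact ha.2
  · intro n hn
    rw [Finset.mem_filter, Finset.mem_range] at hn
    exact ZMod.val_cast_of_lt hn.1
  · intro a _
    exact ZMod.natCast_zmod_val a
  · intro n _
    rfl

theorem f2b_sum_range' (D : ℕ) (hD : 0 < D) (f : ZMod D → ℝ) :
    haveI : NeZero D := ⟨hD.ne'⟩
    ∑ α ∈ Finset.range D, f (α : ZMod D) = ∑ α, f α := by
  have h := f2b_sum_range D hD f (fun _ => True) (fun _ => True) (fun _ _ => Iff.rfl)
  simpa using h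

theorem f2b_fiber (D D₀ : ℕ) (hD : 0 < D) (h0 : D₀ ∣ D) (u v : ℕ) (a : ZMod D₀) :
    haveI : NeZero D := ⟨hD.ne'⟩
    ∑ α ∈ Finset.univ.filter (fun α : ZMod D => (ZMod.castHom h0 (ZMod D₀)).toAddMonoidHom α = a),
      tz D u v α = tz D₀ u v a := by
  haveI : NeZero D := ⟨hD.ne'⟩
  unfold tz
  simp only [Finset.sum_filter]
  have h1 : ∀ α : ZMod D, (if (ZMod.castHom h0 (ZMod D₀)).toAddMonoidHom α = a then
      ∑ n ∈ Finset.Ioc u v, (if (n : ZMod D) = α then lam n else 0) else 0) =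
      ∑ n ∈ Finset.Ioc u v, (if (n : ZMod D) = α then
        (if (ZMod.castHom h0 (ZMod D₀)).toAddMonoidHom α = a then lam n else 0) else 0) := by
    intro α
    split_ifs with h
    · rfl
    · symm
      refine Finset.sum_eq_zero fun n _ => ?_
      split_ifs <;> rfl
  rw [Finset.sum_congr rfl fun α _ => h1 α, Finset.sum_comm]
  refine Finset.sum_congr rfl fun n _ => ?_
  rw [Finset.sum_ite_eq Finset.univ (n : ZMod D)]
  simp

/-- The concrete form: `G = ZMod D`, `G₀ = ZMod D₀`, `π` the cast, `S = {a : a ≡ v₀ mod W}`, `x α = tz D u u' α`, `y α = tz D v v' α`. -/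
theorem corr (u u' v v' D D₀ W : ℕ) (hD : 0 < D) (h0 : D₀ ∣ D) (hW : W ∣ D₀) (s v₀ : ℕ) :
    ∑ α ∈ (Finset.range D).filter (fun α => α ≡ v₀ [MOD W]),
        tz D u u' (α : ZMod D) * tz D v v' ((α + s : ℕ) : ZMod D) ≤
      ((D₀ : ℝ) / D) * ∑ a ∈ (Finset.range D₀).filter (fun a => a ≡ v₀ [MOD W]),
        tz D₀ u u' (a : ZMod D₀) * tz D₀ v v' ((a + s : ℕ) : ZMod D₀)
      + √(VV u u' D D₀ * VV v v' D D₀) := by
  have hD0 : 0 < D₀ := Nat.pos_of_dvd_of_pos h0 hD
  haveI : NeZero D := ⟨hD.ne'⟩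
  haveI : NeZero D₀ := ⟨hD0.ne'⟩
  have hsurj : Function.Surjective (ZMod.castHom h0 (ZMod D₀)).toAddMonoidHom :=
    ZMod.castHom_surjective h0
  have key := corr_abstract (ZMod.castHom h0 (ZMod D₀)).toAddMonoidHom hsurj
    (fun α => tz D u u' α) (fun α => tz D v v' α) (s : ZMod D)
    (Finset.univ.filter fun a : ZMod D₀ => a.val ≡ v₀ [MOD W])
  simp only [f2b_fiber D D₀ hD h0, ZMod.card] at key
  have e1 : ∑ α ∈ (Finset.range D).filter (fun α => α ≡ v₀ [MOD W]),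
        tz D u u' (α : ZMod D) * tz D v v' ((α + s : ℕ) : ZMod D) =
      ∑ α ∈ Finset.univ.filter (fun α : ZMod D => (ZMod.castHom h0 (ZMod D₀)).toAddMonoidHom α ∈
        Finset.univ.filter fun a : ZMod D₀ => a.val ≡ v₀ [MOD W]),
        tz D u u' α * tz D v v' (α + (s : ZMod D)) := by
    rw [← f2b_sum_range D hD (fun α => tz D u u' α * tz D v v' (α + (s : ZMod D)))
      (fun α => α ≡ v₀ [MOD W]) _ ?_]
    · refine Finset.sum_congr rfl fun α _ => ?_
      rw [Nat.cast_add]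
    · intro n _
      rw [Finset.mem_filter]
      have h1 : (ZMod.castHom h0 (ZMod D₀)).toAddMonoidHom (n : ZMod D) = (n : ZMod D₀) := by
        simp
      rw [h1, ZMod.val_natCast]
      have h2 : n % D₀ ≡ n [MOD W] := (Nat.mod_modEq n D₀).of_dvd hW
      constructor
      · intro h
        exact ⟨Finset.mem_univ _, h2.trans h⟩
      · intro h
        exact h2.symm.trans h.2
  have e2 : ∑ a ∈ (Finset.range D₀).filter (fun a => a ≡ v₀ [MOD W]),
        tz D₀ u u' (a : ZMod D₀) * tz D₀ v v' ((a + s : ℕ) : ZMod D₀) =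
      ∑ a ∈ Finset.univ.filter (fun a : ZMod D₀ => a.val ≡ v₀ [MOD W]),
        tz D₀ u u' a * tz D₀ v v' (a + (ZMod.castHom h0 (ZMod D₀)).toAddMonoidHom (s : ZMod D)) := by
    rw [← f2b_sum_range D₀ hD0 (fun a => tz D₀ u u' a *
      tz D₀ v v' (a + (ZMod.castHom h0 (ZMod D₀)).toAddMonoidHom (s : ZMod D)))
      (fun a => a ≡ v₀ [MOD W]) _ ?_]
    · refine Finset.sum_congr rfl fun a _ => ?_
      have h1 : (ZMod.castHom h0 (ZMod D₀)).toAddMonoidHom (s : ZMod D) = (s : ZMod D₀) := by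
        simp
      rw [h1, Nat.cast_add]
    · intro n hn
      rw [ZMod.val_cast_of_lt hn]
  rw [e1, e2]
  unfold VV
  rw [f2b_sum_range' D hD (fun α => tz D u u' α ^ 2), f2b_sum_range' D hD (fun α => tz D v v' α ^ 2),
    f2b_sum_range' D₀ hD0 (fun α => tz D₀ u u' α ^ 2),
    f2b_sum_range' D₀ hD0 (fun α => tz D₀ v v' α ^ 2)]
  exact key

end Pool.Agent.Lib.MP_d9bc60_nt.TH
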