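import Mathlib
import Pool.Agent.Lib.MP_d9bc60_nt.TH.Defs

/-! Row R3 (about 130 lines): crude Mertens bound. -/

set_option autoImplicit false

namespace Pool.Agent.Lib.MP_d9bc60_nt.TH

open Finset

/-- the product over the primes `≤ z` of `p/(p-1)` -/
noncomputable def r3_f (z : ℕ) : ℝ := ∏ p ∈ (Finset.Icc 1 z).filter Nat.Prime, ((p : ℝ) / ((p : ℝ) - 1))

lemma r3_factor {p : ℕ} (hp : p.Prime) : (1 : ℝ) ≤ (p : ℝ) / ((p : ℝ) - 1) := by
  have h2 : (2 : ℝ) ≤ p := by exact_mod_cast hp.two_le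
  rw [one_le_div (by linarith)]
  linarith

lemma r3_f_pos (z : ℕ) : 0 < r3_f z := by
  refine Finset.prod_pos fun p hp => ?_
  exact lt_of_lt_of_le one_pos (r3_factor (Finset.mem_filter.1 hp).2)

lemma r3_f_mono {m z : ℕ} (h : m ≤ z) : r3_f m ≤ r3_f z := by
  have hsub : (Finset.Icc 1 m).filter Nat.Prime ⊆ (Finset.Icc 1 z).filter Nat.Prime := by
    intro p hp
    rw [Finset.mem_filter, Finset.mem_Icc] at hp ⊢
    exact ⟨⟨hp.1.1, by omega⟩, hp.2⟩
  have h1 : r3_f z = (∏ p ∈ (Finset.Icc 1 z).filter Nat.Prime \ (Finset.Icc 1 m).filter Nat.Prime,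
      ((p : ℝ) / ((p : ℝ) - 1))) * r3_f m := by
    unfold r3_f
    rw [Finset.prod_sdiff hsub]
  rw [h1]
  refine le_mul_of_one_le_left (r3_f_pos m).le ?_
  refine Finset.prod_induction _ (fun x : ℝ => 1 ≤ x)
    (fun a b ha hb => one_le_mul_of_one_le_of_one_le ha hb) le_rfl fun p hp => ?_
  rw [Finset.mem_sdiff, Finset.mem_filter] at hp
  exact r3_factor hp.1.2

lemma r3_eq (z : ℕ) : (primorial z : ℝ) / (primorial z).totient = r3_f z := by
  have hpos : primorial z ≠ 0 := (primorial_pos z).ne'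
  have hpf : (primorial z).primeFactors = (Finset.Icc 1 z).filter Nat.Prime := by
    have : primorial z = ∏ p ∈ (Finset.Icc 1 z).filter Nat.Prime, p := by
      unfold primorial
      refine Finset.prod_congr ?_ fun _ _ => rfl
      ext p
      rw [Finset.mem_filter, Finset.mem_filter, Finset.mem_range, Finset.mem_Icc]
      constructor
      · rintro ⟨h1, h2⟩
        exact ⟨⟨h2.one_lt.le, by omega⟩, h2⟩
      · rintro ⟨h1, h2⟩
        exact ⟨by omega, h2⟩
    rw [this]
    exact Nat.primeFactors_prod fun p hp => (Finset.mem_filter.1 hp).2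
  have h := Nat.totient_mul_prod_primeFactors (primorial z)
  have hsq : ∏ p ∈ (primorial z).primeFactors, p = primorial z := by
    rw [hpf]
    unfold primorial
    refine Finset.prod_congr ?_ fun _ _ => rfl
    ext p
    rw [Finset.mem_filter, Finset.mem_filter, Finset.mem_range, Finset.mem_Icc]
    constructor
    · rintro ⟨h1, h2⟩
      exact ⟨by omega, h2⟩
    · rintro ⟨h1, h2⟩
      exact ⟨⟨h2.one_lt.le, by omega⟩, h2⟩
  rw [hsq] at h
  have htot : (primorial z).totient = ∏ p ∈ (primorial z).primeFactors, (p - 1) := by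
    have h' : (primorial z).totient * primorial z =
        (∏ p ∈ (primorial z).primeFactors, (p - 1)) * primorial z := by
      rw [h]; ring
    exact Nat.eq_of_mul_eq_mul_right (primorial_pos z) h'
  rw [htot]
  conv_lhs => rw [← hsq]
  rw [hsq, hpf]
  unfold r3_f
  rw [Finset.prod_div_distrib]
  congr 1
  · rw [← hpf, ← Nat.cast_prod, hsq]
  · rw [Nat.cast_prod]
    refine Finset.prod_congr rfl fun p hp => ?_
    have h2 := (Finset.mem_filter.1 hp).2.one_lt.le
    push_cast [Nat.cast_sub h2]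
    rfl

lemma r3_step {m z : ℕ} {η : ℝ} (hm : 1 ≤ m) (hmz : m ≤ z)
    (hη : (((Finset.Icc 1 z).filter Nat.Prime).card : ℝ) ≤ η * m) :
    r3_f z ≤ r3_f m * Real.exp η := by
  have hsub : (Finset.Icc 1 m).filter Nat.Prime ⊆ (Finset.Icc 1 z).filter Nat.Prime := by
    intro p hp
    rw [Finset.mem_filter, Finset.mem_Icc] at hp ⊢
    exact ⟨⟨hp.1.1, by omega⟩, hp.2⟩
  have hm0 : (0 : ℝ) < m := by exact_mod_cast hm
  unfold r3_f
  rw [← Finset.prod_sdiff hsub, mul_comm]
  refine mul_le_mul_of_nonneg_left ?_ (r3_f_pos m).le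
  calc ∏ p ∈ (Finset.Icc 1 z).filter Nat.Prime \ (Finset.Icc 1 m).filter Nat.Prime,
        ((p : ℝ) / ((p : ℝ) - 1))
      ≤ ∏ p ∈ (Finset.Icc 1 z).filter Nat.Prime \ (Finset.Icc 1 m).filter Nat.Prime,
        Real.exp (1 / m) := by
        refine Finset.prod_le_prod ?_ ?_
        · intro p hp
          rw [Finset.mem_sdiff, Finset.mem_filter] at hp
          exact le_trans zero_le_one (r3_factor hp.1.2)
        · intro p hp
          rw [Finset.mem_sdiff, Finset.mem_filter, Finset.mem_filter, Finset.mem_Icc,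
            Finset.mem_Icc] at hp
          obtain ⟨⟨h1, h2⟩, h3⟩ := hp
          have h4 : m < p := by
            by_contra hcon
            exact h3 ⟨⟨h1.1, by omega⟩, h2⟩
          have h5 : (m : ℝ) ≤ (p : ℝ) - 1 := by
            have : m + 1 ≤ p := h4
            have : ((m + 1 : ℕ) : ℝ) ≤ p := by exact_mod_cast this
            push_cast at this
            linarith
          have h6 : (p : ℝ) / ((p : ℝ) - 1) = 1 / ((p : ℝ) - 1) + 1 := by
            have : (p : ℝ) - 1 ≠ 0 := by linarith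
            field_simp
            ring
          rw [h6]
          refine (Real.add_one_le_exp _).trans (Real.exp_le_exp.2 ?_)
          exact one_div_le_one_div_of_le hm0 h5
    _ = Real.exp (1 / m) ^ (((Finset.Icc 1 z).filter Nat.Prime \
          (Finset.Icc 1 m).filter Nat.Prime).card) := by rw [Finset.prod_const]
    _ = Real.exp ((((Finset.Icc 1 z).filter Nat.Prime \
          (Finset.Icc 1 m).filter Nat.Prime).card : ℝ) * (1 / m)) := by
        rw [Real.exp_nat_mul]
    _ ≤ Real.exp η := by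
        refine Real.exp_le_exp.2 ?_
        rw [mul_one_div, div_le_iff₀ hm0]
        refine le_trans ?_ hη
        exact_mod_cast Finset.card_le_card Finset.sdiff_subset

lemma r3_density {ε : ℝ} (hε : 0 < ε) : ∀ᶠ z : ℕ in Filter.atTop,
    (((Finset.Icc 1 z).filter Nat.Prime).card : ℝ) ≤ ε * z := by
  have h1 := tendsto_natCast_atTop_atTop (R := ℝ) |>.eventually
    (Chebyshev.eventually_primeCounting_le (ε := 1) (by norm_num))
  have h2 : ∀ᶠ z : ℕ in Filter.atTop, (Real.log 4 + 1) / ε ≤ Real.log z :=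
    (Real.tendsto_log_atTop.comp tendsto_natCast_atTop_atTop).eventually_ge_atTop _
  filter_upwards [h1, h2, Filter.eventually_ge_atTop 2] with z h3 h4 h5
  have hz : (2 : ℝ) ≤ z := by exact_mod_cast h5
  have hlog : 0 < Real.log z := Real.log_pos (by linarith)
  rw [Nat.floor_natCast] at h3
  have hcard : ((Finset.Icc 1 z).filter Nat.Prime).card = Nat.primeCounting z := by
    rw [Nat.primeCounting, Nat.primeCounting', Nat.count_eq_card_filter_range]
    congr 1
    ext p
    rw [Finset.mem_filter, Finset.mem_filter, Finset.mem_range, Finset.mem_Icc]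
    constructor
    · rintro ⟨h1, h2⟩
      exact ⟨by omega, h2⟩
    · rintro ⟨h1, h2⟩
      exact ⟨⟨h2.one_lt.le, by omega⟩, h2⟩
  rw [hcard]
  refine h3.trans ?_
  rw [div_le_iff₀ hlog]
  rw [div_le_iff₀ hε] at h4
  nlinarith

/-- `N/φ(N) = ∏_{p ∣ N} (1-1/p)⁻¹`. Fix `η = a/4`; by Chebyshev (`Chebyshev.eventually_primeCounting_le` or `pi_le_log4_mul_div`) `π(x) ≤ η x` for `x ≥ x₀`.
Partial summation: `∑_{x₀ < p ≤ z} 1/p ≤ 1 + η (1 + log z)`; and `(1-1/p)⁻¹ ≤ exp(1/p + 1/(p(p-1)))` or `≤ exp(2/p)`, so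
`∏_{p ≤ z} (1-1/p)⁻¹ ≤ C exp(2 η log z)`.
(Dyadic version: the primes in `(2^i, 2^{i+1}]` are at most `η 2^{i+1}` many, each with `1/p ≤ 2^{-i}`: they contribute `≤ 2η`, and there are
`≤ log z/log 2 + 1` values of `i`; take `η` accordingly.) -/
theorem primorial_ratio {a : ℝ} (ha : 0 < a) : ∃ C : ℝ, 0 < C ∧ ∀ z : ℕ, 1 ≤ z →
    (primorial z : ℝ) / (primorial z).totient ≤ C * (z : ℝ) ^ a := by
  set η : ℝ := a * Real.log 2 with hη
  have hlog2 : 0 < Real.log 2 := Real.log_pos (by norm_num)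
  have hη0 : 0 < η := mul_pos ha hlog2
  obtain ⟨z₀, hz₀⟩ := Filter.eventually_atTop.1 (r3_density (ε := η / 3) (by positivity))
  set N : ℕ := 2 * z₀ + 2 with hN
  refine ⟨r3_f N, r3_f_pos N, ?_⟩
  intro z
  induction z using Nat.strong_induction_on with
  | _ z ih =>
    intro hz
    rw [r3_eq]
    have hz1 : (1 : ℝ) ≤ z := by exact_mod_cast hz
    by_cases hzN : z ≤ N
    · calc r3_f z ≤ r3_f N := r3_f_mono hzN
        _ = r3_f N * 1 := (mul_one _).symm
        _ ≤ r3_f N * (z : ℝ) ^ a :=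
          mul_le_mul_of_nonneg_left (Real.one_le_rpow hz1 ha.le) (r3_f_pos N).le
    · set m := z / 2 with hm
      have hm1 : 1 ≤ m := by omega
      have hmz : m < z := by omega
      have h2m : 2 * m ≤ z := by omega
      have hz2 : z ≤ 2 * m + 1 := by omega
      have h1 := ih m hmz hm1
      rw [r3_eq] at h1
      have hd : (((Finset.Icc 1 z).filter Nat.Prime).card : ℝ) ≤ η * m := by
        refine (hz₀ z (by omega)).trans ?_
        have b1 : (z : ℝ) ≤ 3 * m := by
          have : z ≤ 3 * m := by omega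
          exact_mod_cast this
        calc η / 3 * (z : ℝ) ≤ η / 3 * (3 * m) := mul_le_mul_of_nonneg_left b1 (by positivity)
          _ = η * m := by ring
      have hstep := r3_step hm1 hmz.le hd
      have hexp : Real.exp η = (2 : ℝ) ^ a := by
        rw [Real.rpow_def_of_pos (by norm_num), hη, mul_comm]
      have hm0 : (0 : ℝ) ≤ m := Nat.cast_nonneg m
      calc r3_f z ≤ r3_f m * Real.exp η := hstep
        _ ≤ (r3_f N * (m : ℝ) ^ a) * (2 : ℝ) ^ a := by
          rw [hexp]
          exact mul_le_mul_of_nonneg_right h1 (by positivity)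
        _ = r3_f N * ((2 * m : ℝ)) ^ a := by
          rw [Real.mul_rpow (by norm_num) hm0]; ring
        _ ≤ r3_f N * (z : ℝ) ^ a := by
          refine mul_le_mul_of_nonneg_left ?_ (r3_f_pos N).le
          refine Real.rpow_le_rpow (by positivity) ?_ ha.le
          exact_mod_cast h2m

end Pool.Agent.Lib.MP_d9bc60_nt.TH
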