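import Mathlib
import Pool.Agent.Lib.MP_d9bc60_nt.TH.R3Mertens

/-! Row G1a (about 200 lines): the number of admissible classes -/

set_option autoImplicit false

namespace Pool.Agent.Lib.MP_d9bc60_nt.TH

open Finset

/-- the condition in `TS` -/
def g1a_P (W β μ t : ℕ) : Prop :=
  t.Coprime W ∧ Int.gcd ((μ : ℤ) - (t : ℤ) * ((t : ℤ) + β)) (W : ℤ) = 1

theorem g1a_mem {W β μ t : ℕ} : t ∈ TS W β μ ↔ t < W ∧ g1a_P W β μ t := by
  unfold TS g1a_P
  rw [Finset.mem_filter, Finset.mem_range]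

theorem g1a_congr {W : ℕ} (β μ : ℕ) {t t' : ℕ} (h : t ≡ t' [MOD W]) :
    g1a_P W β μ t ↔ g1a_P W β μ t' := by
  unfold g1a_P
  have h1 : t.Coprime W ↔ t'.Coprime W := by
    unfold Nat.Coprime
    rw [Nat.ModEq.gcd_eq h]
  rw [h1]
  refine and_congr_right fun _ => ?_
  rw [← Int.isCoprime_iff_gcd_eq_one, ← Int.isCoprime_iff_gcd_eq_one]
  have h2 : (W : ℤ) ∣ (t' : ℤ) - t := (Nat.modEq_iff_dvd.1 h)
  obtain ⟨k, hk⟩ := h2
  have h3 : (μ : ℤ) - (t : ℤ) * ((t : ℤ) + β) =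
      ((μ : ℤ) - (t' : ℤ) * ((t' : ℤ) + β)) + (W : ℤ) * (k * ((t : ℤ) + t' + β)) := by
    have : (t' : ℤ) = t + W * k := by linarith
    rw [this]
    ring
  rw [h3]
  exact IsCoprime.add_mul_left_left_iff

theorem g1a_mul (a b β μ t : ℕ) : g1a_P (a * b) β μ t ↔ g1a_P a β μ t ∧ g1a_P b β μ t := by
  unfold g1a_P
  rw [Nat.coprime_mul_iff_right]
  simp only [← Int.isCoprime_iff_gcd_eq_one]
  push_cast
  rw [IsCoprime.mul_right_iff]
  tauto

/-- Chinese remainder theorem: `t ↦ (t mod a, t mod b)` is a bijection of `range (a b)` on `range a × range b`, and the two conditions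
(coprime to `ab`, `gcd = 1`) split. -/
theorem card_TS_mul {a b : ℕ} (hab : a.Coprime b) (ha : 0 < a) (hb : 0 < b) (β μ : ℕ) :
    (TS (a * b) β μ).card = (TS a β μ).card * (TS b β μ).card := by
  rw [← Finset.card_product]
  refine Finset.card_bij' (fun t _ => (t % a, t % b))
    (fun p _ => (Nat.chineseRemainder hab p.1 p.2 : ℕ)) ?_ ?_ ?_ ?_
  · intro t ht
    rw [g1a_mem] at ht
    rw [Finset.mem_product, g1a_mem, g1a_mem]
    obtain ⟨-, h2⟩ := ht
    rw [g1a_mul] at h2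
    exact ⟨⟨Nat.mod_lt _ ha, (g1a_congr β μ (Nat.mod_modEq t a)).2 h2.1⟩,
      ⟨Nat.mod_lt _ hb, (g1a_congr β μ (Nat.mod_modEq t b)).2 h2.2⟩⟩
  · rintro ⟨x, y⟩ hp
    rw [Finset.mem_product, g1a_mem, g1a_mem] at hp
    obtain ⟨⟨hx, hx'⟩, ⟨hy, hy'⟩⟩ := hp
    simp only at hx hx' hy hy'
    rw [g1a_mem]
    refine ⟨Nat.chineseRemainder_lt_mul hab x y ha.ne' hb.ne', ?_⟩
    rw [g1a_mul]
    exact ⟨(g1a_congr β μ (Nat.chineseRemainder hab x y).2.1).2 hx',
      (g1a_congr β μ (Nat.chineseRemainder hab x y).2.2).2 hy'⟩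
  · intro t ht
    rw [g1a_mem] at ht
    have h1 := Nat.chineseRemainder_modEq_unique hab (a := t % a) (b := t % b) (z := t)
      (Nat.mod_modEq t a).symm (Nat.mod_modEq t b).symm
    have h2 := Nat.chineseRemainder_lt_mul hab (t % a) (t % b) ha.ne' hb.ne'
    exact (Nat.ModEq.eq_of_lt_of_lt h1 ht.1 h2).symm
  · rintro ⟨x, y⟩ hp
    rw [Finset.mem_product, g1a_mem, g1a_mem] at hp
    obtain ⟨⟨hx, hx'⟩, ⟨hy, hy'⟩⟩ := hp
    simp only at hx hx' hy hy'
    have h1 : (Nat.chineseRemainder hab x y : ℕ) % a = x % a := (Nat.chineseRemainder hab x y).2.1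
    have h2 : (Nat.chineseRemainder hab x y : ℕ) % b = y % b := (Nat.chineseRemainder hab x y).2.2
    show ((Nat.chineseRemainder hab x y : ℕ) % a, (Nat.chineseRemainder hab x y : ℕ) % b) = (x, y)
    rw [h1, h2, Nat.mod_eq_of_lt hx, Nat.mod_eq_of_lt hy]

/-- For a prime `ℓ ≥ 5` the excluded classes are `0` and the at most two roots of `t(t+β) = μ`. -/
theorem card_TS_prime {l : ℕ} (hl : l.Prime) (h5 : 5 ≤ l) (β μ : ℕ) : l - 3 ≤ (TS l β μ).card := by
  classical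
  haveI : Fact l.Prime := ⟨hl⟩
  set p : Polynomial (ZMod l) := Polynomial.X ^ 2 + Polynomial.C (β : ZMod l) * Polynomial.X -
    Polynomial.C (μ : ZMod l) with hp
  have hdeg : p.natDegree = 2 := by
    rw [hp]
    compute_degree!
  have hp0 : p ≠ 0 := by
    intro h
    rw [h] at hdeg
    simp at hdeg
  have hroots : p.roots.toFinset.card ≤ 2 := by
    calc p.roots.toFinset.card ≤ Multiset.card p.roots := Multiset.toFinset_card_le _
      _ ≤ p.natDegree := p.card_roots'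
      _ = 2 := hdeg
  have hsub : Finset.range l ⊆ TS l β μ ∪
      ({0} ∪ (Finset.range l).filter (fun t : ℕ => (t : ZMod l) ∈ p.roots.toFinset)) := by
    intro t ht
    rw [Finset.mem_union, Finset.mem_union, Finset.mem_singleton, Finset.mem_filter, g1a_mem]
    by_cases h0 : t = 0
    · exact Or.inr (Or.inl h0)
    by_cases h1 : (t : ZMod l) ∈ p.roots.toFinset
    · exact Or.inr (Or.inr ⟨ht, h1⟩)
    left
    refine ⟨Finset.mem_range.1 ht, ?_, ?_⟩
    · have : ¬ l ∣ t := fun h => h0 (Nat.eq_zero_of_dvd_of_lt h (Finset.mem_range.1 ht))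
      exact ((Nat.Prime.coprime_iff_not_dvd hl).2 this).symm
    · rw [← Int.isCoprime_iff_gcd_eq_one]
      have h2 : ¬ (l : ℤ) ∣ (μ : ℤ) - (t : ℤ) * ((t : ℤ) + β) := by
        intro hd
        apply h1
        rw [Multiset.mem_toFinset, Polynomial.mem_roots hp0, Polynomial.IsRoot.def]
        have h3 : (((μ : ℤ) - (t : ℤ) * ((t : ℤ) + β) : ℤ) : ZMod l) = 0 :=
          (ZMod.intCast_zmod_eq_zero_iff_dvd _ _).2 hd
        push_cast at h3
        rw [hp]
        simp only [Polynomial.eval_sub, Polynomial.eval_add, Polynomial.eval_pow,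
          Polynomial.eval_X, Polynomial.eval_mul, Polynomial.eval_C]
        linear_combination -h3
      exact ((Prime.coprime_iff_not_dvd (Nat.prime_iff_prime_int.1 hl)).2 h2).symm
  have hc1 : ((Finset.range l).filter (fun t : ℕ => (t : ZMod l) ∈ p.roots.toFinset)).card ≤ 2 := by
    refine le_trans ?_ hroots
    refine Finset.card_le_card_of_injOn (fun t : ℕ => (t : ZMod l)) ?_ ?_
    · intro t ht
      rw [Finset.mem_coe, Finset.mem_filter] at ht
      exact ht.2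
    · intro t ht t' ht' htt
      rw [Finset.mem_coe, Finset.mem_filter, Finset.mem_range] at ht ht'
      have := (ZMod.natCast_eq_natCast_iff t t' l).1 htt
      exact Nat.ModEq.eq_of_lt_of_lt this ht.1 ht'.1
  have hc2 := Finset.card_le_card hsub
  rw [Finset.card_range] at hc2
  have hc3 := Finset.card_union_le (TS l β μ)
    ({0} ∪ (Finset.range l).filter (fun t : ℕ => (t : ZMod l) ∈ p.roots.toFinset))
  have hc4 := Finset.card_union_le ({0} : Finset ℕ)
    ((Finset.range l).filter (fun t : ℕ => (t : ZMod l) ∈ p.roots.toFinset))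
  rw [Finset.card_singleton] at hc4
  omega

/-- `t = 1`: `μ - 1 - β` is odd. -/
theorem card_TS_two (β μ : ℕ) (h : μ ≡ β [MOD 2]) : 1 ≤ (TS 2 β μ).card := by
  rw [Nat.one_le_iff_ne_zero, ← Nat.pos_iff_ne_zero, Finset.card_pos]
  refine ⟨1, ?_⟩
  rw [g1a_mem]
  refine ⟨by norm_num, by norm_num, ?_⟩
  rw [← Int.isCoprime_iff_gcd_eq_one]
  have h1 : ((2 : ℕ) : ℤ) ∣ (β : ℤ) - μ := Nat.modEq_iff_dvd.1 h
  refine ((Prime.coprime_iff_not_dvd (Nat.prime_iff_prime_int.1 Nat.prime_two)).2 ?_).symm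
  intro h2
  push_cast at h1 h2
  omega

/-- `t = 1, 2` give `t(t+β) ≡ 1+β, 1-β mod 3`, which are different. -/
theorem card_TS_three (β μ : ℕ) (h : ¬ 3 ∣ β) : 1 ≤ (TS 3 β μ).card := by
  rw [Nat.one_le_iff_ne_zero, ← Nat.pos_iff_ne_zero, Finset.card_pos]
  by_cases h1 : ((3 : ℕ) : ℤ) ∣ (μ : ℤ) - ((1 : ℕ) : ℤ) * (((1 : ℕ) : ℤ) + β)
  · refine ⟨2, ?_⟩
    rw [g1a_mem]
    refine ⟨by norm_num, by norm_num, ?_⟩
    rw [← Int.isCoprime_iff_gcd_eq_one]
    refine ((Prime.coprime_iff_not_dvd (Nat.prime_iff_prime_int.1 Nat.prime_three)).2 ?_).symm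
    intro h2
    push_cast at h1 h2
    omega
  · refine ⟨1, ?_⟩
    rw [g1a_mem]
    refine ⟨by norm_num, by norm_num, ?_⟩
    rw [← Int.isCoprime_iff_gcd_eq_one]
    exact ((Prime.coprime_iff_not_dvd (Nat.prime_iff_prime_int.1 Nat.prime_three)).2 h1).symm

end Pool.Agent.Lib.MP_d9bc60_nt.TH
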