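import Mathlib
import Pool.Agent.Lib.MP_d9bc60_nt.TH.R3Mertens
import Pool.Agent.Lib.MP_d9bc60_nt.TH.G1aCrt

/-! Row G1b (about 150 lines) -/

set_option autoImplicit false

namespace Pool.Agent.Lib.MP_d9bc60_nt.TH

open Finset

theorem g1b_succ (w : ℕ) : primorial (w + 1) =
    if (w + 1).Prime then (w + 1) * primorial w else primorial w := by
  unfold primorial
  rw [Finset.range_add_one, Finset.filter_insert]
  split_ifs with h
  · rw [Finset.prod_insert]
    simp
  · rfl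

theorem g1b_coprime {w : ℕ} (h : (w + 1).Prime) : (w + 1).Coprime (primorial w) := by
  rw [Nat.Prime.coprime_iff_not_dvd h]
  intro hd
  have := (Nat.Prime.dvd_primorial_iff h).1 hd
  omega

theorem g1b_prime {l : ℕ} (hl : l.Prime) (β μ : ℕ) (h3 : ¬ 3 ∣ β) (h2 : μ ≡ β [MOD 2]) :
    1 ≤ (TS l β μ).card ∧ ((l.totient : ℕ) : ℝ) ≤ ((l : ℝ) / l.totient) ^ 4 * (TS l β μ).card := by
  rcases Nat.lt_or_ge l 5 with h5 | h5
  · have : l = 2 ∨ l = 3 := by
      have := hl.two_le
      interval_cases l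
      · left; rfl
      · right; rfl
      · exact absurd hl (by norm_num)
    rcases this with rfl | rfl
    · have h := card_TS_two β μ h2
      refine ⟨h, ?_⟩
      have h' : (1 : ℝ) ≤ (TS 2 β μ).card := by exact_mod_cast h
      have : Nat.totient 2 = 1 := by decide
      rw [this]
      norm_num
      linarith
    · have h := card_TS_three β μ h3
      refine ⟨h, ?_⟩
      have h' : (1 : ℝ) ≤ (TS 3 β μ).card := by exact_mod_cast h
      have : Nat.totient 3 = 2 := by decide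
      rw [this]
      norm_num
      linarith
  · have h := card_TS_prime hl h5 β μ
    refine ⟨by omega, ?_⟩
    have h' : (l : ℝ) - 3 ≤ (TS l β μ).card := by
      have : l ≤ (TS l β μ).card + 3 := by omega
      have : (l : ℝ) ≤ (TS l β μ).card + 3 := by exact_mod_cast this
      linarith
    rw [Nat.totient_prime hl]
    have h5' : (5 : ℝ) ≤ l := by exact_mod_cast h5
    have hc : ((l - 1 : ℕ) : ℝ) = (l : ℝ) - 1 := by
      rw [Nat.cast_sub (by omega)]; norm_num
    have hpos1 : (0 : ℝ) < (l : ℝ) - 1 := by linarith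
    have hpos : (0 : ℝ) < ((l : ℝ) - 1) ^ 4 := by positivity
    rw [hc, div_pow, div_mul_eq_mul_div, le_div_iff₀ hpos]
    have key : ((l : ℝ) - 1) * ((l : ℝ) - 1) ^ 4 ≤ (l : ℝ) ^ 4 * ((l : ℝ) - 3) := by
      have h0 : (0 : ℝ) ≤ (l : ℝ) ^ 3 * ((l : ℝ) - 5) := by
        have : (0 : ℝ) ≤ (l : ℝ) - 5 := by linarith
        positivity
      nlinarith [h0]
    calc ((l : ℝ) - 1) * ((l : ℝ) - 1) ^ 4 ≤ (l : ℝ) ^ 4 * ((l : ℝ) - 3) := key
      _ ≤ (l : ℝ) ^ 4 * (TS l β μ).card := by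
        apply mul_le_mul_of_nonneg_left h' (by positivity)

theorem g1b_aux (β μ : ℕ) (h3 : ¬ 3 ∣ β) (h2 : μ ≡ β [MOD 2]) (w : ℕ) :
    1 ≤ (TS (primorial w) β μ).card ∧ (((primorial w).totient : ℕ) : ℝ) ≤
      ((primorial w : ℝ) / (primorial w).totient) ^ 4 * (TS (primorial w) β μ).card := by
  induction w with
  | zero =>
    have h1 : primorial 0 = 1 := by decide
    rw [h1]
    have : TS 1 β μ = {0} := by
      unfold TS
      ext t
      simp
    rw [this]
    norm_num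
  | succ w ih =>
    rw [g1b_succ]
    split_ifs with h
    · have hpos : 0 < primorial w := primorial_pos w
      rw [card_TS_mul (g1b_coprime h) (by omega) hpos, Nat.totient_mul (g1b_coprime h)]
      obtain ⟨a1, a2⟩ := g1b_prime h β μ h3 h2
      refine ⟨Nat.mul_pos a1 ih.1, ?_⟩
      have e : (((w + 1) * primorial w : ℕ) : ℝ) / (((w + 1).totient * (primorial w).totient : ℕ) : ℝ)
          = (((w + 1 : ℕ) : ℝ) / ((w + 1).totient : ℕ)) * ((primorial w : ℝ) / (primorial w).totient) := by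
        push_cast
        rw [mul_div_mul_comm]
      rw [e]
      push_cast at *
      calc ((w + 1).totient : ℝ) * ((primorial w).totient : ℝ)
          ≤ (((w : ℝ) + 1) / ((w + 1).totient : ℝ)) ^ 4 * ((TS (w + 1) β μ).card : ℝ) *
            (((primorial w : ℝ) / (primorial w).totient) ^ 4 * (TS (primorial w) β μ).card) := by
            apply mul_le_mul a2 ih.2 (by positivity) (by positivity)
        _ = _ := by ring
    · exact ih

/-- Product over the primes dividing `primorial w` (`card_TS_mul`, induction on `w` with `primorial_succ`-type lemmas or on `Finset` of primes):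
`φ(W)/g ≤ 2 ∏_{5 ≤ ℓ ≤ w} (ℓ-1)/(ℓ-3)` and `(ℓ-1)/(ℓ-3) ≤ (ℓ/(ℓ-1))⁴`, so `φ(W)/g ≤ 2 (W/φ(W))⁴ ≤ C w^{1/16}` (`primorial_ratio` with `a = 1/64`). -/
theorem card_TS_primorial : ∃ C : ℝ, 0 < C ∧ ∀ w : ℕ, 1 ≤ w → ∀ β μ : ℕ, ¬ 3 ∣ β →
    μ ≡ β [MOD 2] → 1 ≤ (TS (primorial w) β μ).card ∧
      ((primorial w).totient : ℝ) ≤ C * (w : ℝ) ^ (1 / 16 : ℝ) * (TS (primorial w) β μ).card := by
  obtain ⟨C, hC, h⟩ := primorial_ratio (a := 1 / 64) (by norm_num)
  refine ⟨C ^ 4, by positivity, ?_⟩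
  intro w hw β μ h3 h2
  obtain ⟨a1, a2⟩ := g1b_aux β μ h3 h2 w
  refine ⟨a1, a2.trans ?_⟩
  apply mul_le_mul_of_nonneg_right _ (by positivity)
  calc ((primorial w : ℝ) / (primorial w).totient) ^ 4 ≤ (C * (w : ℝ) ^ (1 / 64 : ℝ)) ^ 4 := by
        apply pow_le_pow_left₀ (by positivity) (h w hw)
    _ = C ^ 4 * (w : ℝ) ^ (1 / 16 : ℝ) := by
        rw [mul_pow, ← Real.rpow_natCast ((w : ℝ) ^ (1 / 64 : ℝ)) 4, ← Real.rpow_mul (by positivity)]
        norm_num

end Pool.Agent.Lib.MP_d9bc60_nt.TH
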