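import Mathlib
import Pool.Agent.Lib.MP_d9bc60_nt.TH.W8bPnt
import Pool.Agent.Lib.MP_d9bc60_nt.TH.P1Range
import Pool.Agent.Lib.MP_d9bc60_nt.TH.A3Pairs

/-! Row I1a (about 220 lines): the first moment -/

set_option autoImplicit false

namespace Pool.Agent.Lib.MP_d9bc60_nt.TH

open Finset Filter

theorem i1a_unif (W : ℕ) (hW : 0 < W) {ε : ℝ} (hε : 0 < ε) :
    ∃ Y₀ : ℕ, ∀ Y : ℕ, Y₀ ≤ Y → ∀ u v : ℕ, u ≤ v → v ≤ Y → ∀ a : ZMod W, IsUnit a →
      |tz W u v a - ((v : ℝ) - u) / W.totient| ≤ ε * Y := by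
  haveI : NeZero W := ⟨hW.ne'⟩
  classical
  have h : ∀ a : ZMod W, ∃ Y₀ : ℕ, ∀ Y : ℕ, Y₀ ≤ Y → ∀ u v : ℕ, u ≤ v → v ≤ Y → IsUnit a →
      |tz W u v a - ((v : ℝ) - u) / W.totient| ≤ ε * Y := by
    intro a
    by_cases ha : IsUnit a
    · obtain ⟨Y₀, h⟩ := pnt_interval ha hε
      exact ⟨Y₀, fun Y hY u v huv hv _ => h Y hY u v huv hv⟩
    · exact ⟨0, fun Y hY u v huv hv h => absurd h ha⟩
  choose f hf using h
  exact ⟨Finset.univ.sup f, fun Y hY u v huv hv a ha =>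
    hf a Y ((Finset.le_sup (Finset.mem_univ a)).trans hY) u v huv hv ha⟩

theorem i1a_inner (W : ℕ) (β μ : ℕ) (δ : ℝ) (X p b : ℕ) (hb : b ≡ β [MOD W])
    (hs : p * (p + b) ≤ X) :
    tz W ⌊δ * X⌋₊ (X - p * (p + b)) ((μ : ZMod W) - p * (p + β)) ≤
      ∑ m ∈ mS W μ δ X, lam (m - p * (p + b)) := by
  classical
  set s := p * (p + b) with hsdef
  unfold tz
  have hbz : (b : ZMod W) = β := (ZMod.natCast_eq_natCast_iff _ _ _).mpr hb
  have h1 : ∑ n ∈ (Finset.Ioc ⌊δ * X⌋₊ (X - s)).filter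
        (fun n : ℕ => (n : ZMod W) = (μ : ZMod W) - p * (p + β)), lam n =
      ∑ m ∈ ((Finset.Ioc ⌊δ * X⌋₊ (X - s)).filter
        (fun n : ℕ => (n : ZMod W) = (μ : ZMod W) - p * (p + β))).image (fun n => n + s),
        lam (m - s) := by
    rw [Finset.sum_image]
    · refine Finset.sum_congr rfl (fun n _ => ?_)
      rw [Nat.add_sub_cancel]
    · intro a _ b _ h
      exact Nat.add_right_cancel h
  rw [h1]
  refine Finset.sum_le_sum_of_subset_of_nonneg ?_ (fun _ _ _ => lam_nonneg _)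
  intro m hm
  rw [Finset.mem_image] at hm
  obtain ⟨n, hn, rfl⟩ := hm
  rw [Finset.mem_filter, Finset.mem_Ioc] at hn
  unfold mS
  rw [Finset.mem_filter, Finset.mem_Ioc]
  refine ⟨⟨by omega, by omega⟩, ?_⟩
  rw [← ZMod.natCast_eq_natCast_iff, Nat.cast_add, hn.2, hsdef, Nat.cast_mul, Nat.cast_add, hbz]
  ring

theorem i1a_classes (W : ℕ) (hW : 0 < W) (β μ P : ℕ) :
    ∑ t ∈ TS W β μ, tz W P (2 * P) (t : ZMod W) =
      ∑ p ∈ (Finset.Ioc P (2 * P)).filter (fun p => p % W ∈ TS W β μ), lam p := by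
  classical
  rw [← Finset.sum_fiberwise_of_maps_to (s := (Finset.Ioc P (2 * P)).filter
    (fun p => p % W ∈ TS W β μ)) (t := TS W β μ) (g := fun p => p % W)
    (fun p hp => (Finset.mem_filter.mp hp).2)]
  refine Finset.sum_congr rfl (fun t ht => ?_)
  unfold tz
  refine Finset.sum_congr ?_ (fun _ _ => rfl)
  have htW : t < W := Finset.mem_range.mp (Finset.mem_filter.mp ht).1
  ext p
  simp only [Finset.mem_filter]
  constructor
  · rintro ⟨h1, h2⟩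
    have h3 : p % W = t := by
      rw [ZMod.natCast_eq_natCast_iff] at h2
      have : p % W = t % W := h2
      rw [this, Nat.mod_eq_of_lt htW]
    exact ⟨⟨h1, h3.symm ▸ ht⟩, h3⟩
  · rintro ⟨⟨h1, _⟩, h3⟩
    refine ⟨h1, ?_⟩
    rw [ZMod.natCast_eq_natCast_iff]
    show p % W = t % W
    rw [h3, Nat.mod_eq_of_lt htW]

theorem i1a_unit (W : ℕ) (hW : 0 < W) (β μ p : ℕ) (hp : p % W ∈ TS W β μ) :
    IsUnit ((μ : ZMod W) - p * (p + β)) := by
  have h := (Finset.mem_filter.mp hp).2.2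
  have h1 : (((μ : ℤ) - ((p % W : ℕ) : ℤ) * (((p % W : ℕ) : ℤ) + β) : ℤ) : ZMod W) =
      (μ : ZMod W) - p * (p + β) := by
    push_cast
    ring
  rw [← h1]
  rw [ZMod.coe_int_isUnit_iff_isCoprime]
  exact (Int.isCoprime_iff_gcd_eq_one.mpr h).symm

/-- Choose `ε' = η/(16 φ(W))` in `pnt_interval` (all unit classes modulo `W`), `P, X` large.
`∑_b ∑_m RR = ∑_{p} lam p ∑_b ∑_m lam (m - p(p+b))`. Keep only the primes `p` with `p mod W ∈ TS W β μ`. For such `p` and `b ∈ bS`: the numbers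
`n = m - p(p+b)`, `m ∈ mS`, are the integers of `(⌊δX⌋ - p(p+b), X - p(p+b)]` in the class `a = μ - p(p+β)` (a unit modulo `W`), they include those of
`(⌊δX⌋, X - p(p+b)]`, so `∑_m lam(m - p(p+b)) ≥ tz W ⌊δX⌋ (X - p(p+b)) a ≥ (X - p(p+b) - ⌊δX⌋)/φ(W) - ε'X ≥ (1 - 2δ - η/8) X/φ(W)`
(`rng_shift`, `4δ' ≤ δ/4`; if the interval is empty the bound is trivial). Then `|bS| ≥ (1-η/8) B/W` and
`∑_{p mod W ∈ TS} lam p = ∑_{t ∈ TS} tz W P 2P t ≥ g (1-η/8) P/φ(W)`. -/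
theorem first_moment (W : ℕ) (hW : 0 < W) {η δ δ' K : ℝ} (hη : 0 < η) (hη1 : η ≤ 1) (hδ : 0 < δ)
    (hδ2 : δ ≤ 1 / 4) (hδ' : 0 < δ') (h16 : 16 * δ' ≤ δ) (hK : 0 < K) :
    ∀ᶠ B : ℕ in atTop, ∀ X : ℕ, Rng K B X → ∀ β μ : ℕ,
      (1 - η - 2 * δ) * ((TS W β μ).card * (PX δ' B X : ℝ) * B * X / (W * (W.totient : ℝ) ^ 2)) ≤
        ∑ b ∈ bS W β B, ∑ m ∈ mS W μ δ X, RR (PX δ' B X) b m := by
  classical
  have hφ : 0 < W.totient := Nat.totient_pos.mpr hW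
  have hφR : (0 : ℝ) < W.totient := Nat.cast_pos.mpr hφ
  have hWR : (0 : ℝ) < W := Nat.cast_pos.mpr hW
  have hε : (0 : ℝ) < η / (16 * W.totient) := by positivity
  obtain ⟨Y₀, hY₀⟩ := i1a_unif W hW hε
  have h161 : 16 * δ' ≤ 1 := by linarith
  have hη8 : (0 : ℝ) < η / 8 := by positivity
  filter_upwards [rng_X_large hK (Y₀ : ℝ), rng_P_large hK hδ' Y₀, rng_shift hK hδ' h161,
    card_bS W hW hη8] with B hX1 hP1 hsh hbS X hR β μ
  have hX2 : Y₀ ≤ X := by exact_mod_cast hX1 X hR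
  have hP2 := hP1 X hR
  have hsh2 := hsh X hR
  have hbS2 := (hbS β).1
  set P := PX δ' B X with hPdef
  set φ : ℝ := (W.totient : ℝ) with hφdef
  have hX0 : (0 : ℝ) ≤ X := Nat.cast_nonneg X
  have hP0 : (0 : ℝ) ≤ P := Nat.cast_nonneg P
  have hB0 : (0 : ℝ) ≤ B := Nat.cast_nonneg B
  -- lower bound of the inner sum
  obtain ⟨c, hc⟩ : ∃ c : ℝ, c = (X : ℝ) / φ * (1 - 5 * δ / 4 - η / 16) := ⟨_, rfl⟩
  have hc0 : 0 ≤ c := by
    rw [hc]
    refine mul_nonneg (div_nonneg hX0 hφR.le) (by linarith)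
  have hin : ∀ b ∈ bS W β B, ∀ p ∈ (Finset.Ioc P (2 * P)).filter (fun p => p % W ∈ TS W β μ),
      c ≤ ∑ m ∈ mS W μ δ X, lam (m - p * (p + b)) := by
    intro b hb p hp
    rw [Finset.mem_filter, Finset.mem_Ioc] at hp
    unfold bS at hb
    rw [Finset.mem_filter, Finset.mem_Icc] at hb
    have hs := hsh2 p b hp.1.2 hb.1.2
    have hs' : ((p * (p + b) : ℕ) : ℝ) ≤ δ / 4 * X := by
      refine hs.trans (mul_le_mul_of_nonneg_right (by linarith) hX0)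
    have hsX : p * (p + b) ≤ X := by
      have : ((p * (p + b) : ℕ) : ℝ) ≤ (X : ℝ) := by
        refine hs'.trans ?_
        nlinarith
      exact_mod_cast this
    refine le_trans ?_ (i1a_inner W β μ δ X p b hb.2 hsX)
    have hU : (⌊δ * X⌋₊ : ℝ) ≤ δ * X := Nat.floor_le (by positivity)
    have hUs : ⌊δ * X⌋₊ ≤ X - p * (p + b) := by
      have h1 : ((⌊δ * X⌋₊ + p * (p + b) : ℕ) : ℝ) ≤ (X : ℝ) := by
        rw [Nat.cast_add]
        nlinarith
      have h2 : ⌊δ * X⌋₊ + p * (p + b) ≤ X := by exact_mod_cast h1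
      omega
    have h1 := hY₀ X hX2 _ _ hUs (Nat.sub_le _ _) _ (i1a_unit W hW β μ p hp.2)
    have h2 := (abs_le.mp h1).1
    rw [Nat.cast_sub hsX] at h2
    have h3 : c ≤ ((X : ℝ) - ((p * (p + b) : ℕ) : ℝ) - (⌊δ * X⌋₊ : ℝ)) / φ -
        η / (16 * φ) * X := by
      rw [hc]
      have h4 : (X : ℝ) / φ * (1 - 5 * δ / 4 - η / 16) =
          ((X : ℝ) - δ / 4 * X - δ * X) / φ - η / (16 * φ) * X := by
        field_simp
        ring
      rw [h4]
      have h5 : ((X : ℝ) - δ / 4 * X - δ * X) / φ ≤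
          ((X : ℝ) - ((p * (p + b) : ℕ) : ℝ) - (⌊δ * X⌋₊ : ℝ)) / φ :=
        div_le_div_of_nonneg_right (by linarith) hφR.le
      linarith
    linarith
  -- the sum over p
  have hcl : (TS W β μ).card * ((P : ℝ) / φ * (1 - η / 8)) ≤
      ∑ p ∈ (Finset.Ioc P (2 * P)).filter (fun p => p % W ∈ TS W β μ), lam p := by
    rw [← i1a_classes W hW β μ P, ← nsmul_eq_mul, ← Finset.sum_const]
    refine Finset.sum_le_sum (fun t ht => ?_)
    have htu : IsUnit (t : ZMod W) := (ZMod.isUnit_iff_coprime t W).mpr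
      (Finset.mem_filter.mp ht).2.1
    have h1 := hY₀ (2 * P) (by omega) P (2 * P) (by omega) le_rfl _ htu
    have h2 := (abs_le.mp h1).1
    push_cast at h2
    have h3 : (P : ℝ) / φ * (1 - η / 8) = (2 * (P : ℝ) - P) / φ - η / (16 * φ) * (2 * P) := by
      field_simp
      ring
    rw [h3]
    linarith
  -- each b
  have hb : ∀ b ∈ bS W β B, (TS W β μ).card * ((P : ℝ) / φ * (1 - η / 8)) * c ≤
      ∑ m ∈ mS W μ δ X, RR P b m := by
    intro b hb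
    have h1 : ∑ m ∈ mS W μ δ X, RR P b m =
        ∑ p ∈ Finset.Ioc P (2 * P), lam p * ∑ m ∈ mS W μ δ X, lam (m - p * (p + b)) := by
      unfold RR
      rw [Finset.sum_comm]
      refine Finset.sum_congr rfl (fun p _ => ?_)
      rw [Finset.mul_sum]
    rw [h1]
    calc (TS W β μ).card * ((P : ℝ) / φ * (1 - η / 8)) * c
        ≤ (∑ p ∈ (Finset.Ioc P (2 * P)).filter (fun p => p % W ∈ TS W β μ), lam p) * c :=
          mul_le_mul_of_nonneg_right hcl hc0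
      _ = ∑ p ∈ (Finset.Ioc P (2 * P)).filter (fun p => p % W ∈ TS W β μ), lam p * c := by
          rw [Finset.sum_mul]
      _ ≤ ∑ p ∈ (Finset.Ioc P (2 * P)).filter (fun p => p % W ∈ TS W β μ),
            lam p * ∑ m ∈ mS W μ δ X, lam (m - p * (p + b)) :=
          Finset.sum_le_sum (fun p hp => mul_le_mul_of_nonneg_left (hin b hb p hp) (lam_nonneg p))
      _ ≤ ∑ p ∈ Finset.Ioc P (2 * P), lam p * ∑ m ∈ mS W μ δ X, lam (m - p * (p + b)) :=
          Finset.sum_le_sum_of_subset_of_nonneg (Finset.filter_subset _ _)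
            (fun p _ _ => mul_nonneg (lam_nonneg p) (Finset.sum_nonneg (fun _ _ => lam_nonneg _)))
  have htot : ((bS W β B).card : ℝ) * ((TS W β μ).card * ((P : ℝ) / φ * (1 - η / 8)) * c) ≤
      ∑ b ∈ bS W β B, ∑ m ∈ mS W μ δ X, RR P b m := by
    rw [← nsmul_eq_mul, ← Finset.sum_const]
    exact Finset.sum_le_sum hb
  refine le_trans ?_ htot
  have hnn : (0 : ℝ) ≤ (TS W β μ).card * ((P : ℝ) / φ * (1 - η / 8)) * c := by
    refine mul_nonneg (mul_nonneg (Nat.cast_nonneg _) (mul_nonneg (div_nonneg hP0 hφR.le) (by linarith))) hc0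
  refine le_trans ?_ (mul_le_mul_of_nonneg_right hbS2 hnn)
  have hE : (0 : ℝ) ≤ (TS W β μ).card * (P : ℝ) * B * X / (W * φ ^ 2) := by positivity
  have hrw : (1 - η / 8) * B / W * ((TS W β μ).card * ((P : ℝ) / φ * (1 - η / 8)) * c) =
      ((1 - η / 8) * (1 - η / 8) * (1 - 5 * δ / 4 - η / 16)) *
        ((TS W β μ).card * (P : ℝ) * B * X / (W * φ ^ 2)) := by
    rw [hc]
    field_simp
  rw [hrw]
  refine mul_le_mul_of_nonneg_right ?_ hE
  have h1 : 1 - η / 4 ≤ (1 - η / 8) * (1 - η / 8) := by nlinarith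
  have h2 : (0 : ℝ) ≤ 1 - 5 * δ / 4 - η / 16 := by linarith
  have h3 := mul_le_mul_of_nonneg_right h1 h2
  refine le_trans ?_ h3
  nlinarith [mul_nonneg hη.le hδ.le, mul_nonneg hη.le hη.le]

end Pool.Agent.Lib.MP_d9bc60_nt.TH
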