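import Mathlib
import Pool.Agent.Lib.MP_d9bc60_nt.TH.W8bPnt
import Pool.Agent.Lib.MP_d9bc60_nt.TH.P1Range
import Pool.Agent.Lib.MP_d9bc60_nt.TH.A3Pairs

/-! Row I1b (about 80 lines) -/

set_option autoImplicit false

namespace Pool.Agent.Lib.MP_d9bc60_nt.TH

open Finset Filter
/-- `∑_{P < p ≤ 2P, p mod W ∈ TS} lam p ≤ (1+η) g P/φ(W)` (`pnt_interval`). -/
theorem sum_lam_TS_le (W : ℕ) (hW : 0 < W) {η : ℝ} (hη : 0 < η) :
    ∀ᶠ P : ℕ in atTop, ∀ β μ : ℕ,
      ∑ p ∈ (Finset.Ioc P (2 * P)).filter (fun p => p % W ∈ TS W β μ), lam p ≤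
        (1 + η) * ((TS W β μ).card * (P : ℝ) / W.totient) := by
  classical
  have : NeZero W := ⟨hW.ne'⟩
  have hφ : (0 : ℝ) < W.totient := by exact_mod_cast Nat.totient_pos.mpr hW
  have hev : ∀ᶠ P : ℕ in atTop, ∀ a : ZMod W, IsUnit a → tz W P (2 * P) a ≤ (1 + η) * ((P : ℝ) / W.totient) := by
    rw [Filter.eventually_all]
    intro a
    by_cases ha : IsUnit a
    · obtain ⟨Y₀, hY₀⟩ := pnt_interval ha (ε := η / (2 * W.totient)) (by positivity)
      filter_upwards [eventually_ge_atTop Y₀] with P hP _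
      have h1 := hY₀ (2 * P) (by omega) P (2 * P) (by omega) le_rfl
      have h2 := (abs_le.mp h1).2
      push_cast at h2
      have e1 : (2 * (P : ℝ) - P) / W.totient = P / W.totient := by ring
      have e2 : η / (2 * (W.totient : ℝ)) * (2 * P) = η * (P / W.totient) := by
        field_simp
      rw [e1, e2] at h2
      linarith
    · exact Filter.Eventually.of_forall fun P h => absurd h ha
  filter_upwards [hev] with P hP β μ
  have hmaps : ∀ p ∈ (Finset.Ioc P (2 * P)).filter (fun p => p % W ∈ TS W β μ), p % W ∈ TS W β μ :=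
    fun p hp => (Finset.mem_filter.mp hp).2
  rw [← Finset.sum_fiberwise_of_maps_to hmaps]
  have hb : ∀ t ∈ TS W β μ,
      ∑ p ∈ ((Finset.Ioc P (2 * P)).filter (fun p => p % W ∈ TS W β μ)) with p % W = t, lam p
        ≤ (1 + η) * ((P : ℝ) / W.totient) := by
    intro t ht
    have ht' := Finset.mem_filter.mp ht
    have htW : t < W := Finset.mem_range.mp ht'.1
    have hunit : IsUnit (t : ZMod W) := (ZMod.isUnit_iff_coprime t W).mpr ht'.2.1
    refine le_trans (le_of_eq ?_) (hP (t : ZMod W) hunit)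
    unfold tz
    refine Finset.sum_congr ?_ fun _ _ => rfl
    ext p
    simp only [Finset.mem_filter]
    constructor
    · rintro ⟨⟨h1, _⟩, h3⟩
      refine ⟨h1, ?_⟩
      rw [ZMod.natCast_eq_natCast_iff', h3, Nat.mod_eq_of_lt htW]
    · rintro ⟨h1, h2⟩
      rw [ZMod.natCast_eq_natCast_iff', Nat.mod_eq_of_lt htW] at h2
      exact ⟨⟨h1, by rw [h2]; exact ht⟩, h2⟩
  refine (Finset.sum_le_sum hb).trans (le_of_eq ?_)
  rw [Finset.sum_const, nsmul_eq_mul]
  ring

end Pool.Agent.Lib.MP_d9bc60_nt.TH
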