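import Mathlib
import Pool.Agent.Lib.MP_d9bc60_nt.TH.A3Pairs

/-! Row M1a (about 230 lines): from `(b, m)` to the pairs of primes `(v, u)` -/

set_option autoImplicit false

namespace Pool.Agent.Lib.MP_d9bc60_nt.TH

open Finset
/-- the cells `j` that can contain `u = v + (q-p)(p+q+b)` for `v` in the cell `k` -/
def JJ (H B X p q k : ℕ) : Finset ℕ :=
  (Finset.Icc 1 (X / H)).filter (fun j => k * H + (q - p) * (p + q) < (j + 1) * H ∧
    j * H < (k + 1) * H + (q - p) * (p + q + B))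

/-- `j` lies in an open interval of length `((q-p)B + H)/H + 1`. -/
theorem card_JJ_le (H B X p q k : ℕ) (hH : 0 < H) :
    ((JJ H B X p q k).card : ℝ) ≤ ((q - p : ℕ) : ℝ) * B / H + 3 := by
  obtain ⟨d, hd⟩ : ∃ d : ℕ, d = q - p := ⟨_, rfl⟩
  obtain ⟨a, ha⟩ : ∃ a : ℕ, a = k * H + d * (p + q) := ⟨_, rfl⟩
  have hsub : JJ H B X p q k ⊆ Finset.Icc (a / H) ((a + H + d * B) / H) := by
    intro j hj
    simp only [JJ, Finset.mem_filter] at hj
    obtain ⟨_, h1, h2⟩ := hj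
    rw [← hd] at h1 h2
    rw [← ha] at h1
    rw [Finset.mem_Icc]
    constructor
    · have := (Nat.div_lt_iff_lt_mul hH).2 h1
      omega
    · rw [Nat.le_div_iff_mul_le hH]
      have : (k + 1) * H + d * (p + q + B) = a + H + d * B := by rw [ha]; ring
      omega
  have hc := Finset.card_le_card hsub
  rw [Nat.card_Icc] at hc
  have hHr : (0 : ℝ) < H := by exact_mod_cast hH
  have e1 : a / H ≤ (a + H + d * B) / H := Nat.div_le_div_right (by omega)
  have e2 : ((JJ H B X p q k).card : ℝ) + ((a / H : ℕ) : ℝ) ≤ (((a + H + d * B) / H : ℕ) : ℝ) + 1 := by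
    exact_mod_cast (by omega : (JJ H B X p q k).card + a / H ≤ (a + H + d * B) / H + 1)
  have e3 : (((a + H + d * B) / H : ℕ) : ℝ) ≤ ((a + H + d * B : ℕ) : ℝ) / H := Nat.cast_div_le
  have e4 : (a : ℝ) < H * ((a / H : ℕ) : ℝ) + H := by
    have := Nat.lt_mul_div_succ a hH
    have h : a < H * (a / H) + H := by
      calc a < H * (a / H + 1) := this
        _ = _ := by ring
    exact_mod_cast h
  have e5 : (a : ℝ) / H ≤ ((a / H : ℕ) : ℝ) + 1 := by
    rw [div_le_iff₀ hHr]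
    nlinarith
  have e6 : ((a + H + d * B : ℕ) : ℝ) / H = (a : ℝ) / H + 1 + (d : ℝ) * B / H := by
    push_cast
    field_simp
  rw [← hd]
  linarith

/-- For `b ∈ bS W β B`, `m ∈ mS W μ δ X` with a nonzero term put `v = m - q(q+b)`, `u = m - p(p+b) = v + (q-p)(p+q+b)`. The map `(b,m) ↦ (v,u)` is injective
(`b = (u-v)/(q-p) - p - q`). By `hH` we have `v > H`, so `v` lies in the cell `k = (v-1)/H ∈ [1, X/H]`, `u` in the cell `j = (u-1)/H ∈ JJ k`;
`v ≡ μ - q(q+β) ≡ μ + (W-1) q(q+β) mod W` and, as `b ≡ β mod W`, `u ≡ v + (q-p)(p+q+β) mod W(q-p)`. Group the pairs `(v,u)` by `(k,j)` and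
by `α = v mod D`, `D = W(q-p)`. -/
theorem PC_le_cells (W β μ : ℕ) (δ : ℝ) (B X p q H : ℕ) (hW : 0 < W) (hH : 0 < H) (hpq : p < q)
    (hb : ∀ b : ℕ, b ≤ B → q * (q + b) + H ≤ ⌊δ * X⌋₊) :
    PC W β μ δ B X p q ≤
      ∑ k ∈ Finset.Icc 1 (X / H), ∑ j ∈ JJ H B X p q k,
        ∑ α ∈ (Finset.range (W * (q - p))).filter
            (fun α => α ≡ μ + (W - 1) * (q * (q + β)) [MOD W]),
          tz (W * (q - p)) (k * H) ((k + 1) * H) (α : ZMod (W * (q - p))) *
            tz (W * (q - p)) (j * H) ((j + 1) * H)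
              ((α + (q - p) * (p + q + β) : ℕ) : ZMod (W * (q - p))) := by
  classical
  obtain ⟨d, rfl⟩ : ∃ d : ℕ, q = p + d := ⟨q - p, by omega⟩
  have hd : 0 < d := by omega
  rw [Nat.add_sub_cancel_left]
  have hD : 0 < W * d := Nat.mul_pos hW hd
  -- the right side as a sum over tuples
  have hR : ∑ k ∈ Finset.Icc 1 (X / H), ∑ j ∈ JJ H B X p (p + d) k,
        ∑ α ∈ (Finset.range (W * d)).filter
            (fun α => α ≡ μ + (W - 1) * ((p + d) * ((p + d) + β)) [MOD W]),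
          tz (W * d) (k * H) ((k + 1) * H) (α : ZMod (W * d)) *
            tz (W * d) (j * H) ((j + 1) * H)
              ((α + d * (p + (p + d) + β) : ℕ) : ZMod (W * d)) =
      ∑ x ∈ (Finset.Icc 1 (X / H)).sigma (fun k => (JJ H B X p (p + d) k).sigma (fun j =>
        ((Finset.range (W * d)).filter
          (fun α => α ≡ μ + (W - 1) * ((p + d) * ((p + d) + β)) [MOD W])).sigma (fun α =>
          ((Finset.Ioc (k * H) ((k + 1) * H)).filter
            (fun n : ℕ => (n : ZMod (W * d)) = (α : ZMod (W * d)))).sigma (fun _ =>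
          ((Finset.Ioc (j * H) ((j + 1) * H)).filter
            (fun n : ℕ => (n : ZMod (W * d)) =
              ((α + d * (p + (p + d) + β) : ℕ) : ZMod (W * d)))))))),
        lam x.2.2.2.1 * lam x.2.2.2.2 := by
    simp only [Finset.sum_sigma, tz, Finset.sum_mul_sum]
  rw [hR]
  -- the left side as a sum over pairs with a nonzero term
  have hL : PC W β μ δ B X p (p + d) =
      ∑ x ∈ (bS W β B ×ˢ mS W μ δ X).filter (fun x =>
        lam (x.2 - p * (p + x.1)) * lam (x.2 - (p + d) * ((p + d) + x.1)) ≠ 0),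
        lam (x.2 - p * (p + x.1)) * lam (x.2 - (p + d) * ((p + d) + x.1)) := by
    rw [Finset.sum_filter_ne_zero, Finset.sum_product]
    rfl
  rw [hL]
  -- basic facts for a pair
  have key : ∀ b m : ℕ, b ∈ bS W β B → m ∈ mS W μ δ X → ∃ v : ℕ, H < v ∧
      m = v + (p + d) * ((p + d) + b) ∧ m - (p + d) * ((p + d) + b) = v ∧
      m - p * (p + b) = v + d * (p + (p + d) + b) ∧ m ≤ X ∧ b ≤ B ∧ b ≡ β [MOD W] ∧
      m ≡ μ [MOD W] ∧ 1 ≤ b := by
    intro b m hbb hm
    simp only [bS, mS, Finset.mem_filter, Finset.mem_Icc, Finset.mem_Ioc] at hbb hm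
    obtain ⟨⟨b1, b2⟩, b3⟩ := hbb
    obtain ⟨⟨m1, m2⟩, m3⟩ := hm
    have h1 := hb b b2
    have h2 : (p + d) * ((p + d) + b) = p * (p + b) + d * (p + (p + d) + b) := by ring
    refine ⟨m - (p + d) * ((p + d) + b), ?_, ?_, rfl, ?_, m2, b2, b3, m3, b1⟩ <;> omega
  -- the map
  obtain ⟨i, hi⟩ : ∃ i : ℕ × ℕ → (Σ _ : ℕ, Σ _ : ℕ, Σ _ : ℕ, Σ _ : ℕ, ℕ), i = fun x =>
    ⟨(x.2 - (p + d) * ((p + d) + x.1) - 1) / H, (x.2 - p * (p + x.1) - 1) / H,
      (x.2 - (p + d) * ((p + d) + x.1)) % (W * d), x.2 - (p + d) * ((p + d) + x.1),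
      x.2 - p * (p + x.1)⟩ := ⟨_, rfl⟩
  have hterm : ∀ x : ℕ × ℕ, lam (x.2 - p * (p + x.1)) * lam (x.2 - (p + d) * ((p + d) + x.1)) =
      lam (i x).2.2.2.1 * lam (i x).2.2.2.2 := by
    intro x
    rw [hi]
    exact mul_comm _ _
  rw [Finset.sum_congr rfl (fun x _ => hterm x)]
  have hinj : Set.InjOn i ((bS W β B ×ˢ mS W μ δ X).filter (fun x =>
        lam (x.2 - p * (p + x.1)) * lam (x.2 - (p + d) * ((p + d) + x.1)) ≠ 0) : Finset (ℕ × ℕ)) := by
    rintro ⟨b, m⟩ hx ⟨b', m'⟩ hx' hxx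
    simp only [Finset.coe_filter, Finset.mem_product, Set.mem_ofPred_eq] at hx hx'
    obtain ⟨v, _, k1, k2, k3, _, _, _, _, _⟩ := key b m hx.1.1 hx.1.2
    obtain ⟨v', _, k1', k2', k3', _, _, _, _, _⟩ := key b' m' hx'.1.1 hx'.1.2
    rw [hi] at hxx
    have e1 : m - (p + d) * ((p + d) + b) = m' - (p + d) * ((p + d) + b') :=
      congrArg (fun y => y.2.2.2.1) hxx
    have e2 : m - p * (p + b) = m' - p * (p + b') := congrArg (fun y => y.2.2.2.2) hxx
    rw [k2, k2'] at e1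
    rw [k3, k3', e1] at e2
    have e3 : d * (p + (p + d) + b) = d * (p + (p + d) + b') := by omega
    have e4 := Nat.eq_of_mul_eq_mul_left hd e3
    have e5 : b = b' := by omega
    subst e5
    subst e1
    rw [k1, k1']
  rw [← Finset.sum_image (f := fun y : (Σ _ : ℕ, Σ _ : ℕ, Σ _ : ℕ, Σ _ : ℕ, ℕ) =>
    lam y.2.2.2.1 * lam y.2.2.2.2) hinj]
  refine Finset.sum_le_sum_of_subset_of_nonneg ?_
    (fun y _ _ => mul_nonneg (lam_nonneg _) (lam_nonneg _))
  intro y hy
  obtain ⟨⟨b, m⟩, hx, rfl⟩ := Finset.mem_image.1 hy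
  simp only [Finset.mem_filter, Finset.mem_product] at hx
  obtain ⟨v, hv, k1, k2, k3, k4, k5, k6, k7, k8⟩ := key b m hx.1.1 hx.1.2
  rw [hi]
  simp only [Finset.mem_sigma]
  rw [k2, k3]
  have hvX : v ≤ X := by omega
  have huX : v + d * (p + (p + d) + b) ≤ X := by
    have := Nat.sub_le m (p * (p + b))
    omega
  have q1 := Nat.div_mul_le_self (v - 1) H
  have q2 : v - 1 < ((v - 1) / H + 1) * H := by
    have := Nat.lt_mul_div_succ (v - 1) hH
    calc v - 1 < H * ((v - 1) / H + 1) := this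
      _ = _ := by ring
  have q3 := Nat.div_mul_le_self (v + d * (p + (p + d) + b) - 1) H
  have q4 : v + d * (p + (p + d) + b) - 1 < ((v + d * (p + (p + d) + b) - 1) / H + 1) * H := by
    have := Nat.lt_mul_div_succ (v + d * (p + (p + d) + b) - 1) hH
    calc v + d * (p + (p + d) + b) - 1 < H * ((v + d * (p + (p + d) + b) - 1) / H + 1) := this
      _ = _ := by ring
  have q5 : d * (p + (p + d) + b) ≤ d * (p + (p + d) + B) :=
    Nat.mul_le_mul_left d (by omega)
  have q6 : d * (p + (p + d)) ≤ d * (p + (p + d) + b) := Nat.mul_le_mul_left d (by omega)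
  refine ⟨?_, ?_, ?_, ?_, ?_⟩
  · rw [Finset.mem_Icc]
    exact ⟨(Nat.le_div_iff_mul_le hH).2 (by omega), Nat.div_le_div_right (by omega)⟩
  · simp only [JJ, Finset.mem_filter, Finset.mem_Icc, Nat.add_sub_cancel_left]
    refine ⟨⟨(Nat.le_div_iff_mul_le hH).2 (by omega), Nat.div_le_div_right (by omega)⟩, ?_, ?_⟩
    · omega
    · omega
  · rw [Finset.mem_filter, Finset.mem_range]
    refine ⟨Nat.mod_lt _ hD, ?_⟩
    have r1 : v % (W * d) ≡ v [MOD W] := (Nat.mod_modEq v (W * d)).of_mul_right d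
    refine r1.trans ?_
    have r2 : v + (p + d) * ((p + d) + β) ≡ μ [MOD W] := by
      have r3 : v + (p + d) * ((p + d) + β) ≡ v + (p + d) * ((p + d) + b) [MOD W] :=
        ((k6.symm.add_left _).mul_left _).add_left _
      rw [← k1] at r3
      exact r3.trans k7
    have r4 := r2.add_right ((W - 1) * ((p + d) * ((p + d) + β)))
    have r5 : v + (p + d) * ((p + d) + β) + (W - 1) * ((p + d) * ((p + d) + β)) =
        v + W * ((p + d) * ((p + d) + β)) := by
      obtain ⟨W', rfl⟩ : ∃ W', W = W' + 1 := ⟨W - 1, by omega⟩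
      rw [Nat.add_sub_cancel]
      ring
    rw [r5] at r4
    refine Nat.ModEq.trans ?_ r4
    have r6 : v + W * ((p + d) * ((p + d) + β)) ≡ v + 0 [MOD W] :=
      Nat.ModEq.add_left v (Nat.modEq_zero_iff_dvd.2 (Dvd.intro _ rfl))
    rw [add_zero] at r6
    exact r6.symm
  · rw [Finset.mem_filter, Finset.mem_Ioc]
    refine ⟨⟨by omega, by omega⟩, ?_⟩
    exact (ZMod.natCast_eq_natCast_iff _ _ _).2 (Nat.mod_modEq v (W * d)).symm
  · rw [Finset.mem_filter, Finset.mem_Ioc]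
    refine ⟨⟨by omega, by omega⟩, ?_⟩
    refine (ZMod.natCast_eq_natCast_iff _ _ _).2 ?_
    refine Nat.ModEq.add (Nat.mod_modEq v (W * d)).symm ?_
    have r1 : (p + (p + d) + b) ≡ (p + (p + d) + β) [MOD W] := k6.add_left _
    have r2 := Nat.ModEq.mul_left' d r1
    rw [mul_comm d W] at r2
    exact r2

end Pool.Agent.Lib.MP_d9bc60_nt.TH
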