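import Mathlib
import Pool.Agent.Lib.MP_d9bc60_nt.TH.A3Pairs

/-! Row M1b (about 100 lines) -/

set_option autoImplicit false

namespace Pool.Agent.Lib.MP_d9bc60_nt.TH

open Finset

theorem m1b_lam_zero (W β μ r b m : ℕ) (hW : 0 < W) (hr : r.Prime) (hrW : W < r)
    (hb : b ≡ β [MOD W]) (hm : m ≡ μ [MOD W]) (hlt : r * (r + b) + W < m)
    (hT : r % W ∉ TS W β μ) : lam (m - r * (r + b)) = 0 := by
  unfold lam
  rw [if_neg]
  intro hu
  apply hT
  unfold TS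
  rw [Finset.mem_filter, Finset.mem_range]
  have hcop : (r % W).Coprime W := by
    have h1 : r.Coprime W := by
      rw [Nat.Prime.coprime_iff_not_dvd hr]
      intro h
      have := Nat.le_of_dvd hW h
      omega
    unfold Nat.Coprime at h1 ⊢
    rw [← h1, Nat.gcd_comm r W, Nat.gcd_rec W r]
  refine ⟨Nat.mod_lt _ hW, hcop, ?_⟩
  by_contra hg
  set t : ℕ := r % W with ht
  set g : ℕ := Int.gcd ((μ : ℤ) - (t : ℤ) * ((t : ℤ) + β)) (W : ℤ) with hgdef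
  have hgW : g ∣ W := by
    have : (g : ℤ) ∣ (W : ℤ) := Int.gcd_dvd_right _ _
    exact_mod_cast this
  have hg1 : (g : ℤ) ∣ (μ : ℤ) - (t : ℤ) * ((t : ℤ) + β) := Int.gcd_dvd_left _ _
  have hgu : g ∣ m - r * (r + b) := by
    have h1 : ((m - r * (r + b) : ℕ) : ℤ) = (m : ℤ) - (r : ℤ) * ((r : ℤ) + b) := by
      have hle : r * (r + b) ≤ m := by omega
      push_cast [Nat.cast_sub hle]
      ring
    have h2 : (W : ℤ) ∣ ((m - r * (r + b) : ℕ) : ℤ) - ((μ : ℤ) - (t : ℤ) * ((t : ℤ) + β)) := by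
      rw [h1]
      have hmz : (m : ℤ) ≡ (μ : ℤ) [ZMOD (W : ℤ)] := (Int.natCast_modEq_iff).2 hm
      have hbz : (b : ℤ) ≡ (β : ℤ) [ZMOD (W : ℤ)] := (Int.natCast_modEq_iff).2 hb
      have hrz : (r : ℤ) ≡ (t : ℤ) [ZMOD (W : ℤ)] := by
        rw [ht]
        exact (Int.natCast_modEq_iff).2 (Nat.mod_modEq r W).symm
      have h3 : (m : ℤ) - (r : ℤ) * ((r : ℤ) + b) ≡
          (μ : ℤ) - (t : ℤ) * ((t : ℤ) + β) [ZMOD (W : ℤ)] :=
        hmz.sub (hrz.mul (hrz.add hbz))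
      exact (Int.modEq_iff_dvd.1 h3.symm)
    have h4 : (g : ℤ) ∣ ((m - r * (r + b) : ℕ) : ℤ) := by
      have h5 : (g : ℤ) ∣ (W : ℤ) := by exact_mod_cast hgW
      have h6 := dvd_add (h5.trans h2) hg1
      simpa using h6
    exact_mod_cast h4
  rcases (Nat.dvd_prime hu).1 hgu with h | h
  · exact hg h
  · have := Nat.le_of_dvd hW hgW
    omega

/-- If `p` is a prime `> W` with `p mod W ∉ TS W β μ` then `u = m - p(p+b) ≡ μ - p(p+β)` is not coprime to `W`, but `u > W` when `lam u ≠ 0` by `hb`; so all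
terms vanish. The same for `q`. -/
theorem PC_eq_zero (W β μ : ℕ) (δ : ℝ) (B X p q : ℕ) (hW : 0 < W) (hp : p.Prime) (hpW : W < p)
    (hpq : p ≤ q) (hb : ∀ b : ℕ, b ≤ B → q * (q + b) + W ≤ ⌊δ * X⌋₊)
    (hT : p % W ∉ TS W β μ) : PC W β μ δ B X p q = 0 := by
  unfold PC
  refine Finset.sum_eq_zero fun b hb' => Finset.sum_eq_zero fun m hm => ?_
  unfold bS at hb'
  unfold mS at hm
  rw [Finset.mem_filter, Finset.mem_Icc] at hb'
  rw [Finset.mem_filter, Finset.mem_Ioc] at hm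
  have h1 := hb b hb'.1.2
  have h2 : p * (p + b) ≤ q * (q + b) := Nat.mul_le_mul hpq (by omega)
  rw [m1b_lam_zero W β μ p b m hW hp hpW hb'.2 hm.2 (by omega) hT, zero_mul]

theorem PC_symm (W β μ : ℕ) (δ : ℝ) (B X p q : ℕ) :
    PC W β μ δ B X p q = PC W β μ δ B X q p := by
  unfold PC
  exact Finset.sum_congr rfl fun b _ => Finset.sum_congr rfl fun m _ => mul_comm _ _

theorem PC_eq_zero' (W β μ : ℕ) (δ : ℝ) (B X p q : ℕ) (hW : 0 < W) (hq : q.Prime) (hqW : W < q)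
    (hpq : p ≤ q) (hb : ∀ b : ℕ, b ≤ B → q * (q + b) + W ≤ ⌊δ * X⌋₊)
    (hT : q % W ∉ TS W β μ) : PC W β μ δ B X p q = 0 := by
  unfold PC
  refine Finset.sum_eq_zero fun b hb' => Finset.sum_eq_zero fun m hm => ?_
  unfold bS at hb'
  unfold mS at hm
  rw [Finset.mem_filter, Finset.mem_Icc] at hb'
  rw [Finset.mem_filter, Finset.mem_Ioc] at hm
  have h1 := hb b hb'.1.2
  rw [m1b_lam_zero W β μ q b m hW hq hqW hb'.2 hm.2 (by omega) hT, mul_zero]

end Pool.Agent.Lib.MP_d9bc60_nt.TH
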