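import Mathlib
import Pool.Agent.Lib.MP_d9bc60_nt.TH.W8bPnt
import Pool.Agent.Lib.MP_d9bc60_nt.TH.P1Range
import Pool.Agent.Lib.MP_d9bc60_nt.TH.A3Pairs

/-! Row P2a (about 80 lines) -/

set_option autoImplicit false

namespace Pool.Agent.Lib.MP_d9bc60_nt.TH

open Finset Filter
/-- If `gcd(a, D₀) > 1` no prime `n > u ≥ D₀` is `≡ a mod D₀`. -/
theorem tz_eq_zero (D₀ u v a : ℕ) (hD : 0 < D₀) (hu : D₀ ≤ u) (ha : ¬ a.Coprime D₀) :
    tz D₀ u v (a : ZMod D₀) = 0 := by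
  unfold tz
  apply Finset.sum_eq_zero
  intro n hn
  rw [Finset.mem_filter, Finset.mem_Ioc] at hn
  obtain ⟨⟨hn1, -⟩, hn2⟩ := hn
  unfold lam
  rw [if_neg]
  intro hp
  apply ha
  have h1 : n ≡ a [MOD D₀] := (ZMod.natCast_eq_natCast_iff _ _ _).1 hn2
  have h2 : n.Coprime D₀ := by
    rw [Nat.Prime.coprime_iff_not_dvd hp]
    intro hd
    have := Nat.le_of_dvd hD hd
    omega
  have h3 := h1.gcd_eq
  rw [Nat.Coprime, Nat.gcd_comm] at h2
  rw [Nat.Coprime, Nat.gcd_comm]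
  have h4 : D₀.gcd a = D₀.gcd n := by rw [Nat.gcd_comm D₀ a, Nat.gcd_comm D₀ n]; exact h3.symm
  rw [h4]; exact h2

/-- The classes modulo `D` above a class modulo `D₀ ∣ D` (natural number representatives). -/
theorem sum_tz_fiber (D₀ W u v v₀ : ℕ) (hD : 0 < D₀) (h : W ∣ D₀) :
    ∑ a ∈ (Finset.range D₀).filter (fun a => a ≡ v₀ [MOD W]), tz D₀ u v (a : ZMod D₀) =
      tz W u v (v₀ : ZMod W) := by
  unfold tz
  rw [← Finset.sum_fiberwise_of_maps_to (s := (Finset.Ioc u v).filter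
    (fun n : ℕ => (n : ZMod W) = (v₀ : ZMod W)))
    (t := (Finset.range D₀).filter (fun a => a ≡ v₀ [MOD W])) (g := fun n => n % D₀)]
  · apply Finset.sum_congr rfl
    intro a ha
    rw [Finset.mem_filter, Finset.mem_range] at ha
    apply Finset.sum_congr _ (fun _ _ => rfl)
    ext n
    simp only [Finset.mem_filter]
    constructor
    · rintro ⟨h1, h2⟩
      have h3 : n ≡ a [MOD D₀] := (ZMod.natCast_eq_natCast_iff _ _ _).1 h2
      have h4 : n ≡ v₀ [MOD W] := (h3.of_dvd h).trans ha.2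
      refine ⟨⟨h1, (ZMod.natCast_eq_natCast_iff _ _ _).2 h4⟩, ?_⟩
      rw [h3, Nat.mod_eq_of_lt ha.1]
    · rintro ⟨⟨h1, -⟩, h3⟩
      refine ⟨h1, ?_⟩
      rw [ZMod.natCast_eq_natCast_iff]
      rw [Nat.ModEq, h3, Nat.mod_eq_of_lt ha.1]
  · intro n hn
    rw [Finset.mem_filter] at hn
    rw [Finset.mem_filter, Finset.mem_range]
    refine ⟨Nat.mod_lt _ hD, ?_⟩
    have h1 : n ≡ v₀ [MOD W] := (ZMod.natCast_eq_natCast_iff _ _ _).1 hn.2
    have h2 : n % D₀ ≡ n [MOD D₀] := Nat.mod_modEq _ _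
    exact (h2.of_dvd h).trans h1

end Pool.Agent.Lib.MP_d9bc60_nt.TH
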