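import Mathlib
import Pool.Agent.Lib.MP_d9bc60_nt.TH.W8bPnt
import Pool.Agent.Lib.MP_d9bc60_nt.TH.P1Range
import Pool.Agent.Lib.MP_d9bc60_nt.TH.A3Pairs
import Pool.Agent.Lib.MP_d9bc60_nt.TH.P2aClass

/-! Row P2b (about 160 lines): primes in cells and classes -/

set_option autoImplicit false

namespace Pool.Agent.Lib.MP_d9bc60_nt.TH

open Finset Filter

/-- prime number theorem in all unit classes modulo `D`, uniform in the class -/
theorem p2b_pnt1 (D : ℕ) (hD : 0 < D) {ε : ℝ} (hε : 0 < ε) :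
    ∃ Y₀ : ℕ, ∀ Y : ℕ, Y₀ ≤ Y → ∀ u v : ℕ, u ≤ v → v ≤ Y → ∀ a : ℕ, a.Coprime D →
      |tz D u v (a : ZMod D) - ((v : ℝ) - u) / D.totient| ≤ ε * Y := by
  haveI : NeZero D := ⟨hD.ne'⟩
  have h := fun a : (ZMod D)ˣ => pnt_interval (q := D) (a := (a : ZMod D)) a.isUnit hε
  choose Y hY using h
  refine ⟨∑ a : (ZMod D)ˣ, Y a, fun Z hZ u v huv hv a ha => ?_⟩
  have h1 : Y (ZMod.unitOfCoprime a ha) ≤ Z :=
    (Finset.single_le_sum (f := Y) (fun _ _ => Nat.zero_le _) (Finset.mem_univ _)).trans hZ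
  have h2 := hY (ZMod.unitOfCoprime a ha) Z h1 u v huv hv
  rwa [ZMod.coe_unitOfCoprime] at h2

/-- uniform over the moduli `D ≤ M` -/
theorem p2b_pnt (M : ℕ) {ε : ℝ} (hε : 0 < ε) :
    ∃ Y₀ : ℕ, ∀ Y : ℕ, Y₀ ≤ Y → ∀ D ∈ Finset.Icc 1 M, ∀ u v : ℕ, u ≤ v → v ≤ Y → ∀ a : ℕ,
      a.Coprime D → |tz D u v (a : ZMod D) - ((v : ℝ) - u) / D.totient| ≤ ε * Y := by
  have h := fun D : {D : ℕ // 0 < D} => p2b_pnt1 D.1 D.2 hε
  choose Y hY using h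
  refine ⟨∑ D ∈ Finset.Icc 1 M, (if hD : 0 < D then Y ⟨D, hD⟩ else 0),
    fun Z hZ D hDM u v huv hv a ha => ?_⟩
  have hD : 0 < D := (Finset.mem_Icc.1 hDM).1
  have h1 : Y ⟨D, hD⟩ ≤ Z := by
    refine le_trans ?_ hZ
    have := Finset.single_le_sum (f := fun D => (if hD : 0 < D then Y ⟨D, hD⟩ else 0))
      (fun _ _ => Nat.zero_le _) hDM
    simpa [hD] using this
  exact hY ⟨D, hD⟩ Z h1 u v huv hv a ha

theorem p2b_totient_le {D M : ℕ} (hD : D ∈ Finset.Icc 1 M) :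
    (0 : ℝ) < D.totient ∧ (D.totient : ℝ) ≤ M := by
  have h := Finset.mem_Icc.1 hD
  refine ⟨?_, ?_⟩
  · exact_mod_cast Nat.totient_pos.2 h.1
  · exact_mod_cast (Nat.totient_le D).trans h.2

/-- `pnt_interval` for all `D₀ ≤ M` and all unit classes, with `ε = η ρ/(4M)` and `Y = 2X` (`(k+1)H ≤ X + H ≤ 2X`, `H ≥ ρX/2` by `rng_H`);
`tz_eq_zero` for the other classes (`kH ≥ H ≥ M`). -/
theorem cell_le (M : ℕ) {η ρ K : ℝ} (hη : 0 < η) (hρ : 0 < ρ) (hρ1 : ρ ≤ 1) (hK : 0 < K) :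
    ∀ᶠ B : ℕ in atTop, ∀ X : ℕ, Rng K B X → ∀ D₀ ∈ Finset.Icc 1 M, ∀ a : ℕ,
      ∀ k ∈ Finset.Icc 1 (X / HX ρ X),
        tz D₀ (k * HX ρ X) ((k + 1) * HX ρ X) (a : ZMod D₀) ≤
          (1 + η) * (HX ρ X) / D₀.totient := by
  rcases Nat.eq_zero_or_pos M with hM | hM
  · subst hM
    refine Filter.Eventually.of_forall fun B X _ D₀ hD => ?_
    simp at hD
  have hMR : (0 : ℝ) < M := by exact_mod_cast hM
  have hε : 0 < η * ρ / (4 * M) := by positivity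
  obtain ⟨Y₀, hY₀⟩ := p2b_pnt M hε
  filter_upwards [rng_H hK hρ M, rng_X_large hK (Y₀ : ℝ)] with B hB1 hB2 X hX D₀ hD a k hk
  obtain ⟨h1, h2, h3⟩ := hB1 X hX
  have h4 : Y₀ ≤ X := by exact_mod_cast hB2 X hX
  have hk' := Finset.mem_Icc.1 hk
  obtain ⟨hφ, hφM⟩ := p2b_totient_le hD
  set H := HX ρ X with hH
  have hHpos : 0 < H := lt_of_lt_of_le hM h3
  have hHR : (0 : ℝ) < H := by exact_mod_cast hHpos
  have hHX : H ≤ X := by
    have : (H : ℝ) ≤ X := h2.trans (by nlinarith [Nat.cast_nonneg (α := ℝ) X])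
    exact_mod_cast this
  have hkH : k * H ≤ X := (Nat.le_div_iff_mul_le hHpos).1 hk'.2
  by_cases ha : a.Coprime D₀
  · have hv : (k + 1) * H ≤ 2 * X := by
      calc (k + 1) * H = k * H + H := by ring
        _ ≤ X + X := Nat.add_le_add hkH hHX
        _ = 2 * X := by ring
    have h5 := hY₀ (2 * X) (by omega) D₀ hD (k * H) ((k + 1) * H)
      (Nat.mul_le_mul_right _ (Nat.le_succ k)) hv a ha
    have h6 := (abs_le.1 h5).2
    have h7 : (((k + 1) * H : ℕ) : ℝ) - ((k * H : ℕ) : ℝ) = H := by push_cast; ring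
    rw [h7] at h6
    have h8 : η * ρ / (4 * M) * ((2 * X : ℕ) : ℝ) ≤ η * H / D₀.totient := by
      rw [div_mul_eq_mul_div, div_le_div_iff₀ (by positivity) hφ]
      push_cast
      have h9 : η * ρ * (2 * X) ≤ η * (4 * H) := by nlinarith
      have h10 : η * ρ * (2 * X) * D₀.totient ≤ η * (4 * H) * M := by
        apply mul_le_mul h9 hφM hφ.le
        positivity
      linarith
    have h11 : (1 + η) * (H : ℝ) / D₀.totient = H / D₀.totient + η * H / D₀.totient := by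
      rw [← add_div]; ring
    rw [h11]
    linarith
  · rw [tz_eq_zero D₀ (k * H) ((k + 1) * H) a (Finset.mem_Icc.1 hD).1 ?_ ha]
    · positivity
    · calc D₀ ≤ M := (Finset.mem_Icc.1 hD).2
        _ ≤ H := h3
        _ = 1 * H := (one_mul H).symm
        _ ≤ k * H := Nat.mul_le_mul_right _ hk'.1

theorem p2b_tz_nonneg (q u v : ℕ) (α : ZMod q) : 0 ≤ tz q u v α :=
  Finset.sum_nonneg fun n _ => lam_nonneg n

/-- `tz D₀ j (a+s) ≤ (1+η) H/φ(D₀)` for every `a` and `∑_{a ≡ v₀ (W)} tz D₀ k a = tz W k v₀ ≤ (1+η) H/φ(W)` (`sum_tz_fiber`, `cell_le` twice). -/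
theorem main_cell (M : ℕ) {η ρ K : ℝ} (hη : 0 < η) (hρ : 0 < ρ) (hρ1 : ρ ≤ 1) (hK : 0 < K) :
    ∀ᶠ B : ℕ in atTop, ∀ X : ℕ, Rng K B X → ∀ D₀ ∈ Finset.Icc 1 M, ∀ W : ℕ, 0 < W → W ∣ D₀ →
      ∀ s v₀ : ℕ, ∀ k ∈ Finset.Icc 1 (X / HX ρ X), ∀ j ∈ Finset.Icc 1 (X / HX ρ X),
        ∑ a ∈ (Finset.range D₀).filter (fun a => a ≡ v₀ [MOD W]),
          tz D₀ (k * HX ρ X) ((k + 1) * HX ρ X) (a : ZMod D₀) *
            tz D₀ (j * HX ρ X) ((j + 1) * HX ρ X) ((a + s : ℕ) : ZMod D₀) ≤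
          ((1 + η) * (HX ρ X)) ^ 2 / (D₀.totient * W.totient) := by
  filter_upwards [cell_le M hη hρ hρ1 hK] with B hB X hX D₀ hD W hW hWD s v₀ k hk j hj
  have hD' := Finset.mem_Icc.1 hD
  have hWM : W ∈ Finset.Icc 1 M :=
    Finset.mem_Icc.2 ⟨hW, (Nat.le_of_dvd hD'.1 hWD).trans hD'.2⟩
  obtain ⟨hφ, -⟩ := p2b_totient_le hD
  obtain ⟨hφW, -⟩ := p2b_totient_le hWM
  have hH0 : (0 : ℝ) ≤ HX ρ X := Nat.cast_nonneg _
  calc ∑ a ∈ (Finset.range D₀).filter (fun a => a ≡ v₀ [MOD W]),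
          tz D₀ (k * HX ρ X) ((k + 1) * HX ρ X) (a : ZMod D₀) *
            tz D₀ (j * HX ρ X) ((j + 1) * HX ρ X) ((a + s : ℕ) : ZMod D₀)
      ≤ ∑ a ∈ (Finset.range D₀).filter (fun a => a ≡ v₀ [MOD W]),
          tz D₀ (k * HX ρ X) ((k + 1) * HX ρ X) (a : ZMod D₀) *
            ((1 + η) * (HX ρ X) / D₀.totient) := by
        refine Finset.sum_le_sum fun a _ => ?_
        exact mul_le_mul_of_nonneg_left (hB X hX D₀ hD (a + s) j hj) (p2b_tz_nonneg _ _ _ _)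
    _ = tz W (k * HX ρ X) ((k + 1) * HX ρ X) (v₀ : ZMod W) *
            ((1 + η) * (HX ρ X) / D₀.totient) := by
        rw [← Finset.sum_mul, sum_tz_fiber D₀ W _ _ v₀ hD'.1 hWD]
    _ ≤ ((1 + η) * (HX ρ X) / W.totient) * ((1 + η) * (HX ρ X) / D₀.totient) :=
        mul_le_mul_of_nonneg_right (hB X hX W hWM v₀ k hk) (by positivity)
    _ = ((1 + η) * (HX ρ X)) ^ 2 / (D₀.totient * W.totient) := by
        rw [div_mul_div_comm]
        ring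

end Pool.Agent.Lib.MP_d9bc60_nt.TH
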