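import Mathlib
import Pool.Agent.Lib.MP_d9bc60_nt.TH.M1aInj
import Pool.Agent.Lib.MP_d9bc60_nt.TH.M1bZero
import Pool.Agent.Lib.MP_d9bc60_nt.TH.P2bCell
import Pool.Agent.Lib.MP_d9bc60_nt.TH.F1Parseval
import Pool.Agent.Lib.MP_d9bc60_nt.TH.F2bCorr

/-! Row M2a (about 100 lines) -/

set_option autoImplicit false

namespace Pool.Agent.Lib.MP_d9bc60_nt.TH

open Finset Filter

lemma m2a_ratio (n : ℕ) (hn : 0 < n) :
    (n : ℝ) / n.totient = ∏ l ∈ n.primeFactors, ((l : ℝ) / ((l : ℝ) - 1)) := by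
  rw [← Sieve.inv_ratio n hn]
  apply Finset.prod_congr rfl
  intro l hl
  have h1 : (1 : ℝ) < l := by exact_mod_cast (Nat.prime_of_mem_primeFactors hl).one_lt
  have h2 : (l : ℝ) - 1 ≠ 0 := by linarith
  have h3 : (l : ℝ) ≠ 0 := by linarith
  field_simp

lemma m2a_prod_le (S T : Finset ℕ) (f : ℕ → ℝ) (hST : S ⊆ T) (hf : ∀ l ∈ T, 1 ≤ f l) :
    ∏ l ∈ S, f l ≤ ∏ l ∈ T, f l := by
  rw [← Finset.prod_sdiff hST]
  have h1 : 1 ≤ ∏ l ∈ T \ S, f l := by
    apply Finset.prod_induction f (fun x => 1 ≤ x) (fun a b ha hb => one_le_mul_of_one_le_of_one_le ha hb)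
      le_rfl
    intro l hl
    exact hf l (Finset.mem_sdiff.1 hl).1
  have h2 : 0 ≤ ∏ l ∈ S, f l := Finset.prod_nonneg (fun l hl => by
    have := hf l (hST hl)
    linarith)
  nlinarith

/-- `D₀/φ(D₀) = ∏_{ℓ ∣ D₀} ℓ/(ℓ-1)`, every prime `ℓ ∣ D₀` divides `W = primorial w` (`ℓ ≤ w`) or divides `d` and is `> w`. -/
theorem ratio_le_hw (w d R : ℕ) (hd : 0 < d) :
    (Nat.gcd (primorial w * d) (primorial w * R.factorial) : ℝ) /
        (Nat.gcd (primorial w * d) (primorial w * R.factorial)).totient ≤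
      ((primorial w : ℝ) / (primorial w).totient) * hw w d := by
  classical
  have hW : 0 < primorial w := primorial_pos w
  have hD : 0 < Nat.gcd (primorial w * d) (primorial w * R.factorial) :=
    Nat.gcd_pos_of_pos_left _ (Nat.mul_pos hW hd)
  rw [m2a_ratio _ hD, m2a_ratio _ hW]
  unfold hw
  have hone : ∀ l : ℕ, l.Prime → 1 ≤ (l : ℝ) / ((l : ℝ) - 1) := by
    intro l hl
    have h1 : (1 : ℝ) < l := by exact_mod_cast hl.one_lt
    rw [one_le_div (by linarith)]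
    linarith
  have hdisj : Disjoint (primorial w).primeFactors (d.primeFactors.filter (fun l => w < l)) := by
    rw [Finset.disjoint_left]
    intro l h1 h2
    rw [Finset.mem_filter] at h2
    have h3 := (Nat.prime_of_mem_primeFactors h1).dvd_primorial_iff.1 (Nat.dvd_of_mem_primeFactors h1)
    omega
  rw [← Finset.prod_union hdisj]
  apply m2a_prod_le
  · intro l hl
    rw [Nat.mem_primeFactors] at hl
    rw [Finset.mem_union, Finset.mem_filter, Nat.mem_primeFactors, Nat.mem_primeFactors]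
    by_cases h : l ≤ w
    · left
      exact ⟨hl.1, hl.1.dvd_primorial_iff.2 h, hW.ne'⟩
    · right
      have h2 : l ∣ primorial w * d := hl.2.1.trans (Nat.gcd_dvd_left _ _)
      rcases hl.1.dvd_mul.1 h2 with h3 | h3
      · exact absurd (hl.1.dvd_primorial_iff.1 h3) h
      · exact ⟨⟨hl.1, h3, hd.ne'⟩, by omega⟩
  · intro l hl
    rw [Finset.mem_union, Finset.mem_filter] at hl
    rcases hl with h | h
    · exact hone l (Nat.prime_of_mem_primeFactors h)
    · exact hone l (Nat.prime_of_mem_primeFactors h.1)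

/-- `(∑_k √(V k))² ≤ N ∑_k V k`. -/
theorem sum_sqrt_le (N : ℕ) (V : ℕ → ℝ) (hV : ∀ k, 0 ≤ V k) :
    ∑ k ∈ Finset.Icc 1 N, ∑ j ∈ Finset.Icc 1 N, √(V k * V j) ≤
      N * ∑ k ∈ Finset.Icc 1 N, V k := by
  have h1 : ∀ k j : ℕ, √(V k * V j) ≤ (V k + V j) / 2 := by
    intro k j
    have hk := hV k
    have hj := hV j
    apply Real.sqrt_le_iff.2
    refine ⟨by linarith, ?_⟩
    nlinarith [sq_nonneg (V k - V j)]
  calc ∑ k ∈ Finset.Icc 1 N, ∑ j ∈ Finset.Icc 1 N, √(V k * V j)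
      ≤ ∑ k ∈ Finset.Icc 1 N, ∑ j ∈ Finset.Icc 1 N, (V k + V j) / 2 :=
        Finset.sum_le_sum (fun k _ => Finset.sum_le_sum (fun j _ => h1 k j))
    _ = N * ∑ k ∈ Finset.Icc 1 N, V k := by
        have h2 : ∀ k : ℕ, ∑ j ∈ Finset.Icc 1 N, (V k + V j) / 2 =
            N * (V k / 2) + (∑ j ∈ Finset.Icc 1 N, V j) / 2 := by
          intro k
          rw [← Finset.sum_div, Finset.sum_add_distrib, Finset.sum_const, Nat.card_Icc,
            Nat.add_sub_cancel, nsmul_eq_mul]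
          ring
        rw [Finset.sum_congr rfl (fun k _ => h2 k), Finset.sum_add_distrib, Finset.sum_const,
          Nat.card_Icc, Nat.add_sub_cancel, nsmul_eq_mul, ← Finset.mul_sum, ← Finset.sum_div]
        ring

end Pool.Agent.Lib.MP_d9bc60_nt.TH
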