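import Mathlib
import Pool.Agent.Lib.MP_d9bc60_nt.TH.M1aInj
import Pool.Agent.Lib.MP_d9bc60_nt.TH.M1bZero
import Pool.Agent.Lib.MP_d9bc60_nt.TH.P2bCell
import Pool.Agent.Lib.MP_d9bc60_nt.TH.F1Parseval
import Pool.Agent.Lib.MP_d9bc60_nt.TH.F2bCorr
import Pool.Agent.Lib.MP_d9bc60_nt.TH.M2aTools

/-! Row M2b (about 220 lines): the correlation of a pair `p < q` with `q - p > δ₁ P` -/

set_option autoImplicit false

namespace Pool.Agent.Lib.MP_d9bc60_nt.TH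

open Finset Filter

/-- the arithmetic of the main term -/
theorem m2b_main (W d D₀ N X B H : ℕ) (η hwd : ℝ) (hη : 0 < η) (hW : 0 < W) (hd : 0 < d)
    (hD₀ : 0 < D₀) (hH : 0 < H) (hN : (N : ℝ) * H ≤ X) (h3 : (d : ℝ) * B + 3 * H ≤ (1 + η) * (d * B))
    (hr : (D₀ : ℝ) / D₀.totient ≤ ((W : ℝ) / W.totient) * hwd) (F : ℕ → ℝ)
    (hF : ∀ k, F k ≤ (d : ℝ) * B / H + 3) :
    ∑ k ∈ Finset.Icc 1 N, F k * (((D₀ : ℝ) / ((W * d : ℕ) : ℝ)) *
      (((1 + η) * H) ^ 2 / (D₀.totient * W.totient))) ≤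
      (1 + η) ^ 3 * ((B : ℝ) * X / (W.totient : ℝ) ^ 2) * hwd := by
  have hW' : (0 : ℝ) < W := by exact_mod_cast hW
  have hd' : (0 : ℝ) < d := by exact_mod_cast hd
  have hD₀' : (0 : ℝ) < D₀ := by exact_mod_cast hD₀
  have hH' : (0 : ℝ) < H := by exact_mod_cast hH
  have hφ : (0 : ℝ) < D₀.totient := by exact_mod_cast Nat.totient_pos.2 hD₀
  have hφW : (0 : ℝ) < W.totient := by exact_mod_cast Nat.totient_pos.2 hW
  set c : ℝ := ((D₀ : ℝ) / ((W * d : ℕ) : ℝ)) *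
      (((1 + η) * H) ^ 2 / (D₀.totient * W.totient)) with hc
  have hc0 : 0 ≤ c := by positivity
  have hX0 : (0 : ℝ) ≤ X := Nat.cast_nonneg _
  have hB0 : (0 : ℝ) ≤ B := Nat.cast_nonneg _
  have h1 : ∑ k ∈ Finset.Icc 1 N, F k * c ≤ (N : ℝ) * (((d : ℝ) * B / H + 3) * c) := by
    calc ∑ k ∈ Finset.Icc 1 N, F k * c ≤ ∑ _k ∈ Finset.Icc 1 N, ((d : ℝ) * B / H + 3) * c :=
          Finset.sum_le_sum fun k _ => mul_le_mul_of_nonneg_right (hF k) hc0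
      _ = _ := by rw [Finset.sum_const, Nat.card_Icc, nsmul_eq_mul]; simp
  have h2 : (N : ℝ) ≤ X / H := by rw [le_div_iff₀ hH']; exact hN
  have h4 : (N : ℝ) * (((d : ℝ) * B / H + 3) * c) ≤ (X / H) * (((d : ℝ) * B / H + 3) * c) := by
    apply mul_le_mul_of_nonneg_right h2
    positivity
  have h5 : ((X : ℝ) / H) * (((d : ℝ) * B / H + 3) * c) =
      X * ((d : ℝ) * B + 3 * H) * (1 + η) ^ 2 * ((D₀ : ℝ) / D₀.totient) / (W * d * W.totient) := by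
    rw [hc]
    push_cast
    field_simp
  have h6 : X * ((d : ℝ) * B + 3 * H) * (1 + η) ^ 2 * ((D₀ : ℝ) / D₀.totient) /
      (W * d * W.totient) ≤ X * ((1 + η) * (d * B)) * (1 + η) ^ 2 *
        (((W : ℝ) / W.totient) * hwd) / (W * d * W.totient) := by
    apply div_le_div_of_nonneg_right _ (by positivity)
    apply mul_le_mul _ hr (by positivity) (by positivity)
    apply mul_le_mul_of_nonneg_right _ (by positivity)
    exact mul_le_mul_of_nonneg_left h3 hX0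
  have h7 : X * ((1 + η) * (d * B)) * (1 + η) ^ 2 *
        (((W : ℝ) / W.totient) * hwd) / (W * d * W.totient) =
      (1 + η) ^ 3 * ((B : ℝ) * X / (W.totient : ℝ) ^ 2) * hwd := by
    field_simp
  calc _ ≤ _ := h1
    _ ≤ _ := h4
    _ = _ := h5
    _ ≤ _ := h6
    _ = _ := h7

/-- `W = primorial w`, `d = q - p`, `D = W d`, `D₀ = gcd(W d, W R!)`, `H = HX ρ X`. `PC_le_cells` (its hypothesis: `q(q+b) ≤ 4δ'X ≤ δX/4` by `rng_shift`,
`H ≤ ρX ≤ δX/4`, `⌊δX⌋ ≥ δX - 1`), then `corr` for each `(k,j)` and `main_cell` with `M = W R!`: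
`PC ≤ ∑_k |JJ k| (D₀/D)((1+η)H)²/(φ(D₀)φ(W)) + ∑_{k,j} √(VV_k VV_j)`.
`∑_k |JJ k| H² ≤ (X/H)(dB/H + 3) H² = X (dB + 3H) ≤ (1+η) X d B` because `3H ≤ 3ρX ≤ η δ₁ δ' X/2 ≤ η d B` (`dB ≥ δ₁ P B ≥ δ₁ δ' X/2` by `rng_P_lower`).
With `ratio_le_hw` the main term is `≤ (1+η)³ (BX/φ(W)²) hw w d`; the error by `sum_sqrt_le`. -/
theorem pair_bound (w R : ℕ) {δ δ' δ₁ ρ η K : ℝ} (hη : 0 < η) (hη1 : η ≤ 1) (hδ : 0 < δ)
    (hδ2 : δ ≤ 1 / 4) (hδ' : 0 < δ') (h16 : 16 * δ' ≤ δ) (hδ₁ : 0 < δ₁) (hδ₁1 : δ₁ ≤ 1)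
    (hρ : 0 < ρ) (hρ' : 6 * ρ ≤ η * δ₁ * δ') (hK : 0 < K) :
    ∀ᶠ B : ℕ in atTop, ∀ X : ℕ, Rng K B X → ∀ β μ p q : ℕ, p < q →
      PX δ' B X < p → q ≤ 2 * PX δ' B X → δ₁ * PX δ' B X < (q : ℝ) - p →
      PC (primorial w) β μ δ B X p q ≤
        (1 + η) ^ 3 * ((B : ℝ) * X / ((primorial w).totient : ℝ) ^ 2) * hw w (q - p) +
        (X / HX ρ X : ℕ) * ∑ k ∈ Finset.Icc 1 (X / HX ρ X),
          VV (k * HX ρ X) ((k + 1) * HX ρ X) (primorial w * (q - p))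
            (Nat.gcd (primorial w * (q - p)) (primorial w * R.factorial)) := by
  have hηδ : η * δ₁ ≤ 1 := by nlinarith
  have hηδδ : η * δ₁ * δ' ≤ δ' := by nlinarith
  have hρδ : 6 * ρ ≤ δ' := hρ'.trans hηδδ
  have hρ1 : ρ ≤ 1 := by linarith
  have h16' : 16 * δ' ≤ 1 := by linarith
  set W := primorial w with hWdef
  have hW : 0 < W := primorial_pos w
  filter_upwards [rng_H hK hρ 1, rng_shift hK hδ' h16', rng_X_large hK (2 / δ),
    main_cell (W * R.factorial) hη hρ hρ1 hK, rng_P_lower hK hδ'] with B e1 e2 e3 e4 e5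
  intro X hX β μ p q hpq hPp hq2 hd1
  obtain ⟨hH1, hH2, hH3⟩ := e1 X hX
  have hsh := e2 X hX
  have hXl := e3 X hX
  have hcell := e4 X hX
  have hPl := e5 X hX
  set H := HX ρ X with hHdef
  set d := q - p with hddef
  have hd : 0 < d := Nat.sub_pos_of_lt hpq
  have hdr : (d : ℝ) = (q : ℝ) - p := by rw [hddef, Nat.cast_sub hpq.le]
  have hH : 0 < H := hH3
  have hB0 : (0 : ℝ) ≤ B := Nat.cast_nonneg _
  have hX0 : (0 : ℝ) ≤ X := Nat.cast_nonneg _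
  -- the hypothesis of `PC_le_cells`
  have hfl : ∀ b : ℕ, b ≤ B → q * (q + b) + H ≤ ⌊δ * X⌋₊ := by
    intro b hb
    have h1 := hsh q b hq2 hb
    rw [div_le_iff₀ hδ] at hXl
    have h2 : ((q * (q + b) + H : ℕ) : ℝ) ≤ δ * X - 1 := by
      push_cast at h1 ⊢
      have h3 : 4 * δ' * X ≤ δ / 4 * X := mul_le_mul_of_nonneg_right (by linarith) hX0
      have h4 : ρ * X ≤ δ / 96 * X := mul_le_mul_of_nonneg_right (by linarith) hX0
      nlinarith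
    apply Nat.le_floor
    linarith
  have hPC := PC_le_cells W β μ δ B X p q H hW hH hpq hfl
  rw [← hddef] at hPC
  set D₀ := Nat.gcd (W * d) (W * R.factorial) with hD₀def
  have hD : 0 < W * d := Nat.mul_pos hW hd
  have hD₀ : 0 < D₀ := Nat.gcd_pos_of_pos_left _ hD
  have hD₀D : D₀ ∣ W * d := Nat.gcd_dvd_left _ _
  have hWD₀ : W ∣ D₀ := Nat.dvd_gcd (dvd_mul_right _ _) (dvd_mul_right _ _)
  have hD₀M : D₀ ∈ Finset.Icc 1 (W * R.factorial) := by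
    rw [Finset.mem_Icc]
    exact ⟨hD₀, Nat.le_of_dvd (Nat.mul_pos hW (Nat.factorial_pos R)) (Nat.gcd_dvd_right _ _)⟩
  set N := X / H with hNdef
  set V : ℕ → ℝ := fun k => VV (k * H) ((k + 1) * H) (W * d) D₀ with hV
  have hV0 : ∀ k, 0 ≤ V k := fun k => VV_nonneg _ _ _ _ hD hD₀D
  set c : ℝ := ((D₀ : ℝ) / ((W * d : ℕ) : ℝ)) *
      (((1 + η) * H) ^ 2 / (D₀.totient * W.totient)) with hc
  have hterm : ∀ k ∈ Finset.Icc 1 N, ∀ j ∈ JJ H B X p q k,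
      ∑ α ∈ (Finset.range (W * d)).filter (fun α => α ≡ μ + (W - 1) * (q * (q + β)) [MOD W]),
          tz (W * d) (k * H) ((k + 1) * H) (α : ZMod (W * d)) *
            tz (W * d) (j * H) ((j + 1) * H) ((α + d * (p + q + β) : ℕ) : ZMod (W * d)) ≤
        c + √(V k * V j) := by
    intro k hk j hj
    have hj' : j ∈ Finset.Icc 1 N := (Finset.mem_filter.1 hj).1
    refine (corr (k * H) ((k + 1) * H) (j * H) ((j + 1) * H) (W * d) D₀ W hD hD₀D hWD₀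
      (d * (p + q + β)) (μ + (W - 1) * (q * (q + β)))).trans ?_
    have hm := hcell D₀ hD₀M W hW hWD₀ (d * (p + q + β)) (μ + (W - 1) * (q * (q + β))) k hk j hj'
    have hm2 := mul_le_mul_of_nonneg_left hm
      (by positivity : (0 : ℝ) ≤ (D₀ : ℝ) / ((W * d : ℕ) : ℝ))
    rw [hc]
    exact add_le_add hm2 le_rfl
  have hsum : PC W β μ δ B X p q ≤
      ∑ k ∈ Finset.Icc 1 N, ((JJ H B X p q k).card : ℝ) * c +
        ∑ k ∈ Finset.Icc 1 N, ∑ j ∈ Finset.Icc 1 N, √(V k * V j) := by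
    refine hPC.trans ?_
    rw [← Finset.sum_add_distrib]
    refine Finset.sum_le_sum fun k hk => ?_
    calc _ ≤ ∑ j ∈ JJ H B X p q k, (c + √(V k * V j)) :=
          Finset.sum_le_sum fun j hj => hterm k hk j hj
      _ = ((JJ H B X p q k).card : ℝ) * c + ∑ j ∈ JJ H B X p q k, √(V k * V j) := by
          rw [Finset.sum_add_distrib, Finset.sum_const, nsmul_eq_mul]
      _ ≤ _ := by
          apply add_le_add le_rfl
          exact Finset.sum_le_sum_of_subset_of_nonneg (Finset.filter_subset _ _)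
            fun _ _ _ => Real.sqrt_nonneg _
  refine hsum.trans (add_le_add ?_ (sum_sqrt_le N V hV0))
  -- the main term
  have hNH : (N : ℝ) * H ≤ X := by
    have : N * H ≤ X := Nat.div_mul_le_self X H
    exact_mod_cast this
  have h3H : (d : ℝ) * B + 3 * H ≤ (1 + η) * (d * B) := by
    have h1 : 3 * (H : ℝ) ≤ 3 * (ρ * X) := by linarith
    have h2 : 3 * (ρ * X) ≤ η * δ₁ * (δ' * X / 2) := by
      have := mul_le_mul_of_nonneg_right hρ' hX0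
      nlinarith
    have h4 : η * δ₁ * (δ' * X / 2) ≤ η * δ₁ * ((PX δ' B X : ℝ) * B) :=
      mul_le_mul_of_nonneg_left hPl (by positivity)
    have h5 : η * δ₁ * ((PX δ' B X : ℝ) * B) ≤ η * (d * B) := by
      have h6 : δ₁ * (PX δ' B X : ℝ) ≤ d := by rw [hdr]; exact hd1.le
      have h7 := mul_le_mul_of_nonneg_right h6 hB0
      have h8 := mul_le_mul_of_nonneg_left h7 hη.le
      calc η * δ₁ * ((PX δ' B X : ℝ) * B) = η * (δ₁ * (PX δ' B X : ℝ) * B) := by ring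
        _ ≤ _ := h8
    linarith
  exact m2b_main W d D₀ N X B H η (hw w d) hη hW hd hD₀ hH hNH h3H (ratio_le_hw w d R hd)
    (fun k => ((JJ H B X p q k).card : ℝ)) (fun k => card_JJ_le H B X p q k hH)

end Pool.Agent.Lib.MP_d9bc60_nt.TH
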