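import Mathlib
import Pool.Agent.Lib.MP_d9bc60_nt.TH.P1Range
import Pool.Agent.Lib.MP_d9bc60_nt.TH.A3Pairs

/-! Row N1 (about 220 lines): the pairs `p < q ≤ p + δ₁ P`. -/

set_option autoImplicit false

namespace Pool.Agent.Lib.MP_d9bc60_nt.TH

open Finset Filter Sieve

theorem n1_prime_of_lam {n : ℕ} (h : lam n ≠ 0) : n.Prime := by
  by_contra h1
  exact h (by simp [lam, h1])

/-- the sum over `m` for fixed `b` -/
theorem n1_inner {N₀ : ℕ} (hN₀ : 2 ≤ N₀) (hpp : ∀ N : ℕ, N₀ ≤ N → ∀ h : ℕ, 0 < h →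
    (((Finset.Icc 1 N).filter (fun p => p.Prime ∧ (p + h).Prime)).card : ℝ) ≤
      1026 * (N : ℝ) / (Real.log N) ^ 2 * (rphi h) ^ 2) {X : ℕ} (hX : N₀ ≤ X) {p q b : ℕ} (hpq : p < q) (hb : 0 < b) :
    ∑ m ∈ Finset.Icc 1 X, lam (m - p * (p + b)) * lam (m - q * (q + b)) ≤
      1026 * (X : ℝ) * (rphi (q - p) ^ 2 * rphi (p + q + b) ^ 2) := by
  classical
  have hX2 : 2 ≤ X := hN₀.trans hX
  have hXR : (2 : ℝ) ≤ X := by exact_mod_cast hX2
  have hlog : 0 < Real.log X := Real.log_pos (by linarith)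
  set h : ℕ := (q - p) * (p + q + b) with hh
  have hhpos : 0 < h := Nat.mul_pos (by omega) (by omega)
  have hkey : q * (q + b) = p * (p + b) + h := by
    obtain ⟨d, rfl⟩ : ∃ d, q = p + d := ⟨q - p, by omega⟩
    rw [hh]
    have : p + d - p = d := by omega
    rw [this]
    ring
  set S := (Finset.Icc 1 X).filter (fun m => lam (m - p * (p + b)) * lam (m - q * (q + b)) ≠ 0) with hS
  have h1 : ∑ m ∈ Finset.Icc 1 X, lam (m - p * (p + b)) * lam (m - q * (q + b))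
      = ∑ m ∈ S, lam (m - p * (p + b)) * lam (m - q * (q + b)) := by
    rw [hS, Finset.sum_filter_ne_zero]
  have h2 : ∀ m ∈ S, lam (m - p * (p + b)) * lam (m - q * (q + b)) ≤ (Real.log X) ^ 2 := by
    intro m hm
    rw [hS, Finset.mem_filter, Finset.mem_Icc] at hm
    rw [pow_two]
    exact mul_le_mul (lam_le_log (by omega) (by omega)) (lam_le_log (by omega) (by omega)) (lam_nonneg _) hlog.le
  have h3 : S.card ≤ ((Finset.Icc 1 X).filter (fun v => v.Prime ∧ (v + h).Prime)).card := by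
    refine Finset.card_le_card_of_injOn (fun m => m - q * (q + b)) ?_ ?_
    · intro m hm
      have hm' : m ∈ S := hm
      rw [hS, Finset.mem_filter, Finset.mem_Icc] at hm'
      obtain ⟨⟨hm1, hm2⟩, hm3⟩ := hm'
      have hv := n1_prime_of_lam (right_ne_zero_of_mul hm3)
      have hu := n1_prime_of_lam (left_ne_zero_of_mul hm3)
      have hvpos := hv.pos
      have huv : m - p * (p + b) = m - q * (q + b) + h := by omega
      simp only [Finset.coe_filter, Finset.mem_Icc, Set.mem_ofPred_eq]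
      refine ⟨⟨by omega, by omega⟩, hv, ?_⟩
      rw [← huv]; exact hu
    · intro m hm m' hm' he
      have hm1 : m ∈ S := hm
      have hm2 : m' ∈ S := hm'
      rw [hS, Finset.mem_filter] at hm1 hm2
      have hv := (n1_prime_of_lam (right_ne_zero_of_mul hm1.2)).pos
      have hv' := (n1_prime_of_lam (right_ne_zero_of_mul hm2.2)).pos
      simp only at he
      omega
  have h4 := hpp X hX h hhpos
  have h5 : rphi h ≤ rphi (q - p) * rphi (p + q + b) := rphi_mul_le _ _ (by omega) (by omega)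
  have h6 : rphi h ^ 2 ≤ rphi (q - p) ^ 2 * rphi (p + q + b) ^ 2 := by
    rw [← mul_pow]
    exact pow_le_pow_left₀ (rphi_nonneg _) h5 2
  calc ∑ m ∈ Finset.Icc 1 X, lam (m - p * (p + b)) * lam (m - q * (q + b))
      = ∑ m ∈ S, lam (m - p * (p + b)) * lam (m - q * (q + b)) := h1
    _ ≤ ∑ m ∈ S, (Real.log X) ^ 2 := Finset.sum_le_sum h2
    _ = S.card * (Real.log X) ^ 2 := by rw [Finset.sum_const, nsmul_eq_mul]
    _ ≤ (1026 * (X : ℝ) / (Real.log X) ^ 2 * (rphi h) ^ 2) * (Real.log X) ^ 2 := by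
        refine mul_le_mul_of_nonneg_right ?_ (by positivity)
        exact le_trans (by exact_mod_cast h3) h4
    _ = 1026 * (X : ℝ) * rphi h ^ 2 := by
        field_simp
    _ ≤ _ := mul_le_mul_of_nonneg_left h6 (by positivity)

/-- For `p < q` and `b`: with `v = m - q(q+b)`, `u = m - p(p+b) = v + h`, `h = (q-p)(p+q+b)`, the nonzero terms have `v, v+h` prime, `v + h ≤ X`:
`∑_m lam lam ≤ (log X)² · 1026 X/(log X)² · rphi(h)²` (`Sieve.pp`), and `rphi(h) ≤ rphi(q-p) rphi(p+q+b)` (`Sieve.rphi_mul_le`).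
`∑_{b ≤ B} rphi(p+q+b)² ≤ ∑_{n ≤ 2B} rphi(n)⁴ ≤ 2 KK B` (`p+q ≤ 4P ≤ B`, `one_le_rphi`, `sum_rphi_four`). So the inner double sum is
`≤ 2052 KK B X rphi(q-p)²`. -/
theorem near_inner {K δ' : ℝ} (hK : 0 < K) (hδ' : 0 < δ') (h16 : 16 * δ' ≤ 1) :
    ∀ᶠ B : ℕ in atTop, ∀ X : ℕ, Rng K B X → ∀ p q : ℕ, p < q → q ≤ 2 * PX δ' B X →
      ∑ b ∈ Finset.Icc 1 B, ∑ m ∈ Finset.Icc 1 X, lam (m - p * (p + b)) * lam (m - q * (q + b)) ≤
        2052 * KK * B * X * rphi (q - p) ^ 2 := by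
  obtain ⟨N₀, hN₀, hpp⟩ := pp
  filter_upwards [rng_X_large hK (N₀ : ℝ), rng_P_le_B hK hδ' h16] with B hB1 hB2 X hR p q hpq hq
  have hX : N₀ ≤ X := by exact_mod_cast hB1 X hR
  have hP := hB2 X hR
  have h1 : ∀ b ∈ Finset.Icc 1 B, ∑ m ∈ Finset.Icc 1 X, lam (m - p * (p + b)) * lam (m - q * (q + b))
      ≤ 1026 * (X : ℝ) * rphi (q - p) ^ 2 * rphi (p + q + b) ^ 4 := by
    intro b hb
    rw [Finset.mem_Icc] at hb
    refine (n1_inner hN₀ hpp hX hpq (b := b) (by omega)).trans ?_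
    have h2 : 1 ≤ rphi (p + q + b) := one_le_rphi (by omega)
    have h3 : rphi (p + q + b) ^ 2 ≤ rphi (p + q + b) ^ 4 := pow_le_pow_right₀ h2 (by norm_num)
    have h4 : 0 ≤ rphi (q - p) ^ 2 := by positivity
    calc 1026 * (X : ℝ) * (rphi (q - p) ^ 2 * rphi (p + q + b) ^ 2)
        = 1026 * (X : ℝ) * rphi (q - p) ^ 2 * rphi (p + q + b) ^ 2 := by ring
      _ ≤ _ := mul_le_mul_of_nonneg_left h3 (by positivity)
  have h2 : ∑ b ∈ Finset.Icc 1 B, rphi (p + q + b) ^ 4 ≤ KK * ((2 * B : ℕ) : ℝ) := by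
    refine le_trans ?_ (sum_rphi_four (2 * B))
    have h3 : ∑ b ∈ Finset.Icc 1 B, rphi (p + q + b) ^ 4
        = ∑ n ∈ (Finset.Icc 1 B).image (fun b => p + q + b), rphi n ^ 4 := by
      rw [Finset.sum_image]
      intro a _ b _ hab
      simp only at hab
      omega
    rw [h3]
    refine Finset.sum_le_sum_of_subset_of_nonneg ?_ (fun i _ _ => by
      have := rphi_nonneg i
      positivity)
    intro n hn
    rw [Finset.mem_image] at hn
    obtain ⟨b, hb, rfl⟩ := hn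
    rw [Finset.mem_Icc] at hb ⊢
    omega
  calc ∑ b ∈ Finset.Icc 1 B, ∑ m ∈ Finset.Icc 1 X, lam (m - p * (p + b)) * lam (m - q * (q + b))
      ≤ ∑ b ∈ Finset.Icc 1 B, 1026 * (X : ℝ) * rphi (q - p) ^ 2 * rphi (p + q + b) ^ 4 := Finset.sum_le_sum h1
    _ = 1026 * (X : ℝ) * rphi (q - p) ^ 2 * ∑ b ∈ Finset.Icc 1 B, rphi (p + q + b) ^ 4 := by rw [Finset.mul_sum]
    _ ≤ 1026 * (X : ℝ) * rphi (q - p) ^ 2 * (KK * ((2 * B : ℕ) : ℝ)) :=
        mul_le_mul_of_nonneg_left h2 (by positivity)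
    _ = _ := by push_cast; ring

/-- `near_inner` and `sum_pairs_le` with `F d = rphi d ^ 2` for `d ≤ δ₁ P` and `0` else: the sum is
`≤ 2052 KK B X · 2052 P ∑_{d ≤ δ₁P} rphi(d)⁴ ≤ 2052² KK² δ₁ P² B X` (`sum_rphi_four` for `⌊δ₁P⌋`). -/
theorem near {K δ' δ₁ : ℝ} (hK : 0 < K) (hδ' : 0 < δ') (h16 : 16 * δ' ≤ 1) (hδ₁ : 0 < δ₁)
    (hδ₁1 : δ₁ ≤ 1) :
    ∀ᶠ B : ℕ in atTop, ∀ X : ℕ, Rng K B X →
      ∑ p ∈ Finset.Ioc (PX δ' B X) (2 * PX δ' B X),
        ∑ q ∈ (Finset.Ioc (PX δ' B X) (2 * PX δ' B X)).filter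
            (fun q => p < q ∧ ((q : ℝ) - p ≤ δ₁ * PX δ' B X)),
          lam p * lam q * ∑ b ∈ Finset.Icc 1 B, ∑ m ∈ Finset.Icc 1 X,
            lam (m - p * (p + b)) * lam (m - q * (q + b)) ≤
      2052 ^ 2 * KK ^ 2 * δ₁ * ((PX δ' B X : ℝ) ^ 2 * B * X) := by
  classical
  obtain ⟨P₀, hP₀⟩ := sum_pairs_le
  filter_upwards [near_inner hK hδ' h16, rng_P_large hK hδ' P₀] with B hB1 hB2 X hR
  have hin := hB1 X hR
  have hPP := hB2 X hR
  set P := PX δ' B X with hP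
  have hKK : 0 < KK := KK_pos
  set F : ℕ → ℝ := fun d => if (d : ℝ) ≤ δ₁ * P then rphi d ^ 2 else 0 with hF
  have hF0 : ∀ d, 0 ≤ F d := by
    intro d
    simp only [hF]
    split_ifs
    · positivity
    · exact le_refl _
  have h1 := hP₀ P hPP F hF0
  -- the sum over d
  have h2 : ∑ d ∈ Finset.Icc 1 P, rphi d ^ 2 * F d ≤ KK * (δ₁ * P) := by
    have h3 : ∑ d ∈ Finset.Icc 1 P, rphi d ^ 2 * F d
        = ∑ d ∈ (Finset.Icc 1 P).filter (fun d : ℕ => (d : ℝ) ≤ δ₁ * P), rphi d ^ 4 := by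
      rw [Finset.sum_filter]
      refine Finset.sum_congr rfl fun d _ => ?_
      simp only [hF]
      split_ifs
      · ring
      · ring
    have h4 : ∑ d ∈ (Finset.Icc 1 P).filter (fun d : ℕ => (d : ℝ) ≤ δ₁ * P), rphi d ^ 4
        ≤ ∑ d ∈ Finset.Icc 1 ⌊δ₁ * P⌋₊, rphi d ^ 4 := by
      refine Finset.sum_le_sum_of_subset_of_nonneg ?_ (fun i _ _ => by
        have := rphi_nonneg i
        positivity)
      intro d hd
      rw [Finset.mem_filter, Finset.mem_Icc] at hd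
      rw [Finset.mem_Icc]
      exact ⟨hd.1.1, Nat.le_floor hd.2⟩
    rw [h3]
    refine h4.trans ((sum_rphi_four _).trans ?_)
    exact mul_le_mul_of_nonneg_left (Nat.floor_le (by positivity)) hKK.le
  set Y : ℝ := 2052 * KK * B * X with hY
  have hY0 : 0 ≤ Y := by positivity
  -- termwise
  have h5 : ∑ p ∈ Finset.Ioc P (2 * P),
        ∑ q ∈ (Finset.Ioc P (2 * P)).filter (fun q => p < q ∧ ((q : ℝ) - p ≤ δ₁ * P)),
          lam p * lam q * ∑ b ∈ Finset.Icc 1 B, ∑ m ∈ Finset.Icc 1 X,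
            lam (m - p * (p + b)) * lam (m - q * (q + b))
      ≤ Y * ∑ p ∈ Finset.Ioc P (2 * P), ∑ q ∈ (Finset.Ioc P (2 * P)).filter (fun q => p < q),
        lam p * lam q * F (q - p) := by
    rw [Finset.mul_sum]
    refine Finset.sum_le_sum fun p _ => ?_
    rw [Finset.mul_sum]
    have h6 : ∑ q ∈ (Finset.Ioc P (2 * P)).filter (fun q => p < q ∧ ((q : ℝ) - p ≤ δ₁ * P)),
          lam p * lam q * ∑ b ∈ Finset.Icc 1 B, ∑ m ∈ Finset.Icc 1 X,
            lam (m - p * (p + b)) * lam (m - q * (q + b))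
        ≤ ∑ q ∈ (Finset.Ioc P (2 * P)).filter (fun q => p < q ∧ ((q : ℝ) - p ≤ δ₁ * P)),
          Y * (lam p * lam q * F (q - p)) := by
      refine Finset.sum_le_sum fun q hq => ?_
      rw [Finset.mem_filter, Finset.mem_Ioc] at hq
      obtain ⟨⟨hq1, hq2⟩, hq3, hq4⟩ := hq
      have h7 := hin p q hq3 hq2
      have h8 : F (q - p) = rphi (q - p) ^ 2 := by
        simp only [hF]
        rw [if_pos]
        rw [Nat.cast_sub hq3.le]
        exact hq4
      rw [h8]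
      calc _ ≤ lam p * lam q * (Y * rphi (q - p) ^ 2) :=
            mul_le_mul_of_nonneg_left h7 (mul_nonneg (lam_nonneg _) (lam_nonneg _))
        _ = _ := by ring
    refine h6.trans (Finset.sum_le_sum_of_subset_of_nonneg ?_ (fun q _ _ => ?_))
    · intro q hq
      rw [Finset.mem_filter] at hq ⊢
      exact ⟨hq.1, hq.2.1⟩
    · exact mul_nonneg hY0 (mul_nonneg (mul_nonneg (lam_nonneg _) (lam_nonneg _)) (hF0 _))
  calc _ ≤ Y * (2052 * P * ∑ d ∈ Finset.Icc 1 P, rphi d ^ 2 * F d) :=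
        h5.trans (mul_le_mul_of_nonneg_left h1 hY0)
    _ ≤ Y * (2052 * P * (KK * (δ₁ * P))) := by
        refine mul_le_mul_of_nonneg_left (mul_le_mul_of_nonneg_left h2 (by positivity)) hY0
    _ = _ := by rw [hY]; ring

end Pool.Agent.Lib.MP_d9bc60_nt.TH
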