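import Mathlib

/-! Row R1a (about 110 lines): sums over primitive roots of unity -/

set_option autoImplicit false

namespace Pool.Agent.Lib.MP_d9bc60_nt.TH

open Finset

theorem r1a_sum_nthRoots (n : ℕ) (hn : 0 < n) :
    ∑ ξ ∈ Polynomial.nthRootsFinset n (1 : ℂ), ξ = if n = 1 then 1 else 0 := by
  classical
  have hζ := Complex.isPrimitiveRoot_exp n hn.ne'
  set ζ := Complex.exp (2 * Real.pi * Complex.I / n) with hζd
  have h1 : ∑ ξ ∈ Polynomial.nthRootsFinset n (1 : ℂ), ξ = ∑ i ∈ Finset.range n, ζ ^ i := by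
    symm
    refine Finset.sum_bij (fun i _ => ζ ^ i) ?_ ?_ ?_ ?_
    · intro i hi
      rw [Polynomial.mem_nthRootsFinset hn]
      rw [← pow_mul, mul_comm, pow_mul, hζ.pow_eq_one, one_pow]
    · intro i hi j hj hij
      exact hζ.pow_inj (Finset.mem_range.mp hi) (Finset.mem_range.mp hj) hij
    · intro b hb
      rw [Polynomial.mem_nthRootsFinset hn] at hb
      have : NeZero n := ⟨hn.ne'⟩
      obtain ⟨i, hi, hib⟩ := hζ.eq_pow_of_pow_eq_one hb
      exact ⟨i, Finset.mem_range.mpr hi, hib⟩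
    · intro i hi
      rfl
  rw [h1]
  split_ifs with h
  · subst h
    simp
  · exact hζ.geom_sum_eq_zero (by omega)

theorem r1a_sum_primitive (s : ℕ) (hs : 0 < s) :
    ∑ ξ ∈ primitiveRoots s ℂ, ξ = ((ArithmeticFunction.moebius s : ℤ) : ℂ) := by
  classical
  have key : ∀ n > 0, ∑ i ∈ n.divisors, (∑ ξ ∈ primitiveRoots i ℂ, ξ) = (if n = 1 then (1 : ℂ) else 0) := by
    intro n hn
    rw [← r1a_sum_nthRoots n hn, IsPrimitiveRoot.nthRoots_one_eq_biUnion_primitiveRoots,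
      Finset.sum_biUnion]
    intro i _ j _ hij
    exact IsPrimitiveRoot.disjoint hij
  have h2 := (ArithmeticFunction.sum_eq_iff_sum_mul_moebius_eq
    (f := fun i => ∑ ξ ∈ primitiveRoots i ℂ, ξ) (g := fun n => if n = 1 then (1 : ℂ) else 0)).mp key s hs
  rw [← h2]
  rw [Finset.sum_eq_single (s, 1)]
  · simp
  · rintro ⟨u, v⟩ huv hne
    rw [Nat.mem_divisorsAntidiagonal] at huv
    by_cases hv : v = 1
    · exfalso
      apply hne
      subst hv
      simp at huv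
      rw [huv.1]
    · simp [hv]
  · intro h
    exfalso
    apply h
    rw [Nat.mem_divisorsAntidiagonal]
    exact ⟨by simp, hs.ne'⟩

/-- For `n` coprime to `s` the map `ξ ↦ ξ^n` permutes the primitive `s`-th roots of unity (`IsPrimitiveRoot.pow_of_coprime`); the sum of the
primitive `s`-th roots of unity is `μ(s)`: Möbius inversion of `∑_{t ∣ s} ∑_{primitiveRoots t} ξ = ∑_{ξ^s = 1} ξ = [s = 1]`
(`IsPrimitiveRoot.nthRoots_one_eq_biUnion_primitiveRoots`, `IsPrimitiveRoot.geom_sum_eq_zero`,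
`ArithmeticFunction.sum_eq_iff_sum_mul_moebius_eq`). -/
theorem sum_primitiveRoots_pow {s n : ℕ} (hs : 0 < s) (h : n.Coprime s) :
    ∑ ξ ∈ primitiveRoots s ℂ, ξ ^ n = ((ArithmeticFunction.moebius s : ℤ) : ℂ) := by
  classical
  rw [← r1a_sum_primitive s hs]
  obtain ⟨m, hm⟩ : ∃ m : ℕ, ∀ ξ ∈ primitiveRoots s ℂ, (ξ ^ n) ^ m = ξ := by
    have hco : ((n : ZMod s)) * (n : ZMod s)⁻¹ = 1 := ZMod.coe_mul_inv_eq_one n h
    have : NeZero s := ⟨hs.ne'⟩
    refine ⟨((n : ZMod s)⁻¹).val, fun ξ hξ => ?_⟩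
    rw [mem_primitiveRoots hs] at hξ
    have hmod : n * ((n : ZMod s)⁻¹).val ≡ 1 [MOD s] := by
      rw [← ZMod.natCast_eq_natCast_iff]
      push_cast
      rw [ZMod.natCast_zmod_val, hco]
    rw [← pow_mul]
    calc ξ ^ (n * ((n : ZMod s)⁻¹).val) = ξ ^ 1 := by
          rw [pow_eq_pow_mod _ hξ.pow_eq_one, pow_eq_pow_mod 1 hξ.pow_eq_one]
          rw [show n * ((n : ZMod s)⁻¹).val % s = 1 % s from hmod]
      _ = ξ := pow_one ξ
  refine Finset.sum_bij (fun ξ _ => ξ ^ n) ?_ ?_ ?_ ?_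
  · intro ξ hξ
    rw [mem_primitiveRoots hs] at hξ ⊢
    exact hξ.pow_of_coprime n h
  · intro a ha b hb hab
    rw [← hm a ha, ← hm b hb]
    have hab' : a ^ n = b ^ n := hab
    rw [hab']
  · intro b hb
    have hb' := hb
    rw [mem_primitiveRoots hs] at hb'
    refine ⟨b ^ m, ?_, ?_⟩
    · have h3 : (b ^ m) ^ n = b := by
        rw [← pow_mul, mul_comm, pow_mul]; exact hm b hb
      rw [mem_primitiveRoots hs]
      have h4 : IsPrimitiveRoot ((b ^ m) ^ n) s := by rw [h3]; exact hb'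
      refine ⟨?_, ?_⟩
      · rw [← pow_mul, mul_comm, pow_mul, hb'.pow_eq_one, one_pow]
      · intro l hl
        apply hb'.dvd_of_pow_eq_one
        rw [← h3, ← pow_mul, mul_comm, pow_mul, hl, one_pow]
    · rw [← pow_mul, mul_comm, pow_mul]; exact hm b hb
  · intro a ha
    rfl

/-- Cauchy–Schwarz: `μ(s) S(ζ) = ∑_{ξ ∈ primitiveRoots s} S(ζ ξ)` (previous theorem, all `n` with `a n ≠ 0` are coprime to `s`), `|μ(s)| = 1` for
squarefree `s`, `card (primitiveRoots s) = φ(s)`. -/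
theorem norm_sq_le_sum_primitive {s : ℕ} (hs : Squarefree s) (a : ℕ → ℂ) (S : Finset ℕ)
    (ha : ∀ n ∈ S, a n ≠ 0 → n.Coprime s) (ζ : ℂ) :
    ‖∑ n ∈ S, a n * ζ ^ n‖ ^ 2 ≤
      (s.totient : ℝ) * ∑ ξ ∈ primitiveRoots s ℂ, ‖∑ n ∈ S, a n * (ζ * ξ) ^ n‖ ^ 2 := by
  classical
  have hs0 : 0 < s := Nat.pos_of_ne_zero hs.ne_zero
  have h1 : ((ArithmeticFunction.moebius s : ℤ) : ℂ) * ∑ n ∈ S, a n * ζ ^ n
      = ∑ ξ ∈ primitiveRoots s ℂ, ∑ n ∈ S, a n * (ζ * ξ) ^ n := by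
    rw [Finset.sum_comm, Finset.mul_sum]
    refine Finset.sum_congr rfl fun n hn => ?_
    by_cases h0 : a n = 0
    · simp [h0]
    · rw [← sum_primitiveRoots_pow hs0 (ha n hn h0), Finset.sum_mul]
      refine Finset.sum_congr rfl fun ξ _ => ?_
      rw [mul_pow]
      ring
  have h2 : ‖((ArithmeticFunction.moebius s : ℤ) : ℂ)‖ = 1 := by
    have := ArithmeticFunction.abs_moebius_eq_one_of_squarefree hs
    rw [Complex.norm_intCast]
    exact_mod_cast this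
  have h3 : ‖∑ n ∈ S, a n * ζ ^ n‖ = ‖∑ ξ ∈ primitiveRoots s ℂ, ∑ n ∈ S, a n * (ζ * ξ) ^ n‖ := by
    rw [← h1, norm_mul, h2, one_mul]
  rw [h3]
  have h4 : ‖∑ ξ ∈ primitiveRoots s ℂ, ∑ n ∈ S, a n * (ζ * ξ) ^ n‖ ^ 2
      ≤ (∑ ξ ∈ primitiveRoots s ℂ, ‖∑ n ∈ S, a n * (ζ * ξ) ^ n‖) ^ 2 := by
    gcongr
    exact norm_sum_le _ _
  refine h4.trans ?_
  have h5 := sq_sum_le_card_mul_sum_sq (s := primitiveRoots s ℂ)
    (f := fun ξ => ‖∑ n ∈ S, a n * (ζ * ξ) ^ n‖)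
  have hcard : (primitiveRoots s ℂ).card = s.totient := Complex.card_primitiveRoots s
  rw [hcard] at h5
  exact h5

end Pool.Agent.Lib.MP_d9bc60_nt.TH
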