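import Mathlib
import Pool.Agent.Lib.MP_d9bc60_nt.TH.R1aPrim

/-! Row R1b (about 90 lines) -/

set_option autoImplicit false

namespace Pool.Agent.Lib.MP_d9bc60_nt.TH

open Finset
/-- The map `(ζ, ξ) ↦ ζ ξ` from `primitiveRoots q × primitiveRoots s` to `primitiveRoots (q s)` is well defined and injective for coprime `q, s`
(`IsPrimitiveRoot.mul_of_coprime`-type lemma, `Commute.orderOf_mul_eq_mul_orderOf_of_coprime`; injectivity: `ζ/ζ' = ξ'/ξ` has order dividing `q` and `s`). -/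
theorem sum_primitive_le {q s : ℕ} (hqs : q.Coprime s) (hq : 0 < q) (hs : Squarefree s) (a : ℕ → ℂ)
    (S : Finset ℕ) (ha : ∀ n ∈ S, a n ≠ 0 → n.Coprime s) :
    ((s.totient : ℝ))⁻¹ * ∑ ζ ∈ primitiveRoots q ℂ, ‖∑ n ∈ S, a n * ζ ^ n‖ ^ 2 ≤
      ∑ ζ ∈ primitiveRoots (q * s) ℂ, ‖∑ n ∈ S, a n * ζ ^ n‖ ^ 2 := by
  classical
  have hs0 : 0 < s := Nat.pos_of_ne_zero hs.ne_zero
  have hφ : (0 : ℝ) < s.totient := by exact_mod_cast Nat.totient_pos.2 hs0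
  set F : ℂ → ℝ := fun ζ => ‖∑ n ∈ S, a n * ζ ^ n‖ ^ 2 with hF
  have h1 : ∀ ζ ∈ primitiveRoots q ℂ, F ζ ≤
      (s.totient : ℝ) * ∑ ξ ∈ primitiveRoots s ℂ, F (ζ * ξ) := fun ζ _ =>
    norm_sq_le_sum_primitive hs a S ha ζ
  have h2 : ((s.totient : ℝ))⁻¹ * ∑ ζ ∈ primitiveRoots q ℂ, F ζ ≤
      ∑ ζ ∈ primitiveRoots q ℂ, ∑ ξ ∈ primitiveRoots s ℂ, F (ζ * ξ) := by
    rw [inv_mul_le_iff₀ hφ, Finset.mul_sum]
    exact Finset.sum_le_sum h1
  refine le_trans h2 ?_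
  rw [← Finset.sum_product']
  have hinj : Set.InjOn (fun x : ℂ × ℂ => x.1 * x.2)
      ((primitiveRoots q ℂ ×ˢ primitiveRoots s ℂ : Finset (ℂ × ℂ)) : Set (ℂ × ℂ)) := by
    rintro ⟨ζ, ξ⟩ hx ⟨ζ', ξ'⟩ hy hxy
    simp only [Finset.coe_product, Set.mem_prod, Finset.mem_coe] at hx hy
    simp only at hxy
    have hζ := (mem_primitiveRoots hq).1 hx.1
    have hξ := (mem_primitiveRoots hs0).1 hx.2
    have hζ' := (mem_primitiveRoots hq).1 hy.1
    have hξ' := (mem_primitiveRoots hs0).1 hy.2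
    have hζ0 : ζ' ≠ 0 := hζ'.ne_zero hq.ne'
    have hξ0 : ξ ≠ 0 := hξ.ne_zero hs0.ne'
    have e : ζ / ζ' = ξ' / ξ := by
      rw [div_eq_div_iff hζ0 hξ0, hxy]
      ring
    have e1 : (ζ / ζ') ^ q = 1 := by
      rw [div_pow, hζ.pow_eq_one, hζ'.pow_eq_one, div_one]
    have e2 : (ζ / ζ') ^ s = 1 := by
      rw [e, div_pow, hξ.pow_eq_one, hξ'.pow_eq_one, div_one]
    have e3 : ζ / ζ' = 1 := by
      have d1 := orderOf_dvd_of_pow_eq_one e1
      have d2 := orderOf_dvd_of_pow_eq_one e2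
      have d3 : orderOf (ζ / ζ') ∣ 1 := by
        have := Nat.dvd_gcd d1 d2
        rwa [hqs] at this
      exact orderOf_eq_one_iff.1 (Nat.dvd_one.1 d3)
    have e4 : ζ = ζ' := (div_eq_one_iff_eq hζ0).1 e3
    have e5 : ξ = ξ' := by
      rw [e] at e3
      exact ((div_eq_one_iff_eq hξ0).1 e3).symm
    rw [e4, e5]
  have himg : (primitiveRoots q ℂ ×ˢ primitiveRoots s ℂ).image (fun x : ℂ × ℂ => x.1 * x.2) ⊆
      primitiveRoots (q * s) ℂ := by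
    intro z hz
    rw [Finset.mem_image] at hz
    obtain ⟨⟨ζ, ξ⟩, hx, rfl⟩ := hz
    rw [Finset.mem_product] at hx
    have hζ := (mem_primitiveRoots hq).1 hx.1
    have hξ := (mem_primitiveRoots hs0).1 hx.2
    rw [mem_primitiveRoots (Nat.mul_pos hq hs0)]
    have o1 := hζ.eq_orderOf
    have o2 := hξ.eq_orderOf
    simp only at o1 o2
    have hco : (orderOf ζ).Coprime (orderOf ξ) := by rwa [← o1, ← o2]
    have := (Commute.all ζ ξ).orderOf_mul_eq_mul_orderOf_of_coprime hco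
    rw [← o1, ← o2] at this
    rw [← this]
    exact IsPrimitiveRoot.orderOf (ζ * ξ)
  calc ∑ x ∈ primitiveRoots q ℂ ×ˢ primitiveRoots s ℂ, F (x.1 * x.2)
      = ∑ z ∈ (primitiveRoots q ℂ ×ˢ primitiveRoots s ℂ).image (fun x : ℂ × ℂ => x.1 * x.2), F z :=
        (Finset.sum_image hinj).symm
    _ ≤ ∑ z ∈ primitiveRoots (q * s) ℂ, F z :=
        Finset.sum_le_sum_of_subset_of_nonneg himg (fun z _ _ => by positivity)

end Pool.Agent.Lib.MP_d9bc60_nt.TH
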