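import Mathlib
import Pool.Agent.Lib.MP_d9bc60_nt.TH.R1bMul
import Pool.Agent.Lib.MP_d9bc60_nt.TH.Defs

/-! Row R2 (about 150 lines): large sieve for primes at small moduli (Ramaré, Green–Tao). -/

set_option autoImplicit false

namespace Pool.Agent.Lib.MP_d9bc60_nt.TH

open Finset

theorem TQ_nonneg (u v q : ℕ) : 0 ≤ TQ u v q := by
  unfold TQ
  positivity

theorem r2_coprime {z q s : ℕ} (hq : q ∈ Finset.Icc 1 z) (hs : s.Coprime (primorial z)) :
    q.Coprime s := by
  rw [Finset.mem_Icc] at hq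
  rw [Nat.coprime_iff_gcd_eq_one]
  by_contra h
  obtain ⟨p, hp, hpd⟩ := Nat.exists_prime_and_dvd h
  have hpq : p ∣ q := hpd.trans (Nat.gcd_dvd_left _ _)
  have hps : p ∣ s := hpd.trans (Nat.gcd_dvd_right _ _)
  have hpz : p ≤ z := (Nat.le_of_dvd (by omega) hpq).trans hq.2
  have hpP : p ∣ primorial z := by
    unfold primorial
    exact Finset.dvd_prod_of_mem _ (by
      rw [Finset.mem_filter, Finset.mem_range]
      exact ⟨by omega, hp⟩)
  exact Nat.not_coprime_of_dvd_of_dvd hp.one_lt hps hpP hs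

/-- Let `𝒮` be the set of the squarefree `s ≤ y` coprime to `primorial z` (all prime factors `> z`). For `q ≤ z` and `s ∈ 𝒮`: `q, s` coprime, and the primes
`n > u ≥ y ≥ s` are coprime to `s`, so `TQ u v q / φ(s) ≤ TQ u v (q s)` (`sum_primitive_le`). The map `(q, s) ↦ q s` is injective on
`[1,z] × 𝒮` (`s` is the part of `qs` coprime to `primorial z`) with values `≤ z y`. Sum over `(q,s)`:
`(∑_{q≤z} TQ u v q)(∑_{s∈𝒮} 1/φ(s)) ≤ ∑_{t ≤ zy} TQ u v t`, and `Sieve.log_le_sum (primorial z) y` bounds `∑_{s∈𝒮} 1/φ(s)` from below. -/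
theorem rgt (u v z y : ℕ) (hy : 1 ≤ y) (hyu : y ≤ u) :
    Real.log ((y : ℝ) + 1) * ∑ q ∈ Finset.Icc 1 z, TQ u v q ≤
      ((primorial z : ℝ) / (primorial z).totient) * ∑ t ∈ Finset.Icc 1 (z * y), TQ u v t := by
  classical
  set 𝒮 : Finset ℕ := (Finset.Icc 1 y).filter (fun a => Squarefree a ∧ a.Coprime (primorial z))
    with h𝒮
  have hlog := Sieve.log_le_sum (primorial z) y (primorial_pos z)
  rw [← h𝒮] at hlog
  have hsingle : ∀ q ∈ Finset.Icc 1 z, ∀ s ∈ 𝒮, TQ u v q * ((s.totient : ℝ))⁻¹ ≤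
      TQ u v (q * s) := by
    intro q hq s hs
    rw [h𝒮, Finset.mem_filter, Finset.mem_Icc] at hs
    have hq1 := (Finset.mem_Icc.mp hq).1
    have h := sum_primitive_le (r2_coprime hq hs.2.2) (by omega) hs.2.1
      (fun n => (lam n : ℂ)) (Finset.Ioc u v) (by
        intro n hn hne
        rw [Finset.mem_Ioc] at hn
        have hnp : n.Prime := by
          by_contra hnp
          apply hne
          simp [lam, hnp]
        rw [Nat.Prime.coprime_iff_not_dvd hnp]
        intro hdvd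
        have := Nat.le_of_dvd (by omega) hdvd
        omega)
    rw [mul_comm]
    exact h
  have hTQsum : 0 ≤ ∑ q ∈ Finset.Icc 1 z, TQ u v q := Finset.sum_nonneg fun q _ => TQ_nonneg u v q
  have hprod : (∑ s ∈ 𝒮, ((s.totient : ℝ))⁻¹) * ∑ q ∈ Finset.Icc 1 z, TQ u v q ≤
      ∑ t ∈ Finset.Icc 1 (z * y), TQ u v t := by
    calc (∑ s ∈ 𝒮, ((s.totient : ℝ))⁻¹) * ∑ q ∈ Finset.Icc 1 z, TQ u v q
        = ∑ x ∈ Finset.Icc 1 z ×ˢ 𝒮, TQ u v x.1 * ((x.2.totient : ℝ))⁻¹ := by
          rw [mul_comm, Finset.sum_mul_sum, Finset.sum_product]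
      _ ≤ ∑ x ∈ Finset.Icc 1 z ×ˢ 𝒮, TQ u v (x.1 * x.2) := by
          refine Finset.sum_le_sum fun x hx => ?_
          rw [Finset.mem_product] at hx
          exact hsingle x.1 hx.1 x.2 hx.2
      _ = ∑ t ∈ (Finset.Icc 1 z ×ˢ 𝒮).image (fun x => x.1 * x.2), TQ u v t := by
          rw [Finset.sum_image]
          rintro ⟨q, s⟩ hx ⟨q', s'⟩ hx' heq
          simp only [Finset.coe_product, Set.mem_prod, Finset.mem_coe] at hx hx'
          obtain ⟨hq, hs⟩ := hx
          obtain ⟨hq', hs'⟩ := hx'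
          simp only at heq
          rw [h𝒮, Finset.mem_filter, Finset.mem_Icc] at hs hs'
          have h1 : s ∣ s' := by
            have hc := (r2_coprime hq' hs.2.2).symm
            have hd : s ∣ q' * s' := by rw [← heq]; exact Dvd.intro_left q rfl
            exact hc.dvd_of_dvd_mul_left hd
          have h2 : s' ∣ s := by
            have hc := (r2_coprime hq hs'.2.2).symm
            have hd : s' ∣ q * s := by rw [heq]; exact Dvd.intro_left q' rfl
            exact hc.dvd_of_dvd_mul_left hd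
          have h3 : s = s' := Nat.dvd_antisymm h1 h2
          subst h3
          have h4 : q = q' := Nat.eq_of_mul_eq_mul_right (by omega) heq
          rw [h4]
      _ ≤ ∑ t ∈ Finset.Icc 1 (z * y), TQ u v t := by
          refine Finset.sum_le_sum_of_subset_of_nonneg ?_ fun t _ _ => TQ_nonneg u v t
          intro t ht
          rw [Finset.mem_image] at ht
          obtain ⟨⟨q, s⟩, hx, rfl⟩ := ht
          rw [Finset.mem_product, h𝒮, Finset.mem_filter, Finset.mem_Icc, Finset.mem_Icc] at hx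
          simp only at hx
          rw [Finset.mem_Icc]
          obtain ⟨⟨h1, h2⟩, ⟨h3, h4⟩, _⟩ := hx
          exact ⟨Nat.one_le_iff_ne_zero.mpr (Nat.mul_ne_zero (by omega) (by omega)),
            Nat.mul_le_mul h2 h4⟩
  have hfac : (0 : ℝ) ≤ (primorial z : ℝ) / (primorial z).totient := by positivity
  calc Real.log ((y : ℝ) + 1) * ∑ q ∈ Finset.Icc 1 z, TQ u v q
      ≤ (((primorial z : ℝ) / (primorial z).totient) * ∑ a ∈ 𝒮, ((a.totient : ℝ)⁻¹)) *
        ∑ q ∈ Finset.Icc 1 z, TQ u v q := mul_le_mul_of_nonneg_right hlog hTQsum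
    _ = ((primorial z : ℝ) / (primorial z).totient) *
        ((∑ a ∈ 𝒮, ((a.totient : ℝ)⁻¹)) * ∑ q ∈ Finset.Icc 1 z, TQ u v q) := by ring
    _ ≤ _ := mul_le_mul_of_nonneg_left hprod hfac

end Pool.Agent.Lib.MP_d9bc60_nt.TH
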