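import Mathlib
import Pool.Agent.Lib.MP_d9bc60_nt.TH.P1Range
import Pool.Agent.Lib.MP_d9bc60_nt.TH.A3Pairs
import Pool.Agent.Lib.MP_d9bc60_nt.TH.L4Large
import Pool.Agent.Lib.MP_d9bc60_nt.TH.R2Rgt
import Pool.Agent.Lib.MP_d9bc60_nt.TH.R3Mertens

/-! Row V1 (about 220 lines): the sum of `TQ` over all moduli up to `y`. -/

set_option autoImplicit false

namespace Pool.Agent.Lib.MP_d9bc60_nt.TH

open Finset Filter

/-- `large_sieve` with `a = lam`, `∑ lam² ≤ log(2X) ∑_{n ≤ 2X} lam n ≤ 3X log(2X)` for `v ≤ 2X`. -/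
theorem sum_TQ_le (u v Q X : ℕ) (huv : u ≤ v) (hv : v ≤ 2 * X) (hQ : 0 < Q) (hX : 1 ≤ X) :
    ∑ q ∈ Finset.Icc 1 Q, TQ u v q ≤ 24 * (2 * (X : ℝ) + (Q : ℝ) ^ 2) * X * Real.log (2 * X) := by
  have h := large_sieve (fun n => (lam n : ℂ)) u v Q huv hQ
  have e : ∑ q ∈ Finset.Icc 1 Q, TQ u v q = ∑ q ∈ Finset.Icc 1 Q, ∑ ζ ∈ primitiveRoots q ℂ,
      ‖∑ n ∈ Finset.Ioc u v, (fun n => (lam n : ℂ)) n * ζ ^ n‖ ^ 2 := rfl
  rw [e]
  refine h.trans ?_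
  have hX' : (1 : ℝ) ≤ X := by exact_mod_cast hX
  have hlog : 0 ≤ Real.log (2 * X) := Real.log_nonneg (by linarith)
  have h1 : ∑ n ∈ Finset.Ioc u v, ‖((lam n : ℝ) : ℂ)‖ ^ 2 ≤ 3 * X * Real.log (2 * X) := by
    calc ∑ n ∈ Finset.Ioc u v, ‖((lam n : ℝ) : ℂ)‖ ^ 2
        ≤ ∑ n ∈ Finset.Ioc u v, Real.log (2 * X) * lam n := by
          refine Finset.sum_le_sum fun n hn => ?_
          rw [Finset.mem_Ioc] at hn
          have h0 := lam_nonneg n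
          have h2 : lam n ≤ Real.log (2 * X) := by
            have := lam_le_log (n := n) (N := 2 * X) (by omega) (by omega)
            push_cast at this
            exact this
          rw [Complex.norm_real, Real.norm_eq_abs, sq_abs, sq]
          exact mul_le_mul_of_nonneg_right h2 h0
      _ = Real.log (2 * X) * ∑ n ∈ Finset.Ioc u v, lam n := by rw [Finset.mul_sum]
      _ ≤ Real.log (2 * X) * ((3 / 2) * (2 * X : ℕ)) := by
          refine mul_le_mul_of_nonneg_left ?_ hlog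
          refine le_trans ?_ (sum_lam_le (2 * X))
          refine Finset.sum_le_sum_of_subset_of_nonneg ?_ fun n _ _ => lam_nonneg n
          intro n hn
          rw [Finset.mem_Ioc] at hn
          rw [Finset.mem_Icc]
          omega
      _ = 3 * X * Real.log (2 * X) := by push_cast; ring
  have h2 : 0 ≤ ∑ n ∈ Finset.Ioc u v, ‖((lam n : ℝ) : ℂ)‖ ^ 2 := by positivity
  have h3 : ((v : ℝ) - u) + (Q : ℝ) ^ 2 ≤ 2 * (X : ℝ) + (Q : ℝ) ^ 2 := by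
    have a1 : (v : ℝ) ≤ 2 * X := by exact_mod_cast hv
    have a2 : (0 : ℝ) ≤ u := Nat.cast_nonneg u
    linarith
  calc 8 * (((v : ℝ) - u) + (Q : ℝ) ^ 2) * ∑ n ∈ Finset.Ioc u v, ‖((lam n : ℝ) : ℂ)‖ ^ 2
      ≤ 8 * (2 * (X : ℝ) + (Q : ℝ) ^ 2) * ∑ n ∈ Finset.Ioc u v, ‖((lam n : ℝ) : ℂ)‖ ^ 2 := by
        refine mul_le_mul_of_nonneg_right ?_ h2
        linarith
    _ ≤ 8 * (2 * (X : ℝ) + (Q : ℝ) ^ 2) * (3 * X * Real.log (2 * X)) :=
        mul_le_mul_of_nonneg_left h1 (by positivity)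
    _ = _ := by ring

/-- There is an absolute constant `C` with, for `B` large, for all cells `k ≥ 1` and all `1 ≤ y ≤ M P`:
`∑_{q ≤ y} TQ ≤ C y^{1/4} X²`.
If `y ≤ X^{1/4}`: `rgt` with `z = y` and `⌊X^{1/4}⌋` in place of `y` (`≤ H ≤ kH`): the right side involves the moduli `t ≤ X^{1/2}`, so by `sum_TQ_le`
`∑_{q≤y} TQ ≤ (primorial y/φ) · 72 X² log(2X)/log(X^{1/4})`, and `primorial_ratio` with `a = 1/4`; `log(2X)/log(X^{1/4}) ≤ 8`.
If `X^{1/4} < y ≤ M P`: `sum_TQ_le` gives `≤ 24 (2X + M² X) X log(2X)` (`rng_P_sq`) which is `≤ X^{1/16} X² ≤ y^{1/4} X²` for `X` large. -/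
theorem sum_TQ_cell : ∃ C : ℝ, 0 < C ∧ ∀ (M : ℕ) (δ' ρ K : ℝ), 0 < δ' → 16 * δ' ≤ 1 → 0 < ρ →
    ρ ≤ 1 → 0 < K → ∀ᶠ B : ℕ in atTop, ∀ X : ℕ, Rng K B X → ∀ k ∈ Finset.Icc 1 (X / HX ρ X),
      ∀ y : ℕ, 1 ≤ y → y ≤ M * PX δ' B X →
        ∑ q ∈ Finset.Icc 1 y, TQ (k * HX ρ X) ((k + 1) * HX ρ X) q ≤
          C * (y : ℝ) ^ (1 / 4 : ℝ) * (X : ℝ) ^ 2 := by
  obtain ⟨C₁, hC₁, hprim⟩ := primorial_ratio (a := 1 / 4) (by norm_num)
  refine ⟨576 * C₁ + 1, by positivity, ?_⟩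
  intro M δ' ρ K hδ' h16 hρ hρ1 hK
  -- thresholds on `X`
  have ev1 : ∀ᶠ x : ℝ in atTop, 2 ≤ x := eventually_ge_atTop 2
  have ev2 : ∀ᶠ x : ℝ in atTop, 2 / ρ ≤ x ^ (3 / 4 : ℝ) :=
    (tendsto_rpow_atTop (by norm_num)).eventually_ge_atTop _
  have ev3 : ∀ᶠ x : ℝ in atTop, ‖Real.log x‖ ≤ (1 / (48 * (2 + (M : ℝ) ^ 2))) * ‖x ^ (1 / 16 : ℝ)‖ :=
    (isLittleO_log_rpow_atTop (by norm_num : (0 : ℝ) < 1 / 16)).bound (by positivity)
  obtain ⟨x₀, hx₀⟩ := eventually_atTop.1 (ev1.and (ev2.and ev3))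
  filter_upwards [rng_X_large hK x₀, rng_H hK hρ 1, rng_P_sq hK hδ' h16] with B h1 h2 h3
  intro X hR k hk y hy hyM
  obtain ⟨g1, g2, g3⟩ := hx₀ X (h1 X hR)
  obtain ⟨e1, e2, e3⟩ := h2 X hR
  have e4 := h3 X hR
  set H := HX ρ X with hH
  rw [Finset.mem_Icc] at hk
  have hX1 : 1 ≤ X := by
    have : (1 : ℝ) ≤ X := by linarith
    exact_mod_cast this
  have hXpos : (0 : ℝ) < X := by linarith
  have hkH : k * H ≤ X := (Nat.le_div_iff_mul_le (by omega)).1 hk.2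
  have hHX : H ≤ X := by
    have : (H : ℝ) ≤ X := e2.trans (by nlinarith)
    exact_mod_cast this
  have huv : k * H ≤ (k + 1) * H := Nat.mul_le_mul_right _ (by omega)
  have hv : (k + 1) * H ≤ 2 * X := by
    have : (k + 1) * H = k * H + H := by ring
    omega
  have hlogX : 0 < Real.log X := Real.log_pos (by linarith)
  have hlog2 : Real.log (2 * X) ≤ 2 * Real.log X := by
    rw [Real.log_mul (by norm_num) hXpos.ne']
    have : Real.log 2 ≤ Real.log X := Real.log_le_log (by norm_num) g1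
    linarith
  have hy0 : (0 : ℝ) < y := by exact_mod_cast hy
  have hypow : 0 < (y : ℝ) ^ (1 / 4 : ℝ) := Real.rpow_pos_of_pos hy0 _
  set S := ∑ q ∈ Finset.Icc 1 y, TQ (k * H) ((k + 1) * H) q with hS
  have hS0 : 0 ≤ S := Finset.sum_nonneg fun q _ => TQ_nonneg _ _ _
  set q₄ : ℝ := (X : ℝ) ^ (1 / 4 : ℝ) with hq₄
  have hq₄pos : 0 < q₄ := Real.rpow_pos_of_pos hXpos _
  have hq₄4 : q₄ ^ 4 = X := by
    rw [hq₄, ← Real.rpow_natCast, ← Real.rpow_mul hXpos.le]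
    norm_num
  by_cases hcase : (y : ℝ) ≤ q₄
  · -- small moduli
    set Y : ℕ := ⌊q₄⌋₊ with hY
    have hY1 : 1 ≤ Y := by
      rw [hY, Nat.one_le_floor_iff]
      exact Real.one_le_rpow (by linarith) (by norm_num)
    have hYle : (Y : ℝ) ≤ q₄ := Nat.floor_le hq₄pos.le
    have hYlt : q₄ < (Y : ℝ) + 1 := Nat.lt_floor_add_one _
    have hYu : Y ≤ k * H := by
      have a1 : (Y : ℝ) ≤ H := by
        refine hYle.trans (le_trans ?_ e1)
        have a2 : (X : ℝ) = q₄ * (X : ℝ) ^ (3 / 4 : ℝ) := by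
          rw [hq₄, ← Real.rpow_add hXpos]
          norm_num
        have a3 : q₄ * (2 / ρ) ≤ q₄ * (X : ℝ) ^ (3 / 4 : ℝ) :=
          mul_le_mul_of_nonneg_left g2 hq₄pos.le
        rw [← a2] at a3
        have a4 : ρ * (q₄ * (2 / ρ)) ≤ ρ * X := mul_le_mul_of_nonneg_left a3 hρ.le
        have a5 : ρ * (q₄ * (2 / ρ)) = 2 * q₄ := by field_simp
        linarith
      have a6 : Y ≤ H := by exact_mod_cast a1
      exact a6.trans (Nat.le_mul_of_pos_left _ hk.1)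
    have hr := rgt (k * H) ((k + 1) * H) y Y hY1 hYu
    rw [← hS] at hr
    have hls := sum_TQ_le (k * H) ((k + 1) * H) (y * Y) X huv hv
      (Nat.mul_pos (by omega) (by omega)) hX1
    have hyY : (((y * Y : ℕ) : ℝ)) ^ 2 ≤ X := by
      push_cast
      calc ((y : ℝ) * Y) ^ 2 ≤ (q₄ * q₄) ^ 2 := by
            refine pow_le_pow_left₀ (by positivity) ?_ 2
            exact mul_le_mul hcase hYle (by positivity) hq₄pos.le
        _ = q₄ ^ 4 := by ring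
        _ = X := hq₄4
    have hls2 : ∑ t ∈ Finset.Icc 1 (y * Y), TQ (k * H) ((k + 1) * H) t ≤
        144 * (X : ℝ) ^ 2 * Real.log X := by
      refine hls.trans ?_
      calc 24 * (2 * (X : ℝ) + ((y * Y : ℕ) : ℝ) ^ 2) * X * Real.log (2 * X)
          ≤ 24 * (2 * (X : ℝ) + X) * X * Real.log (2 * X) := by
            have hl0 : 0 ≤ Real.log (2 * X) := Real.log_nonneg (by linarith)
            gcongr
        _ ≤ 24 * (2 * (X : ℝ) + X) * X * (2 * Real.log X) := by gcongr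
        _ = _ := by ring
    have hlow : (1 / 4) * Real.log X ≤ Real.log ((Y : ℝ) + 1) := by
      rw [← Real.log_rpow hXpos]
      exact Real.log_le_log hq₄pos hYlt.le
    have hr1 : (1 / 4) * Real.log X * S ≤ C₁ * (y : ℝ) ^ (1 / 4 : ℝ) *
        (144 * (X : ℝ) ^ 2 * Real.log X) := by
      calc (1 / 4) * Real.log X * S ≤ Real.log ((Y : ℝ) + 1) * S :=
            mul_le_mul_of_nonneg_right hlow hS0
        _ ≤ _ := hr
        _ ≤ C₁ * (y : ℝ) ^ (1 / 4 : ℝ) * (144 * (X : ℝ) ^ 2 * Real.log X) := by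
            refine mul_le_mul (hprim y hy) hls2
              (Finset.sum_nonneg fun q _ => TQ_nonneg _ _ _) (by positivity)
    have hr2 : S ≤ 576 * C₁ * (y : ℝ) ^ (1 / 4 : ℝ) * (X : ℝ) ^ 2 := by
      have hl4 : 0 < (1 / 4) * Real.log X := by positivity
      rw [← mul_le_mul_iff_right₀ hl4]
      refine hr1.trans (le_of_eq ?_)
      ring
    refine hr2.trans ?_
    have : 0 ≤ (y : ℝ) ^ (1 / 4 : ℝ) * (X : ℝ) ^ 2 := by positivity
    nlinarith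
  · -- large moduli
    push Not at hcase
    have hls := sum_TQ_le (k * H) ((k + 1) * H) y X huv hv (by omega) hX1
    rw [← hS] at hls
    have hyM' : (y : ℝ) ^ 2 ≤ (M : ℝ) ^ 2 * X := by
      have b1 : (y : ℝ) ≤ M * PX δ' B X := by exact_mod_cast hyM
      have b2 : ((PX δ' B X : ℕ) : ℝ) ^ 2 ≤ X := by exact_mod_cast e4
      calc (y : ℝ) ^ 2 ≤ ((M : ℝ) * PX δ' B X) ^ 2 := pow_le_pow_left₀ hy0.le b1 2
        _ = (M : ℝ) ^ 2 * ((PX δ' B X : ℕ) : ℝ) ^ 2 := by ring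
        _ ≤ (M : ℝ) ^ 2 * X := mul_le_mul_of_nonneg_left b2 (by positivity)
    have hbig : 48 * (2 + (M : ℝ) ^ 2) * Real.log X ≤ (X : ℝ) ^ (1 / 16 : ℝ) := by
      rw [Real.norm_eq_abs, Real.norm_eq_abs, abs_of_pos hlogX,
        abs_of_pos (Real.rpow_pos_of_pos hXpos _)] at g3
      have hc : (0 : ℝ) < 48 * (2 + (M : ℝ) ^ 2) := by positivity
      have := mul_le_mul_of_nonneg_left g3 hc.le
      rw [← mul_assoc, mul_one_div, div_self hc.ne', one_mul] at this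
      exact this
    have hpw : (X : ℝ) ^ (1 / 16 : ℝ) ≤ (y : ℝ) ^ (1 / 4 : ℝ) := by
      have : (X : ℝ) ^ (1 / 16 : ℝ) = q₄ ^ (1 / 4 : ℝ) := by
        rw [hq₄, ← Real.rpow_mul hXpos.le]
        norm_num
      rw [this]
      exact Real.rpow_le_rpow hq₄pos.le hcase.le (by norm_num)
    have hl0 : 0 ≤ Real.log (2 * X) := Real.log_nonneg (by linarith)
    calc S ≤ 24 * (2 * (X : ℝ) + (y : ℝ) ^ 2) * X * Real.log (2 * X) := hls
      _ ≤ 24 * (2 * (X : ℝ) + (M : ℝ) ^ 2 * X) * X * (2 * Real.log X) := by gcongr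
      _ = 48 * (2 + (M : ℝ) ^ 2) * Real.log X * (X : ℝ) ^ 2 := by ring
      _ ≤ (y : ℝ) ^ (1 / 4 : ℝ) * (X : ℝ) ^ 2 :=
          mul_le_mul_of_nonneg_right (hbig.trans hpw) (by positivity)
      _ ≤ (576 * C₁ + 1) * (y : ℝ) ^ (1 / 4 : ℝ) * (X : ℝ) ^ 2 := by
          have : 0 ≤ (y : ℝ) ^ (1 / 4 : ℝ) * (X : ℝ) ^ 2 := by positivity
          nlinarith [mul_nonneg hC₁.le this]

end Pool.Agent.Lib.MP_d9bc60_nt.TH
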