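import Mathlib

/-! Row V2 (about 120 lines): partial summation. -/

set_option autoImplicit false

namespace Pool.Agent.Lib.MP_d9bc60_nt.TH

open Finset

/-- fourth roots -/
lemma v2_sqrt (q : ℕ) : √(q : ℝ) = ((q : ℝ) ^ (1 / 4 : ℝ)) ^ 2 := by
  rw [Real.sqrt_eq_rpow, ← Real.rpow_natCast, ← Real.rpow_mul (Nat.cast_nonneg q)]
  norm_num

lemma v2_pos {q : ℕ} (hq : 1 ≤ q) : 0 < (q : ℝ) ^ (1 / 4 : ℝ) :=
  Real.rpow_pos_of_pos (by exact_mod_cast hq) _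

lemma v2_mono {q r : ℕ} (h : q ≤ r) : (q : ℝ) ^ (1 / 4 : ℝ) ≤ (r : ℝ) ^ (1 / 4 : ℝ) :=
  Real.rpow_le_rpow (Nat.cast_nonneg q) (by exact_mod_cast h) (by norm_num)

lemma v2_step (u a b A : ℝ) (ha : 0 < a) (hab : a ≤ b) (hA : 0 ≤ A) (hu : u ≤ A * a) :
    u / a ^ 2 ≤ u / b ^ 2 + 2 * A * (1 / a - 1 / b) := by
  have hb : 0 < b := ha.trans_le hab
  have h1 : u * (b ^ 2 - a ^ 2) ≤ A * a * (b ^ 2 - a ^ 2) :=
    mul_le_mul_of_nonneg_right hu (by nlinarith)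
  have h2 : A * a * (b ^ 2 - a ^ 2) ≤ 2 * A * (b - a) * a * b := by
    have h3 : b ^ 2 - a ^ 2 = (b - a) * (b + a) := by ring
    rw [h3]
    have h4 : 0 ≤ A * a * (b - a) := mul_nonneg (mul_nonneg hA ha.le) (by linarith)
    nlinarith
  have h5 : u / a ^ 2 - u / b ^ 2 = u * (b ^ 2 - a ^ 2) / (a ^ 2 * b ^ 2) := by
    field_simp
  have h6 : 2 * A * (1 / a - 1 / b) = 2 * A * (b - a) * a * b / (a ^ 2 * b ^ 2) := by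
    field_simp
  have h7 : u / a ^ 2 - u / b ^ 2 ≤ 2 * A * (1 / a - 1 / b) := by
    rw [h5, h6]
    exact div_le_div_of_nonneg_right (h1.trans h2) (by positivity)
  linarith

/-- Abel summation with `U(y) = ∑_{q ≤ y} T q`: `∑_{R<q≤Q} T(q) q^{-1/2} = U(Q) Q^{-1/2} - U(R) (R+1)^{-1/2} + ∑_{R<q<Q} U(q)(q^{-1/2} - (q+1)^{-1/2})`
`≤ A Q^{-1/4} + A ∑_{q>R} q^{1/4} q^{-3/2} ≤ 5 A R^{-1/4} + ...` (`q^{-1/2} - (q+1)^{-1/2} ≤ q^{-3/2}/2`, `∑_{q>R} q^{-5/4} ≤ 4 R^{-1/4}`).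
(Or a dyadic decomposition; the constant `10` is generous.) -/
theorem sum_rsqrt_le (T : ℕ → ℝ) (hT : ∀ q, 0 ≤ T q) (A : ℝ) (hA : 0 ≤ A) (R Q : ℕ) (hR : 1 ≤ R)
    (hU : ∀ y : ℕ, 1 ≤ y → y ≤ Q → ∑ q ∈ Finset.Icc 1 y, T q ≤ A * (y : ℝ) ^ (1 / 4 : ℝ)) :
    ∑ q ∈ Finset.Ioc R Q, T q / √q ≤ 10 * A / (R : ℝ) ^ (1 / 4 : ℝ) := by
  have hR0 := v2_pos hR
  rcases le_or_gt Q R with hQR | hRQ
  · rw [Finset.Ioc_eq_empty (by omega), Finset.sum_empty]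
    positivity
  have hUn : ∀ y, 0 ≤ ∑ q ∈ Finset.Icc 1 y, T q := fun y => Finset.sum_nonneg fun q _ => hT q
  have key : ∀ m : ℕ, R ≤ m → m ≤ Q → ∑ q ∈ Finset.Ioc R m, T q / √q ≤
      (∑ q ∈ Finset.Icc 1 m, T q - ∑ q ∈ Finset.Icc 1 R, T q) / ((m : ℝ) ^ (1 / 4 : ℝ)) ^ 2 +
        2 * A * (1 / (R : ℝ) ^ (1 / 4 : ℝ) - 1 / (m : ℝ) ^ (1 / 4 : ℝ)) := by
    intro m hm
    induction m, hm using Nat.le_induction with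
    | base =>
      intro _
      simp
    | succ m hm ih =>
      intro hmQ
      have ih' := ih (by omega)
      have h1 : ∑ q ∈ Finset.Ioc R (m + 1), T q / √q = ∑ q ∈ Finset.Ioc R m, T q / √q +
          T (m + 1) / √((m + 1 : ℕ) : ℝ) := by
        rw [← Finset.insert_Ioc_right_eq_Ioc_add_one hm, Finset.sum_insert (by simp), add_comm]
      have h2 : ∑ q ∈ Finset.Icc 1 (m + 1), T q = ∑ q ∈ Finset.Icc 1 m, T q + T (m + 1) :=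
        Finset.sum_Icc_succ_top (by omega) _
      have hm1 : 1 ≤ m := hR.trans hm
      have h3 := v2_step (∑ q ∈ Finset.Icc 1 m, T q - ∑ q ∈ Finset.Icc 1 R, T q)
        ((m : ℝ) ^ (1 / 4 : ℝ)) (((m + 1 : ℕ) : ℝ) ^ (1 / 4 : ℝ)) A (v2_pos hm1)
        (v2_mono (Nat.le_succ m)) hA (by
          have h4 := hU m hm1 (by omega)
          have h5 := hUn R
          linarith)
      rw [h1, h2, v2_sqrt (m + 1)]
      have h6 : (∑ q ∈ Finset.Icc 1 m, T q + T (m + 1) - ∑ q ∈ Finset.Icc 1 R, T q) /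
          (((m + 1 : ℕ) : ℝ) ^ (1 / 4 : ℝ)) ^ 2 =
          (∑ q ∈ Finset.Icc 1 m, T q - ∑ q ∈ Finset.Icc 1 R, T q) /
          (((m + 1 : ℕ) : ℝ) ^ (1 / 4 : ℝ)) ^ 2 + T (m + 1) / (((m + 1 : ℕ) : ℝ) ^ (1 / 4 : ℝ)) ^ 2 := by
        rw [← add_div]
        congr 1
        ring
      rw [h6]
      linarith
  have h1 := key Q hRQ.le le_rfl
  have hQ1 : 1 ≤ Q := by omega
  have hQ0 := v2_pos hQ1
  have h2 := hU Q hQ1 le_rfl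
  have h3 : (∑ q ∈ Finset.Icc 1 Q, T q - ∑ q ∈ Finset.Icc 1 R, T q) / ((Q : ℝ) ^ (1 / 4 : ℝ)) ^ 2 ≤
      A * (1 / (Q : ℝ) ^ (1 / 4 : ℝ)) := by
    rw [div_le_iff₀ (by positivity)]
    have h4 : A * (1 / (Q : ℝ) ^ (1 / 4 : ℝ)) * ((Q : ℝ) ^ (1 / 4 : ℝ)) ^ 2 = A * (Q : ℝ) ^ (1 / 4 : ℝ) := by
      field_simp
    rw [h4]
    have h5 := hUn R
    linarith
  have h4 : 0 ≤ A * (1 / (Q : ℝ) ^ (1 / 4 : ℝ)) := by positivity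
  have h5 : 0 ≤ A * (1 / (R : ℝ) ^ (1 / 4 : ℝ)) := by positivity
  have h6 : 10 * A / (R : ℝ) ^ (1 / 4 : ℝ) = 10 * (A * (1 / (R : ℝ) ^ (1 / 4 : ℝ))) := by ring
  rw [h6]
  linarith

end Pool.Agent.Lib.MP_d9bc60_nt.TH
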