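import Mathlib
import Pool.Agent.Lib.MP_d9bc60_nt.TH.V1Upper
import Pool.Agent.Lib.MP_d9bc60_nt.TH.V2Abel
import Pool.Agent.Lib.MP_d9bc60_nt.TH.F1Parseval

/-! Row V3 (about 220 lines): the sum of the variances. -/

set_option autoImplicit false

namespace Pool.Agent.Lib.MP_d9bc60_nt.TH

open Finset Filter Sieve

lemma v3_TQ_nonneg (u v q : ℕ) : 0 ≤ TQ u v q := by
  unfold TQ
  positivity

/-- choice of `R` -/
lemma v3_choice (S : ℝ) : ∃ R : ℕ, 1 ≤ R ∧ S ≤ (R : ℝ) ^ (1 / 4 : ℝ) := by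
  obtain ⟨R, hR⟩ := exists_nat_ge (max 1 ((max S 0) ^ 4))
  refine ⟨R, ?_, ?_⟩
  · have : (1 : ℝ) ≤ R := (le_max_left _ _).trans hR
    exact_mod_cast this
  · have h1 : (max S 0) ^ 4 ≤ (R : ℝ) := (le_max_right _ _).trans hR
    have h0 : 0 ≤ max S 0 := le_max_right _ _
    have h2 : ((max S 0) ^ 4) ^ (1 / 4 : ℝ) ≤ (R : ℝ) ^ (1 / 4 : ℝ) :=
      Real.rpow_le_rpow (by positivity) h1 (by norm_num)
    have h3 : ((max S 0) ^ 4) ^ (1 / 4 : ℝ) = max S 0 := by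
      rw [← Real.rpow_natCast, ← Real.rpow_mul h0]
      norm_num
    rw [h3] at h2
    exact (le_max_left _ _).trans h2

/-- `q ∣ W d` implies `q / gcd q W ∣ d` -/
lemma v3_dvd {q W d : ℕ} (hW : 0 < W) (h : q ∣ W * d) : q / Nat.gcd q W ∣ d := by
  have hg : 0 < Nat.gcd q W := Nat.gcd_pos_of_pos_right _ hW
  have h1 : Nat.Coprime (q / Nat.gcd q W) (W / Nat.gcd q W) := Nat.coprime_div_gcd_div_gcd hg
  have hq : Nat.gcd q W * (q / Nat.gcd q W) = q := Nat.mul_div_cancel' (Nat.gcd_dvd_left q W)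
  have hw : Nat.gcd q W * (W / Nat.gcd q W) = W := Nat.mul_div_cancel' (Nat.gcd_dvd_right q W)
  have h2 : Nat.gcd q W * (q / Nat.gcd q W) ∣ Nat.gcd q W * ((W / Nat.gcd q W) * d) := by
    rw [hq, ← mul_assoc, hw]
    exact h
  exact h1.dvd_of_dvd_mul_left (Nat.dvd_of_mul_dvd_mul_left hg h2)

/-- the sum over `d` for one modulus `q` -/
lemma v3_inner {C₁ : ℝ} (hC₁ : 0 < C₁) (h1 : ∀ Y r : ℕ, 0 < r →
    ∑ d ∈ (Finset.Icc 1 Y).filter (fun d => r ∣ d), rphi d ^ 2 ≤ C₁ * Y / √r)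
    (W : ℕ) (hW : 0 < W) (P q : ℕ) (hq : 0 < q) :
    ∑ d ∈ (Finset.Icc 1 P).filter (fun d => q ∣ W * d), rphi d ^ 2 ≤ C₁ * P * √W / √q := by
  have hg : 0 < Nat.gcd q W := Nat.gcd_pos_of_pos_right _ hW
  have hq' : 0 < q / Nat.gcd q W :=
    Nat.div_pos (Nat.le_of_dvd hq (Nat.gcd_dvd_left q W)) hg
  have e1 : ∑ d ∈ (Finset.Icc 1 P).filter (fun d => q ∣ W * d), rphi d ^ 2 ≤
      ∑ d ∈ (Finset.Icc 1 P).filter (fun d => q / Nat.gcd q W ∣ d), rphi d ^ 2 := by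
    refine Finset.sum_le_sum_of_subset_of_nonneg ?_ (fun _ _ _ => sq_nonneg _)
    intro d hd
    rw [Finset.mem_filter] at hd ⊢
    exact ⟨hd.1, v3_dvd hW hd.2⟩
  refine e1.trans ((h1 P _ hq').trans ?_)
  have hle : (q : ℝ) ≤ W * ((q / Nat.gcd q W : ℕ) : ℝ) := by
    have : q ≤ W * (q / Nat.gcd q W) := by
      calc q = Nat.gcd q W * (q / Nat.gcd q W) := (Nat.mul_div_cancel' (Nat.gcd_dvd_left q W)).symm
        _ ≤ W * (q / Nat.gcd q W) :=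
          Nat.mul_le_mul_right _ (Nat.le_of_dvd hW (Nat.gcd_dvd_right q W))
    exact_mod_cast this
  have hsq : √(q : ℝ) ≤ √(W : ℝ) * √((q / Nat.gcd q W : ℕ) : ℝ) := by
    rw [← Real.sqrt_mul (Nat.cast_nonneg W)]
    exact Real.sqrt_le_sqrt hle
  have hp1 : 0 < √(q : ℝ) := Real.sqrt_pos.2 (by exact_mod_cast hq)
  have hp2 : 0 < √((q / Nat.gcd q W : ℕ) : ℝ) := Real.sqrt_pos.2 (by exact_mod_cast hq')
  rw [div_le_div_iff₀ hp2 hp1]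
  have h0 : 0 ≤ C₁ * (P : ℝ) := by positivity
  calc C₁ * (P : ℝ) * √(q : ℝ) ≤ C₁ * (P : ℝ) * (√(W : ℝ) * √((q / Nat.gcd q W : ℕ) : ℝ)) :=
        mul_le_mul_of_nonneg_left hsq h0
    _ = C₁ * (P : ℝ) * √(W : ℝ) * √((q / Nat.gcd q W : ℕ) : ℝ) := by ring

/-- One cell: with `D = W d`, `D₀ = gcd(W d, W R!)`: `VV ≤ (1/(W d)) ∑_{q ∣ W d, q > R} TQ q` (`VV_le`). If `q ∣ W d` then `q/gcd(q,W) ∣ d`, and `d > δ₁P`,
`q ≤ W P`. So
`∑_{δ₁P<d≤P} rphi(d)² VV ≤ (1/(δ₁ P W)) ∑_{R<q≤WP} TQ q ∑_{d ≤ P, q' ∣ d} rphi(d)²`, `q' = q/gcd(q,W) ≥ q/W`, and `sum_rphi_dvd` gives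
`≤ (1/(δ₁PW)) · C₁ P √W ∑_{R<q≤WP} TQ q/√q ≤ (C₁/(δ₁ √W)) · 10 A/R^{1/4}` with `A = C X²` (`sum_TQ_cell` with `M = W`, `sum_rsqrt_le`).
The number of cells is `≤ X/H ≤ 2/ρ` (`rng_H`). Choose `R` with `(C₁/δ₁) · 10 C · (2/ρ)/R^{1/4} ≤ η`. -/
lemma v3_cell {C₁ : ℝ} (hC₁ : 0 < C₁) (h1 : ∀ Y r : ℕ, 0 < r →
    ∑ d ∈ (Finset.Icc 1 Y).filter (fun d => r ∣ d), rphi d ^ 2 ≤ C₁ * Y / √r)
    (W : ℕ) (hW : 0 < W) (P R : ℕ) (hP : 1 ≤ P) (hR : 1 ≤ R) {δ₁ A : ℝ} (hδ₁ : 0 < δ₁) (hA : 0 ≤ A)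
    (u v : ℕ) (hU : ∀ y : ℕ, 1 ≤ y → y ≤ W * P →
        ∑ q ∈ Finset.Icc 1 y, TQ u v q ≤ A * (y : ℝ) ^ (1 / 4 : ℝ)) :
    ∑ d ∈ (Finset.Icc 1 P).filter (fun d : ℕ => δ₁ * P < (d : ℝ)),
        rphi d ^ 2 * VV u v (W * d) (Nat.gcd (W * d) (W * R.factorial)) ≤
      C₁ / δ₁ * (10 * A / (R : ℝ) ^ (1 / 4 : ℝ)) := by
  have hPR : (0 : ℝ) < P := by exact_mod_cast hP
  have hWR : (0 : ℝ) < W := by exact_mod_cast hW
  have hW1 : (1 : ℝ) ≤ W := by exact_mod_cast hW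
  have hden : 0 < (W : ℝ) * (δ₁ * P) := by positivity
  -- step 1
  have s1 : ∑ d ∈ (Finset.Icc 1 P).filter (fun d : ℕ => δ₁ * P < (d : ℝ)),
        rphi d ^ 2 * VV u v (W * d) (Nat.gcd (W * d) (W * R.factorial)) ≤
      ∑ d ∈ Finset.Icc 1 P, ∑ q ∈ (Finset.Ioc R (W * P)).filter (fun q => q ∣ W * d),
        (1 / ((W : ℝ) * (δ₁ * P))) * (rphi d ^ 2 * TQ u v q) := by
    refine (Finset.sum_le_sum (fun d hd => ?_)).trans
      (Finset.sum_le_sum_of_subset_of_nonneg (Finset.filter_subset _ _)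
        (fun d _ _ => Finset.sum_nonneg fun q _ => ?_))
    · rw [Finset.mem_filter, Finset.mem_Icc] at hd
      obtain ⟨⟨hd1, hd2⟩, hd3⟩ := hd
      have hD : 0 < W * d := Nat.mul_pos hW hd1
      have hv := VV_le u v (W * d) W R hD hW
      have hdR : (0 : ℝ) < d := by exact_mod_cast hd1
      have hsub : (W * d).divisors.filter (fun q => R < q) ⊆
          (Finset.Ioc R (W * P)).filter (fun q => q ∣ W * d) := by
        intro q hq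
        rw [Finset.mem_filter, Nat.mem_divisors] at hq
        rw [Finset.mem_filter, Finset.mem_Ioc]
        refine ⟨⟨hq.2, ?_⟩, hq.1.1⟩
        exact (Nat.le_of_dvd hD hq.1.1).trans (Nat.mul_le_mul_left _ hd2)
      have hs : ∑ q ∈ (W * d).divisors.filter (fun q => R < q), TQ u v q ≤
          ∑ q ∈ (Finset.Ioc R (W * P)).filter (fun q => q ∣ W * d), TQ u v q :=
        Finset.sum_le_sum_of_subset_of_nonneg hsub (fun q _ _ => v3_TQ_nonneg u v q)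
      have hinv : 1 / (((W * d : ℕ)) : ℝ) ≤ 1 / ((W : ℝ) * (δ₁ * P)) := by
        refine one_div_le_one_div_of_le hden ?_
        push_cast
        exact mul_le_mul_of_nonneg_left hd3.le hWR.le
      have hsn : 0 ≤ ∑ q ∈ (Finset.Ioc R (W * P)).filter (fun q => q ∣ W * d), TQ u v q :=
        Finset.sum_nonneg fun q _ => v3_TQ_nonneg u v q
      calc rphi d ^ 2 * VV u v (W * d) (Nat.gcd (W * d) (W * R.factorial))
          ≤ rphi d ^ 2 * ((1 / (((W * d : ℕ)) : ℝ)) *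
              ∑ q ∈ (W * d).divisors.filter (fun q => R < q), TQ u v q) :=
            mul_le_mul_of_nonneg_left hv (sq_nonneg _)
        _ ≤ rphi d ^ 2 * ((1 / ((W : ℝ) * (δ₁ * P))) *
              ∑ q ∈ (Finset.Ioc R (W * P)).filter (fun q => q ∣ W * d), TQ u v q) := by
            refine mul_le_mul_of_nonneg_left ?_ (sq_nonneg _)
            have hs0 : 0 ≤ ∑ q ∈ (W * d).divisors.filter (fun q => R < q), TQ u v q :=
              Finset.sum_nonneg fun q _ => v3_TQ_nonneg u v q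
            exact mul_le_mul hinv hs hs0 (by positivity)
        _ = ∑ q ∈ (Finset.Ioc R (W * P)).filter (fun q => q ∣ W * d),
              (1 / ((W : ℝ) * (δ₁ * P))) * (rphi d ^ 2 * TQ u v q) := by
            rw [Finset.mul_sum, Finset.mul_sum]
            refine Finset.sum_congr rfl fun q _ => ?_
            ring
    · have := v3_TQ_nonneg u v q
      positivity
  refine s1.trans ?_
  -- exchange
  have s2 : ∑ d ∈ Finset.Icc 1 P, ∑ q ∈ (Finset.Ioc R (W * P)).filter (fun q => q ∣ W * d),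
        (1 / ((W : ℝ) * (δ₁ * P))) * (rphi d ^ 2 * TQ u v q) =
      (1 / ((W : ℝ) * (δ₁ * P))) * ∑ q ∈ Finset.Ioc R (W * P), TQ u v q *
        ∑ d ∈ (Finset.Icc 1 P).filter (fun d => q ∣ W * d), rphi d ^ 2 := by
    rw [Finset.mul_sum]
    simp_rw [Finset.sum_filter, Finset.mul_sum]
    rw [Finset.sum_comm]
    refine Finset.sum_congr rfl fun q _ => Finset.sum_congr rfl fun d _ => ?_
    split_ifs
    · ring
    · simp
  rw [s2]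
  have s3 : ∑ q ∈ Finset.Ioc R (W * P), TQ u v q *
        ∑ d ∈ (Finset.Icc 1 P).filter (fun d => q ∣ W * d), rphi d ^ 2 ≤
      (C₁ * P * √W) * ∑ q ∈ Finset.Ioc R (W * P), TQ u v q / √q := by
    rw [Finset.mul_sum]
    refine Finset.sum_le_sum fun q hq => ?_
    have hq0 : 0 < q := by
      rw [Finset.mem_Ioc] at hq
      omega
    have h2 := v3_inner hC₁ h1 W hW P q hq0
    calc TQ u v q * ∑ d ∈ (Finset.Icc 1 P).filter (fun d => q ∣ W * d), rphi d ^ 2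
        ≤ TQ u v q * (C₁ * P * √W / √q) := mul_le_mul_of_nonneg_left h2 (v3_TQ_nonneg u v q)
      _ = (C₁ * P * √W) * (TQ u v q / √q) := by ring
  have s4 := sum_rsqrt_le (fun q => TQ u v q) (fun q => v3_TQ_nonneg u v q) A hA R (W * P) hR hU
  have hRpos : (0 : ℝ) < (R : ℝ) ^ (1 / 4 : ℝ) := Real.rpow_pos_of_pos (by exact_mod_cast hR) _
  have hsW : √(W : ℝ) ≤ W := by
    rw [Real.sqrt_le_left hWR.le]
    nlinarith
  calc (1 / ((W : ℝ) * (δ₁ * P))) * ∑ q ∈ Finset.Ioc R (W * P), TQ u v q *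
        ∑ d ∈ (Finset.Icc 1 P).filter (fun d => q ∣ W * d), rphi d ^ 2
      ≤ (1 / ((W : ℝ) * (δ₁ * P))) * ((C₁ * P * √W) * (10 * A / (R : ℝ) ^ (1 / 4 : ℝ))) := by
        refine mul_le_mul_of_nonneg_left (s3.trans ?_) (by positivity)
        exact mul_le_mul_of_nonneg_left s4 (by positivity)
    _ = (√W / W) * (C₁ / δ₁ * (10 * A / (R : ℝ) ^ (1 / 4 : ℝ))) := by
        field_simp
    _ ≤ 1 * (C₁ / δ₁ * (10 * A / (R : ℝ) ^ (1 / 4 : ℝ))) := by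
        refine mul_le_mul_of_nonneg_right ?_ (by positivity)
        rw [div_le_one hWR]
        exact hsW
    _ = C₁ / δ₁ * (10 * A / (R : ℝ) ^ (1 / 4 : ℝ)) := one_mul _

/-- One cell: with `D = W d`, `D₀ = gcd(W d, W R!)`: `VV ≤ (1/(W d)) ∑_{q ∣ W d, q > R} TQ q` (`VV_le`). If `q ∣ W d` then `q/gcd(q,W) ∣ d`, and `d > δ₁P`,
`q ≤ W P`. So
`∑_{δ₁P<d≤P} rphi(d)² VV ≤ (1/(δ₁ P W)) ∑_{R<q≤WP} TQ q ∑_{d ≤ P, q' ∣ d} rphi(d)²`, `q' = q/gcd(q,W) ≥ q/W`, and `sum_rphi_dvd` gives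
`≤ (1/(δ₁PW)) · C₁ P √W ∑_{R<q≤WP} TQ q/√q ≤ (C₁/(δ₁ √W)) · 10 A/R^{1/4}` with `A = C X²` (`sum_TQ_cell` with `M = W`, `sum_rsqrt_le`).
The number of cells is `≤ X/H ≤ 2/ρ` (`rng_H`). Choose `R` with `(C₁/δ₁) · 10 C · (2/ρ)/R^{1/4} ≤ η`. -/
theorem V_sum (W : ℕ) (hW : 0 < W) {δ' δ₁ ρ η : ℝ} (hδ' : 0 < δ') (h16 : 16 * δ' ≤ 1)
    (hδ₁ : 0 < δ₁) (hδ₁1 : δ₁ ≤ 1) (hρ : 0 < ρ) (hρ1 : ρ ≤ 1) (hη : 0 < η) :
    ∃ R : ℕ, 1 ≤ R ∧ ∀ K : ℝ, 0 < K → ∀ᶠ B : ℕ in atTop, ∀ X : ℕ, Rng K B X →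
      ∑ d ∈ (Finset.Icc 1 (PX δ' B X)).filter (fun d : ℕ => δ₁ * PX δ' B X < (d : ℝ)),
        rphi d ^ 2 * ∑ k ∈ Finset.Icc 1 (X / HX ρ X),
          VV (k * HX ρ X) ((k + 1) * HX ρ X) (W * d) (Nat.gcd (W * d) (W * R.factorial)) ≤
      η * (X : ℝ) ^ 2 := by
  obtain ⟨C₁, hC₁, h1⟩ := sum_rphi_dvd
  obtain ⟨C, hC, h2⟩ := sum_TQ_cell
  obtain ⟨R, hR1, hR⟩ := v3_choice ((2 / ρ) * (C₁ / δ₁) * (10 * C) / η)
  refine ⟨R, hR1, fun K hK => ?_⟩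
  filter_upwards [h2 W δ' ρ K hδ' h16 hρ hρ1 hK, rng_P_large hK hδ' 1, rng_H hK hρ 1,
    rng_X_large hK 1] with B hT hP hH hX1 X hRng
  have hPX := hP X hRng
  obtain ⟨hH1, hH2, hH3⟩ := hH X hRng
  have hXpos : (0 : ℝ) < X := lt_of_lt_of_le one_pos (hX1 X hRng)
  have hRpos : (0 : ℝ) < (R : ℝ) ^ (1 / 4 : ℝ) := Real.rpow_pos_of_pos (by exact_mod_cast hR1) _
  have hcell : ∀ k ∈ Finset.Icc 1 (X / HX ρ X),
      ∑ d ∈ (Finset.Icc 1 (PX δ' B X)).filter (fun d : ℕ => δ₁ * PX δ' B X < (d : ℝ)),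
        rphi d ^ 2 * VV (k * HX ρ X) ((k + 1) * HX ρ X) (W * d)
          (Nat.gcd (W * d) (W * R.factorial)) ≤
        C₁ / δ₁ * (10 * (C * (X : ℝ) ^ 2) / (R : ℝ) ^ (1 / 4 : ℝ)) := by
    intro k hk
    refine v3_cell hC₁ h1 W hW (PX δ' B X) R hPX hR1 hδ₁ (by positivity) _ _ ?_
    intro y hy1 hy2
    refine (hT X hRng k hk y hy1 hy2).trans (le_of_eq ?_)
    ring
  have hsum : ∑ d ∈ (Finset.Icc 1 (PX δ' B X)).filter (fun d : ℕ => δ₁ * PX δ' B X < (d : ℝ)),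
        rphi d ^ 2 * ∑ k ∈ Finset.Icc 1 (X / HX ρ X),
          VV (k * HX ρ X) ((k + 1) * HX ρ X) (W * d) (Nat.gcd (W * d) (W * R.factorial)) =
      ∑ k ∈ Finset.Icc 1 (X / HX ρ X),
        ∑ d ∈ (Finset.Icc 1 (PX δ' B X)).filter (fun d : ℕ => δ₁ * PX δ' B X < (d : ℝ)),
          rphi d ^ 2 * VV (k * HX ρ X) ((k + 1) * HX ρ X) (W * d)
            (Nat.gcd (W * d) (W * R.factorial)) := by
    rw [Finset.sum_comm]
    refine Finset.sum_congr rfl fun d _ => ?_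
    rw [Finset.mul_sum]
  rw [hsum]
  refine (Finset.sum_le_sum hcell).trans ?_
  rw [Finset.sum_const, Nat.card_Icc, nsmul_eq_mul]
  have hnum : (((X / HX ρ X + 1 - 1 : ℕ)) : ℝ) ≤ 2 / ρ := by
    rw [Nat.add_sub_cancel]
    have hHpos : (0 : ℝ) < HX ρ X := by exact_mod_cast hH3
    have e1 : (((X / HX ρ X : ℕ)) : ℝ) ≤ (X : ℝ) / HX ρ X := Nat.cast_div_le
    refine e1.trans ?_
    rw [div_le_div_iff₀ hHpos hρ]
    nlinarith
  have hval : 0 ≤ C₁ / δ₁ * (10 * (C * (X : ℝ) ^ 2) / (R : ℝ) ^ (1 / 4 : ℝ)) := by positivity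
  refine (mul_le_mul_of_nonneg_right hnum hval).trans ?_
  rw [div_le_iff₀ hη] at hR
  calc 2 / ρ * (C₁ / δ₁ * (10 * (C * (X : ℝ) ^ 2) / (R : ℝ) ^ (1 / 4 : ℝ)))
      = (2 / ρ * (C₁ / δ₁) * (10 * C)) * (X : ℝ) ^ 2 / (R : ℝ) ^ (1 / 4 : ℝ) := by ring
    _ ≤ ((R : ℝ) ^ (1 / 4 : ℝ) * η) * (X : ℝ) ^ 2 / (R : ℝ) ^ (1 / 4 : ℝ) := by
        refine div_le_div_of_nonneg_right ?_ hRpos.le
        exact mul_le_mul_of_nonneg_right hR (sq_nonneg _)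
    _ = η * (X : ℝ) ^ 2 := by
        field_simp

end Pool.Agent.Lib.MP_d9bc60_nt.TH
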