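import Mathlib
import Pool.Agent.Lib.MP_d9bc60_nt.TH.M2bPair
import Pool.Agent.Lib.MP_d9bc60_nt.TH.V3Sum
import Pool.Agent.Lib.MP_d9bc60_nt.TH.N1Near
import Pool.Agent.Lib.MP_d9bc60_nt.TH.D1Diag
import Pool.Agent.Lib.MP_d9bc60_nt.TH.I1aFirst
import Pool.Agent.Lib.MP_d9bc60_nt.TH.I1bTS
import Pool.Agent.Lib.MP_d9bc60_nt.TH.G1bPrim

/-! Row S2a (about 70 lines): expansion of the second moment -/

set_option autoImplicit false

namespace Pool.Agent.Lib.MP_d9bc60_nt.TH

open Finset Filter Sieve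
lemma s2a_split (s : Finset ℕ) (F : ℕ → ℕ → ℝ) (hF : ∀ p q, F p q = F q p) :
    ∑ p ∈ s, ∑ q ∈ s, F p q =
      ∑ p ∈ s, F p p + 2 * ∑ p ∈ s, ∑ q ∈ s.filter (fun q => p < q), F p q := by
  have h1 : ∀ p ∈ s, ∑ q ∈ s, F p q =
      F p p + (∑ q ∈ s.filter (fun q => p < q), F p q +
        ∑ q ∈ s.filter (fun q => q < p), F p q) := by
    intro p hp
    rw [Finset.sum_filter, Finset.sum_filter, ← Finset.sum_add_distrib,
      ← Finset.add_sum_erase s (fun q => F p q) hp,
      ← Finset.add_sum_erase s (fun q => (if p < q then F p q else 0) +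
        (if q < p then F p q else 0)) hp]
    simp only [lt_irrefl, if_false, add_zero, zero_add]
    congr 1
    refine Finset.sum_congr rfl fun q hq => ?_
    have hne : q ≠ p := (Finset.mem_erase.1 hq).1
    rcases lt_or_gt_of_ne hne with h | h
    · rw [if_neg (not_lt.2 h.le), if_pos h, zero_add]
    · rw [if_pos h, if_neg (not_lt.2 h.le), add_zero]
  have h2 : ∑ p ∈ s, ∑ q ∈ s.filter (fun q => q < p), F p q =
      ∑ p ∈ s, ∑ q ∈ s.filter (fun q => p < q), F p q := by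
    rw [Finset.sum_comm' (t' := s) (s' := fun q => s.filter (fun p => q < p))]
    · refine Finset.sum_congr rfl fun q _ => Finset.sum_congr rfl fun p _ => hF p q
    · intro p q
      simp only [Finset.mem_filter]
      tauto
  rw [Finset.sum_congr rfl h1, Finset.sum_add_distrib, Finset.sum_add_distrib, h2]
  ring

lemma s2a_sq (P b m : ℕ) : RR P b m ^ 2 =
    ∑ p ∈ Finset.Ioc P (2 * P), ∑ q ∈ Finset.Ioc P (2 * P),
      lam p * lam q * (lam (m - p * (p + b)) * lam (m - q * (q + b))) := by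
  rw [RR, sq, Finset.sum_mul_sum]
  refine Finset.sum_congr rfl fun p _ => Finset.sum_congr rfl fun q _ => ?_
  ring

/-- `RR² = ∑_p ∑_q`, split in `p = q`, `p < q`, `q < p` (`PC_symm`). -/
theorem second_expand (W β μ : ℕ) (δ : ℝ) (B X P : ℕ) :
    ∑ b ∈ bS W β B, ∑ m ∈ mS W μ δ X, RR P b m ^ 2 =
      ∑ p ∈ Finset.Ioc P (2 * P), lam p ^ 2 * PC W β μ δ B X p p +
      2 * ∑ p ∈ Finset.Ioc P (2 * P), ∑ q ∈ (Finset.Ioc P (2 * P)).filter (fun q => p < q),
        lam p * lam q * PC W β μ δ B X p q := by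
  have h1 : ∑ b ∈ bS W β B, ∑ m ∈ mS W μ δ X, RR P b m ^ 2 =
      ∑ p ∈ Finset.Ioc P (2 * P), ∑ q ∈ Finset.Ioc P (2 * P),
        lam p * lam q * PC W β μ δ B X p q := by
    have h3 : ∀ b ∈ bS W β B, ∑ m ∈ mS W μ δ X, RR P b m ^ 2 =
        ∑ p ∈ Finset.Ioc P (2 * P), ∑ q ∈ Finset.Ioc P (2 * P), ∑ m ∈ mS W μ δ X,
          lam p * lam q * (lam (m - p * (p + b)) * lam (m - q * (q + b))) := by
      intro b _
      rw [Finset.sum_congr rfl (fun m _ => s2a_sq P b m), Finset.sum_comm]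
      refine Finset.sum_congr rfl fun p _ => ?_
      rw [Finset.sum_comm]
    rw [Finset.sum_congr rfl h3, Finset.sum_comm]
    refine Finset.sum_congr rfl fun p _ => ?_
    rw [Finset.sum_comm]
    refine Finset.sum_congr rfl fun q _ => ?_
    rw [PC, Finset.mul_sum]
    refine Finset.sum_congr rfl fun b _ => ?_
    rw [Finset.mul_sum]
  rw [h1, s2a_split]
  · congr 1
    refine Finset.sum_congr rfl fun p _ => ?_
    rw [sq]
  · intro p q
    have h : PC W β μ δ B X p q = PC W β μ δ B X q p := by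
      unfold PC
      exact Finset.sum_congr rfl fun b _ => Finset.sum_congr rfl fun m _ => mul_comm _ _
    rw [h, mul_comm (lam p)]

end Pool.Agent.Lib.MP_d9bc60_nt.TH
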