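import Mathlib
import Pool.Agent.Lib.MP_d9bc60_nt.TH.M2bPair
import Pool.Agent.Lib.MP_d9bc60_nt.TH.V3Sum
import Pool.Agent.Lib.MP_d9bc60_nt.TH.N1Near
import Pool.Agent.Lib.MP_d9bc60_nt.TH.D1Diag
import Pool.Agent.Lib.MP_d9bc60_nt.TH.I1aFirst
import Pool.Agent.Lib.MP_d9bc60_nt.TH.I1bTS
import Pool.Agent.Lib.MP_d9bc60_nt.TH.G1bPrim
import Pool.Agent.Lib.MP_d9bc60_nt.TH.S2aExp

/-! Row S2b (about 280 lines): the second moment -/

set_option autoImplicit false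

namespace Pool.Agent.Lib.MP_d9bc60_nt.TH

open Finset Filter Sieve

theorem s2_sq (S : Finset ℕ) (a : ℕ → ℝ) (ha : ∀ p, 0 ≤ a p) :
    2 * ∑ p ∈ S, ∑ q ∈ S.filter (fun q => p < q), a p * a q ≤ (∑ p ∈ S, a p) ^ 2 := by
  have h1 : ∑ p ∈ S, ∑ q ∈ S.filter (fun q => p < q), a p * a q =
      ∑ p ∈ S, ∑ q ∈ S, if p < q then a p * a q else 0 := by
    refine Finset.sum_congr rfl fun p _ => ?_
    rw [Finset.sum_filter]
  have h2 : ∑ p ∈ S, ∑ q ∈ S.filter (fun q => p < q), a p * a q =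
      ∑ p ∈ S, ∑ q ∈ S, if q < p then a p * a q else 0 := by
    rw [h1, Finset.sum_comm]
    refine Finset.sum_congr rfl fun p _ => Finset.sum_congr rfl fun q _ => ?_
    by_cases h : q < p
    · rw [if_pos h, if_pos h, mul_comm]
    · rw [if_neg h, if_neg h]
  have h3 : (∑ p ∈ S, a p) ^ 2 = ∑ p ∈ S, ∑ q ∈ S, a p * a q := by
    rw [sq, Finset.sum_mul_sum]
  rw [two_mul, h3]
  nth_rewrite 1 [h1]
  rw [h2, ← Finset.sum_add_distrib]
  refine Finset.sum_le_sum fun p _ => ?_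
  rw [← Finset.sum_add_distrib]
  refine Finset.sum_le_sum fun q _ => ?_
  have h0 := mul_nonneg (ha p) (ha q)
  by_cases h : p < q
  · rw [if_pos h, if_neg (by omega)]
    linarith
  · rw [if_neg h]
    split_ifs <;> linarith

theorem s2_PC_le (W β μ : ℕ) (δ : ℝ) (B X p q : ℕ) :
    PC W β μ δ B X p q ≤ ∑ b ∈ Finset.Icc 1 B, ∑ m ∈ Finset.Icc 1 X,
      lam (m - p * (p + b)) * lam (m - q * (q + b)) := by
  unfold PC
  have h0 : ∀ b m : ℕ, 0 ≤ lam (m - p * (p + b)) * lam (m - q * (q + b)) :=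
    fun b m => mul_nonneg (lam_nonneg _) (lam_nonneg _)
  calc ∑ b ∈ bS W β B, ∑ m ∈ mS W μ δ X, lam (m - p * (p + b)) * lam (m - q * (q + b))
      ≤ ∑ b ∈ bS W β B, ∑ m ∈ Finset.Icc 1 X, lam (m - p * (p + b)) * lam (m - q * (q + b)) := by
        refine Finset.sum_le_sum fun b _ => ?_
        refine Finset.sum_le_sum_of_subset_of_nonneg ?_ fun m _ _ => h0 b m
        intro m hm
        rw [mS, Finset.mem_filter, Finset.mem_Ioc] at hm
        rw [Finset.mem_Icc]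
        omega
    _ ≤ _ := by
        refine Finset.sum_le_sum_of_subset_of_nonneg (Finset.filter_subset _ _) fun b _ _ => ?_
        exact Finset.sum_nonneg fun m _ => h0 b m

theorem s2_PC_nonneg (W β μ : ℕ) (δ : ℝ) (B X p q : ℕ) : 0 ≤ PC W β μ δ B X p q := by
  unfold PC
  exact Finset.sum_nonneg fun b _ => Finset.sum_nonneg fun m _ =>
    mul_nonneg (lam_nonneg _) (lam_nonneg _)

theorem s2_lam_zero {n : ℕ} (h : ¬ n.Prime) : lam n = 0 := by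
  unfold lam
  rw [if_neg h]

/-- the choice of `w` -/
theorem s2_exists_w (M : ℝ) : ∃ w : ℕ, 1 ≤ w ∧ M ≤ (w : ℝ) ^ (1 / 8 : ℝ) := by
  obtain ⟨w, hw⟩ := exists_nat_gt (max 1 ((|M|) ^ (8 : ℝ)))
  have hw1 : (1 : ℝ) < w := (le_max_left _ _).trans_lt hw
  have hw2 : (|M|) ^ (8 : ℝ) < w := (le_max_right _ _).trans_lt hw
  refine ⟨w, by exact_mod_cast hw1.le, ?_⟩
  have h1 : ((|M|) ^ (8 : ℝ)) ^ (1 / 8 : ℝ) ≤ (w : ℝ) ^ (1 / 8 : ℝ) :=
    Real.rpow_le_rpow (by positivity) hw2.le (by norm_num)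
  rw [← Real.rpow_mul (abs_nonneg M)] at h1
  norm_num at h1
  exact (le_abs_self M).trans h1

/-- `w^{1/8} · w^{1/8} = w^{1/4}`, `(w^{1/16})² = w^{1/8}` -/
theorem s2_rpow {w : ℕ} (hw : 1 ≤ w) : ((w : ℝ) ^ (1 / 16 : ℝ)) ^ 2 = (w : ℝ) ^ (1 / 8 : ℝ) ∧
    (w : ℝ) ^ (1 / 8 : ℝ) * (w : ℝ) ^ (1 / 8 : ℝ) = (w : ℝ) ^ (1 / 4 : ℝ) ∧
    0 < (w : ℝ) ^ (1 / 8 : ℝ) := by
  have hw0 : (0 : ℝ) < w := by exact_mod_cast hw
  refine ⟨?_, ?_, by positivity⟩
  · rw [← Real.rpow_natCast, ← Real.rpow_mul hw0.le]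
    norm_num
  · rw [← Real.rpow_add hw0]
    norm_num

/-- final arithmetic -/
theorem s2_arith {η η₁ g φ N A Tsum Hsum Vsum nearS diagS c cn cv Ω : ℝ} (hη : 0 < η)
    (hη1 : η ≤ 1) (hη₁ : η₁ = η / 100) (hg : 1 ≤ g) (hφ : 1 ≤ φ) (hN : 0 ≤ N)
    (hdiag : diagS ≤ c * N) (hc : c * φ ^ 4 ≤ η / 8)
    (hnear : 2 * nearS ≤ cn * N) (hcn : cn * φ ^ 4 ≤ η / 8)
    (hV : Vsum ≤ cv * N) (hcv : cv * φ ^ 4 ≤ η / 8)
    (hT : A * Tsum ≤ (1 + η₁) ^ 5 * (g ^ 2 * N / φ ^ 4))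
    (hH : A * Hsum ≤ Ω * N) (hΩ : Ω * φ ^ 4 ≤ η / 8 * g ^ 2) :
    diagS + 2 * nearS + (A * Tsum + A * Hsum + Vsum) ≤ (1 + η) * (g ^ 2 * N / φ ^ 4) := by
  have hφ4 : 0 < φ ^ 4 := by positivity
  set Z := g ^ 2 * N / φ ^ 4 with hZ
  have hg2 : 1 ≤ g ^ 2 := one_le_pow₀ hg
  have hNZ : N / φ ^ 4 ≤ Z := by
    rw [hZ]
    apply div_le_div_of_nonneg_right _ hφ4.le
    nlinarith
  have hZ0 : 0 ≤ Z := by rw [hZ]; positivity
  have key : ∀ t : ℝ, t * φ ^ 4 ≤ η / 8 → t * N ≤ η / 8 * Z := by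
    intro t ht
    have h1 : t ≤ η / 8 / φ ^ 4 := by rwa [le_div_iff₀ hφ4]
    calc t * N ≤ (η / 8 / φ ^ 4) * N := mul_le_mul_of_nonneg_right h1 hN
      _ = η / 8 * (N / φ ^ 4) := by ring
      _ ≤ η / 8 * Z := mul_le_mul_of_nonneg_left hNZ (by positivity)
  have key2 : Ω * N ≤ η / 8 * Z := by
    have h1 : Ω ≤ η / 8 * g ^ 2 / φ ^ 4 := by rwa [le_div_iff₀ hφ4]
    calc Ω * N ≤ (η / 8 * g ^ 2 / φ ^ 4) * N := mul_le_mul_of_nonneg_right h1 hN
      _ = η / 8 * Z := by rw [hZ]; ring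
  have h5 : (1 + η₁) ^ 5 ≤ 1 + η / 2 := by
    rw [hη₁]
    have h0 : 0 ≤ η / 100 := by positivity
    have h1 : η / 100 ≤ 1 / 100 := by linarith
    set x := η / 100 with hx
    have hx2 : x ^ 2 ≤ x := by nlinarith
    have hx3 : x ^ 3 ≤ x := by nlinarith [sq_nonneg x]
    have hx4 : x ^ 4 ≤ x := by nlinarith [sq_nonneg x, sq_nonneg (x ^ 2)]
    have hx5 : x ^ 5 ≤ x := by nlinarith [sq_nonneg x, sq_nonneg (x ^ 2)]
    have : (1 + x) ^ 5 = 1 + 5 * x + 10 * x ^ 2 + 10 * x ^ 3 + 5 * x ^ 4 + x ^ 5 := by ring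
    rw [this]
    linarith
  have h6 := mul_le_mul_of_nonneg_right h5 hZ0
  have k1 := key c hc
  have k2 := key cn hcn
  have k3 := key cv hcv
  have e1 : (1 + η / 2) * Z = Z + η * Z / 2 := by ring
  have e2 : (1 + η) * Z = Z + η * Z := by ring
  have e3 : η / 8 * Z = η * Z / 8 := by ring
  have e4 : 0 ≤ η * Z := by positivity
  rw [e1] at h6
  rw [e2]
  rw [e3] at k1 k2 k3 key2
  linarith

/-- Let `W = primorial w`, `g = |TS|`, `N = P² B X`. In the far pairs (`q - p > δ₁P`) only `p mod W, q mod W ∈ TS` count (`PC_eq_zero`, `PC_eq_zero'`), so by `pair_bound`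
(with `η₁`), `sum_lam_TS_le`, `sum_pairs_hw`, `sum_pairs_le` and `V_sum`:
`2 ∑_{far} ≤ (1+η₁)³ (BX/φ(W)²) [((1+η₁) g P/φ(W))² + 2 · 2052 KK P²/w^{1/4}] + 2 (X/H) · 2052 P · η₂ X²`,
`X/H ≤ 2/ρ`, `X² ≤ (2/δ') X P B` (`rng_P_lower`). The diagonal is `≤ c N` (`diag`, `PC p p ≤ ∑_b ∑_m lam²`) and twice the near pairs is
`≤ 2 · 2052² KK² δ₁ N` (`near`). By `card_TS_primorial` `(φ(W)/g)² /w^{1/4} ≤ C² w^{-1/8}`, so choose `w` with `4104 KK C² w^{-1/8} · 16 ≤ η/8`;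
then (after `δ, δ'`) `δ₁`, `ρ = η₁ δ₁ δ'/6`, `R` and `η₂` (`V_sum`), `c`, `K₀` so that the other errors are `≤ (η/8) N/φ(W)⁴ ≤ (η/8) g² N/φ(W)⁴`. -/
theorem second_moment_upper {η : ℝ} (hη : 0 < η) (hη1 : η ≤ 1) : ∃ w : ℕ, 1 ≤ w ∧
    ∀ δ δ' : ℝ, 0 < δ → δ ≤ 1 / 4 → 0 < δ' → 16 * δ' ≤ δ → ∃ K₀ : ℝ, 0 < K₀ ∧ ∀ K : ℝ, K₀ ≤ K →
      ∀ᶠ B : ℕ in atTop, ∀ X : ℕ, Rng K B X → ∀ β μ : ℕ, ¬ 3 ∣ β → μ ≡ β [MOD 2] →
        ∑ b ∈ bS (primorial w) β B, ∑ m ∈ mS (primorial w) μ δ X, RR (PX δ' B X) b m ^ 2 ≤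
          (1 + η) * (((TS (primorial w) β μ).card : ℝ) ^ 2 * (PX δ' B X : ℝ) ^ 2 * B * X /
            ((primorial w).totient : ℝ) ^ 4) := by
  obtain ⟨Cg, hCg, hTS⟩ := card_TS_primorial
  have hKK1 := one_le_KK
  have hKK0 : 0 < KK := KK_pos
  obtain ⟨w, hw1, hwM⟩ := s2_exists_w (64 * 4104 * KK * Cg ^ 2 / η)
  refine ⟨w, hw1, ?_⟩
  intro δ δ' hδ hδ4 hδ' h16
  obtain ⟨hr1, hr2, hr3⟩ := s2_rpow hw1
  set W := primorial w with hWdef
  have hWpos : 0 < W := primorial_pos w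
  set φ : ℝ := (W.totient : ℝ) with hφdef
  have hφ : 1 ≤ φ := by
    rw [hφdef]
    exact_mod_cast Nat.totient_pos.2 hWpos
  have hφ4 : 0 < φ ^ 4 := by positivity
  set η₁ : ℝ := η / 100 with hη₁def
  have hη₁ : 0 < η₁ := by positivity
  have hη₁1 : η₁ ≤ 1 := by rw [hη₁def]; linarith
  have h161 : 16 * δ' ≤ 1 := by linarith
  set δ₁ : ℝ := min 1 (η / (16 * 2052 ^ 2 * KK ^ 2 * φ ^ 4)) with hδ₁def
  have hδ₁ : 0 < δ₁ := by
    rw [hδ₁def]
    exact lt_min one_pos (by positivity)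
  have hδ₁1 : δ₁ ≤ 1 := min_le_left _ _
  set ρ : ℝ := η₁ * δ₁ * δ' / 6 with hρdef
  have hρ : 0 < ρ := by positivity
  have hρ1 : ρ ≤ 1 := by
    have h1 : η₁ * δ₁ ≤ 1 := mul_le_one₀ hη₁1 hδ₁.le hδ₁1
    have h2 : η₁ * δ₁ * δ' ≤ 1 * δ' := mul_le_mul_of_nonneg_right h1 hδ'.le
    rw [hρdef]
    linarith
  set η₂ : ℝ := η * ρ * δ' / (64 * 2052 * φ ^ 4) with hη₂def
  have hη₂ : 0 < η₂ := by positivity
  obtain ⟨R, hR1, hVsum⟩ := V_sum W hWpos hδ' h161 hδ₁ hδ₁1 hρ hρ1 hη₂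
  have hc : 0 < η / 8 / φ ^ 4 := by positivity
  obtain ⟨K₀, hK₀, hdiag⟩ := diag hδ' hc
  refine ⟨K₀, hK₀, ?_⟩
  intro K hK
  have hKpos : 0 < K := hK₀.trans_le hK
  obtain ⟨P₁, hP₁⟩ := sum_pairs_le
  obtain ⟨P₂, hP₂⟩ := sum_pairs_hw
  obtain ⟨P₃, hP₃⟩ := Filter.eventually_atTop.1 (sum_lam_TS_le W hWpos hη₁)
  filter_upwards [hdiag K hK, near hKpos hδ' h161 hδ₁ hδ₁1,
    pair_bound w R hη₁ hη₁1 hδ hδ4 hδ' h16 hδ₁ hδ₁1 hρ (le_of_eq (by rw [hρdef]; ring)) hKpos,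
    hVsum K hKpos, rng_P_large hKpos hδ' (max (max P₁ P₂) (max P₃ W)), rng_P_lower hKpos hδ',
    rng_H hKpos hρ 1, rng_shift hKpos hδ' h161, rng_X_large hKpos (2 * (W + 1) / δ)]
    with B e1 e2 e3 e4 e5 e6 e7 e8 e9 X hX β μ hβ hμ
  replace e1 := e1 X hX
  replace e2 := e2 X hX
  replace e3 := e3 X hX β μ
  replace e4 := e4 X hX
  replace e5 := e5 X hX
  replace e6 := e6 X hX
  replace e7 := e7 X hX
  replace e8 := e8 X hX
  replace e9 := e9 X hX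
  obtain ⟨hg1, hgφ⟩ := hTS w hw1 β μ hβ hμ
  rw [← hWdef] at hg1 hgφ
  set P := PX δ' B X with hPdef
  set g : ℝ := ((TS W β μ).card : ℝ) with hgdef
  have hg : 1 ≤ g := by rw [hgdef]; exact_mod_cast hg1
  have hPP₁ : P₁ ≤ P := ((le_max_left _ _).trans (le_max_left _ _)).trans e5
  have hPP₂ : P₂ ≤ P := ((le_max_right _ _).trans (le_max_left _ _)).trans e5
  have hPP₃ : P₃ ≤ P := ((le_max_left _ _).trans (le_max_right _ _)).trans e5
  have hPW : W ≤ P := ((le_max_right _ _).trans (le_max_right _ _)).trans e5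
  have eT := hP₃ P hPP₃ β μ
  have eH := hP₂ P hPP₂ w hw1
  set S := Finset.Ioc P (2 * P) with hSdef
  set H := HX ρ X with hHdef
  set VS : ℕ → ℝ := fun d => ∑ k ∈ Finset.Icc 1 (X / H),
    VV (k * H) ((k + 1) * H) (W * d) (Nat.gcd (W * d) (W * R.factorial)) with hVSdef
  have hVS0 : ∀ d, 0 < d → 0 ≤ VS d := by
    intro d hd
    rw [hVSdef]
    exact Finset.sum_nonneg fun k _ => VV_nonneg _ _ _ _ (Nat.mul_pos hWpos hd) (Nat.gcd_dvd_left _ _)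
  -- the hypothesis of `PC_eq_zero`
  have hb : ∀ q : ℕ, q ≤ 2 * P → ∀ b : ℕ, b ≤ B → q * (q + b) + W ≤ ⌊δ * X⌋₊ := by
    intro q hq b hbB
    have h1 := e8 q b hq hbB
    apply Nat.le_floor
    push_cast
    push_cast at h1
    have hX0 : (0 : ℝ) ≤ X := Nat.cast_nonneg X
    have h2 : 4 * δ' * X ≤ δ / 4 * X := by
      apply mul_le_mul_of_nonneg_right _ hX0
      linarith
    have h3 : 2 * ((W : ℝ) + 1) ≤ X * δ := by
      rwa [div_le_iff₀ hδ] at e9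
    have h4 : X * δ = δ * X := mul_comm _ _
    have h5 : δ / 4 * X = δ * X / 4 := by ring
    have h6 : 0 ≤ δ * X := by positivity
    linarith
  set A : ℝ := (1 + η₁) ^ 3 * ((B : ℝ) * X / φ ^ 2) with hAdef
  have hA0 : 0 ≤ A := by positivity
  -- far pairs
  have hfar : ∀ p ∈ S, ∀ q ∈ S, p < q → δ₁ * P < (q : ℝ) - p →
      lam p * lam q * PC W β μ δ B X p q ≤
        A * (((if p % W ∈ TS W β μ then lam p else 0) * (if q % W ∈ TS W β μ then lam q else 0))) +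
        A * (lam p * lam q * (hw w (q - p) - 1)) + (X / H : ℕ) * (lam p * lam q * VS (q - p)) := by
    intro p hp q hq hpq hd
    rw [hSdef, Finset.mem_Ioc] at hp hq
    have hlp := lam_nonneg p
    have hlq := lam_nonneg q
    have hh := one_le_hw w (q - p)
    have hvs := hVS0 (q - p) (by omega)
    have hll := mul_nonneg hlp hlq
    have hrest : 0 ≤ A * (lam p * lam q * (hw w (q - p) - 1)) +
        (X / H : ℕ) * (lam p * lam q * VS (q - p)) := by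
      have h1 : 0 ≤ A * (lam p * lam q * (hw w (q - p) - 1)) :=
        mul_nonneg hA0 (mul_nonneg hll (by linarith))
      have h2 : (0 : ℝ) ≤ (X / H : ℕ) * (lam p * lam q * VS (q - p)) :=
        mul_nonneg (Nat.cast_nonneg _) (mul_nonneg hll hvs)
      linarith
    have hTnn : 0 ≤ A * (((if p % W ∈ TS W β μ then lam p else 0) *
        (if q % W ∈ TS W β μ then lam q else 0))) := by
      apply mul_nonneg hA0
      apply mul_nonneg
      · split_ifs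
        · exact hlp
        · exact le_refl _
      · split_ifs
        · exact hlq
        · exact le_refl _
    by_cases hpp : p.Prime
    swap
    · rw [s2_lam_zero hpp]
      simp only [zero_mul, mul_zero, ite_self, add_zero]
      exact le_refl _
    by_cases hqp : q.Prime
    swap
    · rw [s2_lam_zero hqp]
      simp only [zero_mul, mul_zero, ite_self, add_zero]
      exact le_refl _
    by_cases hpT : p % W ∈ TS W β μ
    swap
    · rw [PC_eq_zero W β μ δ B X p q hWpos hpp (by omega) hpq.le (hb q hq.2) hpT, mul_zero]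
      linarith
    by_cases hqT : q % W ∈ TS W β μ
    swap
    · rw [PC_eq_zero' W β μ δ B X p q hWpos hqp (by omega) hpq.le (hb q hq.2) hqT, mul_zero]
      linarith
    rw [if_pos hpT, if_pos hqT]
    have h3 := e3 p q hpq hp.1 hq.2 hd
    have h4 := mul_le_mul_of_nonneg_left h3 hll
    refine h4.trans (le_of_eq ?_)
    simp only [hVSdef, hAdef]
    ring
  -- expansion
  rw [second_expand]
  have hsplit : ∀ p ∈ S, ∑ q ∈ S.filter (fun q => p < q), lam p * lam q * PC W β μ δ B X p q ≤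
      ∑ q ∈ S.filter (fun q => p < q ∧ ((q : ℝ) - p ≤ δ₁ * P)),
        lam p * lam q * ∑ b ∈ Finset.Icc 1 B, ∑ m ∈ Finset.Icc 1 X,
            lam (m - p * (p + b)) * lam (m - q * (q + b)) +
      ∑ q ∈ S.filter (fun q => p < q),
        (A * (((if p % W ∈ TS W β μ then lam p else 0) *
            (if q % W ∈ TS W β μ then lam q else 0))) +
          A * (lam p * lam q * (hw w (q - p) - 1)) +
          (X / H : ℕ) * (lam p * lam q * (if δ₁ * P < ((q - p : ℕ) : ℝ) then VS (q - p) else 0))) := by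
    intro p hp
    rw [← Finset.filter_filter, Finset.sum_filter (s := S.filter fun q => p < q),
      ← Finset.sum_add_distrib]
    refine Finset.sum_le_sum fun q hq => ?_
    rw [Finset.mem_filter] at hq
    have hcast : ((q - p : ℕ) : ℝ) = (q : ℝ) - p := by
      rw [Nat.cast_sub hq.2.le]
    have hlp := lam_nonneg p
    have hlq := lam_nonneg q
    have hll := mul_nonneg hlp hlq
    have hh := one_le_hw w (q - p)
    have hvs := hVS0 (q - p) (by omega)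
    have hTnn : 0 ≤ A * (((if p % W ∈ TS W β μ then lam p else 0) *
        (if q % W ∈ TS W β μ then lam q else 0))) := by
      apply mul_nonneg hA0
      apply mul_nonneg
      · split_ifs
        · exact hlp
        · exact le_refl _
      · split_ifs
        · exact hlq
        · exact le_refl _
    have hHnn : 0 ≤ A * (lam p * lam q * (hw w (q - p) - 1)) :=
      mul_nonneg hA0 (mul_nonneg hll (by linarith))
    by_cases hfn : (q : ℝ) - p ≤ δ₁ * P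
    · rw [if_pos hfn, hcast, if_neg (not_lt.2 hfn), mul_zero, mul_zero, add_zero]
      have h5 := mul_le_mul_of_nonneg_left (s2_PC_le W β μ δ B X p q) hll
      linarith
    · rw [if_neg hfn, hcast, if_pos (not_le.1 hfn), zero_add]
      exact hfar p hp q hq.1 hq.2 (not_le.1 hfn)
  -- the pieces
  set nearS : ℝ := ∑ p ∈ S, ∑ q ∈ S.filter (fun q => p < q ∧ ((q : ℝ) - p ≤ δ₁ * P)),
        lam p * lam q * ∑ b ∈ Finset.Icc 1 B, ∑ m ∈ Finset.Icc 1 X,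
            lam (m - p * (p + b)) * lam (m - q * (q + b)) with hnearS
  set Z1 : ℝ := ∑ p ∈ S, ∑ q ∈ S.filter (fun q => p < q),
    (if p % W ∈ TS W β μ then lam p else 0) * (if q % W ∈ TS W β μ then lam q else 0) with hZ1
  set Z2 : ℝ := ∑ p ∈ S, ∑ q ∈ S.filter (fun q => p < q),
    lam p * lam q * (hw w (q - p) - 1) with hZ2
  set Z3 : ℝ := ∑ p ∈ S, ∑ q ∈ S.filter (fun q => p < q),
    lam p * lam q * (if δ₁ * P < ((q - p : ℕ) : ℝ) then VS (q - p) else 0) with hZ3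
  have hsum : ∑ p ∈ S, ∑ q ∈ S.filter (fun q => p < q),
      lam p * lam q * PC W β μ δ B X p q ≤ nearS + (A * Z1 + A * Z2 + (X / H : ℕ) * Z3) := by
    refine (Finset.sum_le_sum hsplit).trans (le_of_eq ?_)
    rw [hnearS, hZ1, hZ2, hZ3, Finset.mul_sum, Finset.mul_sum, Finset.mul_sum,
      ← Finset.sum_add_distrib, ← Finset.sum_add_distrib, ← Finset.sum_add_distrib]
    refine Finset.sum_congr rfl fun p _ => ?_
    rw [Finset.mul_sum, Finset.mul_sum, Finset.mul_sum, Finset.sum_add_distrib,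
      Finset.sum_add_distrib]
  -- `N`
  set N : ℝ := (P : ℝ) ^ 2 * B * X with hNdef
  have hN0 : 0 ≤ N := by positivity
  have hP0 : (0 : ℝ) ≤ P := Nat.cast_nonneg P
  have hX0 : (0 : ℝ) ≤ X := Nat.cast_nonneg X
  have hB0 : (0 : ℝ) ≤ B := Nat.cast_nonneg B
  -- the class sum
  have hZ1le : 2 * Z1 ≤ ((1 + η₁) * (g * P / φ)) ^ 2 := by
    have hnn : ∀ p : ℕ, 0 ≤ (if p % W ∈ TS W β μ then lam p else 0) := by
      intro p
      split_ifs
      · exact lam_nonneg p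
      · exact le_refl _
    refine (s2_sq S (fun p => if p % W ∈ TS W β μ then lam p else 0) hnn).trans ?_
    rw [← Finset.sum_filter]
    refine pow_le_pow_left₀ (Finset.sum_nonneg fun p _ => lam_nonneg p) ?_ 2
    exact eT
  -- the `hw` sum
  have hZ2le : Z2 ≤ 2052 * KK * (P : ℝ) ^ 2 / (w : ℝ) ^ (1 / 4 : ℝ) := eH
  -- the variance sum
  have hZ3le : Z3 ≤ 2052 * P * (η₂ * (X : ℝ) ^ 2) := by
    refine (hP₁ P hPP₁ (fun d => if δ₁ * P < (d : ℝ) then (if 0 < d then VS d else 0) else 0) ?_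
      |>.trans' ?_).trans ?_
    · intro d
      split_ifs with h1 h2
      · exact hVS0 d h2
      · exact le_refl _
      · exact le_refl _
    · refine le_of_eq (Finset.sum_congr rfl fun p _ => Finset.sum_congr rfl fun q hq => ?_)
      rw [Finset.mem_filter] at hq
      rw [if_pos (show 0 < q - p by omega)]
    · refine mul_le_mul_of_nonneg_left ?_ (by positivity)
      refine le_trans (le_of_eq ?_) e4
      rw [Finset.sum_filter]
      refine Finset.sum_congr rfl fun d hd => ?_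
      rw [Finset.mem_Icc] at hd
      rw [if_pos (show 0 < d by omega)]
      split_ifs with h1
      · rfl
      · rw [mul_zero]
  -- number of cells
  have hcells : ((X / H : ℕ) : ℝ) ≤ 2 / ρ := by
    obtain ⟨h1, h2, h3⟩ := e7
    have hHpos : (0 : ℝ) < H := by exact_mod_cast h3
    calc ((X / H : ℕ) : ℝ) ≤ (X : ℝ) / H := Nat.cast_div_le
      _ ≤ 2 / ρ := by
        rw [div_le_div_iff₀ hHpos hρ]
        linarith
  -- diagonal
  have hD : ∑ p ∈ S, lam p ^ 2 * PC W β μ δ B X p p ≤ η / 8 / φ ^ 4 * N := by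
    refine le_trans (Finset.sum_le_sum fun p _ => ?_) e1
    refine mul_le_mul_of_nonneg_left ?_ (sq_nonneg _)
    refine (s2_PC_le W β μ δ B X p p).trans (le_of_eq ?_)
    refine Finset.sum_congr rfl fun b _ => Finset.sum_congr rfl fun m _ => ?_
    ring
  have hfin := s2_arith (η := η) (η₁ := η₁) (g := g) (φ := φ) (N := N) (A := A)
    (Tsum := 2 * Z1) (Hsum := 2 * Z2) (Vsum := 2 * ((X / H : ℕ) * Z3)) (nearS := nearS)
    (diagS := ∑ p ∈ S, lam p ^ 2 * PC W β μ δ B X p p) (c := η / 8 / φ ^ 4)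
    (cn := 2 * (2052 ^ 2 * KK ^ 2 * δ₁)) (cv := 2 * (2 / ρ * (2052 * η₂ * (2 / δ'))))
    (Ω := (1 + η₁) ^ 3 * (2 * (2052 * KK)) / (φ ^ 2 * (w : ℝ) ^ (1 / 4 : ℝ)))
    hη hη1 hη₁def hg hφ hN0 hD (by rw [div_mul_cancel₀ _ hφ4.ne']) ?_ ?_ ?_ ?_ ?_ ?_ ?_
  · refine le_trans (b := ∑ p ∈ S, lam p ^ 2 * PC W β μ δ B X p p +
      2 * nearS + (A * (2 * Z1) + A * (2 * Z2) + 2 * ((X / H : ℕ) * Z3))) ?_ (hfin.trans (le_of_eq ?_))
    · linarith
    · rw [hNdef]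
      ring
  · -- near
    calc 2 * nearS ≤ 2 * (2052 ^ 2 * KK ^ 2 * δ₁ * ((P : ℝ) ^ 2 * B * X)) := by linarith
      _ = 2 * (2052 ^ 2 * KK ^ 2 * δ₁) * N := by rw [hNdef]; ring
  · have h1 : δ₁ ≤ η / (16 * 2052 ^ 2 * KK ^ 2 * φ ^ 4) := min_le_right _ _
    calc 2 * (2052 ^ 2 * KK ^ 2 * δ₁) * φ ^ 4
        = δ₁ * (2 * 2052 ^ 2 * KK ^ 2 * φ ^ 4) := by ring
      _ ≤ η / (16 * 2052 ^ 2 * KK ^ 2 * φ ^ 4) * (2 * 2052 ^ 2 * KK ^ 2 * φ ^ 4) :=
          mul_le_mul_of_nonneg_right h1 (by positivity)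
      _ = η / 8 := by field_simp; norm_num
  · -- variance
    have hX2 : (X : ℝ) ≤ 2 / δ' * (P * B) := by
      rw [div_mul_eq_mul_div, le_div_iff₀ hδ']
      linarith
    have hZ3nn : 0 ≤ 2052 * (P : ℝ) * (η₂ * (X : ℝ) ^ 2) := by positivity
    calc 2 * (((X / H : ℕ) : ℝ) * Z3) ≤ 2 * (2 / ρ * (2052 * P * (η₂ * (X : ℝ) ^ 2))) := by
          refine mul_le_mul_of_nonneg_left ?_ (by norm_num)
          calc ((X / H : ℕ) : ℝ) * Z3 ≤ ((X / H : ℕ) : ℝ) * (2052 * P * (η₂ * (X : ℝ) ^ 2)) :=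
                mul_le_mul_of_nonneg_left hZ3le (Nat.cast_nonneg _)
            _ ≤ 2 / ρ * (2052 * P * (η₂ * (X : ℝ) ^ 2)) :=
                mul_le_mul_of_nonneg_right hcells hZ3nn
      _ = 2 * (2 / ρ * (2052 * η₂)) * (P * X) * X := by ring
      _ ≤ 2 * (2 / ρ * (2052 * η₂)) * (P * X) * (2 / δ' * (P * B)) := by
          refine mul_le_mul_of_nonneg_left hX2 (by positivity)
      _ = 2 * (2 / ρ * (2052 * η₂ * (2 / δ'))) * N := by rw [hNdef]; ring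
  · rw [hη₂def]
    refine le_of_eq ?_
    field_simp
    norm_num
  · -- class sum
    calc A * (2 * Z1) ≤ A * ((1 + η₁) * (g * P / φ)) ^ 2 := mul_le_mul_of_nonneg_left hZ1le hA0
      _ = (1 + η₁) ^ 5 * (g ^ 2 * N / φ ^ 4) := by
          rw [hAdef, hNdef]
          field_simp
  · -- hw sum
    calc A * (2 * Z2) ≤ A * (2 * (2052 * KK * (P : ℝ) ^ 2 / (w : ℝ) ^ (1 / 4 : ℝ))) := by
          refine mul_le_mul_of_nonneg_left ?_ hA0
          linarith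
      _ = (1 + η₁) ^ 3 * (2 * (2052 * KK)) / (φ ^ 2 * (w : ℝ) ^ (1 / 4 : ℝ)) * N := by
          rw [hAdef, hNdef]
          field_simp
  · -- the constant of the hw sum
    have h8 : 0 < (w : ℝ) ^ (1 / 8 : ℝ) := hr3
    rw [← hr2]
    have hφg : φ ^ 2 ≤ Cg ^ 2 * (w : ℝ) ^ (1 / 8 : ℝ) * g ^ 2 := by
      calc φ ^ 2 ≤ (Cg * (w : ℝ) ^ (1 / 16 : ℝ) * g) ^ 2 := pow_le_pow_left₀ (by linarith) hgφ 2
        _ = Cg ^ 2 * (w : ℝ) ^ (1 / 8 : ℝ) * g ^ 2 := by rw [mul_pow, mul_pow, hr1]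
    have h3 : (1 + η₁) ^ 3 ≤ 8 := by
      calc (1 + η₁) ^ 3 ≤ (2 : ℝ) ^ 3 := pow_le_pow_left₀ (by linarith) (by linarith) 3
        _ = 8 := by norm_num
    have hM : 64 * 4104 * KK * Cg ^ 2 ≤ (w : ℝ) ^ (1 / 8 : ℝ) * η := by
      rwa [div_le_iff₀ hη] at hwM
    calc (1 + η₁) ^ 3 * (2 * (2052 * KK)) /
          (φ ^ 2 * ((w : ℝ) ^ (1 / 8 : ℝ) * (w : ℝ) ^ (1 / 8 : ℝ))) * φ ^ 4
        = (1 + η₁) ^ 3 * (4104 * KK) * φ ^ 2 /
          ((w : ℝ) ^ (1 / 8 : ℝ) * (w : ℝ) ^ (1 / 8 : ℝ)) := by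
          field_simp
          ring
      _ ≤ 8 * (4104 * KK) * (Cg ^ 2 * (w : ℝ) ^ (1 / 8 : ℝ) * g ^ 2) /
          ((w : ℝ) ^ (1 / 8 : ℝ) * (w : ℝ) ^ (1 / 8 : ℝ)) := by
          gcongr
      _ = 8 * (4104 * KK) * Cg ^ 2 * g ^ 2 / (w : ℝ) ^ (1 / 8 : ℝ) := by
          field_simp
      _ ≤ η / 8 * g ^ 2 := by
          rw [div_le_iff₀ h8]
          have hg20 : 0 ≤ g ^ 2 := sq_nonneg g
          have h9 := mul_le_mul_of_nonneg_right hM hg20
          calc 8 * (4104 * KK) * Cg ^ 2 * g ^ 2 = (64 * 4104 * KK * Cg ^ 2 * g ^ 2) / 8 := by ring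
            _ ≤ ((w : ℝ) ^ (1 / 8 : ℝ) * η * g ^ 2) / 8 := by linarith
            _ = η / 8 * g ^ 2 * (w : ℝ) ^ (1 / 8 : ℝ) := by ring

end Pool.Agent.Lib.MP_d9bc60_nt.TH
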