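import Mathlib
import Pool.Agent.Lib.MP_d9bc60_nt.TH.S2bUpper

/-! Row J1a (about 150 lines): Chebyshev inequality in one class -/

set_option autoImplicit false

namespace Pool.Agent.Lib.MP_d9bc60_nt.TH

open Finset Filter

/-- abstract Chebyshev inequality -/
theorem j1a_cheb {ι : Type*} (S : Finset ι) (R : ι → ℝ) {E N η δ : ℝ} (hE : 0 < E) (hN : 0 ≤ N)
    (hη : 0 < η) (hη1 : η ≤ 1)
    (h1 : (1 - η - 2 * δ) * (E * N) ≤ ∑ x ∈ S, R x)
    (h2 : ∑ x ∈ S, R x ^ 2 ≤ (1 + η) * (E ^ 2 * N))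
    (h0 : (S.card : ℝ) ≤ (1 + η) ^ 2 * N) :
    ((S.filter (fun x => R x ≤ (1 / 2) * E)).card : ℝ) ≤ (24 * η + 16 * δ) * N := by
  have hsum : ∑ x ∈ S, (R x - E) ^ 2 = ∑ x ∈ S, R x ^ 2 - 2 * E * ∑ x ∈ S, R x + S.card * E ^ 2 := by
    have : ∀ x ∈ S, (R x - E) ^ 2 = R x ^ 2 - 2 * E * R x + E ^ 2 := fun x _ => by ring
    rw [Finset.sum_congr rfl this, Finset.sum_add_distrib, Finset.sum_sub_distrib, ← Finset.mul_sum]
    simp
  have hup : ∑ x ∈ S, (R x - E) ^ 2 ≤ (6 * η + 4 * δ) * (E ^ 2 * N) := by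
    rw [hsum]
    have a1 : 2 * E * ((1 - η - 2 * δ) * (E * N)) ≤ 2 * E * ∑ x ∈ S, R x :=
      mul_le_mul_of_nonneg_left h1 (by positivity)
    have a2 : (S.card : ℝ) * E ^ 2 ≤ (1 + η) ^ 2 * N * E ^ 2 :=
      mul_le_mul_of_nonneg_right h0 (by positivity)
    have a3 : 0 ≤ E ^ 2 * N := by positivity
    have a4 : η ^ 2 ≤ η := by nlinarith
    have a5 : η ^ 2 * (E ^ 2 * N) ≤ η * (E ^ 2 * N) := mul_le_mul_of_nonneg_right a4 a3
    nlinarith
  have hlow : ((S.filter (fun x => R x ≤ (1 / 2) * E)).card : ℝ) * (E ^ 2 / 4) ≤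
      ∑ x ∈ S, (R x - E) ^ 2 := by
    calc ((S.filter (fun x => R x ≤ (1 / 2) * E)).card : ℝ) * (E ^ 2 / 4)
        = ∑ x ∈ S.filter (fun x => R x ≤ (1 / 2) * E), (E ^ 2 / 4) := by simp
      _ ≤ ∑ x ∈ S.filter (fun x => R x ≤ (1 / 2) * E), (R x - E) ^ 2 := by
          apply Finset.sum_le_sum
          intro x hx
          have hx2 := (Finset.mem_filter.1 hx).2
          nlinarith
      _ ≤ ∑ x ∈ S, (R x - E) ^ 2 :=
          Finset.sum_le_sum_of_subset_of_nonneg (Finset.filter_subset _ _)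
            (fun x _ _ => sq_nonneg _)
  have hE2 : 0 < E ^ 2 / 4 := by positivity
  have h3 : ((S.filter (fun x => R x ≤ (1 / 2) * E)).card : ℝ) * (E ^ 2 / 4) ≤
      ((24 * η + 16 * δ) * N) * (E ^ 2 / 4) := by
    calc _ ≤ (6 * η + 4 * δ) * (E ^ 2 * N) := hlow.trans hup
      _ = _ := by ring
  exact le_of_mul_le_mul_right h3 hE2

/-- Chebyshev. Let `E = g P W/φ(W)²`, `N = BX/W²`, so that the first moment is `≥ (1-η-2δ) E N` and the second one `≤ (1+η) E² N`, and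
`|bS| |mS| ≤ (1+η)² N`. Then `∑ (RR - E)² ≤ ((1+η) - 2(1-η-2δ) + (1+η)²) E² N ≤ (6η + 4δ) E² N`, and each pair with `RR ≤ E/2` contributes `≥ E²/4`. -/
theorem class_count {η : ℝ} (hη : 0 < η) (hη1 : η ≤ 1) : ∃ w : ℕ, 1 ≤ w ∧
    ∀ δ δ' : ℝ, 0 < δ → δ ≤ 1 / 4 → 0 < δ' → 16 * δ' ≤ δ → ∃ K₀ : ℝ, 0 < K₀ ∧ ∀ K : ℝ, K₀ ≤ K →
      ∀ᶠ B : ℕ in atTop, ∀ X : ℕ, Rng K B X → ∀ β μ : ℕ, ¬ 3 ∣ β → μ ≡ β [MOD 2] →
        (((bS (primorial w) β B ×ˢ mS (primorial w) μ δ X).filter (fun x =>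
          RR (PX δ' B X) x.1 x.2 ≤ (1 / 2) * ((TS (primorial w) β μ).card * (PX δ' B X : ℝ) *
            primorial w / ((primorial w).totient : ℝ) ^ 2))).card : ℝ) ≤
          (24 * η + 16 * δ) * ((B : ℝ) * X / (primorial w : ℝ) ^ 2) := by
  obtain ⟨w, hw, hsec⟩ := second_moment_upper hη hη1
  refine ⟨w, hw, ?_⟩
  intro δ δ' hδ hδ2 hδ' h16
  obtain ⟨K₀, hK₀, hsec⟩ := hsec δ δ' hδ hδ2 hδ' h16
  refine ⟨K₀, hK₀, ?_⟩
  intro K hK
  have hKpos : 0 < K := lt_of_lt_of_le hK₀ hK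
  have hW : 0 < primorial w := primorial_pos w
  obtain ⟨C, hC, hTS⟩ := card_TS_primorial
  obtain ⟨M, hM⟩ := Filter.eventually_atTop.1 (card_mS (primorial w) hW hη)
  filter_upwards [hsec K hK, first_moment (primorial w) hW hη hη1 hδ hδ2 hδ' h16 hKpos,
    card_bS (primorial w) hW hη, rng_X_large hKpos (M : ℝ), rng_P_large hKpos hδ' 1]
    with B hB2 hB1 hbS hXl hPl X hR β μ hβ hμ
  have hP : 1 ≤ PX δ' B X := hPl X hR
  have hPr : (0 : ℝ) < PX δ' B X := by exact_mod_cast hP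
  have hXM : M ≤ X := by exact_mod_cast hXl X hR
  have hWr : (0 : ℝ) < (primorial w : ℝ) := by exact_mod_cast hW
  have hφ : (0 : ℝ) < ((primorial w).totient : ℝ) := by
    exact_mod_cast Nat.totient_pos.2 hW
  have hg : (0 : ℝ) < ((TS (primorial w) β μ).card : ℝ) := by
    have h := (hTS w hw β μ hβ hμ).1
    exact_mod_cast h
  have key := j1a_cheb (bS (primorial w) β B ×ˢ mS (primorial w) μ δ X)
    (fun x => RR (PX δ' B X) x.1 x.2)
    (E := (TS (primorial w) β μ).card * (PX δ' B X : ℝ) *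
            primorial w / ((primorial w).totient : ℝ) ^ 2)
    (N := (B : ℝ) * X / (primorial w : ℝ) ^ 2) (η := η) (δ := δ) (by positivity) (by positivity)
    hη hη1 ?_ ?_ ?_
  · exact key
  · rw [Finset.sum_product]
    refine le_trans (le_of_eq ?_) (hB1 X hR β μ)
    field_simp
  · rw [Finset.sum_product]
    refine le_trans (hB2 X hR β μ hβ hμ) (le_of_eq ?_)
    field_simp
  · rw [Finset.card_product]
    push_cast
    have h1 := (hbS β).2
    have h2 := hM X hXM μ δ hδ.le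
    calc ((bS (primorial w) β B).card : ℝ) * ((mS (primorial w) μ δ X).card : ℝ)
        ≤ ((1 + η) * B / primorial w) * ((1 + η) * X / primorial w) := by
          apply mul_le_mul h1 h2 (by positivity) (by positivity)
      _ = (1 + η) ^ 2 * ((B : ℝ) * X / (primorial w : ℝ) ^ 2) := by
          field_simp

end Pool.Agent.Lib.MP_d9bc60_nt.TH
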