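import Mathlib
import Pool.Agent.Lib.MP_d9bc60_nt.TH.S2bUpper
import Pool.Agent.Lib.MP_d9bc60_nt.TH.J1aClass

/-! Row J1b (about 100 lines) -/

set_option autoImplicit false

namespace Pool.Agent.Lib.MP_d9bc60_nt.TH

open Finset Filter

theorem j1b_RR_le (P b m X : ℕ) (hm : m ≤ X) :
    RR P b m ≤ (reps P b m : ℝ) * (Real.log (2 * P) * Real.log X) := by
  unfold RR reps
  rw [← nsmul_eq_mul, ← Finset.sum_const, Finset.sum_filter]
  refine Finset.sum_le_sum fun p hp => ?_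
  rw [Finset.mem_Ioc] at hp
  split_ifs with h
  · unfold lam
    rw [if_pos h.1, if_pos h.2]
    have h1 : Real.log p ≤ Real.log (2 * P) := by
      apply Real.log_le_log (by exact_mod_cast h.1.pos)
      exact_mod_cast hp.2
    have h2 : Real.log ((m - p * (p + b) : ℕ) : ℝ) ≤ Real.log X := by
      apply Real.log_le_log (by exact_mod_cast h.2.pos)
      exact_mod_cast (Nat.sub_le _ _).trans hm
    have h3 : 0 ≤ Real.log ((m - p * (p + b) : ℕ) : ℝ) :=
      Real.log_nonneg (by exact_mod_cast h.2.one_lt.le)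
    have h4 : 0 ≤ Real.log (p : ℝ) := Real.log_nonneg (by exact_mod_cast h.1.one_lt.le)
    exact mul_le_mul h1 h2 h3 (h4.trans h1)
  · by_cases hp1 : p.Prime
    · have h2 : ¬ (m - p * (p + b)).Prime := fun h2 => h ⟨hp1, h2⟩
      unfold lam
      rw [if_neg h2, mul_zero]
    · unfold lam
      rw [if_neg hp1, zero_mul]

/-- If `reps P b m < A` then `RR ≤ log(2P) log X · A`, which is `≤ E/2` when `P ≥ 2 A φ(W)² log(2P) log X` (`log_mul_log_le` with
`c = 1/(2 (|A|+1) φ(W)²)`, `g ≥ 1`, `W ≥ 1`). -/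
theorem reps_large {δ' : ℝ} (hδ' : 0 < δ') (h16 : 16 * δ' ≤ 1) (w : ℕ) (hw1 : 1 ≤ w) (A : ℝ) :
    ∃ K₀ : ℝ, 0 < K₀ ∧ ∀ K : ℝ, K₀ ≤ K → ∀ᶠ B : ℕ in atTop, ∀ X : ℕ, Rng K B X →
      ∀ β μ b m : ℕ, ¬ 3 ∣ β → μ ≡ β [MOD 2] → m ≤ X → (reps (PX δ' B X) b m : ℝ) < A →
        RR (PX δ' B X) b m ≤ (1 / 2) * ((TS (primorial w) β μ).card * (PX δ' B X : ℝ) *
            primorial w / ((primorial w).totient : ℝ) ^ 2) := by
  obtain ⟨C, hC, hTS⟩ := card_TS_primorial
  have hW1 : 1 ≤ primorial w := primorial_pos w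
  have hφ : (0 : ℝ) < (primorial w).totient := by
    exact_mod_cast Nat.totient_pos.2 hW1
  obtain ⟨K₀, hK₀, h⟩ := log_mul_log_le
    (c := 1 / (2 * (|A| + 1) * ((primorial w).totient : ℝ) ^ 2)) hδ' (by positivity)
  refine ⟨K₀, hK₀, fun K hK => ?_⟩
  filter_upwards [h K hK] with B hB
  intro X hX β μ b m hβ hμ hm hA
  have h1 := hB X hX
  set P := PX δ' B X with hP
  have hr0 : (0 : ℝ) ≤ reps P b m := Nat.cast_nonneg _
  have hA0 : 0 < A := lt_of_le_of_lt hr0 hA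
  have hg : (1 : ℝ) ≤ (TS (primorial w) β μ).card := by
    exact_mod_cast (hTS w hw1 β μ hβ hμ).1
  have hW : (1 : ℝ) ≤ primorial w := by exact_mod_cast hW1
  have hc0 : (0 : ℝ) ≤ 1 / (2 * (|A| + 1) * ((primorial w).totient : ℝ) ^ 2) * P := by positivity
  calc RR P b m ≤ (reps P b m : ℝ) * (Real.log (2 * P) * Real.log X) := j1b_RR_le P b m X hm
    _ ≤ (reps P b m : ℝ) * (1 / (2 * (|A| + 1) * ((primorial w).totient : ℝ) ^ 2) * P) :=
        mul_le_mul_of_nonneg_left h1 hr0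
    _ ≤ (|A| + 1) * (1 / (2 * (|A| + 1) * ((primorial w).totient : ℝ) ^ 2) * P) := by
        apply mul_le_mul_of_nonneg_right _ hc0
        have := le_abs_self A
        linarith
    _ = (1 / 2) * (1 * P * 1 / ((primorial w).totient : ℝ) ^ 2) := by
        have : (|A| + 1) ≠ 0 := by positivity
        field_simp
    _ ≤ (1 / 2) * ((TS (primorial w) β μ).card * (P : ℝ) *
            primorial w / ((primorial w).totient : ℝ) ^ 2) := by
        gcongr

end Pool.Agent.Lib.MP_d9bc60_nt.TH
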