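import Mathlib
import Pool.Agent.Lib.MP_d9bc60_nt.TH.S2bUpper
import Pool.Agent.Lib.MP_d9bc60_nt.TH.J1bReps

/-! Row J1c (about 170 lines): the exceptional pairs `(b, m)` -/

set_option autoImplicit false

namespace Pool.Agent.Lib.MP_d9bc60_nt.TH

open Finset Filter
/-- `η = min (ε/100) 1`, `δ = min (ε/100) (1/4)`, `δ' = δ/16`, `w` from `class_count`, `W = primorial w`. The pairs with `m ≤ δX` are at most `δ B X` many.
The other bad pairs (`3 ∤ b`, `m ≡ b mod 2`, `reps < A`, `m > ⌊δX⌋`) are grouped by `(b % W, m % W) ∈ range W × range W`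
(`Finset.card_eq_sum_card_fiberwise`): a nonempty group, containing `(b₀, m₀)` say, is contained in
`(bS W b₀ B ×ˢ mS W m₀ δ X).filter (RR ≤ E/2)` with `β = b₀`, `μ = m₀` (`reps_large` for `β = b₀, μ = m₀`), so it has at most
`(24η+16δ) BX/W²` elements by `class_count` (note `¬ 3 ∣ b₀`, `m₀ ≡ b₀ [MOD 2]`). Total `≤ (24η + 17δ) BX ≤ ε BX`. -/
theorem pairs_count (ε A : ℝ) (hε : 0 < ε) : ∃ δ' : ℝ, 0 < δ' ∧ 16 * δ' ≤ 1 ∧ ∃ K₀ : ℝ, 0 < K₀ ∧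
    ∀ K : ℝ, K₀ ≤ K → ∀ᶠ B : ℕ in atTop, ∀ X : ℕ, Rng K B X →
      (((Finset.Icc 1 B ×ˢ Finset.Icc 1 X).filter (fun x => ¬ 3 ∣ x.1 ∧ x.2 ≡ x.1 [MOD 2] ∧
        (reps (PX δ' B X) x.1 x.2 : ℝ) < A)).card : ℝ) ≤ ε * ((B : ℝ) * X) := by
  classical
  obtain ⟨η, hη, hη1, hηε⟩ : ∃ η : ℝ, 0 < η ∧ η ≤ 1 ∧ η ≤ ε / 100 :=
    ⟨min (ε / 100) 1, lt_min (by positivity) one_pos, min_le_right _ _, min_le_left _ _⟩
  obtain ⟨δ, hδ, hδ1, hδε⟩ : ∃ δ : ℝ, 0 < δ ∧ δ ≤ 1 / 4 ∧ δ ≤ ε / 100 :=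
    ⟨min (ε / 100) (1 / 4), lt_min (by positivity) (by norm_num), min_le_right _ _,
      min_le_left _ _⟩
  obtain ⟨w, hw1, hcc⟩ := class_count hη hη1
  obtain ⟨K₁, hK₁, h1⟩ := hcc δ (δ / 16) hδ hδ1 (by positivity) (by linarith)
  obtain ⟨K₂, hK₂, h2⟩ := reps_large (δ' := δ / 16) (by positivity) (by linarith) w hw1 A
  refine ⟨δ / 16, by positivity, by linarith, max K₁ K₂, lt_max_of_lt_left hK₁, ?_⟩
  intro K hK
  filter_upwards [h1 K ((le_max_left _ _).trans hK), h2 K ((le_max_right _ _).trans hK)] with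
    B hB1 hB2
  intro X hX
  obtain ⟨W, hW⟩ : ∃ W : ℕ, W = primorial w := ⟨_, rfl⟩
  have hWpos : 0 < W := by rw [hW]; exact primorial_pos w
  have hBX : (0 : ℝ) ≤ (B : ℝ) * X := by positivity
  obtain ⟨S, hS⟩ : ∃ S : Finset (ℕ × ℕ), S = (Finset.Icc 1 B ×ˢ Finset.Icc 1 X).filter
      (fun x => ¬ 3 ∣ x.1 ∧ x.2 ≡ x.1 [MOD 2] ∧ (reps (PX (δ / 16) B X) x.1 x.2 : ℝ) < A) :=
    ⟨_, rfl⟩
  rw [← hS]
  have hSmem : ∀ x ∈ S, (1 ≤ x.1 ∧ x.1 ≤ B) ∧ (1 ≤ x.2 ∧ x.2 ≤ X) ∧ ¬ 3 ∣ x.1 ∧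
      x.2 ≡ x.1 [MOD 2] ∧ (reps (PX (δ / 16) B X) x.1 x.2 : ℝ) < A := by
    intro x hx
    rw [hS, mem_filter, mem_product, mem_Icc, mem_Icc] at hx
    exact ⟨hx.1.1, hx.1.2, hx.2⟩
  obtain ⟨S2, hS2⟩ : ∃ S2 : Finset (ℕ × ℕ), S2 = S.filter (fun x => ⌊δ * X⌋₊ < x.2) := ⟨_, rfl⟩
  have hsub : S ⊆ (Finset.Icc 1 B ×ˢ Finset.Icc 1 ⌊δ * X⌋₊) ∪ S2 := by
    intro x hx
    obtain ⟨a1, a2, a3⟩ := hSmem x hx
    rw [mem_union]
    rcases Nat.lt_or_ge ⌊δ * X⌋₊ x.2 with h | h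
    · right
      rw [hS2, mem_filter]
      exact ⟨hx, h⟩
    · left
      rw [mem_product, mem_Icc, mem_Icc]
      exact ⟨a1, a2.1, h⟩
  have hc1 : (S.card : ℝ) ≤ (B : ℝ) * ⌊δ * X⌋₊ + S2.card := by
    have e1 := (Finset.card_le_card hsub).trans (Finset.card_union_le _ _)
    rw [card_product, Nat.card_Icc, Nat.card_Icc, Nat.add_sub_cancel, Nat.add_sub_cancel] at e1
    exact_mod_cast e1
  have hfl : (⌊δ * X⌋₊ : ℝ) ≤ δ * X := Nat.floor_le (by positivity)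
  -- the classes
  have hmaps : ∀ x ∈ S2, ((x.1 % W, x.2 % W) : ℕ × ℕ) ∈ Finset.range W ×ˢ Finset.range W := by
    intro x _
    rw [mem_product, mem_range, mem_range]
    exact ⟨Nat.mod_lt _ hWpos, Nat.mod_lt _ hWpos⟩
  have hfib : ∀ c ∈ Finset.range W ×ˢ Finset.range W,
      ((S2.filter (fun x => ((x.1 % W, x.2 % W) : ℕ × ℕ) = c)).card : ℝ) ≤
        (24 * η + 16 * δ) * ((B : ℝ) * X / (W : ℝ) ^ 2) := by
    intro c _
    rcases (S2.filter (fun x => ((x.1 % W, x.2 % W) : ℕ × ℕ) = c)).eq_empty_or_nonempty with h | h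
    · rw [h, card_empty, Nat.cast_zero]
      positivity
    · obtain ⟨x0, hx0⟩ := h
      rw [mem_filter, hS2, mem_filter] at hx0
      obtain ⟨⟨hx0S, hx0m⟩, hx0c⟩ := hx0
      obtain ⟨-, -, b3, b4, -⟩ := hSmem x0 hx0S
      have e1 := hB1 X hX x0.1 x0.2 b3 b4
      rw [← hW] at e1
      refine le_trans ?_ e1
      have e2 : S2.filter (fun x => ((x.1 % W, x.2 % W) : ℕ × ℕ) = c) ⊆
          (bS W x0.1 B ×ˢ mS W x0.2 δ X).filter (fun x =>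
          RR (PX (δ / 16) B X) x.1 x.2 ≤ (1 / 2) * ((TS W x0.1 x0.2).card *
            (PX (δ / 16) B X : ℝ) * W / ((W.totient : ℝ)) ^ 2)) := by
        intro x hx
        rw [mem_filter, hS2, mem_filter] at hx
        obtain ⟨⟨hxS, hxm⟩, hxc⟩ := hx
        obtain ⟨a1, a2, a3, a4, a5⟩ := hSmem x hxS
        have hcc' : (x.1 % W, x.2 % W) = (x0.1 % W, x0.2 % W) := hxc.trans hx0c.symm
        rw [Prod.mk.injEq] at hcc'
        rw [mem_filter, mem_product]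
        refine ⟨⟨?_, ?_⟩, ?_⟩
        · rw [bS, mem_filter, mem_Icc]
          exact ⟨a1, hcc'.1⟩
        · rw [mS, mem_filter, mem_Ioc]
          exact ⟨⟨hxm, a2.2⟩, hcc'.2⟩
        · have e3 := hB2 X hX x0.1 x0.2 x.1 x.2 b3 b4 a2.2 a5
          rw [← hW] at e3
          exact e3
      exact_mod_cast Finset.card_le_card e2
  have hc2 : (S2.card : ℝ) ≤ (24 * η + 16 * δ) * ((B : ℝ) * X) := by
    have e1 := Finset.card_eq_sum_card_fiberwise (f := fun x : ℕ × ℕ => ((x.1 % W, x.2 % W) : ℕ × ℕ))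
      (s := S2) (t := Finset.range W ×ˢ Finset.range W) (fun x hx => hmaps x hx)
    have e2 : (S2.card : ℝ) = ∑ c ∈ Finset.range W ×ˢ Finset.range W,
        ((S2.filter (fun x => ((x.1 % W, x.2 % W) : ℕ × ℕ) = c)).card : ℝ) := by
      exact_mod_cast e1
    rw [e2]
    refine (Finset.sum_le_sum hfib).trans ?_
    rw [Finset.sum_const, card_product, card_range, nsmul_eq_mul]
    have hWr : (W : ℝ) ≠ 0 := by positivity
    have : ((W * W : ℕ) : ℝ) * ((24 * η + 16 * δ) * ((B : ℝ) * X / (W : ℝ) ^ 2)) =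
        (24 * η + 16 * δ) * ((B : ℝ) * X) := by
      push_cast
      field_simp
    rw [this]
  have hc3 : (B : ℝ) * ⌊δ * X⌋₊ ≤ δ * ((B : ℝ) * X) := by
    have : (B : ℝ) * ⌊δ * X⌋₊ ≤ B * (δ * X) := mul_le_mul_of_nonneg_left hfl (Nat.cast_nonneg _)
    linarith
  have hfin : (24 * η + 17 * δ) * ((B : ℝ) * X) ≤ ε * ((B : ℝ) * X) :=
    mul_le_mul_of_nonneg_right (by linarith) hBX
  linarith

end Pool.Agent.Lib.MP_d9bc60_nt.TH
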