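import Mathlib
import Pool.Agent.Lib.MP_d9bc60_nt.TH.J1cPairs
import Pool.Agent.Lib.MP_d9bc60_nt.Base

/-! Row J2 (about 200 lines): the final statement. -/

set_option autoImplicit false

namespace Pool.Agent.Lib.MP_d9bc60_nt.TH

open Finset Filter

/-- elementary size facts -/
lemma j2_log {x : ℝ} (hx : 16 ≤ x) : 1 ≤ Real.log x ∧ 1 ≤ Real.log (Real.log x) := by
  have h1 : Real.exp 1 ≤ Real.log x := by
    have e1 : Real.exp 1 < 2.7182818286 := Real.exp_one_lt_d9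
    have e2 : (0.6931471803 : ℝ) < Real.log 2 := Real.log_two_gt_d9
    have e3 : Real.log 16 = 4 * Real.log 2 := by
      rw [show (16 : ℝ) = 2 ^ 4 by norm_num, Real.log_pow]
      norm_num
    have e4 : Real.log 16 ≤ Real.log x := Real.log_le_log (by norm_num) hx
    linarith
  have h2 : (1 : ℝ) ≤ Real.exp 1 := by
    have := Real.add_one_le_exp (1 : ℝ)
    linarith
  refine ⟨h2.trans h1, ?_⟩
  rw [Real.le_log_iff_exp_le (lt_of_lt_of_le (Real.exp_pos 1) h1)]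
  exact h1

/-- the range of the integer parts -/
lemma j2_rng {K₀ B X : ℝ} (hK₀ : 0 < K₀) (hB : 17 ≤ B) (hB2 : 1 / K₀ ≤ B)
    (h1 : 2 * K₀ * B * Real.log B * Real.log (Real.log B) ≤ X) (h2 : X ≤ B ^ 2) :
    2 ≤ X ∧ Rng K₀ ⌊B⌋₊ ⌊X⌋₊ := by
  have hB0 : 0 < B := by linarith
  obtain ⟨l1, l2⟩ := j2_log (by linarith : 16 ≤ B)
  have hX2 : 2 ≤ X := by
    have e1 : 1 ≤ K₀ * B := by
      rw [div_le_iff₀ hK₀] at hB2
      linarith
    have e2 : 2 * K₀ * B * 1 * 1 ≤ 2 * K₀ * B * Real.log B * Real.log (Real.log B) := by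
      have h0 : 0 ≤ 2 * K₀ * B := by positivity
      have := mul_le_mul_of_nonneg_left l1 h0
      exact mul_le_mul this l2 zero_le_one (by positivity)
    nlinarith
  refine ⟨hX2, ?_⟩
  have hf1 : B - 1 < (⌊B⌋₊ : ℝ) := Nat.sub_one_lt_floor B
  have hf2 : (⌊B⌋₊ : ℝ) ≤ B := Nat.floor_le hB0.le
  have hg1 : X - 1 < (⌊X⌋₊ : ℝ) := Nat.sub_one_lt_floor X
  have hg2 : (⌊X⌋₊ : ℝ) ≤ X := Nat.floor_le (by linarith)
  have hb16 : 16 ≤ (⌊B⌋₊ : ℝ) := by linarith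
  obtain ⟨m1, m2⟩ := j2_log hb16
  constructor
  · have e1 : Real.log (⌊B⌋₊ : ℝ) ≤ Real.log B := Real.log_le_log (by linarith) hf2
    have e2 : Real.log (Real.log (⌊B⌋₊ : ℝ)) ≤ Real.log (Real.log B) :=
      Real.log_le_log (by linarith) e1
    have e3 : K₀ * (⌊B⌋₊ : ℝ) * Real.log (⌊B⌋₊ : ℝ) * Real.log (Real.log (⌊B⌋₊ : ℝ)) ≤
        K₀ * B * Real.log B * Real.log (Real.log B) := by
      have a1 : K₀ * (⌊B⌋₊ : ℝ) ≤ K₀ * B := mul_le_mul_of_nonneg_left hf2 hK₀.le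
      have a2 : K₀ * (⌊B⌋₊ : ℝ) * Real.log (⌊B⌋₊ : ℝ) ≤ K₀ * B * Real.log B :=
        mul_le_mul a1 e1 (by linarith) (by positivity)
      exact mul_le_mul a2 e2 (by linarith) (by positivity)
    linarith
  · have e1 : X ≤ ((⌊B⌋₊ : ℝ) + 1) ^ 2 := by
      refine h2.trans ?_
      exact pow_le_pow_left₀ hB0.le (by linarith) 2
    nlinarith

/-- finiteness of the set of representations -/
lemma j2_finite {b c n : ℤ} (hb : 1 ≤ b) :
    {x : ℕ × ℕ | x.1.Prime ∧ x.2.Prime ∧ n = f b c x.1 + x.2}.Finite := by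
  refine Set.Finite.subset (Finset.finite_toSet
    (Finset.range ((n - c).toNat + 1) ×ˢ Finset.range ((n - c).toNat + 1))) ?_
  rintro ⟨p, q⟩ ⟨-, -, h⟩
  simp only [Finset.coe_product, Finset.coe_range, Set.mem_prod, Set.mem_Iio]
  have h' : n - c = (p : ℤ) ^ 2 + b * p + q := by
    rw [h, f]
    ring
  have hp0 : (0 : ℤ) ≤ p := Int.natCast_nonneg p
  have hq0 : (0 : ℤ) ≤ q := Int.natCast_nonneg q
  have h1 : (p : ℤ) ≤ n - c := by
    rw [h']
    nlinarith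
  have h2 : (q : ℤ) ≤ n - c := by
    rw [h']
    nlinarith
  constructor <;> omega

/-- `reps` is at most the number of representations -/
lemma j2_reps (P b m : ℕ) (c n : ℤ) (hb : 1 ≤ b) (hm : (m : ℤ) = n - c) :
    reps P b m ≤ Set.ncard {x : ℕ × ℕ | x.1.Prime ∧ x.2.Prime ∧ n = f (b : ℤ) c x.1 + x.2} := by
  unfold reps
  rw [← Set.ncard_coe_finset]
  refine Set.ncard_le_ncard_of_injOn (fun p : ℕ => (p, m - p * (p + b))) ?_ ?_
    (j2_finite (by exact_mod_cast hb))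
  · intro p hp
    rw [Finset.mem_coe, Finset.mem_filter] at hp
    obtain ⟨-, hp1, hp2⟩ := hp
    refine ⟨hp1, hp2, ?_⟩
    have hpos : 0 < m - p * (p + b) := hp2.pos
    have hle : p * (p + b) ≤ m := by omega
    have hcast : ((m - p * (p + b) : ℕ) : ℤ) = (m : ℤ) - p * (p + b) := by
      rw [Nat.cast_sub hle]
      push_cast
      ring
    change n = f (b : ℤ) c (p : ℤ) + ((m - p * (p + b) : ℕ) : ℤ)
    rw [hcast, hm, f]
    ring
  · intro p _ q _ h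
    exact (Prod.ext_iff.1 h).1

/-- `pairs_count` with `ε²/8` in place of `ε`, `B₁ = ⌊B⌋₊`, `X₁ = ⌊X⌋₊` (`Rng (K/2) B₁ X₁`: `X ≤ B² ≤ 4 B₁²`, and `K B log B loglog B ≤ X ≤ X₁ + 1`).
For `b` in the set choose `c` and map `n ↦ m = n - c`: the `n` counted give `m ∈ [1, X₁]`, `m ≡ b mod 2` (as `n` and `b + c` are odd), and
`reps (PX δ' B₁ X₁) b m ≤ #{(p₁,p₂)} < A` (injection `p ↦ (p, m - p(p+b))`; the set of pairs is finite as `p₁, p₂ ≤ n - c`, `b ≥ 1`).
So more than `ε X` bad `m` for each such `b`, the number of such `b` is `≤ (ε²/8) B₁ X₁/(ε X) ≤ ε B`. -/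
theorem almost_all_threshold (ε A : ℝ) (hε : 0 < ε) : ∃ K B₀ : ℝ, 0 < K ∧ ∀ B X : ℝ, B₀ ≤ B →
    K * B * Real.log B * Real.log (Real.log B) ≤ X → X ≤ B ^ 2 →
    (Set.ncard {b : ℤ | 1 ≤ b ∧ (b : ℝ) ≤ B ∧ ¬ (3 : ℤ) ∣ b ∧ ∃ c : ℤ, Odd (b + c) ∧
      ε * X < Set.ncard {n : ℤ | Odd n ∧ c < n ∧ (n : ℝ) ≤ c + X ∧
        (Set.ncard {x : ℕ × ℕ | x.1.Prime ∧ x.2.Prime ∧ n = f b c x.1 + x.2} : ℝ) < A}} : ℝ) ≤
      ε * B := by
  classical
  obtain ⟨δ', hδ', h16, K₀, hK₀, hpc⟩ := pairs_count (ε ^ 2 / 8) A (by positivity)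
  obtain ⟨N₀, hN₀⟩ := eventually_atTop.1 (hpc K₀ le_rfl)
  refine ⟨2 * K₀, max (max 17 (1 / K₀)) (N₀ + 1), by positivity, ?_⟩
  intro B X hB h1 h2
  have hB17 : 17 ≤ B := (le_max_left _ _).trans ((le_max_left _ _).trans hB)
  have hBK : 1 / K₀ ≤ B := (le_max_right _ _).trans ((le_max_left _ _).trans hB)
  have hBN : (N₀ : ℝ) + 1 ≤ B := (le_max_right _ _).trans hB
  obtain ⟨hX2, hR⟩ := j2_rng hK₀ hB17 hBK h1 h2
  have hB0 : 0 < B := by linarith
  have hX0 : 0 < X := by linarith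
  set B₁ := ⌊B⌋₊ with hB₁
  set X₁ := ⌊X⌋₊ with hX₁
  have hf2 : (B₁ : ℝ) ≤ B := Nat.floor_le hB0.le
  have hg2 : (X₁ : ℝ) ≤ X := Nat.floor_le hX0.le
  have hN : N₀ ≤ B₁ := by
    rw [hB₁]
    refine Nat.le_floor ?_
    linarith
  have hcount := hN₀ B₁ hN X₁ hR
  set F := (Finset.Icc 1 B₁ ×ˢ Finset.Icc 1 X₁).filter (fun x => ¬ 3 ∣ x.1 ∧ x.2 ≡ x.1 [MOD 2] ∧
        (reps (PX δ' B₁ X₁) x.1 x.2 : ℝ) < A) with hF
  set S : Set ℤ := {b : ℤ | 1 ≤ b ∧ (b : ℝ) ≤ B ∧ ¬ (3 : ℤ) ∣ b ∧ ∃ c : ℤ, Odd (b + c) ∧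
      ε * X < Set.ncard {n : ℤ | Odd n ∧ c < n ∧ (n : ℝ) ≤ c + X ∧
        (Set.ncard {x : ℕ × ℕ | x.1.Prime ∧ x.2.Prime ∧ n = f b c x.1 + x.2} : ℝ) < A}} with hS
  set T : Finset ℕ := (Finset.Icc 1 B₁).filter (fun b : ℕ => (b : ℤ) ∈ S) with hT
  -- the cardinality of S
  have hST : S.ncard ≤ T.card := by
    have hsub : S ⊆ ((T.image (fun b : ℕ => (b : ℤ)) : Finset ℤ) : Set ℤ) := by
      intro b hb
      rw [Finset.coe_image]
      have hb1 : 1 ≤ b := hb.1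
      have hb2 : (b : ℝ) ≤ B := hb.2.1
      have hcast : ((b.toNat : ℕ) : ℤ) = b := Int.toNat_of_nonneg (by omega)
      refine ⟨b.toNat, ?_, hcast⟩
      rw [Finset.mem_coe, hT, Finset.mem_filter, Finset.mem_Icc]
      refine ⟨⟨by omega, ?_⟩, by rw [hcast]; exact hb⟩
      rw [hB₁]
      refine Nat.le_floor ?_
      have : ((b.toNat : ℕ) : ℝ) = (b : ℝ) := by
        rw [← Int.cast_natCast, hcast]
      rw [this]
      exact hb2
    calc S.ncard ≤ ((T.image (fun b : ℕ => (b : ℤ)) : Finset ℤ) : Set ℤ).ncard :=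
          Set.ncard_le_ncard hsub (Finset.finite_toSet _)
      _ = (T.image (fun b : ℕ => (b : ℤ))).card := Set.ncard_coe_finset _
      _ ≤ T.card := Finset.card_image_le
  -- each fibre is large
  have hfib : ∀ b ∈ T, ε * X ≤ ((F.filter (fun x => x.1 = b)).card : ℝ) := by
    intro b hb
    rw [hT, Finset.mem_filter, Finset.mem_Icc] at hb
    obtain ⟨⟨hb1, hb2⟩, hbS⟩ := hb
    obtain ⟨-, -, hb3, c, hbc, hlarge⟩ := hbS
    refine hlarge.le.trans ?_
    rw [← Set.ncard_coe_finset (F.filter (fun x => x.1 = b))]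
    have : Set.ncard {n : ℤ | Odd n ∧ c < n ∧ (n : ℝ) ≤ c + X ∧
        (Set.ncard {x : ℕ × ℕ | x.1.Prime ∧ x.2.Prime ∧ n = f b c x.1 + x.2} : ℝ) < A} ≤
        Set.ncard ((F.filter (fun x => x.1 = b) : Finset (ℕ × ℕ)) : Set (ℕ × ℕ)) := by
      refine Set.ncard_le_ncard_of_injOn (fun n : ℤ => (b, (n - c).toNat)) ?_ ?_
        (Finset.finite_toSet _)
      · rintro n ⟨hn1, hn2, hn3, hn4⟩
        have hm : (((n - c).toNat : ℕ) : ℤ) = n - c := Int.toNat_of_nonneg (by omega)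
        rw [Finset.mem_coe, Finset.mem_filter]
        refine ⟨?_, rfl⟩
        rw [hF, Finset.mem_filter, Finset.mem_product, Finset.mem_Icc, Finset.mem_Icc]
        refine ⟨⟨⟨hb1, hb2⟩, ⟨by change 1 ≤ (n - c).toNat; omega, ?_⟩⟩, ?_, ?_, ?_⟩
        · change (n - c).toNat ≤ X₁
          rw [hX₁]
          refine Nat.le_floor ?_
          have : (((n - c).toNat : ℕ) : ℝ) = (n : ℝ) - c := by
            rw [← Int.cast_natCast, hm, Int.cast_sub]
          rw [this]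
          linarith
        · intro h3
          apply hb3
          exact_mod_cast h3
        · change (n - c).toNat ≡ b [MOD 2]
          have : (((n - c).toNat : ℕ) : ℤ) ≡ (b : ℤ) [ZMOD 2] := by
            rw [hm]
            obtain ⟨u, hu⟩ := hn1
            obtain ⟨v, hv⟩ := hbc
            rw [Int.modEq_iff_dvd]
            refine ⟨v - u + (c - v) + (v - c) + (v - c) + (c - v), ?_⟩
            omega
          exact (Int.natCast_modEq_iff).1 this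
        · change (reps (PX δ' B₁ X₁) b (n - c).toNat : ℝ) < A
          refine lt_of_le_of_lt ?_ hn4
          exact_mod_cast j2_reps (PX δ' B₁ X₁) b (n - c).toNat c n hb1 hm
      · rintro n ⟨-, hn2, -, -⟩ n' ⟨-, hn2', -, -⟩ h
        have := (Prod.ext_iff.1 h).2
        change (n - c).toNat = (n' - c).toNat at this
        omega
    exact_mod_cast this
  have hsum : (T.card : ℝ) * (ε * X) ≤ (F.card : ℝ) := by
    calc (T.card : ℝ) * (ε * X) = ∑ _b ∈ T, ε * X := by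
          rw [Finset.sum_const, nsmul_eq_mul]
      _ ≤ ∑ b ∈ T, ((F.filter (fun x => x.1 = b)).card : ℝ) := Finset.sum_le_sum hfib
      _ = ((F.filter (fun x => x.1 ∈ T)).card : ℝ) := by
          rw [← Finset.sum_card_fiberwise_eq_card_filter F T (fun x => x.1)]
          push_cast
          rfl
      _ ≤ (F.card : ℝ) := by
          exact_mod_cast Finset.card_filter_le _ _
  have hfin : (T.card : ℝ) * (ε * X) ≤ ε ^ 2 / 8 * (B * X) := by
    refine hsum.trans (hcount.trans ?_)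
    refine mul_le_mul_of_nonneg_left ?_ (by positivity)
    exact mul_le_mul hf2 hg2 (Nat.cast_nonneg _) hB0.le
  have hT2 : (T.card : ℝ) ≤ ε * B := by
    have hpos : 0 < ε * X := by positivity
    have : (T.card : ℝ) * (ε * X) ≤ (ε * B) * (ε * X) := by
      refine hfin.trans ?_
      have : 0 ≤ ε ^ 2 * (B * X) := by positivity
      nlinarith
    exact le_of_mul_le_mul_right this hpos
  have : (S.ncard : ℝ) ≤ (T.card : ℝ) := by exact_mod_cast hST
  exact this.trans hT2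

end Pool.Agent.Lib.MP_d9bc60_nt.TH
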